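import Pool.Agent.H.MP_353193_lc.BV.Defs
import Pool.Agent.H.MP_8ff4bd_gt.M3.NO

/-!
# Cohen conditions with values in `{-1, 1}`
-/

set_option autoImplicit false

open Cardinal M3

namespace Pool.Agent.H.MP_353193_lc.BV

/-- Finite partial functions from `K` to `{-1, 1}` (value 0: undefined). -/
structure Cnd (K : Type) where
  f : K →₀ SignType

variable {K : Type}

/-- Stronger conditions are smaller. -/
instance instPreorderCnd : Preorder (Cnd K) where
  le q p := ∀ k, p.f k ≠ 0 → q.f k = p.f k
  le_refl p k _ := rfl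
  le_trans r q p h1 h2 k hk := by
    have e := h2 k hk
    rw [← e]
    exact h1 k (by rw [e]; exact hk)

theorem cnd_le_iff {p q : Cnd K} : q ≤ p ↔ ∀ k, p.f k ≠ 0 → q.f k = p.f k := Iff.rfl

instance : Nonempty (Cnd K) := ⟨⟨0⟩⟩

theorem A1_sign {a b : SignType} (ha : a ≠ 0) (hb : b ≠ 0)
    (h : (if a = 1 then 1 else 0 : ℕ) = if b = 1 then 1 else 0) : a = b := by
  revert a b
  decide

/-- Map `Cnd K` to `H98m.Cond K` (domain the support, value 1 for the digit 1 and 0 otherwise); compatible images have a common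
extension in `Cnd K`; use `H98m.ccc`. -/
theorem cnd_ccc (K : Type) : RO.CCC (Cnd K) := by
  classical
  intro A hA
  refine H98m.ccc A (fun p => (⟨p.f.support, fun k => if p.f k = 1 then 1 else 0⟩ :
    H98m.Cond K)) fun p hp q hq hne h => hA p hp q hq hne ?_
  refine ⟨⟨Finsupp.zipWith (fun a b => if a = 0 then b else a) (by simp) p.f q.f⟩, ?_, ?_⟩
  · intro k hk
    simp [hk]
  · intro k hk
    by_cases h0 : p.f k = 0
    · simp [h0]
    · have h1 := h k (Finsupp.mem_support_iff.2 h0) (Finsupp.mem_support_iff.2 hk)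
      simp only [Finsupp.zipWith_apply, h0, if_false]
      exact A1_sign h0 hk h1

/-- `Cardinal.mk_finsupp_of_infinite` or similar. -/
theorem mk_cnd_le (K : Type) [Infinite K] : Cardinal.mk (Cnd K) ≤ Cardinal.mk K := by
  have h1 : Cardinal.mk (Cnd K) ≤ Cardinal.mk (K →₀ SignType) :=
    Cardinal.mk_le_of_injective (f := fun p : Cnd K => p.f) (by
      rintro ⟨p⟩ ⟨q⟩ h
      have h' : p = q := h
      rw [h'])
  refine h1.trans ?_
  rw [Cardinal.mk_finsupp_of_infinite]
  refine max_le le_rfl ?_
  exact (Cardinal.mk_le_aleph0 (α := SignType)).trans (Cardinal.aleph0_le_mk K)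

open Classical in
/-- Change the digit at `k`. -/
noncomputable def flip (k : K) (p : Cnd K) : Cnd K := ⟨p.f.update k (-(p.f k))⟩

theorem flip_same (k : K) (p : Cnd K) : (flip k p).f k = -(p.f k) := by
  classical
  simp [flip, Finsupp.coe_update]

theorem flip_ne {k j : K} (h : j ≠ k) (p : Cnd K) : (flip k p).f j = p.f j := by
  classical
  simp [flip, Finsupp.coe_update, Function.update_of_ne h]

theorem A1_ext {p q : Cnd K} (h : ∀ k, p.f k = q.f k) : p = q := by
  cases p with
  | mk f =>
    cases q with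
    | mk g =>
      have : f = g := Finsupp.ext h
      rw [this]

theorem flip_flip (k : K) (p : Cnd K) : flip k (flip k p) = p := by
  apply A1_ext
  intro j
  by_cases h : j = k
  · subst h
    rw [flip_same, flip_same, neg_neg]
  · rw [flip_ne h, flip_ne h]

theorem A1_neg {a : SignType} (h : -a ≠ 0) : a ≠ 0 := by
  revert a
  decide

theorem flip_mono (k : K) {p q : Cnd K} (h : q ≤ p) : flip k q ≤ flip k p := by
  rw [cnd_le_iff] at h ⊢
  intro j hj
  by_cases e : j = k
  · subst e
    rw [flip_same] at hj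
    rw [flip_same, flip_same, h j (A1_neg hj)]
  · rw [flip_ne e] at hj
    rw [flip_ne e, flip_ne e, h j hj]

/-- `a` is invariant under the change of the digit at `k`. -/
def InvK (k : K) (a : RO (Cnd K)) : Prop := ∀ p, RO.Forces p a ↔ RO.Forces (flip k p) a

/-- It is enough to prove one direction. -/
theorem A1_invK {k : K} {a : RO (Cnd K)} (h : ∀ p, RO.Forces p a → RO.Forces (flip k p) a) :
    InvK k a := by
  intro p
  refine ⟨h p, fun h1 => ?_⟩
  have h2 := h _ h1
  rwa [flip_flip] at h2

theorem A1_le {k : K} {p q : Cnd K} (h : q ≤ flip k p) : flip k q ≤ p := by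
  have h1 := flip_mono k h
  rwa [flip_flip] at h1

theorem invK_compl {k : K} {a : RO (Cnd K)} (h : InvK k a) : InvK k aᶜ := by
  apply A1_invK
  intro p hp
  rw [RO.forces_compl] at hp ⊢
  intro q hq hqa
  exact hp _ (A1_le hq) ((h q).1 hqa)

theorem invK_iInf {k : K} {ι : Type} {a : ι → RO (Cnd K)} (h : ∀ i, InvK k (a i)) : InvK k (⨅ i, a i) := by
  intro p
  rw [RO.forces_iInf, RO.forces_iInf]
  exact forall_congr' fun i => h i p

theorem invK_sup {k : K} {a b : RO (Cnd K)} (ha : InvK k a) (hb : InvK k b) : InvK k (a ⊔ b) := by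
  apply A1_invK
  intro p hp
  rw [RO.forces_sup] at hp ⊢
  intro q hq
  obtain ⟨r, hr, h⟩ := hp _ (A1_le hq)
  refine ⟨flip k r, A1_le hr, ?_⟩
  rcases h with h | h
  · exact Or.inl ((ha r).1 h)
  · exact Or.inr ((hb r).1 h)

theorem invK_inf {k : K} {a b : RO (Cnd K)} (ha : InvK k a) (hb : InvK k b) : InvK k (a ⊓ b) := by
  intro p
  rw [RO.forces_inf, RO.forces_inf]
  exact and_congr (ha p) (hb p)

end Pool.Agent.H.MP_353193_lc.BV
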