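import Pool.Agent.H.MP_353193_lc.BV.A1

/-!
# The digits of the Cohen reals
-/

set_option autoImplicit false

open Cardinal M3

namespace Pool.Agent.H.MP_353193_lc.BV

variable {Θ : Type}

/-- The condition with one digit 1 at `k`. -/
noncomputable def one {K : Type} (k : K) : Cnd K := ⟨Finsupp.single k 1⟩

theorem A2_tri (a : SignType) : a = 0 ∨ a = 1 ∨ a = -1 := by
  revert a
  decide

open Classical in
/-- Set the digit at `k`. -/
noncomputable def A2_up {K : Type} (k : K) (a : SignType) (p : Cnd K) : Cnd K := ⟨p.f.update k a⟩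

theorem A2_up_same {K : Type} (k : K) (a : SignType) (p : Cnd K) : (A2_up k a p).f k = a := by
  classical
  unfold A2_up
  simp

theorem A2_up_ne {K : Type} {k j : K} (h : j ≠ k) (a : SignType) (p : Cnd K) :
    (A2_up k a p).f j = p.f j := by
  classical
  unfold A2_up
  simp [Function.update_of_ne h]

theorem A2_up_le {K : Type} {k : K} (a : SignType) {p : Cnd K} (h : p.f k = 0) :
    A2_up k a p ≤ p := by
  intro j hj
  exact A2_up_ne (fun e => hj (by rw [e, h])) a p

theorem A2_le_one {K : Type} (k : K) (s : Cnd K) : s ≤ one k ↔ s.f k = 1 := by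
  classical
  constructor
  · intro h
    have h1 := h k (by simp [one])
    simpa [one] using h1
  · intro h j hj
    have hjk : j = k := by
      by_contra hne
      apply hj
      simp [one, Finsupp.single_apply, Ne.symm hne]
    subst hjk
    rw [h]
    simp [one]

theorem forces_one {K : Type} (k : K) (p : Cnd K) : RO.Forces p (RO.ι (one k)) ↔ p.f k = 1 := by
  rw [RO.forces_ι]
  constructor
  · intro h
    rcases A2_tri (p.f k) with h0 | h0 | h0
    · exfalso
      obtain ⟨s, hs, hs1⟩ := h _ (A2_up_le (-1) h0)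
      rw [A2_le_one] at hs1
      have h1 := hs k (by rw [A2_up_same]; decide)
      rw [A2_up_same, hs1] at h1
      exact absurd h1 (by decide)
    · exact h0
    · exfalso
      obtain ⟨s, hs, hs1⟩ := h p le_rfl
      rw [A2_le_one] at hs1
      have h1 := hs k (by rw [h0]; decide)
      rw [h0, hs1] at h1
      exact absurd h1 (by decide)
  · intro h r hr
    refine ⟨r, le_rfl, ?_⟩
    rw [A2_le_one, hr k (by rw [h]; decide), h]

theorem forces_one_compl {K : Type} (k : K) (p : Cnd K) : RO.Forces p (RO.ι (one k))ᶜ ↔ p.f k = -1 := by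
  rw [RO.forces_compl]
  constructor
  · intro h
    rcases A2_tri (p.f k) with h0 | h0 | h0
    · exact absurd ((forces_one k _).2 (A2_up_same k 1 p)) (h _ (A2_up_le 1 h0))
    · exact absurd ((forces_one k p).2 h0) (h p le_rfl)
    · exact h0
  · intro h q hq hq1
    rw [forces_one, hq k (by rw [h]; decide), h] at hq1
    exact absurd hq1 (by decide)

/-- The value of: the digit `m` of the `γ`-th real is `i`. -/
noncomputable def dig (γ : Θ) (m : ℕ) (i : Bool) : RO (Cnd (Θ × ℕ)) := if i then RO.ι (one (γ, m)) else (RO.ι (one (γ, m)))ᶜ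

/-- The value of: `s` (newest digit first) is an initial segment of the `γ`-th real. -/
noncomputable def segC (γ : Θ) : List Bool → RO (Cnd (Θ × ℕ))
  | [] => ⊤
  | i :: s => segC γ s ⊓ dig γ s.length i

theorem A2_dig_true (γ : Θ) (m : ℕ) : dig γ m true = RO.ι (one (γ, m)) := rfl

theorem A2_dig_false (γ : Θ) (m : ℕ) : dig γ m false = (RO.ι (one (γ, m)))ᶜ := rfl

theorem segC_disj (γ : Θ) (s : List Bool) : segC γ (false :: s) ⊓ segC γ (true :: s) = ⊥ := by
  rw [eq_bot_iff]
  calc segC γ (false :: s) ⊓ segC γ (true :: s)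
      ≤ (RO.ι (one (γ, s.length)))ᶜ ⊓ RO.ι (one (γ, s.length)) := inf_le_inf inf_le_right inf_le_right
    _ ≤ ⊥ := by rw [compl_inf_eq_bot]

theorem segC_split (γ : Θ) (s : List Bool) : segC γ (false :: s) ⊔ segC γ (true :: s) = segC γ s := by
  show (segC γ s ⊓ (RO.ι (one (γ, s.length)))ᶜ) ⊔ (segC γ s ⊓ RO.ι (one (γ, s.length))) = _
  rw [← inf_sup_left, compl_sup_eq_top, inf_top_eq]

theorem invK_dig {γ γ' : Θ} (h : γ ≠ γ') (m n : ℕ) (i : Bool) : InvK (γ, m) (dig γ' n i) := by
  have hne : ((γ', n) : Θ × ℕ) ≠ (γ, m) := fun e => h (congrArg Prod.fst e).symm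
  intro p
  cases i with
  | true => rw [A2_dig_true, forces_one, forces_one, flip_ne hne]
  | false => rw [A2_dig_false, forces_one_compl, forces_one_compl, flip_ne hne]

theorem invK_segC {γ γ' : Θ} (h : γ ≠ γ') (m : ℕ) (s : List Bool) : InvK (γ, m) (segC γ' s) := by
  induction s with
  | nil => exact fun p => ⟨fun _ => RO.forces_top _, fun _ => RO.forces_top _⟩
  | cons i s ih => exact invK_inf ih (invK_dig h m _ i)

theorem A2_decide (γ : Θ) (p : Cnd (Θ × ℕ)) (m : ℕ) :
    ∃ q : Cnd (Θ × ℕ), q ≤ p ∧ ∃ s : List Bool, s.length = m ∧ RO.Forces q (segC γ s) ∧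
      ∀ n, m ≤ n → q.f (γ, n) = p.f (γ, n) := by
  induction m with
  | zero => exact ⟨p, le_rfl, [], rfl, RO.forces_top _, fun _ _ => rfl⟩
  | succ m ih =>
    obtain ⟨q, hq, s, hs, hf, hn⟩ := ih
    subst hs
    rcases A2_tri (q.f (γ, s.length)) with h0 | h0 | h0
    · refine ⟨A2_up (γ, s.length) 1 q, (A2_up_le 1 h0).trans hq, true :: s, rfl,
        ⟨hf.mono (A2_up_le 1 h0), ?_⟩, ?_⟩
      · exact (forces_one _ _).2 (A2_up_same _ 1 q)
      · intro n hn'
        rw [A2_up_ne (fun e => ?_), hn n (by omega)]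
        have := congrArg Prod.snd e
        simp only at this
        omega
    · exact ⟨q, hq, true :: s, rfl, ⟨hf, (forces_one _ _).2 h0⟩, fun n hn' => hn n (by omega)⟩
    · exact ⟨q, hq, false :: s, rfl, ⟨hf, (forces_one_compl _ _).2 h0⟩, fun n hn' => hn n (by omega)⟩

/-- Every condition can be extended to a condition `q` which decides the first `m` digits of the `γ`-th real and no other digit of
it, for some `m`. -/
theorem exists_decide_seg (γ : Θ) (p : Cnd (Θ × ℕ)) :
    ∃ q : Cnd (Θ × ℕ), q ≤ p ∧ ∃ s : List Bool, RO.Forces q (segC γ s) ∧ q.f (γ, s.length) = 0 := by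
  classical
  obtain ⟨m, hm⟩ : ∃ m, m = (p.f.support.image Prod.snd).sup id + 1 := ⟨_, rfl⟩
  obtain ⟨q, hq, s, hs, hf, hn⟩ := A2_decide γ p m
  refine ⟨q, hq, s, hf, ?_⟩
  rw [hs, hn m le_rfl]
  by_contra h0
  have h1 : m ∈ p.f.support.image Prod.snd :=
    Finset.mem_image.2 ⟨(γ, m), Finsupp.mem_support_iff.2 h0, rfl⟩
  have h2 : m ≤ (p.f.support.image Prod.snd).sup id := Finset.le_sup (f := id) h1
  omega

/-- FRESHNESS. Otherwise some `p` forces `⨅ s, (seg γ s ⇨ d s)`; take `q, s` of `exists_decide_seg`; `q` with the digit `-1` (resp. `1`)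
at `(γ, s.length)` forces `seg γ (false :: s)` (resp. `true`), hence `d (false :: s)` (resp. `d (true :: s)`). By invariance
under `flip (γ, s.length)` the second condition forces also `d (false :: s)`. -/
theorem fresh_seg (γ : Θ) (d : List Bool → RO (Cnd (Θ × ℕ))) (hd : ∀ s m, InvK (γ, m) (d s))
    (hdisj : ∀ s, d (false :: s) ⊓ d (true :: s) = ⊥) : ⨅ s, (segC γ s ⇨ d s) = ⊥ := by
  by_contra hne
  obtain ⟨p, hp⟩ := RO.exists_forces_of_ne_bot hne
  rw [RO.forces_iInf] at hp
  obtain ⟨q, hq, s, hs, h0⟩ := exists_decide_seg γ p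
  have hle2 : A2_up (γ, s.length) (-1) q ≤ q := A2_up_le (-1) h0
  have hle1 : flip (γ, s.length) (A2_up (γ, s.length) (-1) q) ≤ q := by
    intro j hj
    have hjk : j ≠ (γ, s.length) := fun e => hj (by rw [e, h0])
    rw [flip_ne hjk, A2_up_ne hjk]
  have hv1 : (flip (γ, s.length) (A2_up (γ, s.length) (-1) q)).f (γ, s.length) = 1 := by
    rw [flip_same, A2_up_same]
    decide
  have h2 : RO.Forces (A2_up (γ, s.length) (-1) q) (d (false :: s)) := by
    refine (hp (false :: s)) _ (hle2.trans hq) ⟨hs.mono hle2, ?_⟩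
    exact (forces_one_compl _ _).2 (A2_up_same _ (-1) q)
  have h1 : RO.Forces (flip (γ, s.length) (A2_up (γ, s.length) (-1) q)) (d (true :: s)) := by
    refine (hp (true :: s)) _ (hle1.trans hq) ⟨hs.mono hle1, ?_⟩
    exact (forces_one _ _).2 hv1
  have h3 := (hd (false :: s) s.length _).1 h2
  have h4 : RO.Forces (flip (γ, s.length) (A2_up (γ, s.length) (-1) q))
      (d (false :: s) ⊓ d (true :: s)) := ⟨h3, h1⟩
  rw [hdisj] at h4
  exact RO.not_forces_bot _ h4

end Pool.Agent.H.MP_353193_lc.BV
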