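import Pool.Agent.H.MP_353193_lc.BV.A1

/-!
# Countable supports and the cardinality of the Cohen algebra
-/

set_option autoImplicit false

open Cardinal M3

namespace Pool.Agent.H.MP_353193_lc.BV

/-- A maximal antichain of conditions forcing `b` (Zorn, countable by ccc). -/
theorem exists_code {K : Type} (b : RO (Cnd K)) :
    ∃ A : Set (Cnd K), A.Countable ∧ ∀ p, RO.Forces p b ↔ ∀ q, q ≤ p → ∃ a ∈ A, ∃ r, r ≤ q ∧ r ≤ a := by
  classical
  let S : Set (Set (Cnd K)) :=
    {A | (∀ p ∈ A, RO.Forces p b) ∧ ∀ p ∈ A, ∀ q ∈ A, p ≠ q → ¬ RO.Compat p q}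
  obtain ⟨A, hA⟩ : ∃ A, Maximal (fun A => A ∈ S) A := by
    refine zorn_subset S fun c hc hch => ⟨⋃₀ c, ⟨?_, ?_⟩, fun s hs => Set.subset_sUnion_of_mem hs⟩
    · rintro p ⟨A, hA, hp⟩
      exact (hc hA).1 p hp
    · rintro p ⟨A, hA, hp⟩ q ⟨A', hA', hq⟩ hpq
      rcases hch.total hA hA' with h | h
      · exact (hc hA').2 p (h hp) q hq hpq
      · exact (hc hA).2 p hp q (h hq) hpq
  refine ⟨A, cnd_ccc K A hA.prop.2, fun p => ⟨fun hp q hq => ?_, fun h => ?_⟩⟩
  · by_contra hcon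
    push Not at hcon
    have hqb := hp.mono hq
    have hqA : q ∉ A := fun hqA => hcon q hqA q le_rfl le_rfl
    have hins : insert q A ∈ S := by
      refine ⟨?_, ?_⟩
      · rintro x (rfl | hx)
        · exact hqb
        · exact hA.prop.1 x hx
      · rintro x (rfl | hx) y (rfl | hy) hxy ⟨r, hr1, hr2⟩
        · exact hxy rfl
        · exact hcon y hy r hr1 hr2
        · exact hcon x hx r hr2 hr1
        · exact hA.prop.2 x hx y hy hxy ⟨r, hr1, hr2⟩
    exact hqA (hA.le_of_ge hins (Set.subset_insert q A) (Set.mem_insert q A))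
  · refine RO.forces_of_dense fun q hq => ?_
    obtain ⟨a, ha, r, hr, hra⟩ := h q hq
    exact ⟨r, hr, (hA.prop.1 a ha).mono hra⟩

/-- For `A` of `exists_code` only the finitely many coordinates in the support of a member of `A` matter: if no member of `A` is defined at a
pair `(γ, m)`, then `flip (γ, m)` fixes the members of `A`, and `b` is invariant. -/
theorem supp_countable {Θ : Type} (b : RO (Cnd (Θ × ℕ))) : {γ : Θ | ¬ ∀ m : ℕ, InvK (γ, m) b}.Countable := by
  classical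
  obtain ⟨A, hA, hcode⟩ := exists_code b
  have h1 : (⋃ a ∈ A, {γ : Θ | ∃ m : ℕ, (a.f (γ, m)) ≠ 0}).Countable := by
    refine hA.biUnion fun a _ => Set.Finite.countable ?_
    refine ((a.f.support.image Prod.fst).finite_toSet).subset ?_
    rintro γ ⟨m, hm⟩
    exact Finset.mem_coe.2 (Finset.mem_image.2 ⟨(γ, m), Finsupp.mem_support_iff.2 hm, rfl⟩)
  refine h1.mono fun γ hγ => ?_
  by_contra hcon
  refine hγ fun m => A1_invK fun p hp => ?_
  rw [hcode] at hp ⊢
  intro q hq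
  obtain ⟨a, ha, r, hr, hra⟩ := hp _ (A1_le hq)
  refine ⟨a, ha, flip (γ, m) r, A1_le hr, ?_⟩
  have h2 := flip_mono (γ, m) hra
  have h3 : flip (γ, m) a = a := by
    have h4 : a.f (γ, m) = 0 := by
      by_contra h5
      exact hcon (Set.mem_iUnion₂.2 ⟨a, ha, m, h5⟩)
    apply A1_ext
    intro j
    by_cases hj : j = (γ, m)
    · subst hj
      rw [flip_same, h4, neg_zero]
    · rw [flip_ne hj]
  rwa [h3] at h2

/-- `b` is determined by the countable set `A` of `exists_code`; the number of countable subsets of `Cnd K` is at most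
`(#K) ^ ℵ₀`, and `(2 ^ #W) ^ ℵ₀ = 2 ^ #W` for infinite `W`. -/
theorem mk_RO_le (W : Type) [Infinite W] : Cardinal.mk (RO (Cnd (Set W × ℕ))) ≤ Cardinal.mk (Set W) := by
  classical
  choose A hA hcode using fun b : RO (Cnd (Set W × ℕ)) => exists_code b
  have h1 : Cardinal.mk (RO (Cnd (Set W × ℕ)))
      ≤ Cardinal.mk {t : Set (Cnd (Set W × ℕ)) // Cardinal.mk t ≤ ℵ₀} := by
    refine Cardinal.mk_le_of_injective (f := fun b => ⟨A b, (hA b).le_aleph0⟩) ?_
    intro a b hab
    have h2 : A a = A b := congrArg Subtype.val hab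
    refine RO.ext' fun p => ?_
    rw [hcode a, hcode b, h2]
  have h3 : Cardinal.mk (Cnd (Set W × ℕ)) ≤ Cardinal.mk (Set W) := by
    refine (mk_cnd_le (Set W × ℕ)).trans ?_
    rw [Cardinal.mk_prod, Cardinal.lift_id, Cardinal.lift_id, Cardinal.mk_nat]
    exact (Cardinal.mul_aleph0_eq (Cardinal.aleph0_le_mk (Set W))).le
  calc Cardinal.mk (RO (Cnd (Set W × ℕ)))
      ≤ Cardinal.mk {t : Set (Cnd (Set W × ℕ)) // Cardinal.mk t ≤ ℵ₀} := h1
    _ ≤ max (Cardinal.mk (Cnd (Set W × ℕ))) ℵ₀ ^ ℵ₀ := Cardinal.mk_bounded_set_le _ _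
    _ ≤ Cardinal.mk (Set W) ^ ℵ₀ :=
        Cardinal.power_le_power_right (max_le h3 (Cardinal.aleph0_le_mk (Set W)))
    _ = Cardinal.mk (Set W) := by
        rw [Cardinal.mk_set, ← Cardinal.power_mul,
          Cardinal.mul_aleph0_eq (Cardinal.aleph0_le_mk W)]

end Pool.Agent.H.MP_353193_lc.BV
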