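import Pool.Agent.H.MP_353193_lc.BV.A2
import Pool.Agent.H.MP_353193_lc.BV.A3

/-!
# The Cohen algebra
-/

set_option autoImplicit false

open Cardinal M3

namespace Pool.Agent.H.MP_353193_lc.BV

/-- `B = RO (Cnd (Set W × ℕ))`, `Inv γ b = ∀ m, InvK (γ, m) b`. -/
theorem exists_coh (W : Type) [Infinite W] :
    ∃ (B : Type) (_ : CompleteBooleanAlgebra B) (_ : Nontrivial B), BCCC B ∧ Nonempty (Coh B (Set W)) ∧
      Cardinal.mk B ≤ Cardinal.mk (Set W) := by
  refine ⟨RO (Cnd (Set W × ℕ)), inferInstance, inferInstance, RO.bccc (cnd_ccc _), ⟨?_⟩,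
    mk_RO_le W⟩
  exact
    { seg := fun γ s => segC γ s
      Inv := fun γ b => ∀ m : ℕ, InvK (γ, m) b
      seg_nil := fun γ => rfl
      seg_disj := fun γ s => segC_disj γ s
      seg_split := fun γ s => segC_split γ s
      inv_compl := fun γ a h m => invK_compl (h m)
      inv_iInf := fun γ ι a h m => invK_iInf fun i => h i m
      inv_seg := fun γ γ' s h m => invK_segC h m s
      fresh := fun γ d h1 h2 => fresh_seg γ d (fun s m => h1 s m) h2
      supp := fun b => supp_countable b }

end Pool.Agent.H.MP_353193_lc.BV
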