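import Pool.Agent.H.MP_353193_lc.BV.Defs

/-!
# Boolean-valued sequences: equality, order, meets
-/

set_option autoImplicit false

open Cardinal

namespace Pool.Agent.H.MP_353193_lc.BV

variable {B : Type} [CompleteBooleanAlgebra B] {W : Type} [LinearOrder W]

theorem C1_tr {e a b : B} (h1 : e ≤ bihimp a b) (h2 : e ≤ a) : e ≤ b := by
  rw [le_bihimp_iff] at h1
  exact (le_inf h2 le_rfl).trans h1.2

theorem C1_symm {e a b : B} (h1 : e ≤ bihimp a b) : e ≤ bihimp b a := by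
  rwa [bihimp_comm]

theorem C1_trc {e a b : B} (h1 : e ≤ bihimp a b) (h2 : e ≤ aᶜ) : e ≤ bᶜ := by
  rw [le_compl_iff_disjoint_right, disjoint_iff_inf_le] at h2 ⊢
  refine (le_inf inf_le_left ?_).trans h2
  exact C1_tr (C1_symm (inf_le_left.trans h1)) inf_le_right

theorem C1_bot {e a b : B} (h1 : e ≤ bihimp a b) (h2 : e ≤ aᶜ) (h3 : e ≤ b) : e = ⊥ := by
  have h4 : e ≤ b ⊓ bᶜ := le_inf h3 (C1_trc h1 h2)
  rwa [inf_compl_eq_bot, le_bot_iff] at h4

theorem C1_bot' {e a : B} (h2 : e ≤ a) (h3 : e ≤ aᶜ) : e = ⊥ := by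
  have h4 : e ≤ a ⊓ aᶜ := le_inf h2 h3
  rwa [inf_compl_eq_bot, le_bot_iff] at h4

theorem C1_trans {e a b c : B} (h1 : e ≤ bihimp a b) (h2 : e ≤ bihimp b c) : e ≤ bihimp a c :=
  (le_inf h1 h2).trans (bihimp_triangle a b c)

theorem C1_d1 {p q : W → B} {μ ν : W} (h : μ < ν) : dif p q ν ≤ bihimp (p μ) (q μ) :=
  (inf_le_left.trans inf_le_left).trans (iInf_le _ (⟨μ, h⟩ : {μ : W // μ < ν}))

theorem C1_d2 {p q : W → B} {ν : W} : dif p q ν ≤ (p ν)ᶜ := inf_le_left.trans inf_le_right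

theorem C1_d3 {p q : W → B} {ν : W} : dif p q ν ≤ q ν := inf_le_right

theorem C1_le_dif {e : B} {p q : W → B} {ν : W} (h1 : ∀ μ, μ < ν → e ≤ bihimp (p μ) (q μ))
    (h2 : e ≤ (p ν)ᶜ) (h3 : e ≤ q ν) : e ≤ dif p q ν :=
  le_inf (le_inf (le_iInf fun μ => h1 μ.1 μ.2) h2) h3

theorem eqv_le (x y : W → B) (ν : W) : eqv x y ≤ bihimp (x ν) (y ν) := iInf_le _ ν

theorem eqv_refl (x : W → B) : eqv x x = ⊤ := by
  unfold eqv
  simp

theorem eqv_symm (x y : W → B) : eqv x y = eqv y x := by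
  unfold eqv
  simp only [bihimp_comm]

theorem eqv_trans (x y z : W → B) : eqv x y ⊓ eqv y z ≤ eqv x z :=
  le_iInf fun ν => C1_trans (inf_le_left.trans (eqv_le x y ν)) (inf_le_right.trans (eqv_le y z ν))

theorem ag_anti (p q : W → B) {ν ν' : W} (h : ν ≤ ν') : ag p q ν' ≤ ag p q ν :=
  le_iInf fun μ => iInf_le _ (⟨μ.1, μ.2.trans h⟩ : {μ : W // μ ≤ ν'})

theorem ag_bihimp (p q : W → B) {ν ν' : W} (h : ν ≤ ν') : ag p q ν' ≤ bihimp (p ν) (q ν) :=
  iInf_le _ (⟨ν, h⟩ : {μ : W // μ ≤ ν'})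

theorem ag_symm (p q : W → B) (ν : W) : ag p q ν = ag q p ν := by
  unfold ag
  simp only [bihimp_comm]

theorem ltv_eq (x y : W → B) : ltv x y = ⨆ ν, dif x y ν := rfl

/-- The place of the first difference is unique. -/
theorem dif_disj (p q : W → B) {ν ν' : W} (h : ν ≠ ν') : dif p q ν ⊓ dif p q ν' = ⊥ := by
  rcases lt_or_gt_of_ne h with h | h
  · exact C1_bot (inf_le_right.trans (C1_d1 h)) (inf_le_left.trans C1_d2) (inf_le_left.trans C1_d3)
  · exact C1_bot (inf_le_left.trans (C1_d1 h)) (inf_le_right.trans C1_d2)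
      (inf_le_right.trans C1_d3)

/-- After the first difference there is no agreement. -/
theorem dif_ag (p q : W → B) {ν ν' : W} (h : ν ≤ ν') : dif p q ν ⊓ ag p q ν' = ⊥ :=
  C1_bot (inf_le_right.trans (ag_bihimp p q h)) (inf_le_left.trans C1_d2)
    (inf_le_left.trans C1_d3)

/-- Up to before the first difference there is agreement. -/
theorem dif_le_ag (p q : W → B) {ν ν' : W} (h : ν' < ν) : dif p q ν ≤ ag p q ν' :=
  le_iInf fun μ => C1_d1 (lt_of_le_of_lt μ.2 h)

theorem dif_ext_left (x y z : W → B) (ν : W) : eqv x y ⊓ dif x z ν ≤ dif y z ν := by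
  refine C1_le_dif (fun μ hμ => ?_) ?_ (inf_le_right.trans C1_d3)
  · exact C1_trans (C1_symm (inf_le_left.trans (eqv_le x y μ))) (inf_le_right.trans (C1_d1 hμ))
  · exact C1_trc (inf_le_left.trans (eqv_le x y ν)) (inf_le_right.trans C1_d2)

theorem dif_ext_right (x y z : W → B) (ν : W) : eqv x y ⊓ dif z x ν ≤ dif z y ν := by
  refine C1_le_dif (fun μ hμ => ?_) (inf_le_right.trans C1_d2) ?_
  · exact C1_trans (inf_le_right.trans (C1_d1 hμ)) (inf_le_left.trans (eqv_le x y μ))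
  · exact C1_tr (inf_le_left.trans (eqv_le x y ν)) (inf_le_right.trans C1_d3)

theorem ltv_ext_left (x y z : W → B) : eqv x y ⊓ ltv x z ≤ ltv y z := by
  rw [ltv_eq, inf_iSup_eq]
  exact iSup_le fun ν => (dif_ext_left x y z ν).trans (le_iSup (fun ν => dif y z ν) ν)

theorem ltv_ext_right (x y z : W → B) : eqv x y ⊓ ltv z x ≤ ltv z y := by
  rw [ltv_eq, inf_iSup_eq]
  exact iSup_le fun ν => (dif_ext_right x y z ν).trans (le_iSup (fun ν => dif z y ν) ν)

theorem ltv_trans (x y z : W → B) : ltv x y ⊓ ltv y z ≤ ltv x z := by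
  rw [ltv_eq, ltv_eq, iSup_inf_eq]
  refine iSup_le fun ν => ?_
  rw [inf_iSup_eq]
  refine iSup_le fun ν' => ?_
  rcases lt_trichotomy ν ν' with h | h | h
  · refine le_trans (C1_le_dif (fun μ hμ => ?_) (inf_le_left.trans C1_d2) ?_)
      (le_iSup (fun ν => dif x z ν) ν)
    · exact C1_trans (inf_le_left.trans (C1_d1 hμ)) (inf_le_right.trans (C1_d1 (hμ.trans h)))
    · exact C1_tr (inf_le_right.trans (C1_d1 h)) (inf_le_left.trans C1_d3)
  · subst h
    rw [C1_bot' (e := dif x y ν ⊓ dif y z ν) (inf_le_left.trans C1_d3) (inf_le_right.trans C1_d2)]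
    exact bot_le
  · refine le_trans (C1_le_dif (fun μ hμ => ?_) ?_ (inf_le_right.trans C1_d3))
      (le_iSup (fun ν => dif x z ν) ν')
    · exact C1_trans (inf_le_left.trans (C1_d1 (hμ.trans h))) (inf_le_right.trans (C1_d1 hμ))
    · exact C1_trc (C1_symm (inf_le_left.trans (C1_d1 h))) (inf_le_right.trans C1_d2)

theorem ltv_irrefl (x : W → B) : ltv x x = ⊥ := by
  rw [ltv_eq, iSup_eq_bot]
  intro ν
  exact C1_bot' (C1_d3) (C1_d2)

theorem C1_inc {x p q : W → B} (ν : W) : inc x p q ⊓ ag p q ν ≤ bihimp (x ν) (p ν) :=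
  le_himp_iff.1 (iInf_le _ ν)

theorem C1_le_inc {e : B} {x p q : W → B} (h : ∀ ν, e ⊓ ag p q ν ≤ bihimp (x ν) (p ν)) :
    e ≤ inc x p q :=
  le_iInf fun ν => le_himp_iff.2 (h ν)

theorem C1_inc' {e : B} {x p q : W → B} {ν : W} (h1 : e ≤ inc x p q) (h2 : e ≤ ag p q ν) :
    e ≤ bihimp (x ν) (p ν) := (le_inf h1 h2).trans (C1_inc ν)

theorem C1_le_ag {e : B} {p q : W → B} {ν : W} (h : ∀ μ, μ ≤ ν → e ≤ bihimp (p μ) (q μ)) :
    e ≤ ag p q ν := le_iInf fun μ => h μ.1 μ.2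

theorem inc_ext (x y p q : W → B) : eqv x y ⊓ inc x p q ≤ inc y p q := by
  refine C1_le_inc fun ν => ?_
  refine C1_trans (C1_symm ((inf_le_left.trans inf_le_left).trans (eqv_le x y ν))) ?_
  exact C1_inc' (inf_le_left.trans inf_le_right) inf_le_right

theorem ag_ext (p q p' q' : W → B) (ν : W) : eqv p p' ⊓ eqv q q' ⊓ ag p q ν ≤ ag p' q' ν := by
  refine C1_le_ag fun μ hμ => ?_
  refine C1_trans (C1_symm ((inf_le_left.trans inf_le_left).trans (eqv_le p p' μ))) ?_
  refine C1_trans (inf_le_right.trans (ag_bihimp p q hμ)) ?_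
  exact (inf_le_left.trans inf_le_right).trans (eqv_le q q' μ)

theorem inc_ext_pq (x p q p' q' : W → B) : eqv p p' ⊓ eqv q q' ⊓ inc x p q ≤ inc x p' q' := by
  refine C1_le_inc fun ν => ?_
  have h1 : eqv p p' ⊓ eqv q q' ⊓ inc x p q ⊓ ag p' q' ν ≤ ag p q ν := by
    refine le_trans ?_ (ag_ext p' q' p q ν)
    rw [eqv_symm p' p, eqv_symm q' q]
    exact le_inf (inf_le_left.trans inf_le_left) inf_le_right
  refine C1_trans (C1_inc' (inf_le_left.trans inf_le_right) h1) ?_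
  exact (inf_le_left.trans (inf_le_left.trans inf_le_left)).trans (eqv_le p p' ν)

theorem inc_self (p q : W → B) : inc p p q = ⊤ := by
  unfold inc
  simp

/-- If `x` extends the meet of `p` and `q` and these agree up to `ν`, then `x` and `p` agree up to `ν`. -/
theorem inc_ag (x p q : W → B) (ν : W) : inc x p q ⊓ ag p q ν ≤ ag x p ν :=
  C1_le_ag fun _ hμ => C1_inc' inf_le_left (inf_le_right.trans (ag_anti p q hμ))

/-- If `p < x < q`, then `x` extends the meet of `p` and `q`. -/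
theorem between (p x q : W → B) : ltv p x ⊓ ltv x q ≤ inc x p q := by
  rw [ltv_eq, ltv_eq, iSup_inf_eq]
  refine iSup_le fun ν₁ => ?_
  rw [inf_iSup_eq]
  refine iSup_le fun ν₂ => ?_
  refine C1_le_inc fun ν => ?_
  rcases lt_or_ge ν ν₁ with h | h
  · exact C1_symm ((inf_le_left.trans inf_le_left).trans (C1_d1 h))
  · have h0 : dif p x ν₁ ⊓ dif x q ν₂ ⊓ ag p q ν = ⊥ := by
      rcases lt_trichotomy ν₁ ν₂ with h1 | h1 | h1
      · refine C1_bot (inf_le_right.trans (ag_bihimp p q h))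
          ((inf_le_left.trans inf_le_left).trans C1_d2) ?_
        exact C1_tr ((inf_le_left.trans inf_le_right).trans (C1_d1 h1))
          ((inf_le_left.trans inf_le_left).trans C1_d3)
      · subst h1
        exact C1_bot' ((inf_le_left.trans inf_le_left).trans C1_d3)
          ((inf_le_left.trans inf_le_right).trans C1_d2)
      · refine C1_bot (inf_le_right.trans (ag_bihimp p q (h1.le.trans h))) ?_
          ((inf_le_left.trans inf_le_right).trans C1_d3)
        exact C1_trc (C1_symm ((inf_le_left.trans inf_le_left).trans (C1_d1 h1)))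
          ((inf_le_left.trans inf_le_right).trans C1_d2)
    rw [h0]
    exact bot_le

/-- `Bd` gives the value `⊤` of being bounded. -/
theorem rv_of_Bd {D : Set W} {x : W → B} (h : Bd D x) : rv D x = ⊤ := by
  obtain ⟨δ, hδ, h⟩ := h
  rw [eq_top_iff]
  refine le_trans ?_ (le_iSup _ (⟨δ, hδ⟩ : D))
  refine le_iInf fun ν => ?_
  rw [h ν.1 ν.2, compl_bot]

theorem rv_ext (D : Set W) (x y : W → B) : eqv x y ⊓ rv D x ≤ rv D y := by
  unfold rv
  rw [inf_iSup_eq]
  refine iSup_le fun δ => le_trans ?_ (le_iSup _ δ)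
  refine le_iInf fun ν => ?_
  exact C1_trc (inf_le_left.trans (eqv_le x y ν.1)) (inf_le_right.trans (iInf_le _ ν))

/-- In a ccc algebra every supremum is the supremum of countably many members. -/
theorem C1_ccc (hB : M3.BCCC B) {ι : Type} (a : ι → B) :
    ∃ C : Set ι, C.Countable ∧ ∀ i, a i ≤ ⨆ j : C, a j := by
  classical
  let r : ι → ι → Prop := WellOrderingRel
  let c : ι → B := fun i => a i ⊓ (⨆ j : {j // r j i}, a j.1)ᶜ
  have key : ∀ i j, r j i → c i ⊓ c j = ⊥ := by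
    intro i j h
    refine C1_bot' (a := a j) (inf_le_right.trans inf_le_left) ?_
    refine (inf_le_left.trans inf_le_right).trans (compl_le_compl ?_)
    exact le_iSup (fun j : {j // r j i} => a j.1) ⟨j, h⟩
  have hc : ∀ i j, i ≠ j → c i ⊓ c j = ⊥ := by
    intro i j hij
    rcases trichotomous_of r i j with h | h | h
    · rw [inf_comm]
      exact key j i h
    · exact absurd h hij
    · exact key i j h
  refine ⟨{i | c i ≠ ⊥}, hB.countable_index c hc, ?_⟩
  intro i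
  induction i using (IsWellFounded.wf (r := r)).induction with
  | _ i ih =>
    by_cases h : c i = ⊥
    · have h1 : a i ≤ ⨆ j : {j // r j i}, a j.1 := by
        have h2 : Disjoint (a i) (⨆ j : {j // r j i}, a j.1)ᶜ := disjoint_iff.2 h
        rwa [← le_compl_iff_disjoint_right, compl_compl] at h2
      refine h1.trans (iSup_le fun j => ih j.1 j.2)
    · exact le_iSup (fun j : {i | c i ≠ ⊥} => a j) ⟨i, h⟩

/-- If `D` is closed under bounds of countable sets and `B` is ccc, then the boundedness is decided by one bound. [`rv D x = ⨆ δ, a δ` with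
`a` increasing; choose a countable set of `δ` with the same supremum: maximal antichain below the `a δ`.] -/
theorem exists_bound_of_le_rv (hB : M3.BCCC B) {D : Set W} {lam : Cardinal.{0}} (hD : Seg W D lam) (x : W → B) (b : B)
    (h : b ≤ rv D x) : ∃ δ ∈ D, ∀ ν, δ ≤ ν → b ⊓ x ν = ⊥ := by
  obtain ⟨C, hC, hle⟩ := C1_ccc hB fun δ : D => ⨅ ν : {ν : W // (δ : W) ≤ ν}, (x ν)ᶜ
  have hCc : Cardinal.mk (Subtype.val '' C) ≤ lam := by
    refine Cardinal.mk_image_le.trans ?_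
    exact (Cardinal.mk_le_aleph0_iff.2 hC.to_subtype).trans hD.inf
  obtain ⟨δ, hδ, hb⟩ := hD.reg (Subtype.val '' C) (by rintro _ ⟨y, _, rfl⟩; exact y.2) hCc
  refine ⟨δ, hδ, fun ν hν => ?_⟩
  have h1 : rv D x ≤ (x ν)ᶜ := by
    refine iSup_le fun i => (hle i).trans (iSup_le fun j => ?_)
    have h2 : (j.1 : W) < δ := hb _ ⟨j.1, j.2, rfl⟩
    exact iInf_le (fun ν : {ν : W // (j.1 : W) ≤ ν} => (x ν)ᶜ) ⟨ν, h2.le.trans hν⟩
  have h2 : b ⊓ x ν ≤ x ν ⊓ (x ν)ᶜ := le_inf inf_le_right (inf_le_left.trans (h.trans h1))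
  rwa [inf_compl_eq_bot, le_bot_iff] at h2

/-- Restriction of a name to `b`. -/
theorem eqv_restrict (b : B) (x : W → B) : b ≤ eqv x (fun ν => x ν ⊓ b) := by
  refine le_iInf fun ν => le_bihimp_iff.2 ⟨?_, le_rfl⟩
  exact inf_le_left.trans inf_le_left

end Pool.Agent.H.MP_353193_lc.BV
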