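import Pool.Agent.H.MP_353193_lc.BV.C1

/-!
# Schemes, branch nodes and their cones
-/

set_option autoImplicit false

open Cardinal

namespace Pool.Agent.H.MP_353193_lc.BV

variable {B : Type} [CompleteBooleanAlgebra B] {Θ : Type} (K : Coh B Θ)

theorem inv_top (γ : Θ) : K.Inv γ ⊤ := by
  have h := K.inv_iInf γ Empty (fun _ => ⊤) (fun i => i.elim)
  rwa [iInf_of_empty] at h

theorem inv_bot (γ : Θ) : K.Inv γ ⊥ := by
  have h := K.inv_compl γ ⊤ (inv_top K γ)
  rwa [compl_top] at h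

theorem inv_inf (γ : Θ) {a b : B} (ha : K.Inv γ a) (hb : K.Inv γ b) : K.Inv γ (a ⊓ b) := by
  rw [inf_eq_iInf]
  refine K.inv_iInf γ Bool _ ?_
  rintro (_ | _)
  · exact hb
  · exact ha

theorem inv_sup (γ : Θ) {a b : B} (ha : K.Inv γ a) (hb : K.Inv γ b) : K.Inv γ (a ⊔ b) := by
  have h := K.inv_compl γ _ (inv_inf K γ (K.inv_compl γ a ha) (K.inv_compl γ b hb))
  rwa [compl_inf, compl_compl, compl_compl] at h

theorem inv_iSup (γ : Θ) {ι : Type} {a : ι → B} (h : ∀ i, K.Inv γ (a i)) : K.Inv γ (⨆ i, a i) := by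
  have h1 := K.inv_compl γ _ (K.inv_iInf γ ι (fun i => (a i)ᶜ) (fun i => K.inv_compl γ _ (h i)))
  rw [compl_iInf] at h1
  simpa only [compl_compl] using h1

theorem inv_himp (γ : Θ) {a b : B} (ha : K.Inv γ a) (hb : K.Inv γ b) : K.Inv γ (a ⇨ b) := by
  rw [himp_eq]
  exact inv_sup K γ hb (K.inv_compl γ _ ha)

theorem inv_bihimp (γ : Θ) {a b : B} (ha : K.Inv γ a) (hb : K.Inv γ b) : K.Inv γ (bihimp a b) := by
  unfold bihimp
  exact inv_inf K γ (inv_himp K γ hb ha) (inv_himp K γ ha hb)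

theorem seg_append_le (γ : Θ) (r s : List Bool) : K.seg γ (r ++ s) ≤ K.seg γ s := by
  induction r with
  | nil => exact le_rfl
  | cons c r ih =>
    refine le_trans ?_ ih
    rw [List.cons_append, ← K.seg_split γ (r ++ s)]
    cases c
    · exact le_sup_left
    · exact le_sup_right

theorem C2_lists (u v : List Bool) : (∃ r, v = u ++ r) ∨ (∃ r, u = v ++ r) ∨
    ∃ (t : List Bool) (x y : Bool) (a b : List Bool), x ≠ y ∧ u = t ++ x :: a ∧ v = t ++ y :: b := by
  induction u generalizing v with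
  | nil => exact Or.inl ⟨v, rfl⟩
  | cons x u ih =>
    cases v with
    | nil => exact Or.inr (Or.inl ⟨x :: u, rfl⟩)
    | cons y v =>
      by_cases hxy : x = y
      · subst hxy
        rcases ih v with ⟨r, hr⟩ | ⟨r, hr⟩ | ⟨t, x', y', a, b, hne, hu, hv⟩
        · exact Or.inl ⟨r, by rw [hr]; rfl⟩
        · exact Or.inr (Or.inl ⟨r, by rw [hr]; rfl⟩)
        · exact Or.inr (Or.inr ⟨x :: t, x', y', a, b, hne, by rw [hu]; rfl, by rw [hv]; rfl⟩)
      · exact Or.inr (Or.inr ⟨[], x, y, u, v, hxy, rfl, rfl⟩)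

theorem C2_disj (γ : Θ) (t : List Bool) {x y : Bool} (h : x ≠ y) :
    K.seg γ (x :: t) ⊓ K.seg γ (y :: t) = ⊥ := by
  cases x <;> cases y
  · exact absurd rfl h
  · exact K.seg_disj γ t
  · rw [inf_comm]; exact K.seg_disj γ t
  · exact absurd rfl h

/-- Two lists, none of which extends the other, are not both on the branch. -/
theorem seg_comp (γ : Θ) (s s' : List Bool) (h : K.seg γ s ⊓ K.seg γ s' ≠ ⊥) :
    (∃ r, s' = r ++ s) ∨ ∃ r, s = r ++ s' := by
  rcases C2_lists s.reverse s'.reverse with ⟨r, hr⟩ | ⟨r, hr⟩ | ⟨t, x, y, a, b, hne, hu, hv⟩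
  · left
    refine ⟨r.reverse, ?_⟩
    have := congrArg List.reverse hr
    rwa [List.reverse_reverse, List.reverse_append, List.reverse_reverse] at this
  · right
    refine ⟨r.reverse, ?_⟩
    have := congrArg List.reverse hr
    rwa [List.reverse_reverse, List.reverse_append, List.reverse_reverse] at this
  · exfalso
    apply h
    have h1 : s = a.reverse ++ (x :: t.reverse) := by
      have := congrArg List.reverse hu
      rw [List.reverse_reverse] at this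
      rw [this]
      simp
    have h2 : s' = b.reverse ++ (y :: t.reverse) := by
      have := congrArg List.reverse hv
      rw [List.reverse_reverse] at this
      rw [this]
      simp
    rw [h1, h2]
    exact le_bot_iff.1 ((inf_le_inf (seg_append_le K γ _ _) (seg_append_le K γ _ _)).trans
      (C2_disj K γ _ hne).le)

variable {W : Type} [LinearOrder W]

theorem inv_ag (γ : Θ) {p q : W → B} (hp : ∀ ν, K.Inv γ (p ν)) (hq : ∀ ν, K.Inv γ (q ν)) (ν : W) : K.Inv γ (ag p q ν) := by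
  unfold ag
  exact K.inv_iInf γ _ _ fun i => inv_bihimp K γ (hp _) (hq _)

theorem inv_ltv (γ : Θ) {p q : W → B} (hp : ∀ ν, K.Inv γ (p ν)) (hq : ∀ ν, K.Inv γ (q ν)) : K.Inv γ (ltv p q) := by
  unfold ltv
  exact inv_iSup K γ fun ν => inv_inf K γ (inv_inf K γ
    (K.inv_iInf γ _ _ fun i => inv_bihimp K γ (hp _) (hq _)) (K.inv_compl γ _ (hp ν))) (hq ν)

theorem inv_inc (γ : Θ) {x p q : W → B} (hx : ∀ ν, K.Inv γ (x ν)) (hp : ∀ ν, K.Inv γ (p ν)) (hq : ∀ ν, K.Inv γ (q ν)) :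
    K.Inv γ (inc x p q) := by
  unfold inc
  exact K.inv_iInf γ _ _ fun ν => inv_himp K γ (inv_ag K γ hp hq ν) (inv_bihimp K γ (hx ν) (hp ν))

theorem inv_valid (γ : Θ) {p q : List Bool → W → B} (hp : ∀ s ν, K.Inv γ (p s ν)) (hq : ∀ s ν, K.Inv γ (q s ν)) :
    K.Inv γ (valid p q) := by
  unfold valid
  refine K.inv_iInf γ _ _ fun s => inv_inf K γ (inv_inf K γ (inv_ltv K γ (hp s) (hq s))
    (K.inv_iInf γ _ _ fun r => inv_inc K γ (hp _) (hp s) (hq s))) ?_
  refine inv_iSup K γ fun ν => inv_inf K γ (inv_inf K γ (inv_inf K γ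
    (inv_ag K γ (hp _) (hq _) ν) (inv_ag K γ (hp _) (hq _) ν)) (K.inv_compl γ _ (hp _ ν))) (hp _ ν)

theorem inv_Lg {γ γ' : Θ} (h : γ ≠ γ') {p q : List Bool → W → B} (hp : ∀ s ν, K.Inv γ (p s ν)) (hq : ∀ s ν, K.Inv γ (q s ν))
    (ν : W) : K.Inv γ (Lg K γ' p q ν) := by
  unfold Lg
  exact inv_iSup K γ fun s => inv_inf K γ (K.inv_seg γ γ' s h) (inv_ag K γ (hp s) (hq s) ν)

theorem Lg_anti (γ : Θ) (p q : List Bool → W → B) {ν ν' : W} (h : ν ≤ ν') : Lg K γ p q ν' ≤ Lg K γ p q ν := by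
  unfold Lg
  exact iSup_mono fun s => inf_le_inf_left _ (ag_anti _ _ h)

theorem cn_ext (γ : Θ) (p q : List Bool → W → B) (x y : W → B) : eqv x y ⊓ cn K γ p q x ≤ cn K γ p q y := by
  unfold cn
  refine le_iInf fun s => ?_
  rw [le_himp_iff, inf_assoc]
  refine le_trans (inf_le_inf_left _ ?_) (inc_ext x y (p s) (q s))
  calc (⨅ s : List Bool, (K.seg γ s ⇨ inc x (p s) (q s))) ⊓ K.seg γ s
      ≤ (K.seg γ s ⇨ inc x (p s) (q s)) ⊓ K.seg γ s := inf_le_inf_right _ (iInf_le _ s)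
    _ ≤ inc x (p s) (q s) := himp_inf_le

theorem C2_bihimp_left {a b c : B} (h : c ≤ bihimp a b) : c ⊓ a ≤ b := by
  have h1 : c ≤ a ⇨ b := h.trans (by unfold bihimp; exact inf_le_right)
  exact le_himp_iff.1 h1

theorem pr_ext (γ : Θ) (p q : List Bool → W → B) (x y : W → B) : eqv x y ⊓ pr K γ p q x ≤ pr K γ p q y := by
  unfold pr
  rw [inf_iSup_eq]
  refine iSup_mono fun ν => ?_
  have h := C2_bihimp_left (eqv_le x y ν)
  refine le_inf (inf_le_right.trans inf_le_left) ?_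
  exact (le_inf inf_le_left (inf_le_right.trans inf_le_right)).trans h

theorem C2_valid_le (p q : List Bool → W → B) (r s : List Bool) :
    valid p q ≤ inc (p (r ++ s)) (p s) (q s) := by
  unfold valid
  exact (iInf_le _ s).trans (inf_le_left.trans (inf_le_right.trans (iInf_le _ r)))

theorem C2_inc_ag (x p q : W → B) (ν : W) : inc x p q ⊓ ag p q ν ≤ bihimp (x ν) (p ν) := by
  unfold inc
  exact (inf_le_inf_right _ (iInf_le _ ν)).trans himp_inf_le

/-- On the branch the digits of the nodes agree. [`seg_comp`, `valid` for `r ++ s`.] -/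
theorem nest (γ : Θ) (p q : List Bool → W → B) (s s' : List Bool) (ν : W) :
    valid p q ⊓ K.seg γ s ⊓ K.seg γ s' ⊓ ag (p s) (q s) ν ⊓ ag (p s') (q s') ν ≤ bihimp (p s ν) (p s' ν) := by
  by_cases h : K.seg γ s ⊓ K.seg γ s' = ⊥
  · refine le_trans ?_ bot_le
    rw [← h]
    exact le_inf (inf_le_left.trans (inf_le_left.trans (inf_le_left.trans inf_le_right)))
      (inf_le_left.trans (inf_le_left.trans inf_le_right))
  · have hv : valid p q ⊓ K.seg γ s ⊓ K.seg γ s' ⊓ ag (p s) (q s) ν ⊓ ag (p s') (q s') ν ≤ valid p q :=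
      inf_le_left.trans (inf_le_left.trans (inf_le_left.trans inf_le_left))
    rcases seg_comp K γ s s' h with ⟨r, rfl⟩ | ⟨r, rfl⟩
    · rw [bihimp_comm]
      exact (le_inf (hv.trans (C2_valid_le p q r s)) (inf_le_left.trans inf_le_right)).trans
        (C2_inc_ag _ _ _ ν)
    · exact (le_inf (hv.trans (C2_valid_le p q r s')) inf_le_right).trans
        (C2_inc_ag _ _ _ ν)

/-- A point extending a branch node has the digits of the nodes. -/
theorem cn_digit (γ : Θ) (p q : List Bool → W → B) (s : List Bool) (x : W → B) (ν : W) :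
    cn K γ p q x ⊓ K.seg γ s ⊓ ag (p s) (q s) ν ≤ ag x (p s) ν := by
  refine le_trans (inf_le_inf_right _ ?_) (inc_ag x (p s) (q s) ν)
  unfold cn
  exact (inf_le_inf_right _ (iInf_le _ s)).trans himp_inf_le

/-- The value of: the branch node has length `ν`. -/
def lenv (γ : Θ) (p q : List Bool → W → B) (ν : W) : B := (Lg K γ p q ν)ᶜ ⊓ ⨅ μ : {μ : W // μ < ν}, Lg K γ p q μ

theorem C2_lenv_disj (γ : Θ) (p q : List Bool → W → B) {ν ν' : W} (h : ν < ν') :
    lenv K γ p q ν ⊓ lenv K γ p q ν' = ⊥ := by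
  rw [eq_bot_iff]
  have h1 : lenv K γ p q ν ⊓ lenv K γ p q ν' ≤ Lg K γ p q ν :=
    inf_le_right.trans (inf_le_right.trans (iInf_le (fun μ : {μ : W // μ < ν'} => Lg K γ p q μ) ⟨ν, h⟩))
  have h2 : lenv K γ p q ν ⊓ lenv K γ p q ν' ≤ (Lg K γ p q ν)ᶜ := inf_le_left.trans inf_le_left
  exact (le_inf h1 h2).trans (inf_compl_self _).le

theorem lenv_disj (γ : Θ) (p q : List Bool → W → B) {ν ν' : W} (h : ν ≠ ν') : lenv K γ p q ν ⊓ lenv K γ p q ν' = ⊥ := by
  rcases lt_or_gt_of_ne h with h | h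
  · exact C2_lenv_disj K γ p q h
  · rw [inf_comm]
    exact C2_lenv_disj K γ p q h

/-- Least element. -/
theorem compl_Lg_le [WellFoundedLT W] (γ : Θ) (p q : List Bool → W → B) (ν : W) :
    (Lg K γ p q ν)ᶜ ≤ ⨆ ε : {ε : W // ε ≤ ν}, lenv K γ p q ε := by
  induction ν using WellFoundedLT.induction with
  | ind ν ih =>
    have h1 : (Lg K γ p q ν)ᶜ = ((Lg K γ p q ν)ᶜ ⊓ ⨅ μ : {μ : W // μ < ν}, Lg K γ p q μ) ⊔
        ((Lg K γ p q ν)ᶜ ⊓ (⨅ μ : {μ : W // μ < ν}, Lg K γ p q μ)ᶜ) := by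
      rw [← inf_sup_left, sup_compl_eq_top, inf_top_eq]
    rw [h1]
    refine sup_le ?_ ?_
    · exact le_iSup (fun ε : {ε : W // ε ≤ ν} => lenv K γ p q ε) ⟨ν, le_rfl⟩
    · refine inf_le_right.trans ?_
      rw [compl_iInf]
      refine iSup_le fun μ => (ih μ.1 μ.2).trans (iSup_le fun ε => ?_)
      exact le_iSup (fun ε : {ε : W // ε ≤ ν} => lenv K γ p q ε) ⟨ε.1, ε.2.trans μ.2.le⟩

end Pool.Agent.H.MP_353193_lc.BV
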