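import Pool.Agent.H.MP_353193_lc.BV.C2

/-!
# The cones of the tasks: consequences of freshness
-/

set_option autoImplicit false

open Cardinal

namespace Pool.Agent.H.MP_353193_lc.BV

variable {B : Type} [CompleteBooleanAlgebra B] {Θ : Type} (K : Coh B Θ) {W : Type} [LinearOrder W]

theorem C3_elim {ι : Sort*} {e y : B} {f : ι → B} (h : e ≤ ⨆ i, f i) (h' : ∀ i, e ⊓ f i ≤ y) :
    e ≤ y := by
  have : e ≤ e ⊓ ⨆ i, f i := le_inf le_rfl h
  rw [inf_iSup_eq] at this
  exact this.trans (iSup_le h')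

theorem C3_mp {a b : B} : bihimp a b ⊓ a ≤ b := by
  rw [bihimp_def, inf_assoc]
  exact inf_le_right.trans (himp_inf_le)

theorem C3_mp' {a b : B} : bihimp a b ⊓ b ≤ a := by
  rw [bihimp_comm]
  exact C3_mp

theorem C3_trans {e a b c : B} (h : e ≤ bihimp a b) (h' : e ≤ bihimp b c) : e ≤ bihimp a c :=
  (le_inf h h').trans (bihimp_triangle a b c)

theorem C3_symm {e a b : B} (h : e ≤ bihimp a b) : e ≤ bihimp b a := by
  rwa [bihimp_comm]

theorem C3_app {e a b : B} (h : e ≤ bihimp a b) (h' : e ≤ a) : e ≤ b := (le_inf h h').trans C3_mp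

theorem C3_bot {e a : B} (h : e ≤ a) (h' : e ≤ aᶜ) : e ≤ ⊥ := by
  have := le_inf h h'
  rwa [inf_compl_self] at this

theorem C3_ag {e : B} {p q : W → B} {ν μ : W} (h : e ≤ ag p q ν) (hμ : μ ≤ ν) :
    e ≤ bihimp (p μ) (q μ) := h.trans (iInf_le (fun μ : {μ : W // μ ≤ ν} => bihimp (p μ) (q μ)) ⟨μ, hμ⟩)

theorem C3_inc {e : B} {x p q : W → B} {ν : W} (h : e ≤ inc x p q) (h' : e ≤ ag p q ν) :
    e ≤ bihimp (x ν) (p ν) :=
  (le_inf (h.trans (iInf_le _ ν)) h').trans himp_inf_le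

/-- A point which does not depend on the `γ`-th real does not extend the branch node. [`fresh` with
`d s = valid p q ⊓ inc x (p s) (q s)`; the two incomparable nodes of `valid` give `d (false :: s) ⊓ d (true :: s) = ⊥`.] -/
theorem valid_cn_bot (γ : Θ) (p q : List Bool → W → B) (x : W → B) (hp : ∀ s ν, K.Inv γ (p s ν))
    (hq : ∀ s ν, K.Inv γ (q s ν)) (hx : ∀ ν, K.Inv γ (x ν)) : valid p q ⊓ cn K γ p q x = ⊥ := by
  have hf := K.fresh γ (fun s => valid p q ⊓ inc x (p s) (q s))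
    (fun s => inv_inf K γ (inv_valid K γ hp hq) (inv_inc K γ hx (hp s) (hq s))) ?_
  · rw [eq_bot_iff, ← hf]
    refine le_iInf fun s => ?_
    rw [le_himp_iff]
    refine le_inf (inf_le_left.trans inf_le_left) ?_
    have h1 : valid p q ⊓ cn K γ p q x ≤ K.seg γ s ⇨ inc x (p s) (q s) :=
      inf_le_right.trans (iInf_le _ s)
    exact le_himp_iff.mp h1
  · intro s
    rw [eq_bot_iff]
    have hv : valid p q ⊓ inc x (p (false :: s)) (q (false :: s)) ⊓
        (valid p q ⊓ inc x (p (true :: s)) (q (true :: s))) ≤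
        ⨆ ν, ag (p (false :: s)) (q (false :: s)) ν ⊓ ag (p (true :: s)) (q (true :: s)) ν ⊓
          (p (false :: s) ν)ᶜ ⊓ p (true :: s) ν :=
      (inf_le_left.trans inf_le_left).trans ((iInf_le _ s).trans inf_le_right)
    refine C3_elim hv fun ν => ?_
    have a0 : valid p q ⊓ inc x (p (false :: s)) (q (false :: s)) ⊓
        (valid p q ⊓ inc x (p (true :: s)) (q (true :: s))) ⊓
        (ag (p (false :: s)) (q (false :: s)) ν ⊓ ag (p (true :: s)) (q (true :: s)) ν ⊓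
          (p (false :: s) ν)ᶜ ⊓ p (true :: s) ν) ≤ inc x (p (false :: s)) (q (false :: s)) :=
      inf_le_left.trans (inf_le_left.trans inf_le_right)
    have a1 : valid p q ⊓ inc x (p (false :: s)) (q (false :: s)) ⊓
        (valid p q ⊓ inc x (p (true :: s)) (q (true :: s))) ⊓
        (ag (p (false :: s)) (q (false :: s)) ν ⊓ ag (p (true :: s)) (q (true :: s)) ν ⊓
          (p (false :: s) ν)ᶜ ⊓ p (true :: s) ν) ≤ inc x (p (true :: s)) (q (true :: s)) :=
      inf_le_left.trans (inf_le_right.trans inf_le_right)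
    have b0 := C3_inc a0 (inf_le_right.trans (inf_le_left.trans (inf_le_left.trans inf_le_left)))
    have b1 := C3_inc a1 (inf_le_right.trans (inf_le_left.trans (inf_le_left.trans inf_le_right)))
    exact C3_bot (C3_app (C3_trans (C3_symm b1) b0) (inf_le_right.trans inf_le_right))
      (inf_le_right.trans (inf_le_left.trans inf_le_right))

/-- The branch node of `(p, q)` along a fresh real `γ` is not an initial segment of the branch node of `(p', q')` along `γ'`.
[`fresh` with `d s = valid p q ⊓ valid p' q' ⊓ ⨅ ν, (ag (p s) (q s) ν ⇨ ⨆ s', seg γ' s' ⊓ ag (p' s') (q' s') ν ⊓ bihimp (p s ν) (p' s' ν))`;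
disjointness by `nest` for `(p', q')`. If all `Lg .. ν ≤ Lg' .. ν`, then `x` in both cones gives: `seg γ s ≤ d s`.] -/
theorem longer (γ γ' : Θ) (h : γ ≠ γ') (p q p' q' : List Bool → W → B) (x : W → B) (hp : ∀ s ν, K.Inv γ (p s ν))
    (hq : ∀ s ν, K.Inv γ (q s ν)) (hp' : ∀ s ν, K.Inv γ (p' s ν)) (hq' : ∀ s ν, K.Inv γ (q' s ν)) :
    valid p q ⊓ cn K γ p q x ⊓ (valid p' q' ⊓ cn K γ' p' q' x) ≤ ⨆ ν, Lg K γ p q ν ⊓ (Lg K γ' p' q' ν)ᶜ := by
  have hf := K.fresh γ (fun s => valid p q ⊓ valid p' q' ⊓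
    ⨅ ν, (ag (p s) (q s) ν ⇨ ⨆ s', K.seg γ' s' ⊓ ag (p' s') (q' s') ν ⊓ bihimp (p s ν) (p' s' ν)))
    (fun s => inv_inf K γ (inv_inf K γ (inv_valid K γ hp hq) (inv_valid K γ hp' hq'))
      (K.inv_iInf γ _ _ fun ν => inv_himp K γ (inv_ag K γ (hp s) (hq s) ν)
        (inv_iSup K γ fun s' => inv_inf K γ (inv_inf K γ (K.inv_seg γ γ' s' h)
          (inv_ag K γ (hp' s') (hq' s') ν)) (inv_bihimp K γ (hp s ν) (hp' s' ν))))) ?_
  · -- the main inequality
    have key : valid p q ⊓ cn K γ p q x ⊓ (valid p' q' ⊓ cn K γ' p' q' x) ⊓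
        (⨆ ν, Lg K γ p q ν ⊓ (Lg K γ' p' q' ν)ᶜ)ᶜ ≤ ⊥ := by
      rw [← hf]
      refine le_iInf fun s => ?_
      rw [le_himp_iff]
      set e := valid p q ⊓ cn K γ p q x ⊓ (valid p' q' ⊓ cn K γ' p' q' x) ⊓
        (⨆ ν, Lg K γ p q ν ⊓ (Lg K γ' p' q' ν)ᶜ)ᶜ ⊓ K.seg γ s with he
      have e1 : e ≤ valid p q := inf_le_left.trans (inf_le_left.trans (inf_le_left.trans inf_le_left))
      have e2 : e ≤ cn K γ p q x :=
        inf_le_left.trans (inf_le_left.trans (inf_le_left.trans inf_le_right))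
      have e3 : e ≤ valid p' q' :=
        inf_le_left.trans (inf_le_left.trans (inf_le_right.trans inf_le_left))
      have e4 : e ≤ cn K γ' p' q' x :=
        inf_le_left.trans (inf_le_left.trans (inf_le_right.trans inf_le_right))
      have e5 : e ≤ (⨆ ν, Lg K γ p q ν ⊓ (Lg K γ' p' q' ν)ᶜ)ᶜ := inf_le_left.trans inf_le_right
      have e6 : e ≤ K.seg γ s := inf_le_right
      refine le_inf (le_inf e1 e3) (le_iInf fun ν => ?_)
      rw [le_himp_iff]
      have f1 : e ⊓ ag (p s) (q s) ν ≤ Lg K γ p q ν :=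
        (le_inf (inf_le_left.trans e6) inf_le_right).trans
          (le_iSup (fun s => K.seg γ s ⊓ ag (p s) (q s) ν) s)
      have f2 : e ⊓ ag (p s) (q s) ν ≤ Lg K γ' p' q' ν := by
        have h5 : e ⊓ ag (p s) (q s) ν ≤ (Lg K γ p q ν ⊓ (Lg K γ' p' q' ν)ᶜ)ᶜ :=
          (inf_le_left.trans e5).trans (compl_le_compl
            (le_iSup (fun ν => Lg K γ p q ν ⊓ (Lg K γ' p' q' ν)ᶜ) ν))
        rw [compl_inf, compl_compl] at h5
        have h6 := le_inf h5 f1
        rw [inf_sup_right, compl_inf_self, bot_sup_eq] at h6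
        exact h6.trans inf_le_left
      refine C3_elim f2 fun s' => ?_
      refine le_trans (le_inf (inf_le_right) ?_) (le_iSup
        (fun s' => K.seg γ' s' ⊓ ag (p' s') (q' s') ν ⊓ bihimp (p s ν) (p' s' ν)) s')
      have g1 : e ⊓ ag (p s) (q s) ν ⊓ (K.seg γ' s' ⊓ ag (p' s') (q' s') ν) ≤ ag x (p s) ν :=
        (le_inf (le_inf (inf_le_left.trans (inf_le_left.trans e2))
          (inf_le_left.trans (inf_le_left.trans e6))) (inf_le_left.trans inf_le_right)).trans
          (cn_digit K γ p q s x ν)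
      have g2 : e ⊓ ag (p s) (q s) ν ⊓ (K.seg γ' s' ⊓ ag (p' s') (q' s') ν) ≤ ag x (p' s') ν :=
        (le_inf (le_inf (inf_le_left.trans (inf_le_left.trans e4))
          (inf_le_right.trans inf_le_left)) (inf_le_right.trans inf_le_right)).trans
          (cn_digit K γ' p' q' s' x ν)
      exact C3_trans (C3_symm (C3_ag g1 le_rfl)) (C3_ag g2 le_rfl)
    rw [le_bot_iff, ← sdiff_eq] at key
    exact sdiff_eq_bot_iff.mp key
  · intro s
    rw [eq_bot_iff]
    set e := (valid p q ⊓ valid p' q' ⊓ ⨅ ν, (ag (p (false :: s)) (q (false :: s)) ν ⇨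
        ⨆ s', K.seg γ' s' ⊓ ag (p' s') (q' s') ν ⊓ bihimp (p (false :: s) ν) (p' s' ν))) ⊓
      (valid p q ⊓ valid p' q' ⊓ ⨅ ν, (ag (p (true :: s)) (q (true :: s)) ν ⇨
        ⨆ s', K.seg γ' s' ⊓ ag (p' s') (q' s') ν ⊓ bihimp (p (true :: s) ν) (p' s' ν))) with he
    have e1 : e ≤ valid p q := inf_le_left.trans (inf_le_left.trans inf_le_left)
    have e2 : e ≤ valid p' q' := inf_le_left.trans (inf_le_left.trans inf_le_right)
    have e3 : ∀ ν, e ≤ ag (p (false :: s)) (q (false :: s)) ν ⇨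
        ⨆ s', K.seg γ' s' ⊓ ag (p' s') (q' s') ν ⊓ bihimp (p (false :: s) ν) (p' s' ν) := fun ν =>
      (inf_le_left.trans inf_le_right).trans (iInf_le _ ν)
    have e4 : ∀ ν, e ≤ ag (p (true :: s)) (q (true :: s)) ν ⇨
        ⨆ s', K.seg γ' s' ⊓ ag (p' s') (q' s') ν ⊓ bihimp (p (true :: s) ν) (p' s' ν) := fun ν =>
      (inf_le_right.trans inf_le_right).trans (iInf_le _ ν)
    have hv : e ≤ ⨆ ν, ag (p (false :: s)) (q (false :: s)) ν ⊓
        ag (p (true :: s)) (q (true :: s)) ν ⊓ (p (false :: s) ν)ᶜ ⊓ p (true :: s) ν :=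
      e1.trans ((iInf_le _ s).trans inf_le_right)
    refine C3_elim hv fun ν => ?_
    have g1 : e ⊓ (ag (p (false :: s)) (q (false :: s)) ν ⊓ ag (p (true :: s)) (q (true :: s)) ν ⊓
        (p (false :: s) ν)ᶜ ⊓ p (true :: s) ν) ≤
        ⨆ s', K.seg γ' s' ⊓ ag (p' s') (q' s') ν ⊓ bihimp (p (false :: s) ν) (p' s' ν) :=
      (inf_le_inf (e3 ν) (inf_le_left.trans (inf_le_left.trans inf_le_left))).trans himp_inf_le
    have g2 : e ⊓ (ag (p (false :: s)) (q (false :: s)) ν ⊓ ag (p (true :: s)) (q (true :: s)) ν ⊓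
        (p (false :: s) ν)ᶜ ⊓ p (true :: s) ν) ≤
        ⨆ s', K.seg γ' s' ⊓ ag (p' s') (q' s') ν ⊓ bihimp (p (true :: s) ν) (p' s' ν) :=
      (inf_le_inf (e4 ν) (inf_le_left.trans (inf_le_left.trans inf_le_right))).trans himp_inf_le
    refine C3_elim g1 fun s₁ => C3_elim (inf_le_left.trans g2) fun s₂ => ?_
    set r := e ⊓ (ag (p (false :: s)) (q (false :: s)) ν ⊓ ag (p (true :: s)) (q (true :: s)) ν ⊓
        (p (false :: s) ν)ᶜ ⊓ p (true :: s) ν) with hr
    set u := r ⊓ (K.seg γ' s₁ ⊓ ag (p' s₁) (q' s₁) ν ⊓ bihimp (p (false :: s) ν) (p' s₁ ν)) ⊓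
      (K.seg γ' s₂ ⊓ ag (p' s₂) (q' s₂) ν ⊓ bihimp (p (true :: s) ν) (p' s₂ ν)) with hu
    have u0 : u ≤ r := inf_le_left.trans inf_le_left
    have u1 : u ≤ K.seg γ' s₁ ⊓ ag (p' s₁) (q' s₁) ν ⊓ bihimp (p (false :: s) ν) (p' s₁ ν) :=
      inf_le_left.trans inf_le_right
    have u2 : u ≤ K.seg γ' s₂ ⊓ ag (p' s₂) (q' s₂) ν ⊓ bihimp (p (true :: s) ν) (p' s₂ ν) :=
      inf_le_right
    have u3 : u ≤ bihimp (p' s₁ ν) (p' s₂ ν) :=
      (le_inf (le_inf (le_inf (le_inf ((u0.trans inf_le_left).trans e2)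
        (u1.trans (inf_le_left.trans inf_le_left))) (u2.trans (inf_le_left.trans inf_le_left)))
        (u1.trans (inf_le_left.trans inf_le_right))) (u2.trans (inf_le_left.trans inf_le_right))).trans
        (nest K γ' p' q' s₁ s₂ ν)
    have u4 : u ≤ bihimp (p (true :: s) ν) (p (false :: s) ν) :=
      C3_trans (C3_trans (u2.trans inf_le_right) (C3_symm u3)) (C3_symm (u1.trans inf_le_right))
    exact C3_bot (C3_app u4 (u0.trans (inf_le_right.trans inf_le_right)))
      (u0.trans (inf_le_right.trans (inf_le_left.trans inf_le_right)))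

/-- If `x` extends both nodes and the node of `(p, q)` is longer than the node of `(p', q')`, witnessed by `ν` and `s`, then `q s`
extends the node of `(p', q')` and has a digit 1 after it (at the first difference of `p s` and `q s`, which is `> ν`). -/
theorem inside (γ γ' : Θ) (p q p' q' : List Bool → W → B) (x : W → B) (ν : W) (s : List Bool) :
    valid p q ⊓ cn K γ p q x ⊓ cn K γ' p' q' x ⊓ (K.seg γ s ⊓ ag (p s) (q s) ν ⊓ (Lg K γ' p' q' ν)ᶜ) ≤
      cn K γ' p' q' (q s) ⊓ pr K γ' p' q' (q s) := by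
  set e := valid p q ⊓ cn K γ p q x ⊓ cn K γ' p' q' x ⊓
    (K.seg γ s ⊓ ag (p s) (q s) ν ⊓ (Lg K γ' p' q' ν)ᶜ) with he
  have e1 : e ≤ valid p q := inf_le_left.trans (inf_le_left.trans inf_le_left)
  have e2 : e ≤ cn K γ p q x := inf_le_left.trans (inf_le_left.trans inf_le_right)
  have e3 : e ≤ cn K γ' p' q' x := inf_le_left.trans inf_le_right
  have e4 : e ≤ K.seg γ s := inf_le_right.trans (inf_le_left.trans inf_le_left)
  have e5 : e ≤ ag (p s) (q s) ν := inf_le_right.trans (inf_le_left.trans inf_le_right)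
  have e6 : e ≤ (Lg K γ' p' q' ν)ᶜ := inf_le_right.trans inf_le_right
  refine le_inf (le_iInf fun s' => ?_) ?_
  · rw [le_himp_iff]
    refine le_iInf fun μ => ?_
    rw [le_himp_iff]
    set u := e ⊓ K.seg γ' s' ⊓ ag (p' s') (q' s') μ with hu
    have u0 : u ≤ e := inf_le_left.trans inf_le_left
    have u1 : u ≤ K.seg γ' s' := inf_le_left.trans inf_le_right
    have u2 : u ≤ ag (p' s') (q' s') μ := inf_le_right
    rcases le_total ν μ with hμ | hμ
    · have : u ≤ Lg K γ' p' q' μ := (le_inf u1 u2).trans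
        (le_iSup (fun s' => K.seg γ' s' ⊓ ag (p' s') (q' s') μ) s')
      exact (C3_bot (this.trans (Lg_anti K γ' p' q' hμ)) (u0.trans e6)).trans bot_le
    · have a1 : u ≤ ag x (p s) ν := (le_inf (le_inf (u0.trans e2) (u0.trans e4)) (u0.trans e5)).trans
        (cn_digit K γ p q s x ν)
      have a2 : u ≤ ag x (p' s') μ := (le_inf (le_inf (u0.trans e3) u1) u2).trans
        (cn_digit K γ' p' q' s' x μ)
      have a3 : u ≤ bihimp (p s μ) (q s μ) := C3_ag (u0.trans e5) hμ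
      exact C3_trans (C3_symm a3) (C3_trans (C3_symm (C3_ag a1 hμ)) (C3_ag a2 le_rfl))
  · have hv : e ≤ ltv (p s) (q s) := e1.trans ((iInf_le _ s).trans (inf_le_left.trans inf_le_left))
    rw [ltv_eq] at hv
    refine C3_elim hv fun ν' => ?_
    rcases le_or_gt ν' ν with hν | hν
    · have : e ⊓ dif (p s) (q s) ν' ≤ dif (p s) (q s) ν' ⊓ ag (p s) (q s) ν :=
        le_inf inf_le_right (inf_le_left.trans e5)
      rw [dif_ag _ _ hν] at this
      exact this.trans bot_le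
    · refine le_trans (le_inf ((inf_le_left.trans e6).trans
        (compl_le_compl (Lg_anti K γ' p' q' hν.le))) (inf_le_right.trans inf_le_right)) ?_
      exact le_iSup (fun ν => (Lg K γ' p' q' ν)ᶜ ⊓ q s ν) ν'

variable {D : Set W} (c : Task B D → Θ)

theorem Wv_ext (t : Task B D) (x y : W → B) : eqv x y ⊓ Wv K c t x ≤ Wv K c t y := by
  have h1 : eqv x y ⊓ Wv K c t x ≤ eqv x y := inf_le_left
  have h2 : eqv x y ⊓ Wv K c t x ≤ cn K (c t) t.p t.q x :=
    inf_le_right.trans (inf_le_left.trans inf_le_right)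
  have h3 : eqv x y ⊓ Wv K c t x ≤ pr K (c t) t.p t.q x := inf_le_right.trans inf_le_right
  have h4 : eqv x y ⊓ Wv K c t x ≤ valid t.p t.q :=
    inf_le_right.trans (inf_le_left.trans inf_le_left)
  exact le_inf (le_inf h4 ((le_inf h1 h2).trans (cn_ext K (c t) t.p t.q x y)))
    ((le_inf h1 h3).trans (pr_ext K (c t) t.p t.q x y))

variable [LinearOrder (Task B D)]

theorem Wv_target (hc : Fresh K c) {t' t : Task B D} (h : t' ≤ t) (i : D) : Wv K c t (t'.y i) = ⊥ := by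
  rw [eq_bot_iff]
  have h1 := hc t t le_rfl
  have h2 := hc t' t h
  exact inf_le_left.trans (valid_cn_bot K (c t) t.p t.q (t'.y i) h1.1 h1.2.1 (h2.2.2.1 i)).le

theorem Wv_longer (hc : Fresh K c) {t' t : Task B D} (h : t' < t) (x : W → B) :
    Wv K c t x ⊓ Wv K c t' x ≤ ⨆ ν, Lg K (c t) t.p t.q ν ⊓ (Lg K (c t') t'.p t'.q ν)ᶜ := by
  have h1 := hc t t le_rfl
  have h2 := hc t' t h.le
  exact (inf_le_inf inf_le_left inf_le_left).trans
    (longer K (c t) (c t') (h2.2.2.2 h.ne) t.p t.q t'.p t'.q x h1.1 h1.2.1 h2.1 h2.2.1)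

theorem Wv_sb (hc : Fresh K c) {t' t : Task B D} (h : t' < t) (x : W → B) : Wv K c t x ⊓ Wv K c t' x ≤ sb K c t' t := by
  refine C3_elim (Wv_longer K c hc h x) fun ν => ?_
  set e := Wv K c t x ⊓ Wv K c t' x ⊓ (Lg K (c t) t.p t.q ν ⊓ (Lg K (c t') t'.p t'.q ν)ᶜ) with he
  have e1 : e ≤ Wv K c t x := inf_le_left.trans inf_le_left
  have e2 : e ≤ Wv K c t' x := inf_le_left.trans inf_le_right
  have e3 : e ≤ Lg K (c t) t.p t.q ν := inf_le_right.trans inf_le_left
  have e4 : e ≤ (Lg K (c t') t'.p t'.q ν)ᶜ := inf_le_right.trans inf_le_right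
  refine C3_elim e3 fun s => ?_
  have f1 := (le_inf (le_inf (le_inf (inf_le_left.trans (e1.trans (inf_le_left.trans inf_le_left)))
    (inf_le_left.trans (e1.trans (inf_le_left.trans inf_le_right))))
    (inf_le_left.trans (e2.trans (inf_le_left.trans inf_le_right))))
    (le_inf inf_le_right (inf_le_left.trans e4))).trans
    (inside K (c t) (c t') t.p t.q t'.p t'.q x ν s)
  refine le_trans (le_inf (inf_le_right.trans inf_le_left) (le_inf (le_inf
    (inf_le_left.trans (e2.trans (inf_le_left.trans inf_le_left))) (f1.trans inf_le_left))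
    (f1.trans inf_le_right))) ?_
  exact le_iSup (fun s => K.seg (c t) s ⊓ Wv K c t' (t.q s)) s

end Pool.Agent.H.MP_353193_lc.BV
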