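import Pool.Agent.H.MP_353193_lc.BV.Iface
import Pool.Agent.H.MP_8ff4bd_gt.M3.RO

/-!
# Definitions for the combinatorial core (Cohen algebra)

`B` a complete Boolean algebra, `W` a well-order, `D` an initial segment of `W` of type `ω_{n+1}` (`Seg W D lam`, `lam = ℵ_n`).
A function `x : W → B` is a name of a 0-1 sequence. `Coh B Θ` collects the properties of the Cohen reals with index set `Θ`.
-/

set_option autoImplicit false

open Cardinal

namespace Pool.Agent.H.MP_353193_lc.BV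

section basic

variable {B : Type} [CompleteBooleanAlgebra B] {W : Type} [LinearOrder W]

/-- The value of: `p` and `q` agree up to and including `ν`. -/
def ag (p q : W → B) (ν : W) : B := ⨅ μ : {μ : W // μ ≤ ν}, bihimp (p μ) (q μ)

/-- The value of: `p < q` and the first difference is `ν`. -/
def dif (p q : W → B) (ν : W) : B := (⨅ μ : {μ : W // μ < ν}, bihimp (p μ) (q μ)) ⊓ (p ν)ᶜ ⊓ q ν

/-- The value of: `x` extends the meet of `p` and `q`. -/
def inc (x p q : W → B) : B := ⨅ ν, (ag p q ν ⇨ bihimp (x ν) (p ν))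

/-- The value of: `(p s, q s)` is a scheme (the nodes are the meets `u_s` of `p s` and `q s`; `u_{0s}`, `u_{1s}` incomparable). -/
def valid (p q : List Bool → W → B) : B :=
  ⨅ s : List Bool, (ltv (p s) (q s) ⊓ (⨅ r : List Bool, inc (p (r ++ s)) (p s) (q s))) ⊓
    ⨆ ν, ag (p (false :: s)) (q (false :: s)) ν ⊓ ag (p (true :: s)) (q (true :: s)) ν ⊓
      (p (false :: s) ν)ᶜ ⊓ p (true :: s) ν

/-- `x` is bounded by an element of `D`. -/
def Bd (D : Set W) (x : W → B) : Prop := ∃ δ ∈ D, ∀ ν, δ ≤ ν → x ν = ⊥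

/-- The value of: `x` is bounded by an element of `D`. -/
def rv (D : Set W) (x : W → B) : B := ⨆ δ : D, ⨅ ν : {ν : W // (δ : W) ≤ ν}, (x ν)ᶜ

/-- `D` is an initial segment of `W`, all members have at most `lam` predecessors and all subsets of size at most `lam` are
strictly bounded in `D`. -/
structure Seg (W : Type) [LinearOrder W] (D : Set W) (lam : Cardinal.{0}) : Prop where
  low : ∀ a b : W, a ≤ b → b ∈ D → a ∈ D
  iio : ∀ a ∈ D, Cardinal.mk (Set.Iio a) ≤ lam
  reg : ∀ A : Set W, A ⊆ D → Cardinal.mk A ≤ lam → ∃ b ∈ D, ∀ a ∈ A, a < b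
  inf : ℵ₀ ≤ lam

end basic

/-- Properties of Cohen reals in `B` with index set `Θ`: `seg γ s` is the value of: the list `s` (newest digit first) is an initial
segment of the `γ`-th real; `Inv γ b`: `b` does not depend on the `γ`-th real. -/
structure Coh (B : Type) [CompleteBooleanAlgebra B] (Θ : Type) where
  seg : Θ → List Bool → B
  Inv : Θ → B → Prop
  seg_nil : ∀ γ, seg γ [] = ⊤
  seg_disj : ∀ γ s, seg γ (false :: s) ⊓ seg γ (true :: s) = ⊥
  seg_split : ∀ γ s, seg γ (false :: s) ⊔ seg γ (true :: s) = seg γ s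
  inv_compl : ∀ γ a, Inv γ a → Inv γ aᶜ
  inv_iInf : ∀ γ (ι : Type) (a : ι → B), (∀ i, Inv γ (a i)) → Inv γ (⨅ i, a i)
  inv_seg : ∀ γ γ' s, γ ≠ γ' → Inv γ (seg γ' s)
  fresh : ∀ γ (d : List Bool → B), (∀ s, Inv γ (d s)) → (∀ s, d (false :: s) ⊓ d (true :: s) = ⊥) →
    ⨅ s, (seg γ s ⇨ d s) = ⊥
  supp : ∀ b, {γ | ¬ Inv γ b}.Countable

section task

variable {B : Type} [CompleteBooleanAlgebra B] {Θ : Type} {W : Type} [LinearOrder W]

/-- The value of: `ν` is below the length of the branch node of the scheme `(p, q)` along the `γ`-th real. -/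
def Lg (K : Coh B Θ) (γ : Θ) (p q : List Bool → W → B) (ν : W) : B := ⨆ s : List Bool, K.seg γ s ⊓ ag (p s) (q s) ν

/-- The value of: `x` extends the branch node. -/
def cn (K : Coh B Θ) (γ : Θ) (p q : List Bool → W → B) (x : W → B) : B :=
  ⨅ s : List Bool, (K.seg γ s ⇨ inc x (p s) (q s))

/-- The value of: `x` has a digit 1 after the branch node. -/
def pr (K : Coh B Θ) (γ : Θ) (p q : List Bool → W → B) (x : W → B) : B := ⨆ ν, (Lg K γ p q ν)ᶜ ⊓ x ν

variable (B)

/-- A task: a scheme `(p, q)`, a family `y` of targets and a label `β`. -/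
structure Task (D : Set W) where
  p : List Bool → W → B
  q : List Bool → W → B
  y : D → W → B
  β : D
  hq : ∀ s, Bd D (q s)
  hy : ∀ i, Bd D (y i)

variable {B}

/-- The cone of the task `t`: the branch is the real number `c t`. -/
def Wv (K : Coh B Θ) {D : Set W} (c : Task B D → Θ) (t : Task B D) (x : W → B) : B :=
  valid t.p t.q ⊓ cn K (c t) t.p t.q x ⊓ pr K (c t) t.p t.q x

/-- The value of: some `q s` on the branch of `t` is in the cone of `t'`. -/
def sb (K : Coh B Θ) {D : Set W} (c : Task B D → Θ) (t' t : Task B D) : B :=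
  ⨆ s : List Bool, K.seg (c t) s ⊓ Wv K c t' (t.q s)

/-- The value of: the rank of `x` is `i` (the least `i` which is at least all labels of cones that contain `x`). -/
def rk (K : Coh B Θ) {D : Set W} (c : Task B D → Θ) (x : W → B) (i : D) : B :=
  (⨅ t : {t : Task B D // i < t.β}, (Wv K c t.1 x)ᶜ) ⊓ ⨅ j : {j : D // j < i}, ⨆ t : {t : Task B D // j.1 < t.β}, Wv K c t.1 x

/-- The directed edge `x → y` of the task `t`, accepted with value `a`. -/
def arr (K : Coh B Θ) {D : Set W} (c : Task B D → Θ) (a : B) (t : Task B D) (x y : W → B) : B :=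
  a ⊓ Wv K c t x ⊓ ⨆ i : D, rk K c x i ⊓ eqv y (t.y i)

/-- Freshness of the branches. -/
def Fresh (K : Coh B Θ) {D : Set W} [LinearOrder (Task B D)] (c : Task B D → Θ) : Prop :=
  ∀ t' t : Task B D, t' ≤ t → (∀ s ν, K.Inv (c t) (t'.p s ν)) ∧ (∀ s ν, K.Inv (c t) (t'.q s ν)) ∧
    (∀ i ν, K.Inv (c t) (t'.y i ν)) ∧ (t' ≠ t → c t ≠ c t')

/-- One step of the recursion for `acc`. -/
noncomputable def accF (K : Coh B Θ) {D : Set W} [LinearOrder (Task B D)] (c : Task B D → Θ)
    (t : Task B D) (rec : ∀ t' : Task B D, t' < t → B) : B :=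
  (⨅ i : D, ⨆ j : {j : D // i ≤ j}, rk K c (t.y i) j.1) ⊓
    ⨅ t' : {t' : Task B D // t' < t}, (rec t'.1 t'.2 ⊓ sb K c t'.1 t) ⇨
      ⨅ i : D, (⨆ t'' : {t'' : Task B D // t'' < t}, arr K c (rec t''.1 t''.2) t''.1 (t.y i) (t'.1.y i) ⊔
        arr K c (rec t''.1 t''.2) t''.1 (t'.1.y i) (t.y i))ᶜ

/-- The value of: the task `t` is accepted. -/
noncomputable def acc (K : Coh B Θ) {D : Set W} [LinearOrder (Task B D)] [WellFoundedLT (Task B D)] (c : Task B D → Θ) :
    Task B D → B :=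
  (wellFounded_lt (α := Task B D)).fix (C := fun _ => B) (accF K c)

theorem acc_eq (K : Coh B Θ) {D : Set W} [LinearOrder (Task B D)] [WellFoundedLT (Task B D)] (c : Task B D → Θ)
    (t : Task B D) : acc K c t =
    (⨅ i : D, ⨆ j : {j : D // i ≤ j}, rk K c (t.y i) j.1) ⊓
    ⨅ t' : {t' : Task B D // t' < t}, (acc K c t'.1 ⊓ sb K c t'.1 t) ⇨
      ⨅ i : D, (⨆ t'' : {t'' : Task B D // t'' < t}, arr K c (acc K c t''.1) t''.1 (t.y i) (t'.1.y i) ⊔
        arr K c (acc K c t''.1) t''.1 (t'.1.y i) (t.y i))ᶜ := by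
  conv_lhs => rw [acc, WellFounded.fix_eq]
  rfl

/-- Adjacency. -/
noncomputable def Adjv (K : Coh B Θ) {D : Set W} [LinearOrder (Task B D)] [WellFoundedLT (Task B D)] (c : Task B D → Θ)
    (x y : W → B) : B :=
  ⨆ t : Task B D, arr K c (acc K c t) t x y ⊔ arr K c (acc K c t) t y x

end task

end Pool.Agent.H.MP_353193_lc.BV
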