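import Pool.Agent.H.MP_353193_lc.BV.R0

/-!
# The graph is triangle-free
-/

set_option autoImplicit false

open Cardinal

namespace Pool.Agent.H.MP_353193_lc.BV

variable {B : Type} [CompleteBooleanAlgebra B] {Θ : Type} (K : Coh B Θ) {W : Type} [LinearOrder W]
  {D : Set W} (c : Task B D → Θ)

/-- One rank. -/
theorem G1_le_arr (a : B) (t : Task B D) (x y : W → B) (i : D) :
    a ⊓ Wv K c t x ⊓ (rk K c x i ⊓ eqv y (t.y i)) ≤ arr K c a t x y := by
  unfold arr
  exact inf_le_inf_left _ (le_iSup (fun i : D => rk K c x i ⊓ eqv y (t.y i)) i)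

/-- Case distinction by the rank. -/
theorem G1_arr_le (a : B) (t : Task B D) (x y : W → B) (u v : B)
    (h : ∀ i : D, u ⊓ (a ⊓ Wv K c t x ⊓ (rk K c x i ⊓ eqv y (t.y i))) ≤ v) :
    u ⊓ arr K c a t x y ≤ v := by
  unfold arr
  rw [inf_iSup_eq, inf_iSup_eq]
  exact iSup_le h

theorem G1_arr_le_Wv (a : B) (t : Task B D) (x y : W → B) : arr K c a t x y ≤ Wv K c t x := by
  unfold arr
  exact inf_le_left.trans inf_le_right

theorem G1_arr_le_a (a : B) (t : Task B D) (x y : W → B) : arr K c a t x y ≤ a := by
  unfold arr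
  exact inf_le_left.trans inf_le_left

theorem arr_ext_left (a : B) (t : Task B D) (x x' y : W → B) : eqv x x' ⊓ arr K c a t x y ≤ arr K c a t x' y := by
  refine G1_arr_le K c a t x y _ _ fun i => ?_
  refine le_trans ?_ (G1_le_arr K c a t x' y i)
  have h1 := Wv_ext K c t x x'
  have h2 := rk_ext K c x x' i
  refine le_inf (le_inf ?_ ?_) (le_inf ?_ ?_)
  · exact inf_le_right.trans (inf_le_left.trans inf_le_left)
  · exact (inf_le_inf_left _ (inf_le_left.trans inf_le_right)).trans h1
  · exact (inf_le_inf_left _ (inf_le_right.trans inf_le_left)).trans h2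
  · exact inf_le_right.trans (inf_le_right.trans inf_le_right)

theorem arr_ext_right (a : B) (t : Task B D) (x y y' : W → B) : eqv y y' ⊓ arr K c a t x y ≤ arr K c a t x y' := by
  refine G1_arr_le K c a t x y _ _ fun i => ?_
  refine le_trans ?_ (G1_le_arr K c a t x y' i)
  refine le_inf (le_inf ?_ ?_) (le_inf ?_ ?_)
  · exact inf_le_right.trans (inf_le_left.trans inf_le_left)
  · exact inf_le_right.trans (inf_le_left.trans inf_le_right)
  · exact inf_le_right.trans (inf_le_right.trans inf_le_left)
  · refine le_trans ?_ (eqv_trans y' y (t.y i))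
    rw [eqv_symm y' y]
    exact inf_le_inf_left _ (inf_le_right.trans inf_le_right)

variable [LinearOrder (Task B D)]

/-- The target of an edge of the task `t` is in no cone of a task `≥ t`. -/
theorem arr_target (hc : Fresh K c) (a : B) {t t' : Task B D} (h : t ≤ t') (x y : W → B) : arr K c a t x y ⊓ Wv K c t' y = ⊥ := by
  rw [eq_bot_iff, inf_comm]
  refine G1_arr_le K c a t x y _ _ fun i => ?_
  have h1 := Wv_ext K c t' y (t.y i)
  rw [Wv_target K c hc h i] at h1
  refine le_trans (le_inf ?_ ?_) h1
  · exact inf_le_right.trans (inf_le_right.trans inf_le_right)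
  · exact inf_le_left

theorem arr_irrefl (hc : Fresh K c) (a : B) (t : Task B D) (x : W → B) : arr K c a t x x = ⊥ := by
  have h1 := arr_target K c hc a (le_refl t) x x
  have h2 := G1_arr_le_Wv K c a t x x
  rwa [inf_eq_left.2 h2] at h1

/-- Consecutive edges have decreasing tasks. -/
theorem arr_arr (hc : Fresh K c) (a a' : B) {t t' : Task B D} (h : t ≤ t') (x y z : W → B) :
    arr K c a t x y ⊓ arr K c a' t' y z = ⊥ := by
  have h1 := arr_target K c hc a h x y
  have h2 := G1_arr_le_Wv K c a' t' y z
  rw [eq_bot_iff, ← h1]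
  exact inf_le_inf_left _ h2

omit [LinearOrder (Task B D)] in
/-- Two edges with the same source have the same rank. -/
theorem G1_two (a a' : B) (t t' : Task B D) (x y z : W → B) (u v : B)
    (h : ∀ i : D, u ⊓ (a ⊓ Wv K c t x ⊓ (rk K c x i ⊓ eqv y (t.y i))) ⊓
      (a' ⊓ Wv K c t' x ⊓ (rk K c x i ⊓ eqv z (t'.y i))) ≤ v) :
    u ⊓ arr K c a t x y ⊓ arr K c a' t' x z ≤ v := by
  refine G1_arr_le K c a' t' x z _ _ fun j => ?_
  rw [inf_right_comm]
  refine G1_arr_le K c a t x y _ _ fun i => ?_
  by_cases e : i = j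
  · subst e
    refine le_trans (le_of_eq ?_) (h i)
    rw [inf_right_comm]
  · have h1 := rk_disj K c x e
    refine le_trans ?_ (bot_le : ⊥ ≤ v)
    rw [← h1]
    refine le_inf ?_ ?_
    · exact inf_le_right.trans (inf_le_right.trans inf_le_left)
    · exact inf_le_left.trans (inf_le_right.trans (inf_le_right.trans inf_le_left))

/-- Two edges with the same source and the same task have the same target. -/
theorem arr_same (a a' : B) (t : Task B D) (x y z : W → B) : arr K c a t x y ⊓ arr K c a' t x z ≤ eqv y z := by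
  have h := G1_two K c a a' t t x y z ⊤ (eqv y z) fun i => ?_
  · rwa [top_inf_eq] at h
  · refine le_trans ?_ (eqv_trans y (t.y i) z)
    rw [eqv_symm (t.y i) z]
    refine le_inf ?_ ?_
    · exact inf_le_left.trans (inf_le_right.trans (inf_le_right.trans inf_le_right))
    · exact inf_le_right.trans (inf_le_right.trans inf_le_right)

end Pool.Agent.H.MP_353193_lc.BV
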