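import Pool.Agent.H.MP_353193_lc.BV.G1

/-!
# The graph is triangle-free, second part
-/

set_option autoImplicit false

open Cardinal

namespace Pool.Agent.H.MP_353193_lc.BV

variable {B : Type} [CompleteBooleanAlgebra B] {Θ : Type} (K : Coh B Θ) {W : Type} [LinearOrder W]
  {D : Set W} (c : Task B D → Θ) [LinearOrder (Task B D)] [WellFoundedLT (Task B D)]

/-- Acceptance of `t`: no earlier edge between the targets. -/
theorem G2_acc {t t' s : Task B D} (h : t' < t) (hs : s < t) (i : D) :
    acc K c t ⊓ acc K c t' ⊓ sb K c t' t ⊓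
      (arr K c (acc K c s) s (t.y i) (t'.y i) ⊔ arr K c (acc K c s) s (t'.y i) (t.y i)) = ⊥ := by
  set S : B := ⨆ t'' : {t'' : Task B D // t'' < t}, arr K c (acc K c t''.1) t''.1 (t.y i) (t'.y i) ⊔
        arr K c (acc K c t''.1) t''.1 (t'.y i) (t.y i) with hS
  have h1 : acc K c t ≤ (acc K c t' ⊓ sb K c t' t) ⇨ Sᶜ := by
    rw [acc_eq K c t]
    refine inf_le_right.trans ((iInf_le _ (⟨t', h⟩ : {t' : Task B D // t' < t})).trans ?_)
    exact himp_le_himp_left (iInf_le _ i)
  have h2 : arr K c (acc K c s) s (t.y i) (t'.y i) ⊔ arr K c (acc K c s) s (t'.y i) (t.y i) ≤ S := by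
    rw [hS]
    exact le_iSup (fun t'' : {t'' : Task B D // t'' < t} => arr K c (acc K c t''.1) t''.1 (t.y i) (t'.y i) ⊔
        arr K c (acc K c t''.1) t''.1 (t'.y i) (t.y i)) ⟨s, hs⟩
  rw [eq_bot_iff]
  calc _ ≤ ((acc K c t' ⊓ sb K c t' t) ⇨ Sᶜ) ⊓ (acc K c t' ⊓ sb K c t' t) ⊓ S := by
        refine inf_le_inf ?_ h2
        rw [inf_assoc]
        exact inf_le_inf_right _ h1
    _ ≤ Sᶜ ⊓ S := inf_le_inf_right _ himp_inf_le
    _ ≤ ⊥ := by rw [compl_inf_self]

/-- No transitive triangle, the case `t' < t`. On `arr t x y ⊓ arr t' x z` the point `x` has one rank `i`, `y = t.y i`,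
`z = t'.y i`, `sb t' t` holds (`Wv_sb`), so `acc_eq` for `t` gives `(AdjLt t (t.y i) (t'.y i))ᶜ`. The edge between `y` and `z` of the
task `s` has source `y` or `z`, so `s < t` (`arr_arr` / `arr_target` with the edge into `y` resp. `z`, and `t' < t`). -/
theorem no_trans_lt (hc : Fresh K c) {t t' : Task B D} (h : t' < t) (s : Task B D) (x y z : W → B) :
    arr K c (acc K c t) t x y ⊓ arr K c (acc K c t') t' x z ⊓
      (arr K c (acc K c s) s y z ⊔ arr K c (acc K c s) s z y) = ⊥ := by
  by_cases hs : s < t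
  · rw [eq_bot_iff, inf_comm, ← inf_assoc]
    refine G1_two K c _ _ t t' x y z _ _ fun i => ?_
    rw [← G2_acc K c h hs i]
    have e1 := arr_ext_left K c (acc K c s) s y (t.y i) z
    have e2 := arr_ext_right K c (acc K c s) s (t.y i) z (t'.y i)
    have e3 := arr_ext_left K c (acc K c s) s z (t'.y i) y
    have e4 := arr_ext_right K c (acc K c s) s (t'.y i) y (t.y i)
    have e5 := Wv_sb K c hc h x
    set P : B := (arr K c (acc K c s) s y z ⊔ arr K c (acc K c s) s z y) ⊓
      (acc K c t ⊓ Wv K c t x ⊓ (rk K c x i ⊓ eqv y (t.y i))) ⊓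
      (acc K c t' ⊓ Wv K c t' x ⊓ (rk K c x i ⊓ eqv z (t'.y i))) with hP
    have p1 : P ≤ eqv y (t.y i) := by
      rw [hP]
      exact inf_le_left.trans (inf_le_right.trans (inf_le_right.trans inf_le_right))
    have p2 : P ≤ eqv z (t'.y i) := by
      rw [hP]
      exact inf_le_right.trans (inf_le_right.trans inf_le_right)
    have p3 : P ≤ acc K c t := by
      rw [hP]
      exact inf_le_left.trans (inf_le_right.trans (inf_le_left.trans inf_le_left))
    have p4 : P ≤ acc K c t' := by
      rw [hP]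
      exact inf_le_right.trans (inf_le_left.trans inf_le_left)
    have p5 : P ≤ Wv K c t x := by
      rw [hP]
      exact inf_le_left.trans (inf_le_right.trans (inf_le_left.trans inf_le_right))
    have p6 : P ≤ Wv K c t' x := by
      rw [hP]
      exact inf_le_right.trans (inf_le_left.trans inf_le_right)
    have p7 : P ≤ arr K c (acc K c s) s y z ⊔ arr K c (acc K c s) s z y := by
      rw [hP]
      exact inf_le_left.trans inf_le_left
    refine le_inf (le_inf (le_inf p3 p4) ((le_inf p5 p6).trans e5)) ?_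
    have p8 : P ≤ (eqv y (t.y i) ⊓ eqv z (t'.y i)) ⊓
        (arr K c (acc K c s) s y z ⊔ arr K c (acc K c s) s z y) := le_inf (le_inf p1 p2) p7
    refine p8.trans ?_
    rw [inf_sup_left]
    refine sup_le_sup ?_ ?_
    · refine le_trans (le_inf ?_ ?_) e2
      · exact inf_le_left.trans inf_le_right
      · exact le_trans (inf_le_inf_right _ inf_le_left) e1
    · refine le_trans (le_inf ?_ ?_) e4
      · exact inf_le_left.trans inf_le_left
      · exact le_trans (inf_le_inf_right _ inf_le_right) e3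
  · have hs' : t ≤ s := not_lt.1 hs
    have h1 := arr_arr K c hc (acc K c t) (acc K c s) hs' x y z
    have h2 := arr_arr K c hc (acc K c t') (acc K c s) (h.le.trans hs') x z y
    rw [inf_sup_left, eq_bot_iff]
    refine sup_le ?_ ?_
    · rw [← h1]
      exact inf_le_inf_right _ inf_le_left
    · rw [← h2]
      exact inf_le_inf_right _ inf_le_right

/-- No transitive triangle (`t = t'`: `arr_same`, `arr_irrefl`; `t' < t`, `t < t'`: `no_trans_lt`). -/
theorem no_trans (hc : Fresh K c) (t t' s : Task B D) (x y z : W → B) :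
    arr K c (acc K c t) t x y ⊓ arr K c (acc K c t') t' x z ⊓ arr K c (acc K c s) s y z = ⊥ := by
  rcases lt_trichotomy t' t with h | h | h
  · have h1 := no_trans_lt K c hc h s x y z
    rw [eq_bot_iff, ← h1]
    exact inf_le_inf_left _ le_sup_left
  · subst h
    have h1 := arr_same K c (acc K c t') (acc K c t') t' x y z
    have h2 := arr_ext_left K c (acc K c s) s y z z
    rw [eq_bot_iff, ← arr_irrefl K c hc (acc K c s) s z]
    exact (inf_le_inf_right _ h1).trans h2
  · have h1 := no_trans_lt K c hc h s x z y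
    rw [eq_bot_iff, ← h1, inf_comm (arr K c (acc K c t) t x y)]
    exact inf_le_inf_left _ le_sup_right

/-- No cyclic triangle (`arr_arr`). -/
theorem no_cyc (hc : Fresh K c) (t t' s : Task B D) (x y z : W → B) :
    arr K c (acc K c t) t x y ⊓ arr K c (acc K c t') t' y z ⊓ arr K c (acc K c s) s z x = ⊥ := by
  rw [eq_bot_iff]
  by_cases h1 : t ≤ t'
  · rw [← arr_arr K c hc (acc K c t) (acc K c t') h1 x y z]
    exact inf_le_left
  by_cases h2 : t' ≤ s
  · rw [← arr_arr K c hc (acc K c t') (acc K c s) h2 y z x]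
    exact inf_le_inf_right _ inf_le_right
  have h3 : s ≤ t := ((not_le.1 h2).trans (not_le.1 h1)).le
  rw [← arr_arr K c hc (acc K c s) (acc K c t) h3 z x y]
  exact le_inf inf_le_right (inf_le_left.trans inf_le_left)

theorem Adjv_symm (x y : W → B) : Adjv K c x y ≤ Adjv K c y x := by
  unfold Adjv
  refine iSup_mono fun t => ?_
  rw [sup_comm]

theorem Adjv_ext (x y z : W → B) : eqv x y ⊓ Adjv K c x z ≤ Adjv K c y z := by
  unfold Adjv
  rw [inf_iSup_eq]
  refine iSup_mono fun t => ?_
  rw [inf_sup_left]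
  exact sup_le_sup (arr_ext_left K c _ t x y z) (arr_ext_right K c _ t z x y)

theorem G2_Adjv_le (u v : B) (x y : W → B)
    (h1 : ∀ t, u ⊓ arr K c (acc K c t) t x y ≤ v) (h2 : ∀ t, u ⊓ arr K c (acc K c t) t y x ≤ v) :
    u ⊓ Adjv K c x y ≤ v := by
  unfold Adjv
  rw [inf_iSup_eq]
  refine iSup_le fun t => ?_
  rw [inf_sup_left]
  exact sup_le (h1 t) (h2 t)

theorem G2_three (u v w : B) (h : u ⊓ v ⊓ w = ⊥) (b : B) (h1 : b ≤ u) (h2 : b ≤ v) (h3 : b ≤ w) : b ≤ ⊥ := by
  rw [← h]
  exact le_inf (le_inf h1 h2) h3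

/-- TRIANGLE-FREE: eight orientations, `no_trans`, `no_cyc`. -/
theorem Adjv_tri (hc : Fresh K c) (x y z : W → B) : Adjv K c x y ⊓ Adjv K c y z ⊓ Adjv K c x z = ⊥ := by
  have e1 : ∀ p q r : B, p ⊓ q ⊓ r ≤ p := fun p q r => inf_le_left.trans inf_le_left
  have e2 : ∀ p q r : B, p ⊓ q ⊓ r ≤ q := fun p q r => inf_le_left.trans inf_le_right
  have e3 : ∀ p q r : B, p ⊓ q ⊓ r ≤ r := fun p q r => inf_le_right
  rw [eq_bot_iff]
  refine G2_Adjv_le K c _ _ x z (fun s => ?_) (fun s => ?_)
  · rw [inf_right_comm]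
    refine G2_Adjv_le K c _ _ y z (fun r => ?_) (fun r => ?_)
    · rw [inf_assoc, inf_comm]
      refine G2_Adjv_le K c _ _ x y (fun t => ?_) (fun t => ?_)
      · exact G2_three _ _ _ (no_trans K c hc t s r x y z) _ inf_le_right
          (inf_le_left.trans inf_le_left) (inf_le_left.trans inf_le_right)
      · exact G2_three _ _ _ (no_trans K c hc t r s y x z) _ inf_le_right
          (inf_le_left.trans inf_le_right) (inf_le_left.trans inf_le_left)
    · rw [inf_assoc, inf_comm]
      refine G2_Adjv_le K c _ _ x y (fun t => ?_) (fun t => ?_)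
      · exact G2_three _ _ _ (no_trans K c hc s t r x z y) _
          (inf_le_left.trans inf_le_left) inf_le_right (inf_le_left.trans inf_le_right)
      · exact G2_three _ _ _ (no_cyc K c hc t s r y x z) _ inf_le_right
          (inf_le_left.trans inf_le_left) (inf_le_left.trans inf_le_right)
  · rw [inf_right_comm]
    refine G2_Adjv_le K c _ _ y z (fun r => ?_) (fun r => ?_)
    · rw [inf_assoc, inf_comm]
      refine G2_Adjv_le K c _ _ x y (fun t => ?_) (fun t => ?_)
      · exact G2_three _ _ _ (no_cyc K c hc t r s x y z) _ inf_le_right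
          (inf_le_left.trans inf_le_right) (inf_le_left.trans inf_le_left)
      · exact G2_three _ _ _ (no_trans K c hc r t s y z x) _
          (inf_le_left.trans inf_le_right) inf_le_right (inf_le_left.trans inf_le_left)
    · rw [inf_assoc, inf_comm]
      refine G2_Adjv_le K c _ _ x y (fun t => ?_) (fun t => ?_)
      · exact G2_three _ _ _ (no_trans K c hc s r t z x y) _
          (inf_le_left.trans inf_le_left) (inf_le_left.trans inf_le_right) inf_le_right
      · exact G2_three _ _ _ (no_trans K c hc r s t z y x) _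
          (inf_le_left.trans inf_le_right) (inf_le_left.trans inf_le_left) inf_le_right

end Pool.Agent.H.MP_353193_lc.BV
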