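import Mathlib

/-!
# Interface between the combinatorial part and the translation part (non-provability in ZFC)

`B` a complete Boolean algebra, `W` a linear order (in the application a well-order of type `ω_ω`). A function `x : W → B` is a
name of a 0-1 sequence of length `W` (in the set form: of a subset of `W`, `x ν` the value of `ν ∈ x`).
-/

set_option autoImplicit false

namespace Pool.Agent.H.MP_353193_lc.BV

variable {B : Type} [CompleteBooleanAlgebra B] {W : Type} [LinearOrder W]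

/-- The index set: a well-order of type `ω_ω`. -/
abbrev Wω : Type := (Cardinal.aleph Ordinal.omega0.{0}).ord.ToType

/-- The value of `x = y`. -/
def eqv (x y : W → B) : B := ⨅ ν, bihimp (x ν) (y ν)

/-- The value of `x < y` in the lexicographic order. -/
def ltv (x y : W → B) : B := ⨆ ν, (⨅ μ : {μ : W // μ < ν}, bihimp (x μ) (y μ)) ⊓ (x ν)ᶜ ⊓ y ν

/-- The value of: `x` is not zero and its support is bounded in `W`. -/
def Rv (x : W → B) : B := (⨆ ν, x ν) ⊓ ⨆ β : W, ⨅ ν : {ν : W // β ≤ ν}, (x ν)ᶜ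

/-- The value of a symmetric triangle-free graph `G` on the names, such that below no nonzero `b` there is an order-preserving
extensional map `Φ` from `Rv` to `Rv` with independent image. -/
def Core (B : Type) [CompleteBooleanAlgebra B] (W : Type) [LinearOrder W] : Prop :=
  ∃ G : (W → B) → (W → B) → B,
    (∀ x y z, eqv x y ⊓ G x z ≤ G y z) ∧ (∀ x y, G x y ≤ G y x) ∧
    (∀ x y z, G x y ⊓ G y z ⊓ G x z = ⊥) ∧
    ∀ (b : B) (Φ : (W → B) → (W → B)),
      (∀ x y, b ⊓ eqv x y ≤ eqv (Φ x) (Φ y)) →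
      (∀ x, b ⊓ Rv x ≤ Rv (Φ x)) →
      (∀ x y, b ⊓ Rv x ⊓ Rv y ⊓ ltv x y ≤ ltv (Φ x) (Φ y)) →
      (∀ x y, b ⊓ Rv x ⊓ Rv y ⊓ G (Φ x) (Φ y) = ⊥) → b = ⊥

end Pool.Agent.H.MP_353193_lc.BV
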