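import Pool.Agent.H.MP_353193_lc.BV.C1

/-!
# Source nodes and mixing
-/

set_option autoImplicit false

open Cardinal

namespace Pool.Agent.H.MP_353193_lc.BV

variable {B : Type} [CompleteBooleanAlgebra B] {W : Type} [LinearOrder W]

/-- Names of nonzero sequences bounded in `D0`. -/
def F1 (D0 : Set W) : Set (W → B) := {f | Bd D0 f ∧ ⨆ ν, f ν = ⊤}

variable (B)

/-- A name of a node whose length is an element of `D0`. -/
structure SN (D0 : Set W) where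
  len : W
  hlen : len ∈ D0
  v : W → B
  hv : ∀ ν, len ≤ ν → v ν = ⊥

variable {B}

/-- `w` extends `v`. -/
def SN.Ext {D0 : Set W} (v w : SN B D0) : Prop := v.len ≤ w.len ∧ ∀ ν, ν < v.len → w.v ν = v.v ν

/-- The cone of a source node. -/
def Cn {D0 : Set W} (v : SN B D0) : Set (W → B) := {f | f ∈ F1 D0 ∧ ∀ ν, ν < v.len → f ν = v.v ν}

/-- `f` on `b` and `h` on the complement. -/
def glue (b : B) (f h : W → B) : W → B := fun ν => (b ⊓ f ν) ⊔ (bᶜ ⊓ h ν)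

variable {D0 : Set W} {lam : Cardinal.{0}}

theorem SN.Ext.refl (v : SN B D0) : v.Ext v := ⟨le_rfl, fun _ _ => rfl⟩

theorem SN.Ext.trans {u v w : SN B D0} (h : u.Ext v) (h' : v.Ext w) : u.Ext w :=
  ⟨h.1.trans h'.1, fun ν hν => (h'.2 ν (lt_of_lt_of_le hν h.1)).trans (h.2 ν hν)⟩

theorem Cn_anti {v w : SN B D0} (h : v.Ext w) : Cn w ⊆ Cn v := by
  rintro f ⟨hf, hfv⟩
  exact ⟨hf, fun ν hν => (hfv ν (lt_of_lt_of_le hν h.1)).trans (h.2 ν hν)⟩

/-- A strict upper bound in `D0` of one element. -/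
theorem N1_succ (hD : Seg W D0 lam) {a : W} (ha : a ∈ D0) : ∃ b ∈ D0, a < b := by
  obtain ⟨b, hb, h⟩ := hD.reg {a} (Set.singleton_subset_iff.2 ha)
    ((Cardinal.mk_singleton a).trans_le (Cardinal.one_le_aleph0.trans hD.inf))
  exact ⟨b, hb, h a rfl⟩

/-- A strict upper bound in `D0` of countably many elements. -/
theorem N1_bound (hD : Seg W D0 lam) (A : Set W) (hA : A ⊆ D0) (hc : A.Countable) : ∃ b ∈ D0, ∀ a ∈ A, a < b :=
  hD.reg A hA ((Cardinal.le_aleph0_iff_set_countable.2 hc).trans hD.inf)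

/-- A strict upper bound in `D0` of a family which is trivial outside a countable set. -/
theorem N1_bound_fam (hD : Seg W D0 lam) {ι : Type} (a : ι → W) (ha : ∀ i, a i ∈ D0) (s : Set ι) (hs : s.Countable)
    (a0 : W) (ha0 : a0 ∈ D0) : ∃ b ∈ D0, a0 < b ∧ ∀ i ∈ s, a i < b := by
  obtain ⟨b, hb, h⟩ := N1_bound hD (insert a0 (a '' s)) (by
    rintro x (rfl | ⟨i, _, rfl⟩)
    · exact ha0
    · exact ha i) ((hs.image a).insert a0)
  exact ⟨b, hb, h a0 (Set.mem_insert _ _), fun i hi => h _ (Set.mem_insert_of_mem _ ⟨i, hi, rfl⟩)⟩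

theorem Cn_nonempty (hD : Seg W D0 lam) (v : SN B D0) : (Cn v).Nonempty := by
  classical
  obtain ⟨b, hb, hlt⟩ := N1_succ hD v.hlen
  refine ⟨fun ν => if ν = v.len then ⊤ else v.v ν, ⟨⟨b, hb, ?_⟩, ?_⟩, ?_⟩
  · intro ν hν
    have h1 : ν ≠ v.len := (lt_of_lt_of_le hlt hν).ne'
    simp only [if_neg h1]
    exact v.hv ν (hlt.le.trans hν)
  · refine top_le_iff.1 ?_
    refine le_iSup_of_le v.len ?_
    simp
  · intro ν hν
    simp only [if_neg hν.ne]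

theorem Rv_of_F1 {f : W → B} (hf : f ∈ F1 D0) : Rv f = ⊤ := by
  obtain ⟨⟨δ, _, hδ⟩, hs⟩ := hf
  refine top_le_iff.1 (le_inf hs.ge ?_)
  refine le_iSup_of_le δ (le_iInf fun ν => ?_)
  rw [hδ ν.1 ν.2, compl_bot]

/-- Limits of increasing sequences of nodes. -/
theorem exists_limit (hD : Seg W D0 lam) (v : ℕ → SN B D0) (h : ∀ k, (v k).Ext (v (k + 1))) : ∃ w, ∀ k, (v k).Ext w := by
  have hmono : ∀ j k, j ≤ k → (v j).Ext (v k) := by
    intro j k hjk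
    induction k, hjk using Nat.le_induction with
    | base => exact SN.Ext.refl _
    | succ k _ ih => exact ih.trans (h k)
  obtain ⟨b, hb, hlt⟩ := N1_bound hD (Set.range fun k => (v k).len) (by
    rintro _ ⟨k, rfl⟩
    exact (v k).hlen) (Set.countable_range _)
  refine ⟨⟨b, hb, fun ν => ⨆ k, (v k).v ν, ?_⟩, ?_⟩
  · intro ν hν
    refine iSup_eq_bot.2 fun k => (v k).hv ν ?_
    exact ((hlt _ ⟨k, rfl⟩).le).trans hν
  · intro k
    refine ⟨(hlt _ ⟨k, rfl⟩).le, fun ν hν => ?_⟩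
    change ⨆ j, (v j).v ν = (v k).v ν
    refine le_antisymm (iSup_le fun j => ?_) (le_iSup (fun j => (v j).v ν) k)
    rcases le_total j k with hjk | hkj
    · rcases lt_or_ge ν (v j).len with h1 | h1
      · exact ((hmono j k hjk).2 ν h1).ge
      · rw [(v j).hv ν h1]
        exact bot_le
    · exact ((hmono k j hkj).2 ν hν).le

theorem N1_le_bihimp {a x y : B} (h : a ⊓ x = a ⊓ y) : a ≤ bihimp x y := by
  rw [bihimp_def]
  refine le_inf (le_himp_iff.2 ?_) (le_himp_iff.2 ?_)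
  · rw [← h]
    exact inf_le_right
  · rw [h]
    exact inf_le_right

theorem N1_le_eqv {a : B} {x y : W → B} (h : ∀ ν, a ⊓ x ν = a ⊓ y ν) : a ≤ eqv x y :=
  le_iInf fun ν => N1_le_bihimp (h ν)

theorem le_eqv_glue (b : B) (f h : W → B) : b ≤ eqv f (glue b f h) := by
  refine N1_le_eqv fun ν => ?_
  unfold glue
  rw [inf_sup_left, ← inf_assoc, inf_idem, ← inf_assoc, inf_compl_eq_bot, bot_inf_eq, sup_bot_eq]

theorem compl_le_eqv_glue (b : B) (f h : W → B) : bᶜ ≤ eqv h (glue b f h) := by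
  refine N1_le_eqv fun ν => ?_
  unfold glue
  rw [inf_sup_left, ← inf_assoc, ← inf_assoc, inf_idem, compl_inf_eq_bot, bot_inf_eq, bot_sup_eq]

theorem glue_mem {v : SN B D0} (b : B) {f h : W → B} (hf : f ∈ F1 D0) (hh : h ∈ Cn v)
    (h1 : ∀ ν, ν < v.len → b ⊓ f ν = b ⊓ v.v ν) : glue b f h ∈ Cn v := by
  obtain ⟨⟨δ, hδ, hfb⟩, hft⟩ := hf
  obtain ⟨⟨⟨ε, hε, hhb⟩, hht⟩, hhv⟩ := hh
  refine ⟨⟨⟨max δ ε, ?_, ?_⟩, ?_⟩, ?_⟩
  · rcases max_choice δ ε with h2 | h2 <;> rw [h2] <;> assumption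
  · intro ν hν
    unfold glue
    rw [hfb ν ((le_max_left _ _).trans hν), hhb ν ((le_max_right _ _).trans hν), inf_bot_eq, inf_bot_eq, sup_bot_eq]
  · unfold glue
    rw [iSup_sup_eq, ← inf_iSup_eq, ← inf_iSup_eq, hft, hht, inf_top_eq, inf_top_eq, sup_compl_eq_top]
  · intro ν hν
    unfold glue
    rw [h1 ν hν, hhv ν hν, ← inf_sup_right, sup_compl_eq_top, top_inf_eq]

/-- Mixing of points: by ccc only countably many `b i` are nonzero; on the complement of the supremum use any member of `Cn v`. -/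
theorem mix_points (hB : M3.BCCC B) (hD : Seg W D0 lam) (v : SN B D0) {ι : Type} (b : ι → B)
    (hb : ∀ i j, i ≠ j → b i ⊓ b j = ⊥) (f : ι → W → B) (hf : ∀ i, f i ∈ Cn v) : ∃ g ∈ Cn v, ∀ i, b i ≤ eqv g (f i) := by
  obtain ⟨f0, hf0⟩ := Cn_nonempty hD v
  obtain ⟨b0, hb0⟩ : ∃ b0 : B, b0 = (⨆ i, b i)ᶜ := ⟨_, rfl⟩
  have hdis : ∀ i, b i ⊓ b0 = ⊥ := by
    intro i
    have h1 : b i ⊓ b0 ≤ (⨆ i, b i) ⊓ (⨆ i, b i)ᶜ := by
      rw [hb0]
      exact inf_le_inf_right _ (le_iSup b i)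
    rw [inf_compl_eq_bot] at h1
    exact le_bot_iff.1 h1
  have hcnt := M3.BCCC.countable_index hB b hb
  choose δ hδ hδb using fun i => (hf i).1.1
  obtain ⟨δ0, hδ0, hδ0b⟩ := hf0.1.1
  obtain ⟨β, hβ, hβ0, hβi⟩ := N1_bound_fam hD δ hδ {i | b i ≠ ⊥} hcnt δ0 hδ0
  refine ⟨fun ν => (⨆ i, b i ⊓ f i ν) ⊔ (b0 ⊓ f0 ν), ⟨⟨⟨β, hβ, ?_⟩, ?_⟩, ?_⟩, ?_⟩
  · intro ν hν
    refine sup_eq_bot_iff.2 ⟨iSup_eq_bot.2 fun i => ?_, ?_⟩
    · by_cases hi : b i = ⊥
      · rw [hi, bot_inf_eq]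
      · rw [hδb i ν ((hβi i hi).le.trans hν), inf_bot_eq]
    · rw [hδ0b ν (hβ0.le.trans hν), inf_bot_eq]
  · rw [iSup_sup_eq, iSup_comm, ← inf_iSup_eq, hf0.1.2, inf_top_eq]
    have h1 : ∀ i, (⨆ ν, b i ⊓ f i ν) = b i := by
      intro i
      rw [← inf_iSup_eq, (hf i).1.2, inf_top_eq]
    simp only [h1]
    rw [hb0, sup_compl_eq_top]
  · intro ν hν
    have h1 : ∀ i, b i ⊓ f i ν = b i ⊓ v.v ν := by
      intro i
      rw [(hf i).2 ν hν]
    simp only [h1]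
    rw [hf0.2 ν hν, ← iSup_inf_eq, hb0, ← inf_sup_right, sup_compl_eq_top, top_inf_eq]
  · intro i
    refine N1_le_eqv fun ν => ?_
    rw [inf_sup_left, ← inf_assoc, hdis i, bot_inf_eq, sup_bot_eq, inf_iSup_eq]
    refine le_antisymm (iSup_le fun j => ?_) ?_
    · rcases eq_or_ne i j with h1 | h1
      · subst h1
        rw [← inf_assoc, inf_idem]
      · rw [← inf_assoc, hb i j h1, bot_inf_eq]
        exact bot_le
    · refine le_iSup_of_le i ?_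
      rw [← inf_assoc, inf_idem]

/-- Mixing of nodes. -/
theorem mix_nodes (hB : M3.BCCC B) (hD : Seg W D0 lam) (v : SN B D0) {ι : Type} (b : ι → B)
    (hb : ∀ i j, i ≠ j → b i ⊓ b j = ⊥) (w : ι → SN B D0) (hw : ∀ i, v.Ext (w i)) :
    ∃ w' : SN B D0, v.Ext w' ∧ ∀ i, b i ≠ ⊥ → (w i).len ≤ w'.len ∧ ∀ ν, ν < (w i).len → b i ⊓ w'.v ν = b i ⊓ (w i).v ν := by
  obtain ⟨b0, hb0⟩ : ∃ b0 : B, b0 = (⨆ i, b i)ᶜ := ⟨_, rfl⟩
  have hdis : ∀ i, b i ⊓ b0 = ⊥ := by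
    intro i
    have h1 : b i ⊓ b0 ≤ (⨆ i, b i) ⊓ (⨆ i, b i)ᶜ := by
      rw [hb0]
      exact inf_le_inf_right _ (le_iSup b i)
    rw [inf_compl_eq_bot] at h1
    exact le_bot_iff.1 h1
  have hcnt := M3.BCCC.countable_index hB b hb
  obtain ⟨β, hβ, hβ0, hβi⟩ := N1_bound_fam hD (fun i => (w i).len) (fun i => (w i).hlen) {i | b i ≠ ⊥} hcnt v.len v.hlen
  refine ⟨⟨β, hβ, fun ν => (⨆ i, b i ⊓ (w i).v ν) ⊔ (b0 ⊓ v.v ν), ?_⟩, ⟨hβ0.le, ?_⟩, ?_⟩
  · intro ν hν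
    refine sup_eq_bot_iff.2 ⟨iSup_eq_bot.2 fun i => ?_, ?_⟩
    · by_cases hi : b i = ⊥
      · rw [hi, bot_inf_eq]
      · rw [(w i).hv ν ((hβi i hi).le.trans hν), inf_bot_eq]
    · rw [v.hv ν (hβ0.le.trans hν), inf_bot_eq]
  · intro ν hν
    change (⨆ i, b i ⊓ (w i).v ν) ⊔ (b0 ⊓ v.v ν) = v.v ν
    have h1 : ∀ i, b i ⊓ (w i).v ν = b i ⊓ v.v ν := by
      intro i
      rw [(hw i).2 ν hν]
    simp only [h1]
    rw [← iSup_inf_eq, hb0, ← inf_sup_right, sup_compl_eq_top, top_inf_eq]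
  · intro i hi
    refine ⟨(hβi i hi).le, fun ν _ => ?_⟩
    change b i ⊓ ((⨆ i, b i ⊓ (w i).v ν) ⊔ (b0 ⊓ v.v ν)) = _
    rw [inf_sup_left, ← inf_assoc, hdis i, bot_inf_eq, sup_bot_eq, inf_iSup_eq]
    refine le_antisymm (iSup_le fun j => ?_) ?_
    · rcases eq_or_ne i j with h1 | h1
      · subst h1
        rw [← inf_assoc, inf_idem]
      · rw [← inf_assoc, hb i j h1, bot_inf_eq]
        exact bot_le
    · refine le_iSup_of_le i ?_
      rw [← inf_assoc, inf_idem]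

/-- A point above a mixed node is, on `b`, equal to a point above the component. -/
theorem exists_component (hD : Seg W D0 lam) {w w' : SN B D0} (b : B) (h : w.len ≤ w'.len)
    (h1 : ∀ ν, ν < w.len → b ⊓ w'.v ν = b ⊓ w.v ν) {f : W → B} (hf : f ∈ Cn w') : ∃ g ∈ Cn w, b ≤ eqv f g := by
  obtain ⟨f0, hf0⟩ := Cn_nonempty hD w
  refine ⟨glue b f f0, glue_mem b hf.1 hf0 fun ν hν => ?_, le_eqv_glue b f f0⟩
  rw [hf.2 ν (lt_of_lt_of_le hν h), h1 ν hν]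

/-- The maximum principle: a point of `Cn v` with the largest value of `F` (maximal antichain of elements `≤ b0 ⊓ F g`, mixing). -/
theorem max_points (hB : M3.BCCC B) (hD : Seg W D0 lam) (b0 : B) (F : (W → B) → B) (hF : ∀ x y, b0 ⊓ eqv x y ⊓ F x ≤ F y)
    (v : SN B D0) : ∃ f ∈ Cn v, ∀ g ∈ Cn v, b0 ⊓ F g ≤ F f := by
  obtain ⟨P, hP⟩ : ∃ P : Set B → Prop, P = fun A => (∀ a ∈ A, a ≠ ⊥ ∧ ∃ g ∈ Cn v, a ≤ b0 ⊓ F g) ∧
      ∀ a ∈ A, ∀ a' ∈ A, a ≠ a' → a ⊓ a' = ⊥ := ⟨_, rfl⟩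
  obtain ⟨A, hA, hmax⟩ : ∃ A, P A ∧ ∀ A', P A' → A ⊆ A' → A' ⊆ A := by
    have hz := zorn_subset {A | P A} (by
      intro c hc hchain
      refine ⟨⋃₀ c, ?_, fun s hs => Set.subset_sUnion_of_mem hs⟩
      rw [Set.mem_setOf_eq, hP]
      constructor
      · rintro a ⟨s, hs, has⟩
        have := hc hs
        rw [Set.mem_setOf_eq, hP] at this
        exact this.1 a has
      · rintro a ⟨s, hs, has⟩ a' ⟨s', hs', has'⟩ hne
        rcases hchain.total hs hs' with h1 | h1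
        · have := hc hs'
          rw [Set.mem_setOf_eq, hP] at this
          exact this.2 a (h1 has) a' has' hne
        · have := hc hs
          rw [Set.mem_setOf_eq, hP] at this
          exact this.2 a has a' (h1 has') hne)
    obtain ⟨A, hA⟩ := hz
    exact ⟨A, hA.1, fun A' hA' h => hA.2 hA' h⟩
  have hA' := hA
  rw [hP] at hA'
  choose! g hg hag using fun a (ha : a ∈ A) => (hA'.1 a ha).2
  obtain ⟨f, hf, hfe⟩ := mix_points hB hD v (ι := A) (fun a => a.1)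
    (fun a a' hne => hA'.2 a.1 a.2 a'.1 a'.2 fun h => hne (Subtype.ext h)) (fun a => g a.1) (fun a => hg a.1 a.2)
  refine ⟨f, hf, fun h hh => ?_⟩
  have hle : ∀ a ∈ A, a ≤ F f := by
    intro a ha
    have h1 : a ≤ b0 ⊓ eqv (g a) f ⊓ F (g a) := by
      refine le_inf (le_inf ((hag a ha).trans inf_le_left) ?_) ((hag a ha).trans inf_le_right)
      have := hfe ⟨a, ha⟩
      rwa [eqv_symm] at this
    exact h1.trans (hF _ _)
  by_contra hcon
  obtain ⟨c, hc⟩ : ∃ c : B, c = b0 ⊓ F h ⊓ (F f)ᶜ := ⟨_, rfl⟩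
  have hc0 : c ≠ ⊥ := by
    intro h1
    apply hcon
    rw [hc] at h1
    have := disjoint_iff.2 h1
    rwa [disjoint_compl_right_iff] at this
  have hcd : ∀ a ∈ A, a ⊓ c = ⊥ := by
    intro a ha
    have h1 : a ⊓ c ≤ F f ⊓ (F f)ᶜ := by
      rw [hc]
      exact le_inf (inf_le_left.trans (hle a ha)) (inf_le_right.trans inf_le_right)
    rw [inf_compl_eq_bot] at h1
    exact le_bot_iff.1 h1
  have hins : P (insert c A) := by
    rw [hP]
    constructor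
    · rintro a (rfl | ha)
      · exact ⟨hc0, h, hh, hc.trans_le inf_le_left⟩
      · exact hA'.1 a ha
    · rintro a (rfl | ha) a' (rfl | ha') hne
      · exact absurd rfl hne
      · rw [inf_comm]
        exact hcd a' ha'
      · exact hcd a ha
      · exact hA'.2 a ha a' ha' hne
  have hcA : c ∈ A := hmax _ hins (Set.subset_insert c A) (Set.mem_insert c A)
  have h1 := hcd c hcA
  rw [inf_idem] at h1
  exact hc0 h1

end Pool.Agent.H.MP_353193_lc.BV
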