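import Pool.Agent.H.MP_353193_lc.BV.N1

/-!
# The dense level
-/

set_option autoImplicit false

open Cardinal

namespace Pool.Agent.H.MP_353193_lc.BV

variable {B : Type} [CompleteBooleanAlgebra B] {W : Type} [LinearOrder W]

/-- The value of: `n` is the level of `x` (the least `n` with `x` bounded in `D n`). -/
def levv (D : ℕ → Set W) (n : ℕ) (x : W → B) : B := rv (D n) x ⊓ ⨅ m : {m : ℕ // m < n}, (rv (D m) x)ᶜ

theorem levv_ext (D : ℕ → Set W) (n : ℕ) (x y : W → B) : eqv x y ⊓ levv D n x ≤ levv D n y := by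
  refine le_inf ?_ (le_iInf fun m => ?_)
  · exact (inf_le_inf_left _ inf_le_left).trans (rv_ext (D n) x y)
  · rw [le_compl_iff_disjoint_right, disjoint_iff_inf_le]
    have h1 : eqv x y ⊓ levv D n x ⊓ rv (D m) y ≤ rv (D m) x := by
      refine le_trans (le_inf (inf_le_left.trans inf_le_left) inf_le_right) (?_ : eqv x y ⊓ rv (D m) y ≤ _)
      rw [eqv_symm]
      exact rv_ext (D m) y x
    have h2 : eqv x y ⊓ levv D n x ⊓ rv (D m) y ≤ (rv (D m) x)ᶜ :=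
      (inf_le_left.trans inf_le_right).trans (inf_le_right.trans (iInf_le _ m))
    have h3 := le_inf h1 h2
    rwa [inf_compl_self] at h3

theorem levv_disj (D : ℕ → Set W) {n m : ℕ} (h : n ≠ m) (x : W → B) : levv D n x ⊓ levv D m x = ⊥ := by
  have key : ∀ n m : ℕ, n < m → levv D n x ⊓ levv D m x = ⊥ := by
    intro n m hnm
    rw [eq_bot_iff]
    have h1 : levv D n x ⊓ levv D m x ≤ rv (D n) x := inf_le_left.trans inf_le_left
    have h2 : levv D n x ⊓ levv D m x ≤ (rv (D n) x)ᶜ :=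
      inf_le_right.trans (inf_le_right.trans (iInf_le (fun k : {k : ℕ // k < m} => (rv (D k) x)ᶜ) ⟨n, hnm⟩))
    have h3 := le_inf h1 h2
    rwa [inf_compl_self] at h3
  rcases lt_or_gt_of_ne h with h | h
  · exact key n m h
  · rw [inf_comm]
    exact key m n h

/-- A sequence with bounded support has a level. -/
theorem Rv_le_levv (D : ℕ → Set W) (hD : ∀ ν, ∃ n, ν ∈ D n) (x : W → B) : Rv x ≤ ⨆ n, levv D n x := by
  have h1 : ∀ n, rv (D n) x ≤ ⨆ n, levv D n x := by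
    intro n
    induction n using Nat.strong_induction_on with
    | _ n ih =>
      have h2 : rv (D n) x ≤ levv D n x ⊔ ⨆ m : {m : ℕ // m < n}, rv (D m) x := by
        unfold levv
        rw [sup_inf_right]
        refine le_inf le_sup_left ?_
        have h3 : (⨅ m : {m : ℕ // m < n}, (rv (D m) x)ᶜ) = (⨆ m : {m : ℕ // m < n}, rv (D m) x)ᶜ := by
          rw [compl_iSup]
        rw [h3, compl_sup_eq_top]
        exact le_top
      refine h2.trans (sup_le (le_iSup (fun n => levv D n x) n) (iSup_le fun m => ih m.1 m.2))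
  unfold Rv
  refine inf_le_right.trans (iSup_le fun β => ?_)
  obtain ⟨n, hn⟩ := hD β
  refine le_trans ?_ (h1 n)
  exact le_iSup (fun δ : D n => ⨅ ν : {ν : W // (δ : W) ≤ ν}, (x ν)ᶜ) ⟨β, hn⟩

variable {D : ℕ → Set W} {lam : Cardinal.{0}}

/-- One step: below `b1` a node above `v` and `b2 ≤ b1` such that no point above the node has level `n` on `b2`. -/
theorem kill_step (hB : M3.BCCC B) (hD : Seg W (D 0) lam) (Φ : (W → B) → (W → B)) (b0 : B)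
    (h1 : ∀ x y, b0 ⊓ eqv x y ≤ eqv (Φ x) (Φ y)) (n : ℕ) (v : SN B (D 0)) (b1 : B) (hb1 : b1 ≠ ⊥) (hb : b1 ≤ b0)
    (h : ¬ ∀ w, v.Ext w → ∃ f ∈ Cn w, b1 ≤ levv D n (Φ f)) :
    ∃ w, v.Ext w ∧ ∃ b2, b2 ≠ ⊥ ∧ b2 ≤ b1 ∧ ∀ f ∈ Cn w, b2 ⊓ levv D n (Φ f) = ⊥ := by
  push Not at h
  obtain ⟨w, hvw, hw⟩ := h
  have hF : ∀ x y, b1 ⊓ eqv x y ⊓ levv D n (Φ x) ≤ levv D n (Φ y) := by
    intro x y
    exact (inf_le_inf_right _ ((inf_le_inf_right _ hb).trans (h1 x y))).trans (levv_ext D n (Φ x) (Φ y))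
  obtain ⟨f, hf, hmax⟩ := max_points hB hD b1 (fun x => levv D n (Φ x)) hF w
  refine ⟨w, hvw, b1 ⊓ (levv D n (Φ f))ᶜ, ?_, inf_le_left, ?_⟩
  · intro h0
    apply hw f hf
    rw [← disjoint_iff, disjoint_compl_right_iff] at h0
    exact h0
  · intro g hg
    rw [eq_bot_iff]
    have h2 : b1 ⊓ (levv D n (Φ f))ᶜ ⊓ levv D n (Φ g) ≤ levv D n (Φ f) :=
      (le_inf (inf_le_left.trans inf_le_left) inf_le_right).trans (hmax g hg)
    have h3 : b1 ⊓ (levv D n (Φ f))ᶜ ⊓ levv D n (Φ g) ≤ (levv D n (Φ f))ᶜ := inf_le_left.trans inf_le_right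
    have h4 := le_inf h2 h3
    rwa [inf_compl_self] at h4

/-- Maximal antichains. -/
theorem N2_maxAnti (P : B → Prop) : ∃ S : Set B, (∀ a ∈ S, P a) ∧ (∀ a ∈ S, ∀ b ∈ S, a ≠ b → a ⊓ b = ⊥) ∧
    ∀ b, P b → (∀ a ∈ S, a ⊓ b = ⊥) → b ∈ S := by
  obtain ⟨S, hS⟩ := zorn_subset {S : Set B | (∀ a ∈ S, P a) ∧ ∀ a ∈ S, ∀ b ∈ S, a ≠ b → a ⊓ b = ⊥} (by
    intro c hc hchain
    refine ⟨⋃₀ c, ⟨?_, ?_⟩, fun s hs => Set.subset_sUnion_of_mem hs⟩
    · rintro a ⟨s, hs, ha⟩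
      exact (hc hs).1 a ha
    · rintro a ⟨s, hs, ha⟩ b ⟨t, ht, hb⟩ hab
      rcases hchain.total hs ht with h | h
      · exact (hc ht).2 a (h ha) b hb hab
      · exact (hc hs).2 a ha b (h hb) hab)
  refine ⟨S, hS.prop.1, hS.prop.2, fun b hb hdisj => ?_⟩
  have h1 : insert b S ∈ {S : Set B | (∀ a ∈ S, P a) ∧ ∀ a ∈ S, ∀ b ∈ S, a ≠ b → a ⊓ b = ⊥} := by
    constructor
    · rintro a (rfl | ha)
      · exact hb
      · exact hS.prop.1 a ha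
    · rintro a (rfl | ha) b' (rfl | hb') hab
      · exact absurd rfl hab
      · rw [inf_comm]
        exact hdisj b' hb'
      · exact hdisj a ha
      · exact hS.prop.2 a ha b' hb' hab
  exact hS.le_of_ge h1 (Set.subset_insert b S) (Set.mem_insert b S)

/-- Mixing of the nodes of `kill_step` over a maximal antichain below `b0` (`mix_nodes`, `exists_component`). -/
theorem kill_all (hB : M3.BCCC B) (hD : Seg W (D 0) lam) (Φ : (W → B) → (W → B)) (b0 : B)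
    (h1 : ∀ x y, b0 ⊓ eqv x y ≤ eqv (Φ x) (Φ y)) (n : ℕ) (v : SN B (D 0))
    (h : ∀ b1, b1 ≠ ⊥ → b1 ≤ b0 → ¬ ∀ w, v.Ext w → ∃ f ∈ Cn w, b1 ≤ levv D n (Φ f)) :
    ∃ w, v.Ext w ∧ ∀ f ∈ Cn w, b0 ⊓ levv D n (Φ f) = ⊥ := by
  obtain ⟨S, hS1, hS2, hS3⟩ := N2_maxAnti (B := B) (fun b => b ≠ ⊥ ∧ b ≤ b0 ∧
    ∃ w, v.Ext w ∧ ∀ f ∈ Cn w, b ⊓ levv D n (Φ f) = ⊥)
  have hsup : b0 ≤ ⨆ a : S, (a : B) := by
    by_contra hcon
    have hne : b0 ⊓ (⨆ a : S, (a : B))ᶜ ≠ ⊥ := by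
      intro h0
      apply hcon
      rw [← disjoint_iff, disjoint_compl_right_iff] at h0
      exact h0
    obtain ⟨w, hw, b2, hb2, hb2', hb3⟩ := kill_step hB hD Φ b0 h1 n v (b0 ⊓ (⨆ a : S, (a : B))ᶜ) hne inf_le_left
      (h _ hne inf_le_left)
    have hdis : ∀ a ∈ S, a ⊓ b2 = ⊥ := by
      intro a ha
      rw [eq_bot_iff]
      have h4 : a ⊓ b2 ≤ ⨆ a : S, (a : B) := inf_le_left.trans (le_iSup (fun a : S => (a : B)) ⟨a, ha⟩)
      have h5 : a ⊓ b2 ≤ (⨆ a : S, (a : B))ᶜ := inf_le_right.trans (hb2'.trans inf_le_right)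
      have h6 := le_inf h4 h5
      rwa [inf_compl_self] at h6
    have hmem : b2 ∈ S := hS3 b2 ⟨hb2, hb2'.trans inf_le_left, w, hw, hb3⟩ hdis
    have := hdis b2 hmem
    rw [inf_idem] at this
    exact hb2 this
  have hw : ∀ a : S, ∃ w, v.Ext w ∧ ∀ f ∈ Cn w, (a : B) ⊓ levv D n (Φ f) = ⊥ := fun a => (hS1 a a.2).2.2
  choose w hw1 hw2 using hw
  obtain ⟨w', hvw', hw'⟩ := mix_nodes hB hD v (fun a : S => (a : B))
    (fun i j hij => hS2 i i.2 j j.2 (fun he => hij (Subtype.ext he))) w hw1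
  refine ⟨w', hvw', fun f hf => ?_⟩
  rw [eq_bot_iff]
  have h5 : b0 ⊓ levv D n (Φ f) ≤ ⨆ a : S, ((a : B) ⊓ levv D n (Φ f)) := by
    rw [← iSup_inf_eq]
    exact inf_le_inf_right _ hsup
  refine h5.trans (iSup_le fun a => ?_)
  obtain ⟨hl, hag⟩ := hw' a (hS1 a a.2).1
  obtain ⟨g, hg, hfg⟩ := exists_component hD (a : B) hl hag hf
  rw [← hw2 a g hg]
  refine le_inf inf_le_left ?_
  have h6 : (a : B) ≤ eqv (Φ f) (Φ g) := (le_inf (hS1 a a.2).2.1 hfg).trans (h1 f g)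
  exact (inf_le_inf_right _ h6).trans (levv_ext D n (Φ f) (Φ g))

/-- THE DENSE LEVEL. Otherwise `kill_all` for all `n` and `v` gives `v 0, v 1, ...` increasing with no point of level `n` above `v (n+1)`;
`exists_limit`, `Cn_nonempty`: contradiction to `h2`. -/
theorem dense_level (hB : M3.BCCC B) (hD : Seg W (D 0) lam) (Φ : (W → B) → (W → B)) (b0 : B) (hb0 : b0 ≠ ⊥)
    (h1 : ∀ x y, b0 ⊓ eqv x y ≤ eqv (Φ x) (Φ y)) (h2 : ∀ f ∈ F1 (D 0), b0 ≤ ⨆ n, levv D n (Φ f)) :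
    ∃ (n : ℕ) (v0 : SN B (D 0)) (b1 : B), b1 ≠ ⊥ ∧ b1 ≤ b0 ∧ ∀ v, v0.Ext v → ∃ f ∈ Cn v, b1 ≤ levv D n (Φ f) := by
  by_contra hcon
  have hk : ∀ (n : ℕ) (v : SN B (D 0)), ∃ w, v.Ext w ∧ ∀ f ∈ Cn w, b0 ⊓ levv D n (Φ f) = ⊥ := by
    intro n v
    refine kill_all hB hD Φ b0 h1 n v fun b1 hb1 hb1' hall => hcon ⟨n, v, b1, hb1, hb1', hall⟩
  choose F hF1 hF2 using hk
  obtain ⟨c, hc, -⟩ := hD.reg ∅ (Set.empty_subset _) (by simp)
  let v : ℕ → SN B (D 0) := fun k => Nat.rec ⟨c, hc, fun _ => ⊥, fun _ _ => rfl⟩ (fun n u => F n u) k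
  have hv : ∀ k, v (k + 1) = F k (v k) := fun k => rfl
  obtain ⟨w, hw⟩ := exists_limit hD v (fun k => by rw [hv]; exact hF1 k (v k))
  obtain ⟨f, hf⟩ := Cn_nonempty (B := B) hD w
  apply hb0
  rw [eq_bot_iff]
  have h3 : b0 ≤ ⨆ n, b0 ⊓ levv D n (Φ f) := by
    rw [← inf_iSup_eq]
    exact le_inf le_rfl (h2 f hf.1)
  refine h3.trans (iSup_le fun n => ?_)
  have h4 : f ∈ Cn (F n (v n)) := by
    rw [← hv]
    exact Cn_anti (hw (n + 1)) hf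
  rw [hF2 n (v n) f h4]

end Pool.Agent.H.MP_353193_lc.BV
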