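import Pool.Agent.H.MP_353193_lc.BV.C1

/-!
# Valleys
-/

set_option autoImplicit false

open Cardinal

namespace Pool.Agent.H.MP_353193_lc.BV

variable {B : Type} [CompleteBooleanAlgebra B] {W : Type} [LinearOrder W]

/-- The value of: the meets of `p, q` and of `r, s` are incomparable, `q` and `r` split at `ν` before `p, q` and `r, s` split. -/
def valley (p q r s : W → B) : B := ⨆ ν, dif q r ν ⊓ ag p q ν ⊓ ag r s ν

/-- No infinite descent of Boolean-valued elements of a well-order: let `ν` be the least element with `b ⊓ d k ν ≠ ⊥` for some `k`. -/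
theorem descent [WellFoundedLT W] (b : B) (d : ℕ → W → B) (hd : ∀ k ν ν', ν ≠ ν' → d k ν ⊓ d k ν' = ⊥)
    (h : ∀ k, b ≤ ⨆ ν, ⨆ ν' : {ν' : W // ν' < ν}, d k ν ⊓ d (k + 1) ν'.1) : b = ⊥ := by
  by_contra hb
  have key : ∀ (b1 : B), b1 ≤ b → b1 ≠ ⊥ → ∀ k, ∃ ν ν', ν' < ν ∧ b1 ⊓ (d k ν ⊓ d (k + 1) ν') ≠ ⊥ := by
    intro b1 h1 hb1 k
    by_contra hcon
    push Not at hcon
    apply hb1
    have h2 : b1 = b1 ⊓ ⨆ ν, ⨆ ν' : {ν' : W // ν' < ν}, d k ν ⊓ d (k + 1) ν'.1 :=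
      (inf_eq_left.2 (h1.trans (h k))).symm
    rw [h2, inf_iSup_eq]
    refine iSup_eq_bot.2 fun ν => ?_
    rw [inf_iSup_eq]
    exact iSup_eq_bot.2 fun ν' => hcon ν ν'.1 ν'.2
  have hne : {ν : W | ∃ k, b ⊓ d k ν ≠ ⊥}.Nonempty := by
    obtain ⟨ν, ν', _, h1⟩ := key b le_rfl hb 0
    refine ⟨ν, 0, fun h2 => h1 ?_⟩
    rw [← inf_assoc, h2, bot_inf_eq]
  obtain ⟨ν, ⟨k, hk⟩, hmin⟩ := WellFounded.has_min (wellFounded_lt (α := W)) _ hne
  obtain ⟨ν1, ν', hlt, h1⟩ := key (b ⊓ d k ν) inf_le_left hk k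
  have hν : ν1 = ν := by
    by_contra hne1
    apply h1
    have h2 : b ⊓ d k ν ⊓ (d k ν1 ⊓ d (k + 1) ν') ≤ d k ν ⊓ d k ν1 :=
      le_inf (inf_le_left.trans inf_le_right) (inf_le_right.trans inf_le_left)
    exact le_bot_iff.1 (h2.trans_eq (hd k ν ν1 (Ne.symm hne1)))
  refine hmin ν' ⟨k + 1, fun h2 => h1 ?_⟩ (hν ▸ hlt)
  have h3 : b ⊓ d k ν ⊓ (d k ν1 ⊓ d (k + 1) ν') ≤ b ⊓ d (k + 1) ν' :=
    le_inf (inf_le_left.trans inf_le_left) (inf_le_right.trans inf_le_right)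
  exact le_bot_iff.1 (h3.trans_eq h2)

/-- Either the first pair splits first or the second pair splits first. -/
theorem less_or_more (p q r : W → B) :
    ltv p q ⊓ ltv q r ≤ (⨆ ν, dif p q ν ⊓ ag q r ν) ⊔ ⨆ ν, dif q r ν ⊓ ag p q ν := by
  rw [ltv_eq, ltv_eq, iSup_inf_eq]
  refine iSup_le fun ν => ?_
  rw [inf_iSup_eq]
  refine iSup_le fun μ => ?_
  rcases lt_trichotomy ν μ with h | h | h
  · exact le_sup_of_le_left (le_iSup_of_le ν (inf_le_inf_left _ (dif_le_ag q r h)))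
  · subst h
    have h1 : dif p q ν ⊓ dif q r ν ≤ q ν ⊓ (q ν)ᶜ := by
      refine le_inf (inf_le_left.trans ?_) (inf_le_right.trans ?_)
      · exact inf_le_right
      · exact inf_le_left.trans inf_le_right
    rw [inf_compl_eq_bot] at h1
    exact h1.trans bot_le
  · refine le_sup_of_le_right (le_iSup_of_le μ ?_)
    rw [inf_comm (dif p q ν)]
    exact inf_le_inf_left _ (dif_le_ag p q h)

/-- `more (k-1)` and `less k` give a valley at `k`: the split of `p k, p (k+1)` is before the neighbouring ones. -/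
theorem valley_of (p q r s : W → B) :
    (⨆ ν, dif q r ν ⊓ ag p q ν) ⊓ (⨆ ν, dif q r ν ⊓ ag r s ν) ≤ valley p q r s := by
  unfold valley
  rw [iSup_inf_eq]
  refine iSup_le fun ν => ?_
  rw [inf_iSup_eq]
  refine iSup_le fun μ => ?_
  rcases eq_or_ne ν μ with h | h
  · subst h
    refine le_iSup_of_le ν ?_
    exact le_inf inf_le_left (inf_le_right.trans inf_le_right)
  · have h1 : dif q r ν ⊓ ag p q ν ⊓ (dif q r μ ⊓ ag r s μ) ≤ dif q r ν ⊓ dif q r μ :=
      le_inf (inf_le_left.trans inf_le_left) (inf_le_right.trans inf_le_left)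
    rw [dif_disj q r h] at h1
    exact h1.trans bot_le

/-- If the second pair splits before the first one, the place of the split drops. -/
theorem N3_drop_right {a : B} {p q r : W → B} (h1 : a ≤ ltv p q) (h2 : a ≤ ⨆ ν, dif q r ν ⊓ ag p q ν) :
    a ≤ ⨆ ν, ⨆ ν' : {ν' : W // ν' < ν}, dif p q ν ⊓ dif q r ν'.1 := by
  refine (le_inf h1 h2).trans ?_
  rw [ltv_eq, iSup_inf_eq]
  refine iSup_le fun ν => ?_
  rw [inf_iSup_eq]
  refine iSup_le fun μ => ?_
  rcases lt_or_ge μ ν with h | h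
  · refine le_iSup_of_le ν (le_iSup_of_le ⟨μ, h⟩ ?_)
    exact inf_le_inf_left _ inf_le_left
  · have h3 : dif p q ν ⊓ (dif q r μ ⊓ ag p q μ) ≤ dif p q ν ⊓ ag p q μ := inf_le_inf_left _ inf_le_right
    rw [dif_ag p q h] at h3
    exact h3.trans bot_le

/-- If the first pair splits before the second one, the place of the split drops to the left. -/
theorem N3_drop_left {a : B} {p q r : W → B} (h1 : a ≤ ltv q r) (h2 : a ≤ ⨆ ν, dif p q ν ⊓ ag q r ν) :
    a ≤ ⨆ ν, ⨆ ν' : {ν' : W // ν' < ν}, dif q r ν ⊓ dif p q ν'.1 := by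
  refine (le_inf h1 h2).trans ?_
  rw [ltv_eq, iSup_inf_eq]
  refine iSup_le fun ν => ?_
  rw [inf_iSup_eq]
  refine iSup_le fun μ => ?_
  rcases lt_or_ge μ ν with h | h
  · refine le_iSup_of_le ν (le_iSup_of_le ⟨μ, h⟩ ?_)
    exact inf_le_inf_left _ inf_le_left
  · have h3 : dif q r ν ⊓ (dif p q μ ⊓ ag q r μ) ≤ dif q r ν ⊓ ag q r μ := inf_le_inf_left _ inf_le_right
    rw [dif_ag q r h] at h3
    exact h3.trans bot_le

/-- VALLEYS EXIST in every strictly increasing sequence indexed by the integers. Let `less k = ⨆ ν, dif (p k) (p (k+1)) ν ⊓ ag (p (k+1)) (p (k+2)) ν`,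
`more k = ⨆ ν, dif (p (k+1)) (p (k+2)) ν ⊓ ag (p k) (p (k+1)) ν`, `b' = b ⊓ (⨆ k, valley ..)ᶜ`. Then `b' ⊓ more (k-1) ≤ more k` (`less_or_more`,
`valley_of`), so `b' ⊓ more k = ⊥` by `descent` to the right (`d j = dif (p (k+j)) (p (k+j+1))`); so `b' ≤ less k` for all `k`, and `descent`
to the left gives `b' = ⊥`. -/
theorem exists_valley [WellFoundedLT W] (b : B) (p : ℤ → W → B) (h : ∀ k, b ≤ ltv (p k) (p (k + 1))) :
    b ≤ ⨆ k : ℤ, valley (p (k - 1)) (p k) (p (k + 1)) (p (k + 2)) := by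
  obtain ⟨S, hS⟩ : ∃ S : B, S = ⨆ k : ℤ, valley (p (k - 1)) (p k) (p (k + 1)) (p (k + 2)) := ⟨_, rfl⟩
  obtain ⟨more, hmore⟩ : ∃ more : ℤ → B, more = fun k => ⨆ ν, dif (p (k + 1)) (p (k + 2)) ν ⊓ ag (p k) (p (k + 1)) ν :=
    ⟨_, rfl⟩
  obtain ⟨less, hless⟩ : ∃ less : ℤ → B, less = fun k => ⨆ ν, dif (p k) (p (k + 1)) ν ⊓ ag (p (k + 1)) (p (k + 2)) ν :=
    ⟨_, rfl⟩
  rw [← hS]
  have hcov : ∀ k, b ≤ less k ⊔ more k := by
    intro k
    have h1 := less_or_more (p k) (p (k + 1)) (p (k + 2))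
    have h2 : b ≤ ltv (p (k + 1)) (p (k + 2)) := by
      have := h (k + 1)
      rwa [show k + 1 + 1 = k + 2 by ring] at this
    rw [hless, hmore]
    exact (le_inf (h k) h2).trans h1
  have hval : ∀ k, more (k - 1) ⊓ less k ≤ S := by
    intro k
    rw [hS]
    refine le_iSup_of_le k ?_
    have h1 := valley_of (p (k - 1)) (p k) (p (k + 1)) (p (k + 2))
    rw [hless, hmore]
    simp only [show k - 1 + 1 = k by ring, show k - 1 + 2 = k + 1 by ring]
    exact h1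
  obtain ⟨b', hb'⟩ : ∃ b', b' = b ⊓ Sᶜ := ⟨_, rfl⟩
  have hb'b : b' ≤ b := hb'.trans_le inf_le_left
  have hb'S : b' ≤ Sᶜ := hb'.trans_le inf_le_right
  suffices hbot : b' = ⊥ by
    rw [hb'] at hbot
    have := disjoint_iff.2 hbot
    rwa [disjoint_compl_right_iff] at this
  have hstep : ∀ k, b' ⊓ more (k - 1) ≤ more k := by
    intro k
    have h1 : b' ⊓ more (k - 1) ≤ less k ⊔ more k := inf_le_left.trans (hb'b.trans (hcov k))
    have h2 : b' ⊓ more (k - 1) ⊓ less k = ⊥ := by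
      have h3 : b' ⊓ more (k - 1) ⊓ less k ≤ S ⊓ Sᶜ := by
        refine le_inf ?_ (inf_le_left.trans (inf_le_left.trans hb'S))
        exact (inf_le_inf_right _ inf_le_right).trans (hval k)
      rw [inf_compl_eq_bot] at h3
      exact le_bot_iff.1 h3
    have h4 : b' ⊓ more (k - 1) = b' ⊓ more (k - 1) ⊓ (less k ⊔ more k) := (inf_eq_left.2 h1).symm
    rw [h4, inf_sup_left, h2, bot_sup_eq]
    exact inf_le_right
  have hmb : ∀ k, b' ⊓ more k = ⊥ := by
    intro k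
    have hall : ∀ j : ℕ, b' ⊓ more k ≤ more (k + j) := by
      intro j
      induction j with
      | zero =>
        rw [Nat.cast_zero, add_zero]
        exact inf_le_right
      | succ j ih =>
        have h1 := hstep (k + (j + 1 : ℕ))
        rw [show k + ((j + 1 : ℕ) : ℤ) - 1 = k + j by push_cast; ring] at h1
        exact (le_inf inf_le_left ih).trans h1
    refine descent _ (fun j => dif (p (k + j)) (p (k + j + 1))) (fun j ν ν' hne => dif_disj _ _ hne) fun j => ?_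
    have h1 : b' ⊓ more k ≤ ltv (p (k + j)) (p (k + j + 1)) := inf_le_left.trans (hb'b.trans (h _))
    have h2 : b' ⊓ more k ≤ ⨆ ν, dif (p (k + j + 1)) (p (k + j + 2)) ν ⊓ ag (p (k + j)) (p (k + j + 1)) ν :=
      (hall j).trans_eq (congrFun hmore (k + j))
    have h3 := N3_drop_right h1 h2
    have e1 : k + ((j + 1 : ℕ) : ℤ) = k + j + 1 := by push_cast; ring
    have e2 : k + (j : ℤ) + 1 + 1 = k + j + 2 := by ring
    simp only [e1, e2]
    exact h3
  have hless' : ∀ k, b' ≤ less k := by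
    intro k
    have h1 : b' = b' ⊓ (less k ⊔ more k) := (inf_eq_left.2 (hb'b.trans (hcov k))).symm
    rw [h1, inf_sup_left, hmb k, sup_bot_eq]
    exact inf_le_right
  refine descent _ (fun j => dif (p (-(j : ℤ))) (p (-(j : ℤ) + 1))) (fun j ν ν' hne => dif_disj _ _ hne) fun j => ?_
  have h1 : b' ≤ ltv (p (-(j : ℤ))) (p (-(j : ℤ) + 1)) := hb'b.trans (h _)
  have h2 := hless' (-(j : ℤ) - 1)
  rw [hless] at h2
  simp only [show -(j : ℤ) - 1 + 1 = -(j : ℤ) by ring, show -(j : ℤ) - 1 + 2 = -(j : ℤ) + 1 by ring] at h2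
  have h3 := N3_drop_left h1 h2
  have e1 : -((j + 1 : ℕ) : ℤ) = -(j : ℤ) - 1 := by push_cast; ring
  have e2 : -(j : ℤ) - 1 + 1 = -(j : ℤ) := by ring
  simp only [e1, e2]
  exact h3

end Pool.Agent.H.MP_353193_lc.BV
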