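import Pool.Agent.H.MP_353193_lc.BV.N2
import Pool.Agent.H.MP_353193_lc.BV.N3

/-!
# Splitting
-/

set_option autoImplicit false

open Cardinal

namespace Pool.Agent.H.MP_353193_lc.BV

variable {B : Type} [CompleteBooleanAlgebra B] {W : Type} [LinearOrder W]

theorem N4_ltv_top {f g : W → B} (ν₀ : W) (h : ∀ μ, μ < ν₀ → f μ = g μ) (hf : f ν₀ = ⊥)
    (hg : g ν₀ = ⊤) : ltv f g = ⊤ := by
  rw [eq_top_iff]
  refine le_trans ?_ (le_iSup (fun ν => (⨅ μ : {μ : W // μ < ν}, bihimp (f μ) (g μ)) ⊓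
    (f ν)ᶜ ⊓ g ν) ν₀)
  rw [hf, hg, compl_bot, inf_top_eq, inf_top_eq]
  refine le_iInf fun μ => ?_
  rw [h μ.1 μ.2, bihimp_self]

theorem N4_seq {D0 : Set W} {lam : Cardinal.{0}} (hD : Seg W D0 lam) (a : W) (ha : a ∈ D0) :
    ∃ e : ℕ → W, e 0 = a ∧ StrictMono e ∧ ∀ k, e k ∈ D0 := by
  have hstep : ∀ x : D0, ∃ y : D0, x.1 < y.1 := by
    intro x
    obtain ⟨b, hb, hlt⟩ := hD.reg {x.1} (by rintro y rfl; exact x.2)
      (by rw [Cardinal.mk_singleton]; exact Cardinal.one_lt_aleph0.le.trans hD.inf)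
    exact ⟨⟨b, hb⟩, hlt _ rfl⟩
  choose s hs using hstep
  let e' : ℕ → D0 := fun k => Nat.rec ⟨a, ha⟩ (fun _ x => s x) k
  refine ⟨fun k => (e' k).1, rfl, strictMono_nat_of_lt_succ fun k => ?_, fun k => (e' k).2⟩
  exact hs (e' k)

/-- the node with the digits of `v` and then the digits `1` exactly at the elements of `S` -/
noncomputable def N4_node {D0 : Set W} (v : SN B D0) (S : Set W) (L : W) (hL : L ∈ D0)
    (hv : v.len ≤ L) (hS : ∀ x ∈ S, x < L) : SN B D0 where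
  len := L
  hlen := hL
  v := by
    classical
    exact fun ν => if ν < v.len then v.v ν else if ν ∈ S then ⊤ else ⊥
  hv := by
    intro ν hν
    have h1 : ¬ ν < v.len := not_lt.mpr (hv.trans hν)
    have h2 : ν ∉ S := fun h => absurd (hS ν h) (not_lt.mpr hν)
    simp only [h1, h2, if_false]

theorem N4_node_v {D0 : Set W} (v : SN B D0) (S : Set W) (L : W) (hL : L ∈ D0)
    (hv : v.len ≤ L) (hS : ∀ x ∈ S, x < L) {ν : W} (h : ν < v.len) :
    (N4_node v S L hL hv hS).v ν = v.v ν := by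
  classical
  change (if ν < v.len then v.v ν else if ν ∈ S then ⊤ else ⊥) = v.v ν
  rw [if_pos h]

theorem N4_node_in {D0 : Set W} (v : SN B D0) (S : Set W) (L : W) (hL : L ∈ D0)
    (hv : v.len ≤ L) (hS : ∀ x ∈ S, x < L) {ν : W} (h : v.len ≤ ν) (h' : ν ∈ S) :
    (N4_node v S L hL hv hS).v ν = ⊤ := by
  classical
  change (if ν < v.len then v.v ν else if ν ∈ S then ⊤ else ⊥) = (⊤ : B)
  rw [if_neg (not_lt.mpr h), if_pos h']

theorem N4_node_out {D0 : Set W} (v : SN B D0) (S : Set W) (L : W) (hL : L ∈ D0)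
    (hv : v.len ≤ L) (hS : ∀ x ∈ S, x < L) {ν : W} (h : v.len ≤ ν) (h' : ν ∉ S) :
    (N4_node v S L hL hv hS).v ν = ⊥ := by
  classical
  change (if ν < v.len then v.v ν else if ν ∈ S then ⊤ else ⊥) = (⊥ : B)
  rw [if_neg (not_lt.mpr h), if_neg h']

theorem N4_lt {D0 : Set W} (v : SN B D0) (S S' : Set W) (L L' : W) (hL : L ∈ D0) (hL' : L' ∈ D0)
    (hv : v.len ≤ L) (hv' : v.len ≤ L') (hS : ∀ x ∈ S, x < L) (hS' : ∀ x ∈ S', x < L')
    (ν₀ : W) (h0 : v.len ≤ ν₀) (h1 : ν₀ < L) (h2 : ν₀ < L') (h3 : ν₀ ∉ S) (h4 : ν₀ ∈ S')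
    (h5 : ∀ μ, μ < ν₀ → (μ ∈ S ↔ μ ∈ S')) :
    ∀ f ∈ Cn (N4_node v S L hL hv hS), ∀ g ∈ Cn (N4_node v S' L' hL' hv' hS'),
      ltv f g = ⊤ := by
  intro f hf g hg
  refine N4_ltv_top ν₀ (fun μ hμ => ?_) ?_ ?_
  · rw [hf.2 μ (hμ.trans h1), hg.2 μ (hμ.trans h2)]
    rcases lt_or_ge μ v.len with h | h
    · rw [N4_node_v _ _ _ _ _ _ h, N4_node_v _ _ _ _ _ _ h]
    · by_cases hm : μ ∈ S
      · rw [N4_node_in _ _ _ _ _ _ h hm, N4_node_in _ _ _ _ _ _ h ((h5 μ hμ).mp hm)]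
      · rw [N4_node_out _ _ _ _ _ _ h hm,
          N4_node_out _ _ _ _ _ _ h (fun h' => hm ((h5 μ hμ).mpr h'))]
  · rw [hf.2 ν₀ h1, N4_node_out _ _ _ _ _ _ h0 h3]
  · rw [hg.2 ν₀ h2, N4_node_in _ _ _ _ _ _ h0 h4]

/-- Extensions `w k` of `v`, `k : ℤ`, with increasing cones. Take elements `v.len = e 0 < e 1 < ...` of `D0` (`reg`). For `k ≥ 0`: `w k` has digits
`⊤` at `e 0, ..., e k`, `⊥` elsewhere from `v.len` on, length `e (k + 2)`. For `k = -(m + 1)`: only digit `⊤` at `e (m + 1)`, length `e (m + 2)`. -/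
theorem exists_fan {D0 : Set W} {lam : Cardinal.{0}} (hD : Seg W D0 lam) (v : SN B D0) :
    ∃ w : ℤ → SN B D0, (∀ k, v.Ext (w k)) ∧ ∀ k l, k < l → ∀ f ∈ Cn (w k), ∀ g ∈ Cn (w l), ltv f g = ⊤ := by
  obtain ⟨e, he0, hmono, heD⟩ := N4_seq hD v.len v.hlen
  have hle : ∀ k, v.len ≤ e k := fun k => he0 ▸ hmono.monotone (Nat.zero_le k)
  let Sp : ℕ → Set W := fun m => {x | ∃ i, i ≤ m ∧ x = e i}
  have hSp : ∀ m, ∀ x ∈ Sp m, x < e (m + 2) := by
    rintro m x ⟨i, hi, rfl⟩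
    exact hmono (by omega)
  let Sn : ℕ → Set W := fun m => {x | x = e (m + 1)}
  have hSn : ∀ m, ∀ x ∈ Sn m, x < e (m + 2) := by
    rintro m x hx
    rw [show x = e (m + 1) from hx]
    exact hmono (by omega)
  let wp : ℕ → SN B D0 := fun m => N4_node v (Sp m) (e (m + 2)) (heD _) (hle _) (hSp m)
  let wn : ℕ → SN B D0 := fun m => N4_node v (Sn m) (e (m + 2)) (heD _) (hle _) (hSn m)
  let w : ℤ → SN B D0 := fun k => match k with
    | Int.ofNat m => wp m
    | Int.negSucc m => wn m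
  refine ⟨w, fun k => ?_, fun k l hkl => ?_⟩
  · cases k with
    | ofNat m => exact ⟨hle _, fun ν hν => N4_node_v _ _ _ _ _ _ hν⟩
    | negSucc m => exact ⟨hle _, fun ν hν => N4_node_v _ _ _ _ _ _ hν⟩
  · cases k with
    | ofNat a =>
      cases l with
      | ofNat b =>
        have hab : a < b := Int.ofNat_lt.mp hkl
        refine N4_lt v _ _ _ _ _ _ _ _ _ _ (e (a + 1)) (hle _) (hmono (by omega))
          (hmono (by omega)) ?_ ⟨a + 1, hab, rfl⟩ ?_
        · rintro ⟨i, hi, h⟩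
          have := hmono.injective h
          omega
        · intro μ hμ
          constructor
          · rintro ⟨i, hi, rfl⟩
            exact ⟨i, by omega, rfl⟩
          · rintro ⟨i, hi, rfl⟩
            have := hmono.lt_iff_lt.mp hμ
            exact ⟨i, by omega, rfl⟩
      | negSucc b =>
        exfalso
        have h1 : (0 : ℤ) ≤ Int.ofNat a := Int.natCast_nonneg a
        have h2 : Int.negSucc b < 0 := Int.negSucc_lt_zero b
        omega
    | negSucc a =>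
      cases l with
      | ofNat b =>
        refine N4_lt v _ _ _ _ _ _ _ _ _ _ (e 0) (hle _) (hmono (by omega))
          (hmono (by omega)) ?_ ⟨0, Nat.zero_le _, rfl⟩ ?_
        · intro h
          have := hmono.injective (show e 0 = e (a + 1) from h)
          omega
        · intro μ hμ
          constructor
          · intro h
            rw [show μ = e (a + 1) from h] at hμ
            have := hmono.lt_iff_lt.mp hμ
            omega
          · rintro ⟨i, hi, rfl⟩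
            have := hmono.lt_iff_lt.mp hμ
            omega
      | negSucc b =>
        have hab : b < a := by
          rw [Int.negSucc_eq, Int.negSucc_eq] at hkl
          omega
        refine N4_lt v _ _ _ _ _ _ _ _ _ _ (e (b + 1)) (hle _) (hmono (by omega))
          (hmono (by omega)) ?_ rfl ?_
        · intro h
          have := hmono.injective (show e (b + 1) = e (a + 1) from h)
          omega
        · intro μ hμ
          constructor
          · intro h
            rw [show μ = e (a + 1) from h] at hμ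
            have := hmono.lt_iff_lt.mp hμ
            omega
          · intro h
            rw [show μ = e (b + 1) from h] at hμ
            exact absurd hμ (lt_irrefl _)

theorem N4_valley_ext {e : B} {p q r s p' q' r' s' : W → B} (hp : e ≤ eqv p p')
    (hq : e ≤ eqv q q') (hr : e ≤ eqv r r') (hs : e ≤ eqv s s') (h : e ≤ valley p q r s) :
    e ≤ valley p' q' r' s' := by
  have h0 : e ≤ e ⊓ ⨆ ν, dif q r ν ⊓ ag p q ν ⊓ ag r s ν := le_inf le_rfl h
  rw [inf_iSup_eq] at h0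
  refine h0.trans (iSup_le fun ν => ?_)
  refine le_trans ?_ (le_iSup (fun ν => dif q' r' ν ⊓ ag p' q' ν ⊓ ag r' s' ν) ν)
  set u := e ⊓ (dif q r ν ⊓ ag p q ν ⊓ ag r s ν) with hu
  have u0 : u ≤ e := inf_le_left
  have u1 : u ≤ dif q r ν := inf_le_right.trans (inf_le_left.trans inf_le_left)
  have u2 : u ≤ ag p q ν := inf_le_right.trans (inf_le_left.trans inf_le_right)
  have u3 : u ≤ ag r s ν := inf_le_right.trans inf_le_right
  have v1 : u ≤ dif q' r ν := (le_inf (u0.trans hq) u1).trans (dif_ext_left q q' r ν)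
  have v2 : u ≤ dif q' r' ν := (le_inf (u0.trans hr) v1).trans (dif_ext_right r r' q' ν)
  have v3 : u ≤ ag p' q' ν :=
    (le_inf (le_inf (u0.trans hp) (u0.trans hq)) u2).trans (ag_ext p q p' q' ν)
  have v4 : u ≤ ag r' s' ν :=
    (le_inf (le_inf (u0.trans hr) (u0.trans hs)) u3).trans (ag_ext r s r' s' ν)
  exact le_inf (le_inf v2 v3) v4

variable {D : ℕ → Set W} {lam : Cardinal.{0}}

theorem N4_disj (V : ℤ → B) : ∃ b : ℤ → B, (∀ k, b k ≤ V k) ∧ (∀ i j, i ≠ j → b i ⊓ b j = ⊥) ∧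
    ⨆ k, b k = ⨆ k, V k := by
  let e : ℤ ≃ ℕ := Denumerable.eqv ℤ
  refine ⟨fun k => disjointed (fun m => V (e.symm m)) (e k), fun k => ?_, fun i j hij => ?_, ?_⟩
  · have := disjointed_le (fun m => V (e.symm m)) (e k)
    simpa using this
  · have := disjoint_disjointed (fun m => V (e.symm m)) (e.injective.ne hij)
    exact this.eq_bot
  · rw [e.surjective.iSup_comp (g := fun m => disjointed (fun m => V (e.symm m)) m),
      iSup_disjointed, e.symm.surjective.iSup_comp (g := V)]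

/-- SPLITTING. `w` of `exists_fan`; `h k ∈ Cn (w (2 * k))` of level `n` (`hdense`); `exists_valley` for `p k = Φ (h k)`. Disjointify
`V k = b1 ⊓ valley (..)` over `k : ℤ` (countable) to `b k`; mix: `a false = h (k-1)`, `e false = h k`, `a true = h (k+1)`, `e true = h (k+2)` on `b k`
(`mix_points`), `u false = w (2k-1)`, `u true = w (2k+3)` on `b k` (`mix_nodes`, `exists_component`). -/
theorem split [WellFoundedLT W] (hB : M3.BCCC B) (hD : Seg W (D 0) lam) (Φ : (W → B) → (W → B)) (b1 : B)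
    (h1 : ∀ x y, b1 ⊓ eqv x y ≤ eqv (Φ x) (Φ y))
    (h3 : ∀ f ∈ F1 (D 0), ∀ g ∈ F1 (D 0), b1 ⊓ ltv f g ≤ ltv (Φ f) (Φ g))
    (n : ℕ) (v0 : SN B (D 0)) (hdense : ∀ v, v0.Ext v → ∃ f ∈ Cn v, b1 ≤ levv D n (Φ f)) (v : SN B (D 0)) (hv : v0.Ext v) :
    ∃ (u : Bool → SN B (D 0)) (a e : Bool → W → B), (∀ i, v.Ext (u i)) ∧ (∀ i, a i ∈ Cn v) ∧ (∀ i, e i ∈ Cn v) ∧
      (∀ i, b1 ≤ levv D n (Φ (a i))) ∧ (∀ i, b1 ≤ levv D n (Φ (e i))) ∧
      (∀ i, ∀ f ∈ Cn (u i), b1 ≤ ltv (a i) f ∧ b1 ≤ ltv f (e i)) ∧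
      b1 ≤ valley (Φ (a false)) (Φ (e false)) (Φ (a true)) (Φ (e true)) := by
  obtain ⟨w, hw, hlt⟩ := exists_fan hD v
  have hex : ∀ k : ℤ, ∃ f ∈ Cn (w (2 * k)), b1 ≤ levv D n (Φ f) := fun k =>
    hdense (w (2 * k)) (hv.trans (hw _))
  choose h hcn hlev using hex
  have hF1 : ∀ k, h k ∈ F1 (D 0) := fun k => (hcn k).1
  have hcv : ∀ k, h k ∈ Cn v := fun k => Cn_anti (hw _) (hcn k)
  have hp : ∀ k : ℤ, b1 ≤ ltv (Φ (h k)) (Φ (h (k + 1))) := by
    intro k
    have := h3 (h k) (hF1 k) (h (k + 1)) (hF1 _)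
    rwa [hlt (2 * k) (2 * (k + 1)) (by omega) (h k) (hcn k) (h (k + 1)) (hcn _),
      inf_top_eq] at this
  have hval := exists_valley b1 (fun k => Φ (h k)) hp
  obtain ⟨b, hbV, hbd, hbs⟩ := N4_disj (fun k : ℤ => b1 ⊓
    valley (Φ (h (k - 1))) (Φ (h k)) (Φ (h (k + 1))) (Φ (h (k + 2))))
  have hbs' : b1 ≤ ⨆ k, b k := by
    rw [hbs, ← inf_iSup_eq]
    exact le_inf le_rfl hval
  have hb1 : ∀ k, b k ≤ b1 := fun k => (hbV k).trans inf_le_left
  have hbval : ∀ k, b k ≤ valley (Φ (h (k - 1))) (Φ (h k)) (Φ (h (k + 1))) (Φ (h (k + 2))) :=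
    fun k => (hbV k).trans inf_le_right
  -- points
  have hpt : ∀ j : ℤ, ∃ g ∈ Cn v, ∀ k, b k ≤ eqv g (h (k + j)) := fun j =>
    mix_points hB hD v b hbd (fun k => h (k + j)) (fun k => hcv _)
  choose g hgv hge using hpt
  have hnd : ∀ j : ℤ, ∃ w' : SN B (D 0), v.Ext w' ∧ ∀ k, b k ≠ ⊥ →
      (w (2 * k + j)).len ≤ w'.len ∧
      ∀ ν, ν < (w (2 * k + j)).len → b k ⊓ w'.v ν = b k ⊓ (w (2 * k + j)).v ν := fun j =>
    mix_nodes hB hD v b hbd (fun k => w (2 * k + j)) (fun k => hw _)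
  choose nd hndv hnde using hnd
  -- from pieces to the whole
  have hglue : ∀ y : B, (∀ k, b k ≤ y) → b1 ≤ y := fun y hy => hbs'.trans (iSup_le hy)
  have hΦ : ∀ j k : ℤ, b k ≤ eqv (Φ (h (k + j))) (Φ (g j)) := by
    intro j k
    have h2 : b k ≤ eqv (h (k + j)) (g j) := by
      rw [eqv_symm]
      exact hge j k
    exact (le_inf (hb1 k) h2).trans (h1 _ _)
  have hL : ∀ j : ℤ, b1 ≤ levv D n (Φ (g j)) := by
    intro j
    refine hglue _ fun k => ?_
    exact (le_inf (hΦ j k) ((hb1 k).trans (hlev (k + j)))).trans (levv_ext D n _ _)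
  have hleft : ∀ (j i : ℤ), 2 * j < i → ∀ f ∈ Cn (nd i), b1 ≤ ltv (g j) f := by
    intro j i hji f hf
    refine hglue _ fun k => ?_
    by_cases hk : b k = ⊥
    · rw [hk]
      exact bot_le
    obtain ⟨f', hf', hff⟩ := exists_component hD (b k) (hnde i k hk).1 (hnde i k hk).2 hf
    have e1 : ltv (h (k + j)) f' = ⊤ :=
      hlt (2 * (k + j)) (2 * k + i) (by omega) _ (hcn _) _ hf'
    have e2 : b k ≤ ltv (g j) f' := by
      have := ltv_ext_left (h (k + j)) (g j) f'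
      rw [e1, inf_top_eq, eqv_symm] at this
      exact (hge j k).trans this
    have e3 : b k ≤ eqv f' f := by
      rw [eqv_symm]
      exact hff
    exact (le_inf e3 e2).trans (ltv_ext_right f' f (g j))
  have hright : ∀ (j i : ℤ), i < 2 * j → ∀ f ∈ Cn (nd i), b1 ≤ ltv f (g j) := by
    intro j i hji f hf
    refine hglue _ fun k => ?_
    by_cases hk : b k = ⊥
    · rw [hk]
      exact bot_le
    obtain ⟨f', hf', hff⟩ := exists_component hD (b k) (hnde i k hk).1 (hnde i k hk).2 hf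
    have e1 : ltv f' (h (k + j)) = ⊤ :=
      hlt (2 * k + i) (2 * (k + j)) (by omega) _ hf' _ (hcn _)
    have e2 : b k ≤ ltv f' (g j) := by
      have := ltv_ext_right (h (k + j)) (g j) f'
      rw [e1, inf_top_eq, eqv_symm] at this
      exact (hge j k).trans this
    have e3 : b k ≤ eqv f' f := by
      rw [eqv_symm]
      exact hff
    exact (le_inf e3 e2).trans (ltv_ext_left f' f (g j))
  refine ⟨fun i => if i then nd 3 else nd (-1), fun i => if i then g 1 else g (-1),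
    fun i => if i then g 2 else g 0, ?_, ?_, ?_, ?_, ?_, ?_, ?_⟩
  · intro i
    cases i
    · exact hndv _
    · exact hndv _
  · intro i
    cases i
    · exact hgv _
    · exact hgv _
  · intro i
    cases i
    · exact hgv _
    · exact hgv _
  · intro i
    cases i
    · exact hL _
    · exact hL _
  · intro i
    cases i
    · exact hL _
    · exact hL _
  · intro i f hf
    cases i
    · exact ⟨hleft (-1) (-1) (by norm_num) f hf, hright 0 (-1) (by norm_num) f hf⟩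
    · exact ⟨hleft 1 3 (by norm_num) f hf, hright 2 3 (by norm_num) f hf⟩
  · refine hglue _ fun k => ?_
    have k0 := hΦ 0 k
    rw [add_zero] at k0
    exact N4_valley_ext (hΦ (-1) k) k0 (hΦ 1 k) (hΦ 2 k) (hbval k)

end Pool.Agent.H.MP_353193_lc.BV
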