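import Pool.Agent.H.MP_353193_lc.BV.N4

/-!
# The scheme
-/

set_option autoImplicit false

open Cardinal

namespace Pool.Agent.H.MP_353193_lc.BV

variable {B : Type} [CompleteBooleanAlgebra B] {W : Type} [LinearOrder W] {D : ℕ → Set W} {lam : Cardinal.{0}}

/-- the state of the recursion -/
structure N5_St (D : ℕ → Set W) (n : ℕ) (Φ : (W → B) → (W → B)) (b1 : B) (v0 : SN B (D 0)) where
  sn : SN B (D 0)
  a : W → B
  e : W → B
  ext : v0.Ext sn
  ha : a ∈ F1 (D 0)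
  he : e ∈ F1 (D 0)
  la : b1 ≤ levv D n (Φ a)
  le : b1 ≤ levv D n (Φ e)
  lt : ∀ f ∈ Cn sn, b1 ≤ ltv a f ∧ b1 ≤ ltv f e

/-- THE TREE. Recursion on `List Bool` with `split`; state = source node `sn s` above `v0` and points `a s`, `e s` of level `n` on `b1` with
`b1 ≤ ltv (a s) f ⊓ ltv f (e s)` for all `f` above `sn s`; at the root the pair `false` of `split` at `v0`; the two pairs of `split` at `sn s` for
`i :: s`. -/
theorem exists_tree [WellFoundedLT W] (hB : M3.BCCC B) (hD : Seg W (D 0) lam) (Φ : (W → B) → (W → B)) (b1 : B)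
    (h1 : ∀ x y, b1 ⊓ eqv x y ≤ eqv (Φ x) (Φ y))
    (h3 : ∀ f ∈ F1 (D 0), ∀ g ∈ F1 (D 0), b1 ⊓ ltv f g ≤ ltv (Φ f) (Φ g))
    (n : ℕ) (v0 : SN B (D 0)) (hdense : ∀ v, v0.Ext v → ∃ f ∈ Cn v, b1 ≤ levv D n (Φ f)) :
    ∃ (sn : List Bool → SN B (D 0)) (a e : List Bool → W → B),
      (∀ s, v0.Ext (sn s)) ∧ (∀ s i, (sn s).Ext (sn (i :: s))) ∧
      (∀ s i, a (i :: s) ∈ Cn (sn s) ∧ e (i :: s) ∈ Cn (sn s)) ∧ (∀ s, a s ∈ F1 (D 0) ∧ e s ∈ F1 (D 0)) ∧
      (∀ s, b1 ≤ levv D n (Φ (a s)) ∧ b1 ≤ levv D n (Φ (e s))) ∧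
      (∀ s, ∀ f ∈ Cn (sn s), b1 ≤ ltv (a s) f ∧ b1 ≤ ltv f (e s)) ∧
      ∀ s, b1 ≤ valley (Φ (a (false :: s))) (Φ (e (false :: s))) (Φ (a (true :: s))) (Φ (e (true :: s))) := by
  have step : ∀ v : SN B (D 0), v0.Ext v → ∃ y : Bool → N5_St D n Φ b1 v0,
      (∀ i, v.Ext (y i).sn ∧ (y i).a ∈ Cn v ∧ (y i).e ∈ Cn v) ∧
      b1 ≤ valley (Φ (y false).a) (Φ (y false).e) (Φ (y true).a) (Φ (y true).e) := by
    intro v hv
    obtain ⟨u, a, e, hu, ha, he, hla, hle, hlt, hval⟩ := split hB hD Φ b1 h1 h3 n v0 hdense v hv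
    exact ⟨fun i => ⟨u i, a i, e i, hv.trans (hu i), (ha i).1, (he i).1, hla i, hle i, hlt i⟩,
      fun i => ⟨hu i, ha i, he i⟩, hval⟩
  choose next hnext using step
  let root : N5_St D n Φ b1 v0 := next v0 (SN.Ext.refl v0) false
  let st : List Bool → N5_St D n Φ b1 v0 := fun s =>
    List.rec root (fun i _ x => next x.sn x.ext i) s
  have hst : ∀ i s, st (i :: s) = next (st s).sn (st s).ext i := fun i s => rfl
  refine ⟨fun s => (st s).sn, fun s => (st s).a, fun s => (st s).e, fun s => (st s).ext, ?_, ?_,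
    fun s => ⟨(st s).ha, (st s).he⟩, fun s => ⟨(st s).la, (st s).le⟩, fun s => (st s).lt, ?_⟩
  · intro s i
    exact ((hnext (st s).sn (st s).ext).1 i).1
  · intro s i
    exact ((hnext (st s).sn (st s).ext).1 i).2
  · intro s
    exact (hnext (st s).sn (st s).ext).2

theorem N5_app {D0 : Set W} {sn : List Bool → SN B D0} (h : ∀ s i, (sn s).Ext (sn (i :: s)))
    (r s : List Bool) : (sn s).Ext (sn (r ++ s)) := by
  induction r with
  | nil => exact SN.Ext.refl _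
  | cons i r ih => exact ih.trans (h _ i)

/-- THE SCHEME. `p s = Φ (a s)` and `q s = Φ (e s)` restricted to `b1` (`fun ν => .. ⊓ b1`), bounded in `D n` by
`exists_bound_of_le_rv`. `valid`: `ltv` from `ltv_trans` through any point above `sn s`; `inc (p (r ++ s)) ..`: `inc_self` for `r = []`, otherwise
`a (r ++ s) ∈ Cn (sn s)` and `between`; the incomparable nodes from `valley`. -/
theorem exists_scheme_v [WellFoundedLT W] (hB : M3.BCCC B) (hD : Seg W (D 0) lam) (Φ : (W → B) → (W → B)) (b1 : B)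
    (h1 : ∀ x y, b1 ⊓ eqv x y ≤ eqv (Φ x) (Φ y))
    (h3 : ∀ f ∈ F1 (D 0), ∀ g ∈ F1 (D 0), b1 ⊓ ltv f g ≤ ltv (Φ f) (Φ g))
    (n : ℕ) {lam' : Cardinal.{0}} (hDn : Seg W (D n) lam') (v0 : SN B (D 0))
    (hdense : ∀ v, v0.Ext v → ∃ f ∈ Cn v, b1 ≤ levv D n (Φ f)) :
    ∃ (sn : List Bool → SN B (D 0)) (p q : List Bool → W → B),
      (∀ s, v0.Ext (sn s)) ∧ (∀ s i, (sn s).Ext (sn (i :: s))) ∧ (∀ s, Bd (D n) (q s)) ∧ b1 ≤ valid p q ∧
      ∀ s, ∀ f ∈ Cn (sn s), b1 ≤ inc (Φ f) (p s) (q s) := by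
  obtain ⟨sn, a, e, hext, hstep, hmem, hF, hlev, hlt, hval⟩ :=
    exists_tree hB hD Φ b1 h1 h3 n v0 hdense
  have hΦ : ∀ f ∈ F1 (D 0), ∀ g ∈ F1 (D 0), b1 ≤ ltv f g → b1 ≤ ltv (Φ f) (Φ g) :=
    fun f hf g hg h => (le_inf le_rfl h).trans (h3 f hf g hg)
  have hinc : ∀ s, ∀ f ∈ Cn (sn s), b1 ≤ inc (Φ f) (Φ (a s)) (Φ (e s)) := by
    intro s f hf
    obtain ⟨h4, h5⟩ := hlt s f hf
    exact (le_inf (hΦ _ (hF s).1 _ hf.1 h4) (hΦ _ hf.1 _ (hF s).2 h5)).trans (between _ _ _)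
  let p : List Bool → W → B := fun s ν => Φ (a s) ν ⊓ b1
  let q : List Bool → W → B := fun s ν => Φ (e s) ν ⊓ b1
  have hp : ∀ s, b1 ≤ eqv (Φ (a s)) (p s) := fun s => eqv_restrict b1 _
  have hq : ∀ s, b1 ≤ eqv (Φ (e s)) (q s) := fun s => eqv_restrict b1 _
  have hpq : ∀ s, ∀ f, b1 ≤ inc f (Φ (a s)) (Φ (e s)) → b1 ≤ inc f (p s) (q s) := by
    intro s f h
    exact (le_inf (le_inf (hp s) (hq s)) h).trans (inc_ext_pq f _ _ _ _)
  refine ⟨sn, p, q, hext, hstep, ?_, ?_, fun s f hf => hpq s _ (hinc s f hf)⟩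
  · intro s
    obtain ⟨δ, hδ, h⟩ := exists_bound_of_le_rv hB hDn (Φ (e s)) b1 ((hlev s).2.trans inf_le_left)
    refine ⟨δ, hδ, fun ν hν => ?_⟩
    show Φ (e s) ν ⊓ b1 = ⊥
    rw [inf_comm]
    exact h ν hν
  · refine le_iInf fun s => le_inf (le_inf ?_ (le_iInf fun r => ?_)) ?_
    · obtain ⟨f, hf⟩ := Cn_nonempty hD (sn s)
      obtain ⟨h4, h5⟩ := hlt s f hf
      have h6 : b1 ≤ ltv (a s) (e s) := (le_inf h4 h5).trans (ltv_trans _ _ _)
      have h7 := hΦ _ (hF s).1 _ (hF s).2 h6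
      have h8 : b1 ≤ ltv (p s) (Φ (e s)) := (le_inf (hp s) h7).trans (ltv_ext_left _ _ _)
      exact (le_inf (hq s) h8).trans (ltv_ext_right _ _ _)
    · cases r with
      | nil =>
        show b1 ≤ inc (p s) (p s) (q s)
        rw [inc_self]
        exact le_top
      | cons i r =>
        have h4 : a (i :: (r ++ s)) ∈ Cn (sn s) := Cn_anti (N5_app hstep r s) (hmem (r ++ s) i).1
        have h5 := hpq s _ (hinc s _ h4)
        exact (le_inf (hp (i :: (r ++ s))) h5).trans (inc_ext _ _ _ _)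
    · have h4 : b1 ≤ b1 ⊓ valley (Φ (a (false :: s))) (Φ (e (false :: s))) (Φ (a (true :: s)))
          (Φ (e (true :: s))) := le_inf le_rfl (hval s)
      refine h4.trans ?_
      unfold valley
      rw [inf_iSup_eq]
      refine iSup_le fun ν => le_trans ?_ (le_iSup _ ν)
      have k0 : b1 ⊓ (dif (Φ (e (false :: s))) (Φ (a (true :: s))) ν ⊓
          ag (Φ (a (false :: s))) (Φ (e (false :: s))) ν ⊓
          ag (Φ (a (true :: s))) (Φ (e (true :: s))) ν) ≤ b1 := inf_le_left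
      have k1 : b1 ⊓ (dif (Φ (e (false :: s))) (Φ (a (true :: s))) ν ⊓
          ag (Φ (a (false :: s))) (Φ (e (false :: s))) ν ⊓
          ag (Φ (a (true :: s))) (Φ (e (true :: s))) ν) ≤
          dif (Φ (e (false :: s))) (Φ (a (true :: s))) ν :=
        inf_le_right.trans (inf_le_left.trans inf_le_left)
      have k2 : b1 ⊓ (dif (Φ (e (false :: s))) (Φ (a (true :: s))) ν ⊓
          ag (Φ (a (false :: s))) (Φ (e (false :: s))) ν ⊓
          ag (Φ (a (true :: s))) (Φ (e (true :: s))) ν) ≤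
          ag (Φ (a (false :: s))) (Φ (e (false :: s))) ν :=
        inf_le_right.trans (inf_le_left.trans inf_le_right)
      have k3 : b1 ⊓ (dif (Φ (e (false :: s))) (Φ (a (true :: s))) ν ⊓
          ag (Φ (a (false :: s))) (Φ (e (false :: s))) ν ⊓
          ag (Φ (a (true :: s))) (Φ (e (true :: s))) ν) ≤
          ag (Φ (a (true :: s))) (Φ (e (true :: s))) ν :=
        inf_le_right.trans inf_le_right
      refine le_inf (le_inf (le_inf ?_ ?_) ?_) ?_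
      · exact (le_inf (le_inf (k0.trans (hp _)) (k0.trans (hq _))) k2).trans (ag_ext _ _ _ _ ν)
      · exact (le_inf (le_inf (k0.trans (hp _)) (k0.trans (hq _))) k3).trans (ag_ext _ _ _ _ ν)
      · refine C1_trc (k0.trans ((hp (false :: s)).trans (eqv_le _ _ ν))) ?_
        exact C1_trc (C1_symm (k2.trans (ag_bihimp _ _ le_rfl))) (k1.trans C1_d2)
      · exact C1_tr (k0.trans ((hp (true :: s)).trans (eqv_le _ _ ν))) (k1.trans C1_d3)

end Pool.Agent.H.MP_353193_lc.BV
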