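import Pool.Agent.H.MP_353193_lc.BV.N2
import Pool.Agent.H.MP_353193_lc.BV.C2

/-!
# The point on a branch
-/

set_option autoImplicit false

open Cardinal

namespace Pool.Agent.H.MP_353193_lc.BV

variable {B : Type} [CompleteBooleanAlgebra B] {Θ : Type} (K : Coh B Θ) {W : Type} [LinearOrder W]

theorem N6_ext_append {D0 : Set W} (sn : List Bool → SN B D0)
    (hs : ∀ s i, (sn s).Ext (sn (i :: s))) (r s : List Bool) : (sn s).Ext (sn (r ++ s)) := by
  induction r with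
  | nil => exact SN.Ext.refl _
  | cons i r ih => exact ih.trans (hs (r ++ s) i)

/-- The source node along the `γ`-th real: length a bound of all `(sn s).len` (countably many), value `⨆ s, seg γ s ⊓ (sn s).v ν`. On `seg γ s` it
extends `sn s` (for comparable lists the digits agree, `seg_comp`). -/
theorem branch_node {D0 : Set W} {lam : Cardinal.{0}} (hD : Seg W D0 lam) (sn : List Bool → SN B D0)
    (hs : ∀ s i, (sn s).Ext (sn (i :: s))) (γ : Θ) :
    ∃ w : SN B D0, (sn []).Ext w ∧ ∀ s, (sn s).len ≤ w.len ∧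
      ∀ ν, ν < (sn s).len → K.seg γ s ⊓ w.v ν = K.seg γ s ⊓ (sn s).v ν := by
  have hcard : Cardinal.mk (Set.range fun s => (sn s).len) ≤ lam := by
    refine le_trans ?_ hD.inf
    exact Cardinal.mk_le_aleph0_iff.mpr (Set.countable_range _).to_subtype
  obtain ⟨b, hb, hlt⟩ := hD.reg (Set.range fun s => (sn s).len)
    (by rintro _ ⟨s, rfl⟩; exact (sn s).hlen) hcard
  have hlt' : ∀ s, (sn s).len < b := fun s => hlt _ ⟨s, rfl⟩
  have key : ∀ s ν, ν < (sn s).len →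
      K.seg γ s ⊓ (⨆ s', K.seg γ s' ⊓ (sn s').v ν) = K.seg γ s ⊓ (sn s).v ν := by
    intro s ν hν
    apply le_antisymm
    · rw [inf_iSup_eq]
      refine iSup_le fun s' => ?_
      by_cases h : K.seg γ s ⊓ K.seg γ s' = ⊥
      · rw [← inf_assoc, h, bot_inf_eq]
        exact bot_le
      · rcases seg_comp K γ s s' h with ⟨r, rfl⟩ | ⟨r, rfl⟩
        · rw [(N6_ext_append sn hs r s).2 ν hν]
          exact le_inf inf_le_left (inf_le_right.trans inf_le_right)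
        · by_cases h2 : ν < (sn s').len
          · rw [(N6_ext_append sn hs r s').2 ν h2]
            exact le_inf inf_le_left (inf_le_right.trans inf_le_right)
          · rw [(sn s').hv ν (not_lt.mp h2), inf_bot_eq, inf_bot_eq]
            exact bot_le
    · exact le_inf inf_le_left (le_iSup (fun s' => K.seg γ s' ⊓ (sn s').v ν) s)
  refine ⟨⟨b, hb, fun ν => ⨆ s', K.seg γ s' ⊓ (sn s').v ν, ?_⟩, ⟨(hlt' []).le, ?_⟩, fun s => ⟨(hlt' s).le, key s⟩⟩
  · intro ν hν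
    refine le_antisymm (iSup_le fun s => ?_) bot_le
    rw [(sn s).hv ν ((hlt' s).le.trans hν), inf_bot_eq]
  · intro ν hν
    have := key [] ν hν
    rwa [K.seg_nil, top_inf_eq, top_inf_eq] at this

/-- Two extensions of a node whose cones are in increasing order. -/
theorem two_nodes {D0 : Set W} {lam : Cardinal.{0}} (hD : Seg W D0 lam) (v : SN B D0) :
    ∃ w w' : SN B D0, v.Ext w ∧ v.Ext w' ∧ ∀ f ∈ Cn w, ∀ g ∈ Cn w', ltv f g = ⊤ := by
  classical
  obtain ⟨b, hb, hlt⟩ := hD.reg {v.len} (by rintro _ rfl; exact v.hlen)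
    (by rw [Cardinal.mk_singleton]; exact Cardinal.one_le_aleph0.trans hD.inf)
  have hvb : v.len < b := hlt _ rfl
  refine ⟨⟨b, hb, v.v, fun ν hν => v.hv ν (hvb.le.trans hν)⟩,
    ⟨b, hb, fun ν => if ν = v.len then ⊤ else v.v ν, fun ν hν => ?_⟩, ⟨hvb.le, fun ν _ => rfl⟩, ⟨hvb.le, fun ν hν => ?_⟩,
    fun f hf g hg => ?_⟩
  · rw [if_neg (ne_of_gt (hvb.trans_le hν))]
    exact v.hv ν (hvb.le.trans hν)
  · exact if_neg (ne_of_lt hν)
  · have h1 : ∀ ν, ν < b → f ν = v.v ν := fun ν hν => hf.2 ν hν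
    have h2 : ∀ ν, ν < b → g ν = if ν = v.len then ⊤ else v.v ν := fun ν hν => hg.2 ν hν
    refine top_le_iff.mp ?_
    refine le_trans ?_ (le_iSup (fun ν => (⨅ μ : {μ : W // μ < ν}, bihimp (f μ) (g μ)) ⊓ (f ν)ᶜ ⊓ g ν) v.len)
    refine le_inf (le_inf (le_iInf fun μ => ?_) ?_) ?_
    · rw [h1 μ (μ.2.trans hvb), h2 μ (μ.2.trans hvb), if_neg (ne_of_lt μ.2), bihimp_self]
    · rw [h1 _ hvb, v.hv _ le_rfl, compl_bot]
    · rw [h2 _ hvb, if_pos rfl]

variable {D : ℕ → Set W} {lam : Cardinal.{0}}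

/-- THE POINT ON THE BRANCH. `w` of `branch_node`, `w1, w2` of `two_nodes` above `w`; `g ∈ Cn w1` arbitrary, `f ∈ Cn w2` of level `n` (`hdense`). Both
images extend the branch node (`exists_component` on `seg γ s`, `hinc`), and `ltv (Φ g) (Φ f)` gives a digit 1 of `Φ f` after the branch
node: at the first difference `ν` both digits would agree if `Lg .. ν`. -/
theorem branch_point (hD : Seg W (D 0) lam) (Φ : (W → B) → (W → B)) (b1 : B)
    (h1 : ∀ x y, b1 ⊓ eqv x y ≤ eqv (Φ x) (Φ y))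
    (h3 : ∀ f ∈ F1 (D 0), ∀ g ∈ F1 (D 0), b1 ⊓ ltv f g ≤ ltv (Φ f) (Φ g))
    (n : ℕ) (v0 : SN B (D 0)) (hdense : ∀ v, v0.Ext v → ∃ f ∈ Cn v, b1 ≤ levv D n (Φ f))
    (sn : List Bool → SN B (D 0)) (p q : List Bool → W → B) (h0 : v0.Ext (sn []))
    (hs : ∀ s i, (sn s).Ext (sn (i :: s))) (hinc : ∀ s, ∀ f ∈ Cn (sn s), b1 ≤ inc (Φ f) (p s) (q s)) (γ : Θ) :
    ∃ f ∈ F1 (D 0), b1 ≤ levv D n (Φ f) ∧ b1 ≤ cn K γ p q (Φ f) ⊓ pr K γ p q (Φ f) := by
  obtain ⟨w, hw0, hw⟩ := branch_node K hD sn hs γ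
  obtain ⟨w1, w2, hw1, hw2, hlt⟩ := two_nodes hD w
  obtain ⟨g, hg⟩ := Cn_nonempty hD w1
  obtain ⟨f, hf, hlev⟩ := hdense w2 ((h0.trans hw0).trans hw2)
  have hinc' : ∀ h ∈ Cn w, ∀ s, b1 ⊓ K.seg γ s ≤ inc (Φ h) (p s) (q s) := by
    intro h hh s
    obtain ⟨k, hk, hek⟩ := exists_component hD (K.seg γ s) (hw s).1 (hw s).2 hh
    refine le_trans (le_inf ?_ ?_) (inc_ext (Φ k) (Φ h) (p s) (q s))
    · rw [eqv_symm]
      exact le_trans (inf_le_inf_left b1 hek) (h1 h k)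
    · exact inf_le_left.trans (hinc s k hk)
  have hgw : g ∈ Cn w := Cn_anti hw1 hg
  have hfw : f ∈ Cn w := Cn_anti hw2 hf
  refine ⟨f, hf.1, hlev, le_inf (le_iInf fun s => ?_) ?_⟩
  · exact le_himp_iff.mpr (hinc' f hfw s)
  · have h4 : b1 ≤ ⨆ ν, dif (Φ g) (Φ f) ν := by
      have := h3 g hg.1 f hf.1
      rw [hlt g hg f hf, inf_top_eq] at this
      exact this
    have h5 : b1 ≤ ⨆ ν, b1 ⊓ dif (Φ g) (Φ f) ν := by
      rw [← inf_iSup_eq]
      exact le_inf le_rfl h4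
    refine h5.trans (iSup_mono fun ν => le_inf ?_ ?_)
    · refine le_compl_iff_disjoint_right.mpr (disjoint_iff_inf_le.mpr ?_)
      unfold Lg
      rw [inf_iSup_eq]
      refine iSup_le fun s => ?_
      set c : B := b1 ⊓ dif (Φ g) (Φ f) ν ⊓ (K.seg γ s ⊓ ag (p s) (q s) ν) with hc
      have a1 : c ≤ b1 ⊓ K.seg γ s :=
        le_inf (inf_le_left.trans inf_le_left) (inf_le_right.trans inf_le_left)
      have a2 : c ≤ ag (p s) (q s) ν := inf_le_right.trans inf_le_right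
      have a3 : c ≤ ag (Φ g) (p s) ν :=
        (le_inf (a1.trans (hinc' g hgw s)) a2).trans (inc_ag _ _ _ _)
      have a4 : c ≤ ag (Φ f) (p s) ν :=
        (le_inf (a1.trans (hinc' f hfw s)) a2).trans (inc_ag _ _ _ _)
      have a5 : c ≤ bihimp (Φ g ν) (p s ν) := a3.trans (ag_bihimp _ _ le_rfl)
      have a6 : c ≤ bihimp (Φ f ν) (p s ν) := a4.trans (ag_bihimp _ _ le_rfl)
      have a7 : c ≤ dif (Φ g) (Φ f) ν := inf_le_left.trans inf_le_right
      have a8 : c ≤ (Φ g ν)ᶜ := a7.trans (inf_le_left.trans inf_le_right)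
      have a9 : c ≤ Φ f ν := a7.trans inf_le_right
      have a10 : c ≤ p s ν := by
        have : c ≤ bihimp (Φ f ν) (p s ν) ⊓ Φ f ν := le_inf a6 a9
        refine this.trans ?_
        rw [bihimp_def, inf_assoc, himp_inf_self]
        exact inf_le_right.trans inf_le_left
      have a11 : c ≤ Φ g ν := by
        have : c ≤ bihimp (Φ g ν) (p s ν) ⊓ p s ν := le_inf a5 a10
        refine this.trans ?_
        rw [bihimp_def]
        calc (p s ν ⇨ Φ g ν) ⊓ (Φ g ν ⇨ p s ν) ⊓ p s ν ≤ (p s ν ⇨ Φ g ν) ⊓ p s ν :=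
              inf_le_inf_right _ inf_le_left
          _ ≤ Φ g ν := himp_inf_le
      calc c ≤ Φ g ν ⊓ (Φ g ν)ᶜ := le_inf a11 a8
        _ = ⊥ := inf_compl_self _
    · exact inf_le_right.trans inf_le_right

end Pool.Agent.H.MP_353193_lc.BV
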