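import Pool.Agent.H.MP_353193_lc.BV.ODefs

/-!
# One Cohen real: basic lemmas on forcing
-/

set_option autoImplicit false
set_option linter.unusedSectionVars false

namespace Pool.Agent.H.MP_353193_lc.BV.One

open M3 M3.RO

variable {W : Type} [LinearOrder W]

theorem Cd.le_iff {p q : Cd} : q ≤ p ↔ p.l <:+ q.l := Iff.rfl

theorem Cd.cons_le (d : Dg) (q : Cd) : Cd.cons d q ≤ q := List.suffix_cons d q.l

/-- compatible conditions are comparable -/
theorem Cd.compat {p q r : Cd} (h1 : r ≤ p) (h2 : r ≤ q) : p ≤ q ∨ q ≤ p := by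
  rcases List.suffix_or_suffix_of_suffix h1 h2 with h | h
  · exact Or.inr h
  · exact Or.inl h

instance : Countable Cd := by
  have : Function.Injective Cd.l := by
    rintro ⟨a⟩ ⟨b⟩ h
    exact congrArg Cd.mk h
  exact this.countable

theorem ccc_Cd : RO.CCC Cd := fun _ _ => Set.to_countable _

theorem Eqf.refl (p : Cd) (a : RO Cd) : Eqf p a a := fun _ _ => Iff.rfl

theorem Eqf.symm {p : Cd} {a b : RO Cd} (h : Eqf p a b) : Eqf p b a := fun q hq => (h q hq).symm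

theorem Eqf.trans {p : Cd} {a b c : RO Cd} (h : Eqf p a b) (h' : Eqf p b c) : Eqf p a c :=
  fun q hq => (h q hq).trans (h' q hq)

theorem Eqf.mono {p q : Cd} {a b : RO Cd} (h : Eqf p a b) (hq : q ≤ p) : Eqf q a b :=
  fun r hr => h r (hr.trans hq)

theorem Eqf.compl {p : Cd} {a b : RO Cd} (h : Eqf p a b) : Eqf p aᶜ bᶜ := by
  intro q hq
  rw [forces_compl, forces_compl]
  exact forall_congr' fun r => ⟨fun h1 hr h2 => h1 hr ((h r (hr.trans hq)).2 h2),
    fun h1 hr h2 => h1 hr ((h r (hr.trans hq)).1 h2)⟩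

theorem forces_bihimp {p : Cd} {a b : RO Cd} : Forces p (bihimp a b) ↔ Eqf p a b := by
  unfold bihimp Eqf
  rw [forces_inf, forces_himp, forces_himp]
  exact ⟨fun h q hq => ⟨h.2 q hq, h.1 q hq⟩, fun h => ⟨fun q hq => (h q hq).2, fun q hq => (h q hq).1⟩⟩

theorem forces_eqv {p : Cd} {x y : W → RO Cd} : Forces p (eqv x y) ↔ ∀ ν, Eqf p (x ν) (y ν) := by
  unfold eqv
  rw [forces_iInf]
  exact forall_congr' fun ν => forces_bihimp

theorem Dif.mono {p q : Cd} {x y : W → RO Cd} {δ : W} (h : Dif p x y δ) (hq : q ≤ p) :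
    Dif q x y δ := ⟨fun μ hμ => (h.1 μ hμ).mono hq, h.2.1.mono hq, h.2.2.mono hq⟩

/-- `Dif` respects equality of the two names -/
theorem Dif.congr {p : Cd} {x y x' y' : W → RO Cd} {δ : W} (h : Dif p x y δ)
    (h1 : Forces p (eqv x x')) (h2 : Forces p (eqv y y')) : Dif p x' y' δ := by
  rw [forces_eqv] at h1 h2
  exact ⟨fun μ hμ => ((h1 μ).symm.trans (h.1 μ hμ)).trans (h2 μ),
    ((h1 δ).compl p le_rfl).1 h.2.1, (h2 δ p le_rfl).1 h.2.2⟩

theorem forces_ltv {p : Cd} {x y : W → RO Cd} : Forces p (ltv x y) ↔ Ltf p x y := by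
  unfold ltv Ltf
  rw [forces_iSup]
  refine forall_congr' fun q => forall_congr' fun hq => exists_congr fun r => and_congr_right
    fun hr => exists_congr fun δ => ?_
  rw [forces_inf, forces_inf, forces_iInf]
  unfold Dif
  constructor
  · rintro ⟨⟨h1, h2⟩, h3⟩
    exact ⟨fun μ hμ => forces_bihimp.1 (h1 ⟨μ, hμ⟩), h2, h3⟩
  · rintro ⟨h1, h2, h3⟩
    exact ⟨⟨fun μ => forces_bihimp.2 (h1 μ.1 μ.2), h2⟩, h3⟩

theorem Ltf.mono {p q : Cd} {x y : W → RO Cd} (h : Ltf p x y) (hq : q ≤ p) : Ltf q x y :=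
  fun r hr => h r (hr.trans hq)

theorem Ltf_of_Dif {p : Cd} {x y : W → RO Cd} {δ : W} (h : Dif p x y δ) : Ltf p x y :=
  fun q hq => ⟨q, le_rfl, δ, h.mono hq⟩

/-- first differences along `x < y < z` -/
theorem Dif.trans {p : Cd} {x y z : W → RO Cd} {δ ε : W} (h : Dif p x y δ) (h' : Dif p y z ε) :
    δ ≠ ε ∧ Dif p x z (min δ ε) := by
  have hne : δ ≠ ε := by
    rintro rfl
    exact h'.2.1 p le_rfl h.2.2
  refine ⟨hne, ?_⟩
  rcases lt_or_gt_of_ne hne with h1 | h1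
  · rw [min_eq_left h1.le]
    exact ⟨fun μ hμ => (h.1 μ hμ).trans (h'.1 μ (hμ.trans h1)), h.2.1,
      (h'.1 δ h1 p le_rfl).1 h.2.2⟩
  · rw [min_eq_right h1.le]
    exact ⟨fun μ hμ => (h.1 μ (hμ.trans h1)).trans (h'.1 μ hμ),
      ((h.1 ε h1).compl p le_rfl).2 h'.2.1, h'.2.2⟩

theorem Dif.asymm {p : Cd} {x y : W → RO Cd} {δ ε : W} (h : Dif p x y δ) (h' : Dif p y x ε) :
    False := by
  obtain ⟨hne, h1⟩ := h.trans h'
  exact h1.2.1 p le_rfl h1.2.2

/-- the first difference is unique -/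
theorem Dif.unique {p : Cd} {x y : W → RO Cd} {δ ε : W} (h : Dif p x y δ) (h' : Dif p x y ε) :
    δ = ε := by
  rcases lt_trichotomy δ ε with h1 | h1 | h1
  · exact absurd ((h'.1 δ h1 p le_rfl).2 h.2.2) (h.2.1 p le_rfl)
  · exact h1
  · exact absurd ((h.1 ε h1 p le_rfl).2 h'.2.2) (h'.2.1 p le_rfl)

theorem Ltf.trans {p : Cd} {x y z : W → RO Cd} (h : Ltf p x y) (h' : Ltf p y z) : Ltf p x z := by
  intro q hq
  obtain ⟨r, hr, δ, hδ⟩ := h q hq
  obtain ⟨s, hs, ε, hε⟩ := h' r (hr.trans hq)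
  exact ⟨s, hs.trans hr, _, ((hδ.mono hs).trans hε).2⟩

/-- a point between two points that agree up to and including `δ` agrees with them -/
theorem between {p : Cd} {x y z : W → RO Cd} {δ : W} (h : Ltf p x z) (h' : Ltf p z y)
    (hxy : ∀ μ, μ ≤ δ → Eqf p (x μ) (y μ)) : ∀ μ, μ ≤ δ → Eqf p (x μ) (z μ) := by
  -- densely many conditions decide both first differences, which must be larger than `δ`
  have key : ∀ q, q ≤ p → ∃ r, r ≤ q ∧ ∀ μ, μ ≤ δ → Eqf r (x μ) (z μ) := by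
    intro q hq
    obtain ⟨r, hr, ε, hε⟩ := h q hq
    obtain ⟨s, hs, ζ, hζ⟩ := h' r (hr.trans hq)
    have h1 := ((hε.mono hs).trans hζ)
    have hsp : s ≤ p := hs.trans (hr.trans hq)
    have h2 : δ < min ε ζ := by
      by_contra hc
      rw [not_lt] at hc
      have h3 := (hxy _ hc).mono hsp
      exact h1.2.2.1 s le_rfl ((h3 s le_rfl).2 h1.2.2.2)
    refine ⟨s, hs.trans hr, fun μ hμ => ?_⟩
    exact (hε.mono hs).1 μ (lt_of_le_of_lt hμ (lt_of_lt_of_le h2 (min_le_left _ _)))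
  intro μ hμ q hq
  constructor
  · intro h1
    refine forces_of_dense fun r hr => ?_
    obtain ⟨s, hs, h2⟩ := key r (hr.trans hq)
    exact ⟨s, hs, (h2 μ hμ s le_rfl).1 (h1.mono (hs.trans hr))⟩
  · intro h1
    refine forces_of_dense fun r hr => ?_
    obtain ⟨s, hs, h2⟩ := key r (hr.trans hq)
    exact ⟨s, hs, (h2 μ hμ s le_rfl).2 (h1.mono (hs.trans hr))⟩

/-! ### canonical names -/

theorem forces_can {p : Cd} {x τ : W → RO Cd} : Forces p (can x τ) ↔
    Forces p (eqv x τ) ∧ ∀ σ, WellOrderingRel σ τ → Forces p (eqv x σ)ᶜ := by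
  unfold can
  rw [forces_inf, forces_iInf]
  exact and_congr_right fun _ => ⟨fun h σ hσ => h ⟨σ, hσ⟩, fun h σ => h σ.1 σ.2⟩

/-- every condition has an extension that decides the canonical name -/
theorem exists_can (p : Cd) (x : W → RO Cd) : ∃ q, q ≤ p ∧ ∃ τ, Forces q (can x τ) := by
  classical
  let S : Set (W → RO Cd) := {τ | ∃ q, q ≤ p ∧ Forces q (eqv x τ)}
  have hS : S.Nonempty := ⟨x, p, le_rfl, forces_eqv.2 fun ν => Eqf.refl _ _⟩
  let τ := (IsWellFounded.wf (r := (WellOrderingRel : (W → RO Cd) → _ → Prop))).min S hS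
  obtain ⟨q, hq, hτ⟩ := (IsWellFounded.wf (r := (WellOrderingRel : (W → RO Cd) → _ → Prop))).min_mem S hS
  refine ⟨q, hq, τ, forces_can.2 ⟨hτ, fun σ hσ => ?_⟩⟩
  rw [forces_compl]
  intro r hr h
  exact (IsWellFounded.wf (r := (WellOrderingRel : (W → RO Cd) → _ → Prop))).not_lt_min S
    (x := σ) ⟨r, hr.trans hq, h⟩ hσ

theorem eqv_trans' {p : Cd} {x y z : W → RO Cd} (h : Forces p (eqv x y)) (h' : Forces p (eqv y z)) :
    Forces p (eqv x z) := by
  rw [forces_eqv] at h h' ⊢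
  exact fun ν => (h ν).trans (h' ν)

theorem eqv_symm' {p : Cd} {x y : W → RO Cd} (h : Forces p (eqv x y)) : Forces p (eqv y x) := by
  rw [forces_eqv] at h ⊢
  exact fun ν => (h ν).symm

theorem can_congr {p : Cd} {x y τ : W → RO Cd} (h : Forces p (eqv x y)) (h' : Forces p (can x τ)) :
    Forces p (can y τ) := by
  rw [forces_can] at h' ⊢
  refine ⟨eqv_trans' (eqv_symm' h) h'.1, fun σ hσ => ?_⟩
  have h2 := h'.2 σ hσ
  rw [forces_compl] at h2 ⊢
  exact fun r hr h3 => h2 r hr (eqv_trans' (h.mono hr) h3)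

/-- the canonical name is unique -/
theorem can_unique {p : Cd} {x τ σ : W → RO Cd} (h : Forces p (can x τ)) (h' : Forces p (can x σ)) :
    τ = σ := by
  rw [forces_can] at h h'
  rcases trichotomous_of (WellOrderingRel : (W → RO Cd) → _ → Prop) τ σ with h1 | h1 | h1
  · exact absurd h.1 (h'.2 τ h1 p le_rfl)
  · exact h1
  · exact absurd h'.1 (h.2 σ h1 p le_rfl)

/-! ### deciding and targets -/

theorem Dec.mono {p q : Cd} {a : RO Cd} (h : Dec p a) (hq : q ≤ p) : Dec q a :=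
  h.imp (fun h => h.mono hq) (fun h => h.mono hq)

theorem FD.eq {p q r : Cd} {a : RO Cd} (hp : FD p a) (hq : FD q a) (h1 : r ≤ p) (h2 : r ≤ q) :
    p = q := by
  have key : ∀ p q : Cd, FD p a → FD q a → p ≤ q → p = q := by
    rintro ⟨p⟩ ⟨q⟩ hp hq h
    have h' : q <:+ p := h
    rcases p with _ | ⟨d, p⟩
    · rw [List.suffix_nil] at h'
      rw [h']
    · rcases List.suffix_cons_iff.1 h' with h3 | h3
      · rw [h3]
      · exact absurd (hq.1.mono (q := ⟨p⟩) h3) (hp.2 d p rfl)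
  rcases Cd.compat h1 h2 with h | h
  · exact key p q hp hq h
  · exact (key q p hq hp h).symm

/-- the target is unique -/
theorem tgt_unique {p : Cd} {a : RO Cd} {k l : ℕ} (h : Forces p (tgt a k))
    (h' : Forces p (tgt a l)) : k = l := by
  unfold tgt at h h'
  rw [forces_hull] at h h'
  obtain ⟨r, hr, s, ⟨d, q, rfl, hq, hd⟩, hrs⟩ := h p le_rfl
  obtain ⟨r', hr', s', ⟨d', q', rfl, hq', hd'⟩, hrs'⟩ := h' r hr
  have h1 : r' ≤ q := (hr'.trans hrs).trans (Cd.cons_le _ _)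
  have h2 : r' ≤ q' := hrs'.trans (Cd.cons_le _ _)
  obtain rfl := hq.eq hq' h1 h2
  have h3 : d = d' := by
    rcases Cd.compat (hr'.trans hrs) hrs' with h | h
    · rcases List.suffix_cons_iff.1 (show (d' :: q.l) <:+ (d :: q.l) from h) with h3 | h3
      · exact (List.cons_eq_cons.1 h3).1.symm
      · exact absurd h3.length_le (by simp)
    · rcases List.suffix_cons_iff.1 (show (d :: q.l) <:+ (d' :: q.l) from h) with h3 | h3
      · exact (List.cons_eq_cons.1 h3).1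
      · exact absurd h3.length_le (by simp)
  subst h3
  rcases hd with ⟨h4, rfl⟩ | ⟨h4, rfl⟩
  · rcases hd' with ⟨h5, rfl⟩ | ⟨h5, rfl⟩
    · rfl
    · exact absurd h4 (h5 q le_rfl)
  · rcases hd' with ⟨h5, rfl⟩ | ⟨h5, rfl⟩
    · exact absurd h5 (h4 q le_rfl)
    · rfl

/-! ### levels -/

variable (D : WD W)

theorem forces_lb {p : Cd} {x : W → RO Cd} {k : ℕ} :
    Forces p (lb D x k) ↔ ∀ ν, D.om k ≤ ν → Forces p (x ν)ᶜ := by
  unfold lb
  rw [forces_iInf]
  exact ⟨fun h ν hν => h ⟨ν, hν⟩, fun h ν => h ν.1 ν.2⟩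

theorem forces_lv {p : Cd} {x : W → RO Cd} {k : ℕ} :
    Forces p (lv D x k) ↔ Forces p (lb D x k) ∧ ∀ j, j < k → Forces p (lb D x j)ᶜ := by
  unfold lv
  rw [forces_inf, forces_iInf]
  exact and_congr_right fun _ => ⟨fun h j hj => h ⟨j, hj⟩, fun h j => h j.1 j.2⟩

/-- the level is unique -/
theorem lv_unique {p : Cd} {x : W → RO Cd} {k l : ℕ} (h : Forces p (lv D x k))
    (h' : Forces p (lv D x l)) : k = l := by
  rw [forces_lv] at h h'
  rcases lt_trichotomy k l with h1 | h1 | h1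
  · exact absurd h.1 (h'.2 k h1 p le_rfl)
  · exact h1
  · exact absurd h'.1 (h.2 l h1 p le_rfl)

theorem lb_congr {p : Cd} {x y : W → RO Cd} {k : ℕ} (h : Forces p (eqv x y))
    (h' : Forces p (lb D x k)) : Forces p (lb D y k) := by
  rw [forces_eqv] at h
  rw [forces_lb] at h' ⊢
  exact fun ν hν => ((h ν).compl p le_rfl).1 (h' ν hν)

theorem lv_congr {p : Cd} {x y : W → RO Cd} {k : ℕ} (h : Forces p (eqv x y))
    (h' : Forces p (lv D x k)) : Forces p (lv D y k) := by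
  rw [forces_lv] at h' ⊢
  refine ⟨lb_congr D h h'.1, fun j hj => ?_⟩
  have h2 := h'.2 j hj
  rw [forces_compl] at h2 ⊢
  exact fun r hr h3 => h2 r hr (lb_congr D (eqv_symm' (h.mono hr)) h3)

theorem om_mono {j k : ℕ} (h : j ≤ k) : D.om j ≤ D.om k := by
  induction k, h using Nat.le_induction with
  | base => exact le_rfl
  | succ k _ ih => exact ih.trans (D.om_lt k).le

/-- a bounded name has a level -/
theorem exists_lv {p : Cd} {x : W → RO Cd} (h : Forces p (Rv x)) :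
    ∃ q, q ≤ p ∧ ∃ k, Forces q (lv D x k) := by
  classical
  unfold Rv at h
  rw [forces_inf, forces_iSup, forces_iSup] at h
  obtain ⟨q, hq, β, hβ⟩ := h.2 p le_rfl
  rw [forces_iInf] at hβ
  obtain ⟨k, hk⟩ := D.cof β
  have hex : ∃ k, ∃ q, q ≤ p ∧ Forces q (lb D x k) := by
    refine ⟨k, q, hq, (forces_lb D).2 fun ν hν => hβ ⟨ν, (hk.trans_le hν).le⟩⟩
  obtain ⟨q', hq', h'⟩ := Nat.find_spec hex
  refine ⟨q', hq', Nat.find hex, (forces_lv D).2 ⟨h', fun j hj => ?_⟩⟩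
  rw [forces_compl]
  intro r hr h3
  exact Nat.find_min hex hj ⟨r, hr.trans hq', h3⟩

end Pool.Agent.H.MP_353193_lc.BV.One
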