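import Pool.Agent.H.MP_353193_lc.BV.O1

/-!
# One Cohen real: the graph is extensional, symmetric and triangle-free
-/

set_option autoImplicit false
set_option linter.unusedSectionVars false

namespace Pool.Agent.H.MP_353193_lc.BV.One

open M3 M3.RO

variable {W : Type} [LinearOrder W] (D : WD W)

theorem tgt_mono {p q : Cd} {a : RO Cd} {k : ℕ} (h : Forces p (tgt a k)) (hq : q ≤ p) :
    Forces q (tgt a k) := h.mono hq

theorem Edge.mono {p q : Cd} {x y : W → RO Cd} (h : Edge D p x y) (hq : q ≤ p) :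
    Edge D q x y := by
  obtain ⟨τ, σ, δ, k, l, h1, h2, h3, h4, h5, h6, h7, h8⟩ := h
  exact ⟨τ, σ, δ, k, l, h1.mono hq, h2.mono hq, h3.mono hq, h4.mono hq, h5.mono hq, h6.mono hq,
    h7.mono hq, h8⟩

theorem forces_g0 {p : Cd} {x y : W → RO Cd} :
    Forces p (g0 D x y) ↔ ∀ q, q ≤ p → ∃ r, r ≤ q ∧ Edge D r x y := by
  unfold g0
  rw [forces_hull]
  refine forall_congr' fun q => forall_congr' fun hq => exists_congr fun r => and_congr_right
    fun hr => ?_
  constructor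
  · rintro ⟨s, hs, hrs⟩
    exact Edge.mono D hs hrs
  · intro h
    exact ⟨r, h, le_rfl⟩

theorem Edge.congr {p : Cd} {x y x' y' : W → RO Cd} (h : Edge D p x y)
    (h1 : Forces p (eqv x x')) (h2 : Forces p (eqv y y')) : Edge D p x' y' := by
  obtain ⟨τ, σ, δ, k, l, e1, e2, e3, e4, e5, e6, e7, e8⟩ := h
  exact ⟨τ, σ, δ, k, l, can_congr h1 e1, can_congr h2 e2, e3, e4, e5, lv_congr D h1 e6,
    lv_congr D h2 e7, e8⟩

theorem g0_congr {p : Cd} {x y x' y' : W → RO Cd} (h : Forces p (g0 D x y))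
    (h1 : Forces p (eqv x x')) (h2 : Forces p (eqv y y')) : Forces p (g0 D x' y') := by
  rw [forces_g0] at h ⊢
  intro q hq
  obtain ⟨r, hr, h3⟩ := h q hq
  exact ⟨r, hr, Edge.congr D h3 (h1.mono (hr.trans hq)) (h2.mono (hr.trans hq))⟩

theorem gr_ext (x y z : W → RO Cd) : eqv x y ⊓ gr D x z ≤ gr D y z := by
  intro p hp
  rw [forces_inf] at hp
  obtain ⟨h1, h2⟩ := hp
  unfold gr at h2 ⊢
  rw [forces_sup] at h2 ⊢
  intro q hq
  obtain ⟨r, hr, h3⟩ := h2 q hq
  have h4 := h1.mono (hr.trans hq)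
  have h5 : Forces r (eqv z z) := forces_eqv.2 fun ν => Eqf.refl _ _
  exact ⟨r, hr, h3.imp (fun h => g0_congr D h h4 h5) (fun h => g0_congr D h h5 h4)⟩

theorem gr_symm (x y : W → RO Cd) : gr D x y ≤ gr D y x := by
  unfold gr
  rw [sup_comm]

/-- no triangle with `x < y < z` -/
theorem no_tri {p : Cd} {x y z : W → RO Cd} (h1 : Edge D p x y) (h2 : Edge D p y z)
    (h3 : Edge D p x z) : False := by
  obtain ⟨τ, σ, δ, k, l, a1, a2, a3, a4, a5, a6, a7, a8⟩ := h1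
  obtain ⟨σ', ρ, ε, l', m, b1, b2, b3, b4, b5, b6, b7, b8⟩ := h2
  obtain ⟨τ', ρ', ζ, k', m', c1, c2, c3, c4, c5, c6, c7, c8⟩ := h3
  obtain rfl := can_unique a2 b1
  obtain rfl := can_unique a1 c1
  obtain rfl := can_unique b2 c2
  obtain rfl := lv_unique D a7 b6
  obtain rfl := lv_unique D a6 c6
  obtain rfl := lv_unique D b7 c7
  obtain ⟨hne, h4⟩ := a3.trans b3
  obtain rfl := h4.unique c3
  rcases lt_or_gt_of_ne hne with h5 | h5
  · rw [min_eq_left h5.le] at c4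
    exact b8 (tgt_unique a4 c4)
  · rw [min_eq_right h5.le] at c5
    exact a8 (tgt_unique c5 b5)

/-- no cyclic triangle -/
theorem no_cyc {p : Cd} {x y z : W → RO Cd} (h1 : Edge D p x y) (h2 : Edge D p y z)
    (h3 : Edge D p z x) : False := by
  obtain ⟨τ, σ, δ, k, l, a1, a2, a3, a4, a5, a6, a7, a8⟩ := h1
  obtain ⟨σ', ρ, ε, l', m, b1, b2, b3, b4, b5, b6, b7, b8⟩ := h2
  obtain ⟨ρ', τ', ζ, m', k', c1, c2, c3, c4, c5, c6, c7, c8⟩ := h3
  obtain rfl := can_unique a2 b1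
  obtain rfl := can_unique a1 c2
  obtain rfl := can_unique b2 c1
  exact (a3.trans b3).2.asymm c3

theorem forces_gr {p : Cd} {x y : W → RO Cd} (h : Forces p (gr D x y)) :
    ∀ q, q ≤ p → ∃ r, r ≤ q ∧ (Edge D r x y ∨ Edge D r y x) := by
  intro q hq
  unfold gr at h
  rw [forces_sup] at h
  obtain ⟨r, hr, h1⟩ := h q hq
  rcases h1 with h1 | h1
  · rw [forces_g0] at h1
    obtain ⟨s, hs, h2⟩ := h1 r le_rfl
    exact ⟨s, hs.trans hr, Or.inl h2⟩
  · rw [forces_g0] at h1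
    obtain ⟨s, hs, h2⟩ := h1 r le_rfl
    exact ⟨s, hs.trans hr, Or.inr h2⟩

theorem gr_tri (x y z : W → RO Cd) : gr D x y ⊓ gr D y z ⊓ gr D x z = ⊥ := by
  by_contra hne
  obtain ⟨p, hp⟩ := exists_forces_of_ne_bot hne
  rw [forces_inf, forces_inf] at hp
  obtain ⟨⟨h1, h2⟩, h3⟩ := hp
  obtain ⟨q, hq, e1⟩ := forces_gr D h1 p le_rfl
  obtain ⟨r, hr, e2⟩ := forces_gr D h2 q hq
  obtain ⟨s, hs, e3⟩ := forces_gr D h3 r (hr.trans hq)
  have e1' : Edge D s x y ∨ Edge D s y x :=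
    e1.imp (fun h => Edge.mono D h (hs.trans hr)) (fun h => Edge.mono D h (hs.trans hr))
  have e2' : Edge D s y z ∨ Edge D s z y :=
    e2.imp (fun h => Edge.mono D h hs) (fun h => Edge.mono D h hs)
  rcases e1' with a | a <;> rcases e2' with b | b <;> rcases e3 with c | c
  · exact no_tri D a b c
  · exact no_cyc D a b c
  · exact no_tri D c b a
  · exact no_tri D c a b
  · exact no_tri D a c b
  · exact no_tri D b c a
  · exact no_cyc D a c b
  · exact no_tri D b a c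

end Pool.Agent.H.MP_353193_lc.BV.One
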