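import Pool.Agent.H.MP_353193_lc.BV.O2

/-!
# One Cohen real: splitting
-/

set_option autoImplicit false
set_option linter.unusedSectionVars false

namespace Pool.Agent.H.MP_353193_lc.BV.One

open M3 M3.RO

variable {W : Type} [LinearOrder W]

/-- the value of a bit -/
def cB (b : Bool) : RO Cd := if b then ⊤ else ⊥

/-- `p` forces that the 0-1 sequence `x` begins with `w` (newest bit first) -/
def In (D : WD W) (p : Cd) (x : W → RO Cd) (w : List Bool) : Prop :=
  ∀ b u, (b :: u) <:+ w → Eqf p (x (D.nat u.length)) (cB b)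

variable {D : WD W}

theorem eqf_top {p : Cd} {a : RO Cd} : Eqf p a ⊤ ↔ Forces p a :=
  ⟨fun h => (h p le_rfl).2 (forces_top p), fun h q hq => ⟨fun _ => forces_top q, fun _ => h.mono hq⟩⟩

theorem eqf_bot {p : Cd} {a : RO Cd} : Eqf p a ⊥ ↔ Forces p aᶜ := by
  rw [forces_compl]
  exact ⟨fun h q hq h1 => not_forces_bot q ((h q hq).1 h1),
    fun h q hq => ⟨fun h1 => absurd h1 (h q hq), fun h1 => absurd h1 (not_forces_bot q)⟩⟩

theorem In.mono {p q : Cd} {x : W → RO Cd} {w : List Bool} (h : In D p x w) (hq : q ≤ p) :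
    In D q x w := fun b u hu => (h b u hu).mono hq

theorem In.suffix {p : Cd} {x : W → RO Cd} {w u : List Bool} (h : In D p x w) (hu : u <:+ w) :
    In D p x u := fun b v hv => h b v (hv.trans hu)

theorem In.nil {p : Cd} {x : W → RO Cd} : In D p x [] := by
  intro b u hu
  rw [List.suffix_nil] at hu
  exact absurd hu (List.cons_ne_nil _ _)

theorem In.congr {p : Cd} {x y : W → RO Cd} {w : List Bool} (h : In D p x w)
    (hxy : ∀ n, Eqf p (x (D.nat n)) (y (D.nat n))) : In D p y w :=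
  fun b u hu => (hxy _).symm.trans (h b u hu)

theorem nat_inj {m n : ℕ} (h : D.nat m = D.nat n) : m = n := by
  rcases lt_trichotomy m n with h1 | h1 | h1
  · exact absurd h (D.nat_lt _ _ h1).ne
  · exact h1
  · exact absurd h (D.nat_lt _ _ h1).ne'

theorem nat_lt_iff {m n : ℕ} : D.nat m < D.nat n ↔ m < n := by
  constructor
  · intro h
    rcases lt_trichotomy m n with h1 | h1 | h1
    · exact h1
    · exact absurd h (by rw [h1]; exact lt_irrefl _)
    · exact absurd h (D.nat_lt _ _ h1).not_gt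
  · exact D.nat_lt _ _

theorem exists_suffix {n : ℕ} {t : List Bool} (h : n < t.length) :
    ∃ b u, (b :: u) <:+ t ∧ u.length = n := by
  induction t with
  | nil => simp at h
  | cons c t ih =>
    rcases Nat.lt_succ_iff_lt_or_eq.1 (by simpa using h) with h1 | h1
    · obtain ⟨b, u, hu, hn⟩ := ih h1
      exact ⟨b, u, hu.trans (List.suffix_cons _ _), hn⟩
    · exact ⟨c, t, List.suffix_refl _, h1.symm⟩

/-- lexicographic comparison of cones -/
theorem Dif_of_In {p : Cd} {x y : W → RO Cd} {t : List Bool} (hx : In D p x (false :: t))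
    (hy : In D p y (true :: t)) : Dif p x y (D.nat t.length) := by
  refine ⟨fun μ hμ => ?_, ?_, ?_⟩
  · obtain ⟨n, rfl⟩ := D.om_nat μ (hμ.trans (D.nat_om _))
    obtain ⟨b, u, hu, rfl⟩ := exists_suffix (nat_lt_iff.1 hμ)
    exact (hx b u (hu.trans (List.suffix_cons _ _))).trans
      (hy b u (hu.trans (List.suffix_cons _ _))).symm
  · exact eqf_bot.1 (hx false t (List.suffix_refl _))
  · exact eqf_top.1 (hy true t (List.suffix_refl _))

open Classical in
/-- the finite subset of `ω` with the characteristic function `v` -/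
noncomputable def fs (D : WD W) (v : List Bool) (ν : W) : RO Cd :=
  if ∃ u, (true :: u) <:+ v ∧ ν = D.nat u.length then ⊤ else ⊥

theorem fs_false (v : List Bool) : fs D (false :: v) = fs D v := by
  funext ν
  unfold fs
  congr 1
  refine propext (exists_congr fun u => and_congr_left fun _ => ?_)
  rw [List.suffix_cons_iff]
  constructor
  · rintro (h | h)
    · simp at h
    · exact h
  · exact Or.inr

theorem In_fs (p : Cd) (v : List Bool) : In D p (fs D v) v := by
  intro b u hu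
  unfold fs cB
  rcases b with _ | _
  · rw [if_neg, if_neg]
    · exact Eqf.refl _ _
    · simp
    · rintro ⟨u', hu', h⟩
      have h1 : u.length = u'.length := nat_inj h
      have h2 : (false :: u) = (true :: u') := by
        rcases List.suffix_or_suffix_of_suffix hu hu' with h3 | h3
        · exact h3.eq_of_length (by simp [h1])
        · exact (h3.eq_of_length (by simp [h1])).symm
      simp at h2
  · rw [if_pos ⟨u, hu, rfl⟩, if_pos rfl]
    exact Eqf.refl _ _

theorem forces_Rv_of {p : Cd} {x : W → RO Cd} (ν β : W) (h : Forces p (x ν))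
    (h' : ∀ μ, β ≤ μ → Forces p (x μ)ᶜ) : Forces p (Rv x) := by
  unfold Rv
  rw [forces_inf, forces_iSup, forces_iSup]
  refine ⟨fun q hq => ⟨q, le_rfl, ν, h.mono hq⟩, fun q hq => ⟨q, le_rfl, β, ?_⟩⟩
  rw [forces_iInf]
  exact fun μ => (h' μ.1 μ.2).mono hq

theorem Rv_fs (p : Cd) (u : List Bool) : Forces p (Rv (fs D (true :: u))) := by
  refine forces_Rv_of (D.nat u.length) (D.om 0) ?_ fun μ hμ => ?_
  · exact eqf_top.1 (In_fs p (true :: u) true u (List.suffix_refl _))
  · unfold fs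
    rw [if_neg]
    · rw [forces_compl]
      exact fun q _ => not_forces_bot q
    · rintro ⟨v, _, rfl⟩
      exact absurd hμ (D.nat_om _).not_ge

/-- two names agree below `δ`, or an extension forces a smaller first difference -/
theorem first_diff (D : WD W) (p : Cd) (x y : W → RO Cd) (δ : W) :
    (∀ μ, μ < δ → Eqf p (x μ) (y μ)) ∨ ∃ q, q ≤ p ∧ ∃ μ, μ < δ ∧ (Dif q x y μ ∨ Dif q y x μ) := by
  classical
  by_cases h : ∀ μ, μ < δ → Eqf p (x μ) (y μ)
  · exact Or.inl h
  right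
  have hwf := D.wf.wf
  let S : Set W := {μ | ¬ Eqf p (x μ) (y μ)}
  push Not at h
  obtain ⟨μ0, hμ0, h0⟩ := h
  have hS : S.Nonempty := ⟨μ0, h0⟩
  have hm : hwf.min S hS ∈ S := hwf.min_mem S hS
  have hle : hwf.min S hS ≤ μ0 := not_lt.1 (hwf.not_lt_min S (x := μ0) h0)
  have hb : ∀ ν, ν < hwf.min S hS → Eqf p (x ν) (y ν) := by
    intro ν hν
    by_contra hc
    exact hwf.not_lt_min S (x := ν) hc hν
  generalize hwf.min S hS = μ at hm hle hb
  have hm' : ∃ q, q ≤ p ∧ ¬ (Forces q (x μ) ↔ Forces q (y μ)) := by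
    by_contra hc
    push Not at hc
    exact hm fun q hq => hc q hq
  obtain ⟨q, hq, hn⟩ := hm'
  by_cases hx : Forces q (x μ)
  · have hy : ¬ Forces q (y μ) := fun hy => hn ⟨fun _ => hy, fun _ => hx⟩
    obtain ⟨r, hr, hry⟩ := not_forces_iff.1 hy
    exact ⟨r, hr.trans hq, μ, hle.trans_lt hμ0, Or.inr ⟨fun ν hν => ((hb ν hν).mono
      (hr.trans hq)).symm, hry, hx.mono hr⟩⟩
  · have hy : Forces q (y μ) := by
      by_contra hy
      exact hn ⟨fun h => absurd h hx, fun h => absurd h hy⟩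
    obtain ⟨r, hr, hrx⟩ := not_forces_iff.1 hx
    exact ⟨r, hr.trans hq, μ, hle.trans_lt hμ0, Or.inl ⟨fun ν hν => ((hb ν hν).mono
      (hr.trans hq)), hrx, hy.mono hr⟩⟩

/-- the hypothesis on the map `Φ`, in forcing form -/
structure Hyp (D : WD W) (p0 : Cd) (Φ : (W → RO Cd) → (W → RO Cd)) : Prop where
  ext : ∀ p, p ≤ p0 → ∀ x y, Forces p (eqv x y) → Forces p (eqv (Φ x) (Φ y))
  rv : ∀ p, p ≤ p0 → ∀ x, Forces p (Rv x) → Forces p (Rv (Φ x))
  mono : ∀ p, p ≤ p0 → ∀ x y, Forces p (Rv x) → Forces p (Rv y) → Ltf p x y → Ltf p (Φ x) (Φ y)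
  ind : ∀ p, p ≤ p0 → ∀ x y, Forces p (Rv x) → Forces p (Rv y) → ¬ Forces p (gr D (Φ x) (Φ y))

/-- the splitting `w0`, `w1` with the difference `δ` is valid at `q` -/
def Sp (D : WD W) (Φ : (W → RO Cd) → (W → RO Cd)) (q : Cd) (w0 w1 : List Bool) (δ : W) : Prop :=
  ∀ r, r ≤ q → ∀ Z0 Z1, In D r Z0 w0 → Forces r (Rv Z0) → In D r Z1 w1 → Forces r (Rv Z1) →
    Dif r (Φ Z0) (Φ Z1) δ

theorem Sp.mono {Φ : (W → RO Cd) → (W → RO Cd)} {q r : Cd} {w0 w1 : List Bool} {δ : W}
    (h : Sp D Φ q w0 w1 δ) (hr : r ≤ q) : Sp D Φ r w0 w1 δ :=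
  fun s hs => h s (hs.trans hr)

/-- if `x < y` and the two agree below `δ` and `y` is zero at `δ` then `x` is zero at `δ` -/
theorem compl_of_lt {p : Cd} {x y : W → RO Cd} {δ : W} (h : Ltf p x y)
    (hb : ∀ μ, μ < δ → Eqf p (x μ) (y μ)) (hy : Forces p (y δ)ᶜ) : Forces p (x δ)ᶜ := by
  rw [forces_compl]
  intro q hq hx
  obtain ⟨r, hr, ε, hε⟩ := h q hq
  exact Dif.asymm (p := r) (x := x) (y := y) (δ := ε) (ε := δ) hε
    ⟨fun μ hμ => ((hb μ hμ).mono (hr.trans hq)).symm, hy.mono (hr.trans hq), hx.mono hr⟩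

/-- if `x < y` and the two agree below `δ` and `x` is one at `δ` then `y` is one at `δ` -/
theorem forces_of_lt {p : Cd} {x y : W → RO Cd} {δ : W} (h : Ltf p x y)
    (hb : ∀ μ, μ < δ → Eqf p (x μ) (y μ)) (hx : Forces p (x δ)) : Forces p (y δ) := by
  by_contra hy
  obtain ⟨q, hq, hqy⟩ := not_forces_iff.1 hy
  obtain ⟨r, hr, ε, hε⟩ := h q hq
  exact Dif.asymm (p := r) (x := x) (y := y) (δ := ε) (ε := δ) hε
    ⟨fun μ hμ => ((hb μ hμ).mono (hr.trans hq)).symm, hqy.mono hr, hx.mono (hr.trans hq)⟩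

/-- SPLIT -/
theorem split {p0 : Cd} {Φ : (W → RO Cd) → (W → RO Cd)} (H : Hyp D p0 Φ) (q : Cd) (hq : q ≤ p0)
    (w : List Bool) : ∃ q', q' ≤ q ∧ ∃ (w0 w1 : List Bool) (δ : W),
      w <:+ w0 ∧ w.length < w0.length ∧ w <:+ w1 ∧ w.length < w1.length ∧ Sp D Φ q' w0 w1 δ := by
  classical
  have hwf := D.wf.wf
  let S : Set W := {δ | ∃ q1, q1 ≤ q ∧ ∃ u v, w <:+ u ∧ w <:+ v ∧
    Dif q1 (Φ (fs D (true :: u))) (Φ (fs D (true :: v))) δ}
  have hS : S.Nonempty := by
    have h1 : Dif q (fs D (true :: false :: w)) (fs D (true :: w)) (D.nat w.length) :=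
      Dif_of_In ((In_fs q _).suffix (List.suffix_cons _ _)) (In_fs q _)
    have h2 := H.mono q hq _ _ (Rv_fs q _) (Rv_fs q _) (Ltf_of_Dif h1)
    obtain ⟨r, hr, δ, hδ⟩ := h2 q le_rfl
    exact ⟨δ, r, hr, false :: w, w, List.suffix_cons _ _, List.suffix_refl _, hδ⟩
  obtain ⟨q1, hq1, u, v, hu, hv, hδ⟩ := hwf.min_mem S hS
  have hmin : ∀ ε, ε ∈ S → ¬ ε < hwf.min S hS := fun ε hε => hwf.not_lt_min S hε
  generalize hwf.min S hS = δ at hδ hmin
  have hagree : ∀ t t', w <:+ t → w <:+ t' → ∀ r, r ≤ q1 → ∀ μ, μ < δ →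
      Eqf r (Φ (fs D (true :: t)) μ) (Φ (fs D (true :: t')) μ) := by
    intro t t' ht ht' r hr
    rcases first_diff D r (Φ (fs D (true :: t))) (Φ (fs D (true :: t'))) δ with h | h
    · exact h
    · obtain ⟨s, hs, μ, hμ, h | h⟩ := h
      · exact absurd hμ (hmin μ ⟨s, hs.trans (hr.trans hq1), t, t', ht, ht', h⟩)
      · exact absurd hμ (hmin μ ⟨s, hs.trans (hr.trans hq1), t', t, ht', ht, h⟩)
  refine ⟨q1, hq1, true :: false :: u, true :: false :: true :: v, δ,
    hu.trans ((List.suffix_cons _ _).trans (List.suffix_cons _ _)), ?_,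
    hv.trans ((List.suffix_cons _ _).trans ((List.suffix_cons _ _).trans (List.suffix_cons _ _))),
    ?_, ?_⟩
  · have := hu.length_le
    simp only [List.length_cons]
    omega
  · have := hv.length_le
    simp only [List.length_cons]
    omega
  intro r hr Z0 Z1 hZ0 hR0 hZ1 hR1
  have hrp : r ≤ p0 := hr.trans (hq1.trans hq)
  have hδr := hδ.mono hr
  -- the left side
  have L : ∀ μ, μ ≤ δ → Eqf r (Φ (fs D (true :: false :: false :: u)) μ) (Φ Z0 μ) := by
    have a1 : Ltf r (fs D (true :: false :: false :: u)) Z0 :=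
      Ltf_of_Dif (Dif_of_In (t := false :: u) ((In_fs r _).suffix (List.suffix_cons _ _)) hZ0)
    have a2 : Ltf r Z0 (fs D (true :: u)) :=
      Ltf_of_Dif (Dif_of_In (t := u) (hZ0.suffix (List.suffix_cons _ _)) (In_fs r _))
    have b1 := H.mono r hrp _ _ (Rv_fs r _) hR0 a1
    have b2 := H.mono r hrp _ _ hR0 (Rv_fs r _) a2
    have hbelow := hagree (false :: false :: u) u
      (hu.trans ((List.suffix_cons _ _).trans (List.suffix_cons _ _))) hu r hr
    have hc := compl_of_lt (b1.trans b2) hbelow hδr.2.1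
    refine between b1 b2 fun μ hμ => ?_
    rcases hμ.lt_or_eq with h | h
    · exact hbelow μ h
    · subst h
      exact (eqf_bot.2 hc).trans (eqf_bot.2 hδr.2.1).symm
  have R : ∀ μ, μ ≤ δ → Eqf r (Φ (fs D (true :: v)) μ) (Φ Z1 μ) := by
    have a1 : Ltf r (fs D (true :: v)) Z1 := by
      refine Ltf_of_Dif (Dif_of_In (t := false :: true :: v) ?_ hZ1)
      have h := In_fs (D := D) r (false :: false :: true :: v)
      rw [fs_false, fs_false] at h
      exact h
    have a2 : Ltf r Z1 (fs D (true :: true :: v)) :=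
      Ltf_of_Dif (Dif_of_In (t := true :: v) (hZ1.suffix (List.suffix_cons _ _)) (In_fs r _))
    have b1 := H.mono r hrp _ _ (Rv_fs r _) hR1 a1
    have b2 := H.mono r hrp _ _ hR1 (Rv_fs r _) a2
    have hbelow := hagree v (true :: v) hv (hv.trans (List.suffix_cons _ _)) r hr
    have hc := forces_of_lt (b1.trans b2) hbelow hδr.2.2
    refine between b1 b2 fun μ hμ => ?_
    rcases hμ.lt_or_eq with h | h
    · exact hbelow μ h
    · subst h
      exact (eqf_top.2 hδr.2.2).trans (eqf_top.2 hc).symm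
  have hbelow := hagree (false :: false :: u) u
      (hu.trans ((List.suffix_cons _ _).trans (List.suffix_cons _ _))) hu r hr
  have b1 := H.mono r hrp _ _ (Rv_fs r (false :: false :: u)) (Rv_fs r u)
    (Ltf_of_Dif (Dif_of_In (D := D) (t := u)
      ((In_fs r _).suffix ((List.suffix_cons _ _).trans (List.suffix_cons _ _))) (In_fs r _)))
  have hc := compl_of_lt b1 hbelow hδr.2.1
  refine ⟨fun μ hμ => ?_, ?_, ?_⟩
  · exact ((L μ hμ.le).symm.trans ((hbelow μ hμ).trans (hδr.1 μ hμ))).trans (R μ hμ.le)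
  · exact ((L δ le_rfl).compl r le_rfl).1 hc
  · exact (R δ le_rfl r le_rfl).1 hδr.2.2

end Pool.Agent.H.MP_353193_lc.BV.One
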