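import Pool.Agent.H.MP_353193_lc.BV.O3

/-!
# One Cohen real: the machine and the names
-/

set_option autoImplicit false
set_option linter.unusedSectionVars false

namespace Pool.Agent.H.MP_353193_lc.BV.One

open M3 M3.RO

variable {W : Type} [LinearOrder W]

section machine

variable (D : WD W) (Φ : (W → RO Cd) → (W → RO Cd))

/-- there is a splitting of `w` that is valid at `q` -/
def Good (q : Cd) (w : List Bool) : Prop :=
  ∃ t : List Bool × List Bool × W, w <:+ t.1 ∧ w.length < t.1.length ∧ w <:+ t.2.1 ∧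
    w.length < t.2.1.length ∧ Sp D Φ q t.1 t.2.1 t.2.2

theorem Good.mono {D : WD W} {Φ : (W → RO Cd) → (W → RO Cd)} {q r : Cd} {w : List Bool}
    (h : Good D Φ q w) (hr : r ≤ q) : Good D Φ r w := by
  obtain ⟨t, h1, h2, h3, h4, h5⟩ := h
  exact ⟨t, h1, h2, h3, h4, h5.mono hr⟩

open Classical in
/-- the chosen splitting -/
noncomputable def ch (q : Cd) (w : List Bool) : List Bool × List Bool × W :=
  if h : Good D Φ q w then h.choose else (w, w, D.nat 0)

theorem ch_spec {q : Cd} {w : List Bool} (h : Good D Φ q w) :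
    w <:+ (ch D Φ q w).1 ∧ w.length < (ch D Φ q w).1.length ∧ w <:+ (ch D Φ q w).2.1 ∧
    w.length < (ch D Φ q w).2.1.length ∧
    Sp D Φ q (ch D Φ q w).1 (ch D Φ q w).2.1 (ch D Φ q w).2.2 := by
  unfold ch
  rw [dif_pos h]
  exact h.choose_spec

/-- the new assignment after the digit `d` -/
noncomputable def nxt (d : Dg) (q : Cd) (f : List Bool → List Bool) : List Bool → List Bool
  | [] => []
  | j :: s => if xor j (decide (s ∈ d.1)) then (ch D Φ q (f s)).2.1 else (ch D Φ q (f s)).1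

open Classical in
/-- the machine -/
noncomputable def run : List Dg → ℕ × (List Bool → List Bool)
  | [] => (0, fun _ => [])
  | d :: l => if ∀ s : List Bool, s.length = (run l).1 → Good D Φ ⟨l⟩ ((run l).2 s) then
      ((run l).1 + 1, nxt D Φ d ⟨l⟩ (run l).2) else run l

/-- the stage of the machine at `q` -/
noncomputable def st (q : Cd) : ℕ := (run D Φ q.l).1

/-- the assignment of the machine at `q` -/
noncomputable def asg (q : Cd) : List Bool → List Bool := (run D Φ q.l).2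

/-- the machine is ready to go to the next stage -/
def Ready (q : Cd) : Prop := ∀ s : List Bool, s.length = st D Φ q → Good D Φ q (asg D Φ q s)

theorem run_cons_pos (d : Dg) (l : List Dg)
    (h : ∀ s : List Bool, s.length = (run D Φ l).1 → Good D Φ ⟨l⟩ ((run D Φ l).2 s)) :
    run D Φ (d :: l) = ((run D Φ l).1 + 1, nxt D Φ d ⟨l⟩ (run D Φ l).2) := by
  rw [run]
  exact if_pos h

theorem run_cons_neg (d : Dg) (l : List Dg)
    (h : ¬ ∀ s : List Bool, s.length = (run D Φ l).1 → Good D Φ ⟨l⟩ ((run D Φ l).2 s)) :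
    run D Φ (d :: l) = run D Φ l := by
  rw [run]
  exact if_neg h

theorem st_cons_of_ready {q : Cd} (h : Ready D Φ q) (d : Dg) :
    st D Φ (Cd.cons d q) = st D Φ q + 1 :=
  congrArg Prod.fst (run_cons_pos D Φ d q.l h)

theorem asg_cons_of_ready {q : Cd} (h : Ready D Φ q) (d : Dg) :
    asg D Φ (Cd.cons d q) = nxt D Φ d q (asg D Φ q) :=
  congrArg Prod.snd (run_cons_pos D Φ d q.l h)

theorem st_cons_of_not {q : Cd} (h : ¬ Ready D Φ q) (d : Dg) :
    st D Φ (Cd.cons d q) = st D Φ q :=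
  congrArg Prod.fst (run_cons_neg D Φ d q.l h)

theorem asg_cons_of_not {q : Cd} (h : ¬ Ready D Φ q) (d : Dg) :
    asg D Φ (Cd.cons d q) = asg D Φ q :=
  congrArg Prod.snd (run_cons_neg D Φ d q.l h)

theorem first_ready (q : Cd) (l : List Dg) (h : q.l <:+ l) :
    (∃ r, r ≤ q ∧ st D Φ r = st D Φ q ∧ asg D Φ r = asg D Φ q ∧ Ready D Φ r) ∨
      (st D Φ ⟨l⟩ = st D Φ q ∧ asg D Φ ⟨l⟩ = asg D Φ q) := by
  induction l with
  | nil =>
    right
    have h1 : q = ⟨[]⟩ := by
      rcases q with ⟨q⟩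
      exact congrArg Cd.mk (List.suffix_nil.1 h)
    rw [h1]
    exact ⟨rfl, rfl⟩
  | cons d l ih =>
    rcases List.suffix_cons_iff.1 h with h1 | h1
    · right
      have h2 : q = ⟨d :: l⟩ := by
        rcases q with ⟨q⟩
        exact congrArg Cd.mk h1
      rw [h2]
      exact ⟨rfl, rfl⟩
    · rcases ih h1 with h2 | h2
      · exact Or.inl h2
      · by_cases h3 : Ready D Φ ⟨l⟩
        · exact Or.inl ⟨⟨l⟩, h1, h2.1, h2.2, h3⟩
        · right
          exact ⟨(st_cons_of_not D Φ h3 d).trans h2.1, (asg_cons_of_not D Φ h3 d).trans h2.2⟩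

/-- finitely many splittings at once -/
theorem split_finset {p0 : Cd} (H : Hyp D p0 Φ) (q : Cd) (hq : q ≤ p0)
    (S : Finset (List Bool)) : ∃ r, r ≤ q ∧ ∀ w ∈ S, Good D Φ r w := by
  classical
  induction S using Finset.induction_on with
  | empty => exact ⟨q, le_rfl, fun w hw => absurd hw (Finset.notMem_empty _)⟩
  | insert w S _ ih =>
    obtain ⟨r, hr, h⟩ := ih
    obtain ⟨r', hr', w0, w1, δ, h1, h2, h3, h4, h5⟩ := split H r (hr.trans hq) w
    refine ⟨r', hr'.trans hr, fun v hv => ?_⟩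
    rcases Finset.mem_insert.1 hv with rfl | hv
    · exact ⟨(w0, w1, δ), h1, h2, h3, h4, h5⟩
    · exact (h v hv).mono hr'

theorem strings_finite (i : ℕ) : {s : List Bool | s.length = i}.Finite :=
  List.finite_length_eq Bool i

/-- the machine becomes ready -/
theorem exists_ready {p0 : Cd} (H : Hyp D p0 Φ) (q : Cd) (hq : q ≤ p0) :
    ∃ r, r ≤ q ∧ st D Φ r = st D Φ q ∧ asg D Φ r = asg D Φ q ∧ Ready D Φ r := by
  classical
  obtain ⟨r, hr, h⟩ := split_finset D Φ H q hq
    ((strings_finite (st D Φ q)).toFinset.image (asg D Φ q))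
  rcases first_ready D Φ q r.l hr with h1 | h1
  · exact h1
  · refine ⟨r, hr, h1.1, h1.2, fun s hs => h _ ?_⟩
    rw [show asg D Φ r = asg D Φ q from h1.2]
    refine Finset.mem_image_of_mem _ ?_
    rw [Set.Finite.mem_toFinset]
    exact hs.trans h1.1

/-- every stage is reached -/
theorem exists_st {p0 : Cd} (H : Hyp D p0 Φ) (q : Cd) (hq : q ≤ p0) (n : ℕ) :
    ∃ r, r ≤ q ∧ st D Φ r = st D Φ q + n := by
  induction n with
  | zero => exact ⟨q, le_rfl, rfl⟩
  | succ n ih =>
    obtain ⟨r, hr, h⟩ := ih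
    obtain ⟨r', hr', h1, _, h3⟩ := exists_ready D Φ H r (hr.trans hq)
    refine ⟨Cd.cons (∅, 0, 0) r', (Cd.cons_le _ _).trans (hr'.trans hr), ?_⟩
    rw [st_cons_of_ready D Φ h3, h1, h]
    rfl

/-- the restriction of `a` to `i` (newest bit first) -/
def pre (a : ℕ → Bool) : ℕ → List Bool
  | 0 => []
  | i + 1 => a i :: pre a i

theorem length_pre (a : ℕ → Bool) (i : ℕ) : (pre a i).length = i := by
  induction i with
  | zero => rfl
  | succ i ih => simp [pre, ih]

theorem pre_eq_iff {a b : ℕ → Bool} {i : ℕ} : pre a i = pre b i ↔ ∀ j, j < i → a j = b j := by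
  induction i with
  | zero => simp [pre]
  | succ i ih =>
    simp only [pre, List.cons_eq_cons, ih]
    constructor
    · rintro ⟨h1, h2⟩ j hj
      rcases Nat.lt_succ_iff_lt_or_eq.1 hj with h | rfl
      · exact h2 j h
      · exact h1
    · intro h
      exact ⟨h i (Nat.lt_succ_self i), fun j hj => h j (Nat.lt_succ_of_lt hj)⟩

/-- the current value of the branch `a` -/
noncomputable def cur (q : Cd) (a : ℕ → Bool) : List Bool := asg D Φ q (pre a (st D Φ q))

theorem cur_cons (d : Dg) (q : Cd) (a : ℕ → Bool) : cur D Φ q a <:+ cur D Φ (Cd.cons d q) a := by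
  unfold cur
  by_cases h : Ready D Φ q
  · rw [st_cons_of_ready D Φ h, asg_cons_of_ready D Φ h]
    have h1 := ch_spec D Φ (h (pre a (st D Φ q)) (length_pre _ _))
    show _ <:+ nxt D Φ d q (asg D Φ q) (a (st D Φ q) :: pre a (st D Φ q))
    rw [nxt]
    split_ifs
    · exact h1.2.2.1
    · exact h1.1
  · rw [st_cons_of_not D Φ h, asg_cons_of_not D Φ h]

theorem cur_mono {q r : Cd} (h : r ≤ q) (a : ℕ → Bool) : cur D Φ q a <:+ cur D Φ r a := by
  obtain ⟨q⟩ := q
  obtain ⟨r⟩ := r
  have h' : q <:+ r := h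
  clear h
  induction r with
  | nil =>
    rw [List.suffix_nil.1 h']
  | cons d r ih =>
    rcases List.suffix_cons_iff.1 h' with h1 | h1
    · rw [h1]
    · exact (ih h1).trans (cur_cons D Φ d ⟨r⟩ a)

/-- the value of: the `n`-th digit of the new branch `P_a` is one -/
noncomputable def pd (a : ℕ → Bool) (n : ℕ) : RO Cd :=
  hull {q | ∃ u, (true :: u) <:+ cur D Φ q a ∧ u.length = n}

theorem eqf_pd {q : Cd} {a : ℕ → Bool} {b : Bool} {u : List Bool}
    (h : (b :: u) <:+ cur D Φ q a) : Eqf q (pd D Φ a u.length) (cB b) := by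
  unfold cB
  rcases b with _ | _
  · rw [if_neg (by simp)]
    refine eqf_bot.2 ?_
    rw [forces_compl]
    intro r hr h1
    unfold pd at h1
    rw [forces_hull] at h1
    obtain ⟨r', hr', s, ⟨u', hu', hn⟩, hs⟩ := h1 r le_rfl
    have h2 : (false :: u) <:+ cur D Φ r' a := h.trans (cur_mono D Φ (hr'.trans hr) a)
    have h3 : (true :: u') <:+ cur D Φ r' a := hu'.trans (cur_mono D Φ hs a)
    have h4 : (false :: u) = (true :: u') := by
      rcases List.suffix_or_suffix_of_suffix h2 h3 with h5 | h5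
      · exact h5.eq_of_length (by simp [hn])
      · exact (h5.eq_of_length (by simp [hn])).symm
    simp at h4
  · rw [if_pos rfl]
    refine eqf_top.2 ?_
    unfold pd
    rw [forces_hull]
    exact fun r hr => ⟨r, le_rfl, q, ⟨u, h, rfl⟩, hr⟩

open Classical in
/-- the name of `P_a ∪ [ω, α)` -/
noncomputable def Z (a : ℕ → Bool) (α : W) (ν : W) : RO Cd :=
  if h : ν < D.om 0 then pd D Φ a (D.om_nat ν h).choose else if ν < α then ⊤ else ⊥

theorem Z_nat (a : ℕ → Bool) (α : W) (n : ℕ) : Z D Φ a α (D.nat n) = pd D Φ a n := by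
  unfold Z
  rw [dif_pos (D.nat_om n)]
  have h := (D.om_nat _ (D.nat_om n)).choose_spec
  rw [← nat_inj h]

theorem Z_top (a : ℕ → Bool) (α : W) {ν : W} (h : D.om 0 ≤ ν) (h' : ν < α) :
    Z D Φ a α ν = ⊤ := by
  unfold Z
  rw [dif_neg h.not_gt, if_pos h']

theorem Z_bot (a : ℕ → Bool) (α : W) {ν : W} (h : D.om 0 ≤ ν) (h' : α ≤ ν) :
    Z D Φ a α ν = ⊥ := by
  unfold Z
  rw [dif_neg h.not_gt, if_neg h'.not_gt]

theorem In_Z (q : Cd) (a : ℕ → Bool) (α : W) : In D q (Z D Φ a α) (cur D Φ q a) := by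
  intro b u hu
  rw [Z_nat]
  exact eqf_pd D Φ hu

theorem Rv_Z (q : Cd) (a : ℕ → Bool) {α : W} (h : D.om 0 < α) : Forces q (Rv (Z D Φ a α)) := by
  refine forces_Rv_of (D.om 0) α ?_ fun μ hμ => ?_
  · rw [Z_top D Φ a α le_rfl h]
    exact forces_top q
  · rw [Z_bot D Φ a α (h.le.trans hμ) hμ, forces_compl]
    exact fun r _ => not_forces_bot r

theorem Dif_Z (q : Cd) (a : ℕ → Bool) {α β : W} (h : D.om 0 < α) (h' : α < β) :
    Dif q (Z D Φ a α) (Z D Φ a β) α := by
  refine ⟨fun μ hμ => ?_, ?_, ?_⟩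
  · have : Z D Φ a α μ = Z D Φ a β μ := by
      by_cases h1 : μ < D.om 0
      · obtain ⟨n, rfl⟩ := D.om_nat μ h1
        rw [Z_nat, Z_nat]
      · rw [not_lt] at h1
        rw [Z_top D Φ a α h1 hμ, Z_top D Φ a β h1 (hμ.trans h')]
    rw [this]
    exact Eqf.refl _ _
  · rw [Z_bot D Φ a α h.le le_rfl, forces_compl]
    exact fun r _ => not_forces_bot r
  · rw [Z_top D Φ a β h.le h']
    exact forces_top q

end machine

end Pool.Agent.H.MP_353193_lc.BV.One
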