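import Pool.Agent.H.MP_353193_lc.BV.O4

/-!
# One Cohen real: long increasing families of names have unbounded levels
-/

set_option autoImplicit false
set_option linter.unusedSectionVars false

namespace Pool.Agent.H.MP_353193_lc.BV.One

open M3 M3.RO Cardinal

variable {W : Type} [LinearOrder W] {D : WD W}

/-- no family of more than `ℵ_k` names of subsets of `ω_k` is forced to be increasing -/
theorem no_inc (D : WD W) (p : Cd) (k : ℕ) (A : Set W) (hA : ℵ_ (k : Ordinal) < #A)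
    (x : W → W → RO Cd) (hinc : ∀ α ∈ A, ∀ β ∈ A, α < β → Ltf p (x α) (x β))
    (hlb : ∀ α ∈ A, Forces p (lb D (x α) k)) : False := by
  classical
  have hwf := D.wf.wf
  let S : Set W := {δ | ∃ q, q ≤ p ∧ ∃ A' : Set W, A' ⊆ A ∧ ℵ_ (k : Ordinal) < #A' ∧
    ∀ α ∈ A', ∀ β ∈ A', α < β → ∀ r, r ≤ q → ∃ s, s ≤ r ∧ ∃ ε, ε < δ ∧ Dif s (x α) (x β) ε}
  have hk : D.om k ∈ S := by
    refine ⟨p, le_rfl, A, subset_rfl, hA, fun α hα β hβ hlt r hr => ?_⟩
    obtain ⟨s, hs, ε, hε⟩ := hinc α hα β hβ hlt r hr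
    refine ⟨s, hs, ε, ?_, hε⟩
    by_contra hc
    rw [not_lt] at hc
    exact (((forces_lb D).1 (hlb β hβ) ε hc).mono (hs.trans hr)) s le_rfl hε.2.2
  have hS : S.Nonempty := ⟨_, hk⟩
  have hle : hwf.min S hS ≤ D.om k := not_lt.1 (hwf.not_lt_min S hk)
  have hmin : ∀ ε, ε ∈ S → ¬ ε < hwf.min S hS := fun ε hε => hwf.not_lt_min S hε
  obtain ⟨q, hq, A', hA', hbig, hdif⟩ := hwf.min_mem S hS
  generalize hwf.min S hS = δ at hle hmin hdif
  -- drop the maximum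
  let B : Set W := {α | α ∈ A' ∧ ∃ β, β ∈ A' ∧ α < β}
  have hB : ℵ_ (k : Ordinal) < #B := by
    by_contra hc
    rw [not_lt] at hc
    have h1 : A' ⊆ B ∪ (A' \ B) := fun a ha => by
      by_cases h : a ∈ B
      · exact Or.inl h
      · exact Or.inr ⟨ha, h⟩
    have h2 : (A' \ B).Subsingleton := by
      rintro a ⟨ha, ha'⟩ b ⟨hb, hb'⟩
      rcases lt_trichotomy a b with h | h | h
      · exact absurd ⟨ha, b, hb, h⟩ ha'
      · exact h
      · exact absurd ⟨hb, a, ha, h⟩ hb'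
    have h3 : #(A' \ B : Set W) ≤ 1 := Cardinal.mk_le_one_iff_set_subsingleton.2 h2
    have h4 : #A' ≤ ℵ_ (k : Ordinal) := by
      refine (Cardinal.mk_le_mk_of_subset h1).trans ((Cardinal.mk_union_le _ _).trans ?_)
      exact Cardinal.add_le_of_le (Cardinal.aleph0_le_aleph _) hc
        (h3.trans (Cardinal.one_le_aleph0.trans (Cardinal.aleph0_le_aleph _)))
    exact absurd hbig h4.not_gt
  -- successors
  have hsucc : ∀ α : B, ∃ β, β ∈ A' ∧ α.1 < β ∧ ∀ γ, γ ∈ A' → α.1 < γ → β ≤ γ := by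
    intro α
    have hne : {β | β ∈ A' ∧ α.1 < β}.Nonempty := α.2.2
    refine ⟨hwf.min _ hne, (hwf.min_mem _ hne).1, (hwf.min_mem _ hne).2, fun γ hγ hlt => ?_⟩
    exact not_lt.1 (hwf.not_lt_min {β | β ∈ A' ∧ α.1 < β} (x := γ) ⟨hγ, hlt⟩)
  choose sc hsc1 hsc2 hsc3 using hsucc
  have hd : ∀ α : B, ∃ s, s ≤ q ∧ ∃ ε : Set.Iio δ, Dif s (x α.1) (x (sc α)) ε.1 := by
    intro α
    obtain ⟨s, hs, ε, hε, h⟩ := hdif α.1 α.2.1 (sc α) (hsc1 α) (hsc2 α) q le_rfl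
    exact ⟨s, hs, ⟨ε, hε⟩, h⟩
  choose qq hqq ee hee using hd
  -- pigeonhole
  have hcard : #(Cd × Set.Iio δ) ≤ ℵ_ (k : Ordinal) := by
    rw [Cardinal.mk_prod, Cardinal.lift_id, Cardinal.lift_id]
    have h1 : #Cd ≤ ℵ_ (k : Ordinal) := (Cardinal.mk_le_aleph0).trans (Cardinal.aleph0_le_aleph _)
    have h2 : #(Set.Iio δ) ≤ ℵ_ (k : Ordinal) :=
      (Cardinal.mk_le_mk_of_subset (Set.Iio_subset_Iio hle)).trans (D.small k)
    exact (mul_le_mul' h1 h2).trans (Cardinal.mul_eq_self (Cardinal.aleph0_le_aleph _)).le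
  have hinf : ℵ₀ ≤ Order.succ (ℵ_ (k : Ordinal)) :=
    (Cardinal.aleph0_le_aleph _).trans (Order.le_succ _)
  obtain ⟨⟨q1, ν⟩, hy⟩ := Cardinal.infinite_pigeonhole_card
    (fun α : B => (qq α, ee α)) (Order.succ (ℵ_ (k : Ordinal))) (Order.succ_le_of_lt hB) hinf
    (by
      rw [(Cardinal.isRegular_succ (Cardinal.aleph0_le_aleph _)).cof_ord]
      exact Order.lt_succ_of_le hcard)
  let F : Set B := (fun α : B => (qq α, ee α)) ⁻¹' {(q1, ν)}
  have hF : ∀ α : B, α ∈ F → qq α = q1 ∧ ee α = ν := fun α hα => by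
    have h : (qq α, ee α) = (q1, ν) := hα
    exact ⟨congrArg Prod.fst h, congrArg Prod.snd h⟩
  have hFbig : ℵ_ (k : Ordinal) < #(Subtype.val '' F : Set W) := by
    rw [Cardinal.mk_image_eq Subtype.val_injective]
    exact (Order.lt_succ _).trans_le hy
  have hFne : F.Nonempty := by
    by_contra hc
    rw [Set.not_nonempty_iff_eq_empty] at hc
    rw [hc] at hFbig
    simp at hFbig
  refine hmin ν.1 ⟨q1, ?_, Subtype.val '' F, ?_, hFbig, ?_⟩ ν.2
  · obtain ⟨α, hα⟩ := hFne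
    rw [← (hF α hα).1]
    exact (hqq α).trans hq
  · rintro _ ⟨α, _, rfl⟩
    exact hA' α.2.1
  · rintro _ ⟨α, hα, rfl⟩ _ ⟨β, hβ, rfl⟩ hlt r hr
    have e1 := hee α
    have e2 := hee β
    rw [(hF α hα).1, (hF α hα).2] at e1
    rw [(hF β hβ).1, (hF β hβ).2] at e2
    have hle' : sc α ≤ β.1 := hsc3 α β.1 β.2.1 hlt
    rcases hle'.lt_or_eq with h | h
    · have hq1 : q1 ≤ q := by
        rw [← (hF α hα).1]
        exact hqq α
      obtain ⟨s, hs, ε, _, hε⟩ := hdif (sc α) (hsc1 α) β.1 β.2.1 h r (hr.trans hq1)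
      obtain ⟨hne, h5⟩ := (e1.mono (hs.trans hr)).trans hε
      refine ⟨s, hs, ?_⟩
      rcases lt_or_gt_of_ne hne with h6 | h6
      · exfalso
        exact (e2.mono (hs.trans hr)).2.1 s le_rfl
          ((hε.1 _ h6 s le_rfl).1 (e1.mono (hs.trans hr)).2.2)
      · rw [min_eq_right h6.le] at h5
        exact ⟨ε, h6, h5⟩
    · rw [h] at e1
      exact absurd e1.2.2 (e2.2.1 q1 le_rfl)

/-- LEVELS -/
theorem levels {p0 : Cd} {Φ : (W → RO Cd) → (W → RO Cd)} (H : Hyp D p0 Φ) (p : Cd) (hp : p ≤ p0)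
    (a : ℕ → Bool) (k : ℕ) : ∃ q, q ≤ p ∧ ∃ α, D.om 0 < α ∧ ∃ l, k < l ∧
      Forces q (lv D (Φ (Z D Φ a α)) l) := by
  classical
  by_contra hc
  have hall : ∀ α, D.om 0 < α → Forces p (lb D (Φ (Z D Φ a α)) k) := by
    intro α hα
    by_contra hn
    obtain ⟨q, hq, hq'⟩ := not_forces_iff.1 hn
    obtain ⟨r, hr, l, hl⟩ := exists_lv D (H.rv q (hq.trans hp) _ (Rv_Z D Φ q a hα))
    refine hc ⟨r, hr.trans hq, α, hα, l, ?_, hl⟩
    by_contra hkl
    rw [not_lt] at hkl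
    refine hq' r hr ((forces_lb D).2 fun ν hν => ?_)
    exact (forces_lb D).1 ((forces_lv D).1 hl).1 ν ((om_mono D hkl).trans hν)
  have hbig : ℵ_ (k : Ordinal) < #(Set.Ioi (D.om 0)) := by
    by_contra hn
    rw [not_lt] at hn
    have h1 : (Set.univ : Set W) ⊆ Set.Iio (D.om (k + 1)) ∪ Set.Ioi (D.om 0) := by
      intro w _
      rcases lt_or_ge w (D.om (k + 1)) with h | h
      · exact Or.inl h
      · exact Or.inr (((D.om_lt 0).trans_le (om_mono D (Nat.le_add_left 1 k))).trans_le h)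
    have h2 : #W ≤ ℵ_ ((k + 1 : ℕ) : Ordinal) := by
      rw [← Cardinal.mk_univ]
      refine (Cardinal.mk_le_mk_of_subset h1).trans ((Cardinal.mk_union_le _ _).trans ?_)
      exact Cardinal.add_le_of_le (Cardinal.aleph0_le_aleph _) (D.small _)
        (hn.trans (Cardinal.aleph_le_aleph.2 (by exact_mod_cast Nat.le_succ k)))
    exact absurd (D.big (k + 1)) h2.not_gt
  refine no_inc D p k (Set.Ioi (D.om 0)) hbig (fun α => Φ (Z D Φ a α)) ?_ fun α hα => hall α hα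
  intro α hα β hβ hlt
  exact H.mono p hp _ _ (Rv_Z D Φ p a hα) (Rv_Z D Φ p a hβ)
    (Ltf_of_Dif (Dif_Z D Φ p a hα hlt))

end Pool.Agent.H.MP_353193_lc.BV.One
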