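import Pool.Agent.H.MP_353193_lc.BV.O5

/-!
# One Cohen real: the graph meets the image of every embedding
-/

set_option autoImplicit false
set_option linter.unusedSectionVars false

namespace Pool.Agent.H.MP_353193_lc.BV.One

open M3 M3.RO Cardinal

variable {W : Type} [LinearOrder W] (D : WD W)

theorem cur_cons_ready (Φ : (W → RO Cd) → (W → RO Cd)) {q : Cd} (h : Ready D Φ q) (d : Dg)
    (a : ℕ → Bool) : cur D Φ (Cd.cons d q) a =
      if xor (a (st D Φ q)) (decide (pre a (st D Φ q) ∈ d.1)) then (ch D Φ q (cur D Φ q a)).2.1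
      else (ch D Φ q (cur D Φ q a)).1 := by
  unfold cur
  rw [st_cons_of_ready D Φ h, asg_cons_of_ready D Φ h]
  show nxt D Φ d q (asg D Φ q) (a (st D Φ q) :: pre a (st D Φ q)) = _
  rw [nxt]

/-- the two points of the branch `a` -/
def Two (Φ : (W → RO Cd) → (W → RO Cd)) (p : Cd) (k l : ℕ) (a : ℕ → Bool) : Prop :=
  (∃ α, D.om 0 < α ∧ Forces p (lv D (Φ (Z D Φ a α)) k) ∧ ∃ τ, Forces p (can (Φ (Z D Φ a α)) τ)) ∧
  (∃ β, D.om 0 < β ∧ Forces p (lv D (Φ (Z D Φ a β)) l) ∧ ∃ σ, Forces p (can (Φ (Z D Φ a β)) σ))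

theorem exists_two {p0 : Cd} {Φ : (W → RO Cd) → (W → RO Cd)} (H : Hyp D p0 Φ) (a : ℕ → Bool) :
    ∃ t : Cd × ℕ × ℕ, t.1 ≤ p0 ∧ t.2.1 ≠ t.2.2 ∧ Two D Φ t.1 t.2.1 t.2.2 a := by
  obtain ⟨q, hq, α, hα, k, _, hk⟩ := levels H p0 le_rfl a 0
  obtain ⟨r, hr, β, hβ, l, hl, hl'⟩ := levels H q hq a k
  obtain ⟨s, hs, τ, hτ⟩ := exists_can r (Φ (Z D Φ a α))
  obtain ⟨t, ht, σ, hσ⟩ := exists_can s (Φ (Z D Φ a β))
  have h1 : t ≤ r := ht.trans hs
  have h2 : t ≤ q := h1.trans hr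
  exact ⟨(t, k, l), h2.trans hq, hl.ne, ⟨α, hα, hk.mono h2, τ, hτ.mono ht⟩,
    ⟨β, hβ, hl'.mono h1, σ, hσ⟩⟩

/-- two branches with the same data give an edge -/
theorem edge_of_two {p0 : Cd} {Φ : (W → RO Cd) → (W → RO Cd)} (H : Hyp D p0 Φ) {p : Cd}
    (hp : p ≤ p0) {k l : ℕ} (hkl : k ≠ l) {a b : ℕ → Bool} (ha : Two D Φ p k l a)
    (hb : Two D Φ p k l b) {i : ℕ} (hi : st D Φ p ≤ i) (hab : pre a i = pre b i)
    (hai : a i = false) (hbi : b i = true) : False := by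
  classical
  obtain ⟨⟨α, hα, hk, τ, hτ⟩, _⟩ := ha
  obtain ⟨_, ⟨β, hβ, hl, σ, hσ⟩⟩ := hb
  -- a ready condition of stage `i`
  obtain ⟨q1, hq1, hst1⟩ := exists_st D Φ H p hp (i - st D Φ p)
  obtain ⟨q, hq, hst2, _, hR⟩ := exists_ready D Φ H q1 (hq1.trans hp)
  have hst : st D Φ q = i := by omega
  have hqp : q ≤ p := hq.trans hq1
  have hcur : cur D Φ q a = cur D Φ q b := by
    unfold cur
    rw [hst, hab]
  have hSp := (ch_spec D Φ (hR (pre a i) (by rw [length_pre, hst]))).2.2.2.2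
  have hc : asg D Φ q (pre a i) = cur D Φ q a := by
    unfold cur
    rw [hst]
  rw [hc] at hSp
  generalize hv : ch D Φ q (cur D Φ q a) = v at hSp
  obtain ⟨w0, w1, δ⟩ := v
  simp only at hSp
  -- the two digits
  let q0 := Cd.cons (∅, 0, 0) q
  let q0' := Cd.cons ({pre a i}, 0, 0) q
  have hq0 : q0 ≤ q := Cd.cons_le _ _
  have hq0' : q0' ≤ q := Cd.cons_le _ _
  have a0 : cur D Φ q0 a = w0 := by
    rw [cur_cons_ready D Φ hR, hst, hai, if_neg (by simp), hv]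
  have b0 : cur D Φ q0 b = w1 := by
    rw [cur_cons_ready D Φ hR, hst, hbi, if_pos (by simp), ← hcur, hv]
  have a1 : cur D Φ q0' a = w1 := by
    rw [cur_cons_ready D Φ hR, hst, hai, if_pos (by simp), hv]
  have b1 : cur D Φ q0' b = w0 := by
    rw [cur_cons_ready D Φ hR, hst, hbi, if_neg (by simp [hab]), ← hcur, hv]
  have d0 : Dif q0 (Φ (Z D Φ a α)) (Φ (Z D Φ b β)) δ := by
    refine hSp q0 hq0 _ _ ?_ (Rv_Z D Φ q0 a hα) ?_ (Rv_Z D Φ q0 b hβ)
    · rw [← a0]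
      exact In_Z D Φ q0 a α
    · rw [← b0]
      exact In_Z D Φ q0 b β
  have d1 : Dif q0' (Φ (Z D Φ b β)) (Φ (Z D Φ a α)) δ := by
    refine hSp q0' hq0' _ _ ?_ (Rv_Z D Φ q0' b hβ) ?_ (Rv_Z D Φ q0' a hα)
    · rw [← b1]
      exact In_Z D Φ q0' b β
    · rw [← a1]
      exact In_Z D Φ q0' a α
  have hτe := (forces_can.1 hτ).1
  have hσe := (forces_can.1 hσ).1
  have e0 : Dif q0 τ σ δ := d0.congr (hτe.mono (hq0.trans hqp)) (hσe.mono (hq0.trans hqp))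
  have e1 : Dif q0' σ τ δ := d1.congr (hσe.mono (hq0'.trans hqp)) (hτe.mono (hq0'.trans hqp))
  -- `q` decides nothing
  have nτ : ¬ Dec q (τ δ) := by
    rintro (h | h)
    · exact e0.2.1 q0 le_rfl (h.mono hq0)
    · exact (h.mono hq0') q0' le_rfl e1.2.2
  have nσ : ¬ Dec q (σ δ) := by
    rintro (h | h)
    · exact e1.2.1 q0' le_rfl (h.mono hq0')
    · exact (h.mono hq0) q0 le_rfl e0.2.2
  have fτ : FD q0 (τ δ) := by
    refine ⟨Or.inr e0.2.1, fun d' l' h => ?_⟩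
    have h1 : q.l = l' := (List.cons_eq_cons.1 h).2
    rw [← h1]
    exact nτ
  have fσ : FD q0 (σ δ) := by
    refine ⟨Or.inl e0.2.2, fun d' l' h => ?_⟩
    have h1 : q.l = l' := (List.cons_eq_cons.1 h).2
    rw [← h1]
    exact nσ
  -- the last digit
  let qs := Cd.cons (∅, l, k) q0
  have hqs : qs ≤ q0 := Cd.cons_le _ _
  have hqsp : qs ≤ p := hqs.trans (hq0.trans hqp)
  have tτ : Forces qs (tgt (τ δ) l) := by
    unfold tgt
    rw [forces_hull]
    exact fun r hr => ⟨r, le_rfl, qs, ⟨(∅, l, k), q0, rfl, fτ, Or.inr ⟨e0.2.1, rfl⟩⟩, hr⟩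
  have tσ : Forces qs (tgt (σ δ) k) := by
    unfold tgt
    rw [forces_hull]
    exact fun r hr => ⟨r, le_rfl, qs, ⟨(∅, l, k), q0, rfl, fσ, Or.inl ⟨e0.2.2, rfl⟩⟩, hr⟩
  have hE : Edge D qs (Φ (Z D Φ a α)) (Φ (Z D Φ b β)) :=
    ⟨τ, σ, δ, k, l, hτ.mono hqsp, hσ.mono hqsp, e0.mono hqs, tτ, tσ, hk.mono hqsp, hl.mono hqsp,
      hkl⟩
  refine H.ind qs (hqsp.trans hp) (Z D Φ a α) (Z D Φ b β) (Rv_Z D Φ qs a hα) (Rv_Z D Φ qs b hβ) ?_
  unfold gr
  rw [forces_sup]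
  exact fun r hr => ⟨r, le_rfl, Or.inl ((forces_g0 D).2 fun s hs =>
    ⟨s, le_rfl, Edge.mono D hE (hs.trans hr)⟩)⟩

theorem not_hyp (p0 : Cd) (Φ : (W → RO Cd) → (W → RO Cd)) : ¬ Hyp D p0 Φ := by
  classical
  intro H
  choose t ht1 ht2 ht3 using exists_two D H
  -- two branches with the same data and the same beginning
  have hninj : ¬ Function.Injective
      (fun a : ℕ → Bool => (t a, pre a (st D Φ (t a).1))) := by
    intro hinj
    have h1 : Countable (ℕ → Bool) := hinj.countable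
    have h2 : #(ℕ → Bool) ≤ ℵ₀ := Cardinal.mk_le_aleph0
    rw [← Cardinal.power_def, Cardinal.mk_bool, Cardinal.mk_nat] at h2
    exact absurd h2 (Cardinal.cantor _).not_ge
  unfold Function.Injective at hninj
  push Not at hninj
  obtain ⟨a, b, h, hne⟩ := hninj
  have h1 : t a = t b := congrArg Prod.fst h
  have h2 : pre a (st D Φ (t a).1) = pre b (st D Φ (t b).1) := congrArg Prod.snd h
  rw [← h1] at h2
  have hex : ∃ i, a i ≠ b i := by
    by_contra hc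
    push Not at hc
    exact hne (funext hc)
  have hi := Nat.find_spec hex
  have hlt : ∀ j, j < Nat.find hex → a j = b j := fun j hj => not_not.1 (Nat.find_min hex hj)
  have hge : st D Φ (t a).1 ≤ Nat.find hex := by
    by_contra hc
    rw [not_le] at hc
    exact hi (pre_eq_iff.1 h2 _ hc)
  have hpre : pre a (Nat.find hex) = pre b (Nat.find hex) := pre_eq_iff.2 hlt
  generalize Nat.find hex = i at hi hlt hge hpre
  have hTa := ht3 a
  have hTb := ht3 b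
  rw [← h1] at hTb
  rcases hai : a i with _ | _
  · rcases hbi : b i with _ | _
    · exact hi (hai.trans hbi.symm)
    · exact edge_of_two D H (ht1 a) (ht2 a) hTa hTb hge hpre hai hbi
  · rcases hbi : b i with _ | _
    · exact edge_of_two D H (ht1 a) (ht2 a) hTb hTa hge hpre.symm hbi hai
    · exact hi (hai.trans hbi.symm)

include D in
/-- the combinatorial core for one Cohen real -/
theorem core_RO : Core (RO Cd) W := by
  refine ⟨gr D, gr_ext D, gr_symm D, gr_tri D, fun b Φ hext hrv hmono hind => ?_⟩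
  by_contra hne
  obtain ⟨p0, hp0⟩ := exists_forces_of_ne_bot hne
  refine not_hyp D p0 Φ ⟨?_, ?_, ?_, ?_⟩
  · intro p hp x y h
    exact hext x y p ⟨hp0.mono hp, h⟩
  · intro p hp x h
    exact hrv x p ⟨hp0.mono hp, h⟩
  · intro p hp x y hx hy hlt
    exact forces_ltv.1 (hmono x y p ⟨⟨⟨hp0.mono hp, hx⟩, hy⟩, forces_ltv.2 hlt⟩)
  · intro p hp x y hx hy hg
    have h : Forces p (b ⊓ Rv x ⊓ Rv y ⊓ gr D (Φ x) (Φ y)) := ⟨⟨⟨hp0.mono hp, hx⟩, hy⟩, hg⟩
    rw [hind x y] at h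
    exact not_forces_bot p h

end Pool.Agent.H.MP_353193_lc.BV.One
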