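import Pool.Agent.H.MP_353193_lc.BV.O6

/-!
# One Cohen real: the well-order of type `ω_ω`, and the final form
-/

set_option autoImplicit false
set_option linter.unusedSectionVars false

namespace Pool.Agent.H.MP_353193_lc.BV.One

open Cardinal

/-- the index of an element of `Wω` -/
noncomputable def tp (a : Wω) : Ordinal.{0} := Ordinal.typein (α := Wω) (· < ·) a

theorem tp_lt {a b : Wω} : tp a < tp b ↔ a < b := Ordinal.typein_lt_typein (α := Wω) (· < ·)

theorem tp_inj {a b : Wω} (h : tp a = tp b) : a = b := Ordinal.typein_injective (α := Wω) (· < ·) h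

theorem exists_tp {o : Ordinal.{0}} (h : o < (Cardinal.aleph Ordinal.omega0.{0}).ord) :
    ∃ a : Wω, tp a = o := by
  have h2 : o < Ordinal.type (α := Wω) (· < ·) := by
    rw [Ordinal.type_toType]
    exact h
  exact Ordinal.typein_surj (α := Wω) (· < ·) h2

theorem mk_Iio (a : Wω) : #(Set.Iio a) = (tp a).card :=
  (Ordinal.card_typein (r := (· < · : Wω → Wω → Prop)) a).symm

theorem aleph_nat_lt (k : ℕ) :
    Cardinal.aleph (k : Ordinal.{0}) < Cardinal.aleph Ordinal.omega0.{0} :=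
  Cardinal.aleph_lt_aleph.2 (Ordinal.natCast_lt_omega0 _)

theorem exists_om (k : ℕ) : ∃ a : Wω, tp a = (Cardinal.aleph (k : Ordinal.{0})).ord :=
  exists_tp (Cardinal.ord_lt_ord.2 (aleph_nat_lt k))

theorem exists_nat (n : ℕ) : ∃ a : Wω, tp a = (n : Ordinal.{0}) := by
  refine exists_tp ?_
  rw [Cardinal.lt_ord, Ordinal.card_nat]
  exact (Cardinal.natCast_lt_aleph0).trans_le (Cardinal.aleph0_le_aleph _)

theorem le_aleph_nat (κ : Cardinal.{0}) (h : κ < Cardinal.aleph Ordinal.omega0.{0}) :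
    ∃ n : ℕ, κ ≤ Cardinal.aleph (n : Ordinal.{0}) := by
  rcases lt_or_ge κ ℵ₀ with h0 | h0
  · exact ⟨0, h0.le.trans (Cardinal.aleph0_le_aleph _)⟩
  · obtain ⟨o, rfl⟩ := Cardinal.mem_range_aleph_iff.2 h0
    rw [Cardinal.aleph_lt_aleph] at h
    obtain ⟨n, rfl⟩ := Ordinal.lt_omega0.1 h
    exact ⟨n, le_rfl⟩

theorem exists_WD : Nonempty (WD Wω) := by
  choose om hom using exists_om
  choose nt hnt using exists_nat
  refine ⟨⟨inferInstance, nt, ?_, om, ?_, ?_, ?_, ?_, ?_, ?_⟩⟩
  · intro m n h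
    rw [← tp_lt, hnt, hnt]
    exact_mod_cast h
  · intro k
    rw [← tp_lt, hom, hom]
    refine Cardinal.ord_lt_ord.2 (Cardinal.aleph_lt_aleph.2 ?_)
    exact_mod_cast Nat.lt_succ_self k
  · intro n
    rw [← tp_lt, hom, hnt, Cardinal.lt_ord, Ordinal.card_nat]
    exact (Cardinal.natCast_lt_aleph0).trans_le (Cardinal.aleph0_le_aleph _)
  · intro ν h
    rw [← tp_lt, hom, Nat.cast_zero, Cardinal.aleph_zero, Cardinal.ord_aleph0] at h
    obtain ⟨n, hn⟩ := Ordinal.lt_omega0.1 h
    exact ⟨n, tp_inj (hn.trans (hnt n).symm)⟩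
  · intro ν
    have h1 : tp ν < (Cardinal.aleph Ordinal.omega0.{0}).ord := by
      have := Ordinal.typein_lt_type (α := Wω) (· < ·) ν
      rw [Ordinal.type_toType] at this
      exact this
    rw [Cardinal.lt_ord] at h1
    obtain ⟨n, hn⟩ := le_aleph_nat _ h1
    refine ⟨n + 1, ?_⟩
    rw [← tp_lt, hom, Cardinal.lt_ord]
    refine hn.trans_lt (Cardinal.aleph_lt_aleph.2 ?_)
    exact_mod_cast Nat.lt_succ_self n
  · intro k
    rw [mk_Iio, hom, Cardinal.card_ord]
  · intro k
    have h1 : #Wω = Cardinal.aleph Ordinal.omega0.{0} := by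
      rw [Cardinal.mk_toType, Cardinal.card_ord]
    rw [h1]
    exact aleph_nat_lt k

/-- the algebra of one Cohen real: the regular open algebra of the countable set of finite
sequences of digits -/
abbrev BOne : Type := M3.RO Cd

theorem bccc_BOne : M3.BCCC BOne := M3.RO.bccc ccc_Cd

instance : Nontrivial BOne := by
  refine ⟨⟨⊤, ⊥, fun h => ?_⟩⟩
  exact M3.RO.not_forces_bot (⟨[]⟩ : Cd) (h ▸ M3.RO.forces_top _)

/-- ONE COHEN REAL: the combinatorial core holds for the algebra of one Cohen real. -/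
theorem core_one : Core BOne Wω := by
  obtain ⟨D⟩ := exists_WD
  exact core_RO D

/-- the form needed for the translation part -/
theorem core_exists : ∃ (B : Type) (_ : CompleteBooleanAlgebra B) (_ : Nontrivial B),
    M3.BCCC B ∧ Core B Wω :=
  ⟨BOne, inferInstance, inferInstance, bccc_BOne, core_one⟩

end Pool.Agent.H.MP_353193_lc.BV.One
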