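import Pool.Agent.H.MP_8ff4bd_gt.M3.RO
import Pool.Agent.H.MP_353193_lc.BV.Iface

/-!
# One Cohen real: definitions (MP_353193_lc, combinatorial part)

Conditions are finite sequences of digits (newest digit first), `q ≤ p` if and only if `q` extends `p`.
Names of 0-1 sequences are functions `W → RO Cd`.
-/

set_option autoImplicit false

namespace Pool.Agent.H.MP_353193_lc.BV.One

open M3 M3.RO

/-- One digit of the Cohen real: a finite set of strings and two natural numbers. -/
abbrev Dg : Type := Finset (List Bool) × ℕ × ℕ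

/-- Conditions: finite sequences of digits, newest digit first. -/
structure Cd : Type where
  /-- the list of digits -/
  l : List Dg

instance : Preorder Cd where
  le q p := p.l <:+ q.l
  le_refl p := List.suffix_refl _
  le_trans _ _ _ h1 h2 := h2.trans h1

instance : Nonempty Cd := ⟨⟨[]⟩⟩

/-- append one digit -/
def Cd.cons (d : Dg) (q : Cd) : Cd := ⟨d :: q.l⟩

/-- what is used of the index set `W` (a well-order of type `ω_ω`) -/
structure WD (W : Type) [LinearOrder W] where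
  wf : WellFoundedLT W
  nat : ℕ → W
  nat_lt : ∀ m n, m < n → nat m < nat n
  om : ℕ → W
  om_lt : ∀ k, om k < om (k + 1)
  nat_om : ∀ n, nat n < om 0
  om_nat : ∀ ν, ν < om 0 → ∃ n, ν = nat n
  cof : ∀ ν, ∃ k, ν < om k
  small : ∀ k : ℕ, Cardinal.mk (Set.Iio (om k)) ≤ Cardinal.aleph k
  big : ∀ k : ℕ, Cardinal.aleph k < Cardinal.mk W

variable {W : Type} [LinearOrder W]

/-- `p` forces that `a` and `b` are equivalent -/
def Eqf (p : Cd) (a b : RO Cd) : Prop := ∀ q, q ≤ p → (Forces q a ↔ Forces q b)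

/-- `p` forces that `δ` is the first difference of `x` and `y` and that `x < y` -/
def Dif (p : Cd) (x y : W → RO Cd) (δ : W) : Prop :=
  (∀ μ, μ < δ → Eqf p (x μ) (y μ)) ∧ Forces p (x δ)ᶜ ∧ Forces p (y δ)

/-- `p` forces `x < y` -/
def Ltf (p : Cd) (x y : W → RO Cd) : Prop := ∀ q, q ≤ p → ∃ r, r ≤ q ∧ ∃ δ, Dif r x y δ

/-- `τ` is the canonical name of `x`: the first name equal to `x` -/
noncomputable def can (x τ : W → RO Cd) : RO Cd :=
  eqv x τ ⊓ ⨅ σ : {σ : W → RO Cd // WellOrderingRel σ τ}, (eqv x σ.1)ᶜ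

/-- `q` decides `a` -/
def Dec (q : Cd) (a : RO Cd) : Prop := Forces q a ∨ Forces q aᶜ

/-- `q` is the first initial segment that decides `a` -/
def FD (q : Cd) (a : RO Cd) : Prop := Dec q a ∧ ∀ d l, q.l = d :: l → ¬ Dec ⟨l⟩ a

/-- value of: the target of `a` is the level `k` -/
def tgt (a : RO Cd) (k : ℕ) : RO Cd :=
  hull {q | ∃ d q', q = Cd.cons d q' ∧ FD q' a ∧
    ((Forces q' a ∧ d.2.2 = k) ∨ (Forces q' aᶜ ∧ d.2.1 = k))}

variable (D : WD W)

/-- value of: `x` is a subset of `ω_k` -/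
def lb (x : W → RO Cd) (k : ℕ) : RO Cd := ⨅ ν : {ν : W // D.om k ≤ ν}, (x ν)ᶜ

/-- value of: the level of `x` is `k` -/
def lv (x : W → RO Cd) (k : ℕ) : RO Cd := lb D x k ⊓ ⨅ j : {j : ℕ // j < k}, (lb D x j)ᶜ

/-- `p` forces that `x` is joined to the larger point `y` (with all witnesses) -/
def Edge (p : Cd) (x y : W → RO Cd) : Prop :=
  ∃ (τ σ : W → RO Cd) (δ : W) (k l : ℕ), Forces p (can x τ) ∧ Forces p (can y σ) ∧ Dif p τ σ δ ∧
    Forces p (tgt (τ δ) l) ∧ Forces p (tgt (σ δ) k) ∧ Forces p (lv D x k) ∧ Forces p (lv D y l) ∧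
    k ≠ l

/-- value of: `x` is joined to the larger point `y` -/
def g0 (x y : W → RO Cd) : RO Cd := hull {p | Edge D p x y}

/-- the graph -/
def gr (x y : W → RO Cd) : RO Cd := g0 D x y ⊔ g0 D y x

end Pool.Agent.H.MP_353193_lc.BV.One
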