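import Pool.Agent.H.MP_8ff4bd_gt.M3.S.Plain

/-!
# The partition statement inside an arbitrary epsilon-structure

`(M, E)` is an arbitrary structure, `E x y` means that `x` is an element of `y`.  A nonzero 0-1
sequence of length `ω_ω` with support bounded below `ω_ω` is given by its support, a nonempty subset
of some element of `ω_ω`.
-/

set_option autoImplicit false

namespace Pool.Agent.H.MP_353193_lc.BV.PlainE

open Pool.Agent.H.MP_8ff4bd_gt.M3.Plain

universe u

variable {M : Type u} (E : M → M → Prop)

/-- `|x| ≤ |y|`: there is a relation which is total from `x` to `y` and injective -/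
def LeCard (x y : M) : Prop :=
  ∃ r, (∀ t, E t x → ∃ n, E n y ∧ InRel E r t n) ∧
    ∀ t t' n, E t x → E t' x → E n y → InRel E r t n → InRel E r t' n → t = t'

/-- `c` is a cardinal: an ordinal which is not equinumerous to any of its elements -/
def IsCard (c : M) : Prop := IsOrd E c ∧ ∀ y, E y c → ¬ LeCard E c y

/-- `ω ∈ x`, and every element of `x` is an element of some cardinal in `x` -/
def IsLimC (x : M) : Prop :=
  (∃ o, IsOmega E o ∧ E o x) ∧ ∀ b, E b x → ∃ c, E c x ∧ IsCard E c ∧ E b c

/-- `w = ω_ω`: the least ordinal which is an uncountable limit of cardinals -/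
def IsOmegaOmega (w : M) : Prop := IsOrd E w ∧ IsLimC E w ∧ ∀ a, E a w → ¬ IsLimC E a

/-- `x ∈ R(w)`: `x` is nonempty and a subset of some element of `w` -/
def InR (w x : M) : Prop := (∃ z, E z x) ∧ ∃ b, E b w ∧ IsSub E x b

/-- `x < y` in the lexicographic order: some `n` belongs to `y` and not to `x`, and `x` and `y` have
the same elements in `n` -/
def LexLt (x y : M) : Prop := ∃ n, (∀ m, E m n → (E m x ↔ E m y)) ∧ ¬ E n x ∧ E n y

/-- the relation `g` is a graph on `R(w)` without triangles (and without loops) -/
def TriangleFree (w g : M) : Prop :=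
  (∀ x y, InR E w x → InR E w y → InRel E g x y → InRel E g y x) ∧
    ∀ x y z, InR E w x → InR E w y → InR E w z →
      ¬ (InRel E g x y ∧ InRel E g y z ∧ InRel E g x z)

/-- `h` is a function from `R(w)` to `R(w)` which is strictly increasing and whose image is an
independent set of the graph `g` -/
def IndependentCopy (w g h : M) : Prop :=
  (∀ x, InR E w x → ∃ y, InR E w y ∧ InRel E h x y) ∧
  (∀ x y y', InR E w x → InR E w y → InR E w y' → InRel E h x y → InRel E h x y' → y = y') ∧
  (∀ x x' y y', InR E w x → InR E w x' → InR E w y → InR E w y' → InRel E h x y →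
    InRel E h x' y' → LexLt E x x' → LexLt E y y') ∧
  (∀ x x' y y', InR E w x → InR E w x' → InR E w y → InR E w y' → InRel E h x y →
    InRel E h x' y' → ¬ InRel E g y y')

/-- `η_ω → (3, η_ω)²` in `(M, E)`: for `w = ω_ω`, every graph without triangles on the set `R(w)` has
an independent set which is the image of `R(w)` under a strictly increasing function. -/
def EtaArrow : Prop :=
  ∀ w, IsOmegaOmega E w → ∀ g, TriangleFree E w g → ∃ h, IndependentCopy E w g h

end Pool.Agent.H.MP_353193_lc.BV.PlainE
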