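import Pool.Agent.H.MP_353193_lc.BV.C3

/-!
# The rank: simple facts
-/

set_option autoImplicit false

open Cardinal

namespace Pool.Agent.H.MP_353193_lc.BV

variable {B : Type} [CompleteBooleanAlgebra B] {Θ : Type} (K : Coh B Θ) {W : Type} [LinearOrder W]
  {D : Set W} (c : Task B D → Θ)

omit [LinearOrder W] in
theorem R0_eqv_comm (x y : W → B) : eqv x y = eqv y x := by
  unfold eqv
  exact iInf_congr fun ν => bihimp_comm _ _

theorem R0_compl_ext (t : Task B D) (x y : W → B) :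
    eqv x y ⊓ (Wv K c t x)ᶜ ≤ (Wv K c t y)ᶜ := by
  rw [le_compl_iff_disjoint_right, disjoint_iff_inf_le]
  have h := Wv_ext K c t y x
  rw [R0_eqv_comm y x] at h
  calc eqv x y ⊓ (Wv K c t x)ᶜ ⊓ Wv K c t y
      = (eqv x y ⊓ Wv K c t y) ⊓ (Wv K c t x)ᶜ := by
        rw [inf_assoc, inf_comm (Wv K c t x)ᶜ, ← inf_assoc]
    _ ≤ Wv K c t x ⊓ (Wv K c t x)ᶜ := inf_le_inf_right _ h
    _ = ⊥ := inf_compl_self _

theorem rk_ext (x y : W → B) (i : D) : eqv x y ⊓ rk K c x i ≤ rk K c y i := by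
  unfold rk
  refine le_inf ?_ ?_
  · refine le_iInf fun t => ?_
    refine le_trans ?_ (R0_compl_ext K c t.1 x y)
    exact inf_le_inf_left _ (inf_le_left.trans (iInf_le _ t))
  · refine le_iInf fun j => ?_
    have h1 : eqv x y ⊓ ((⨅ t : {t : Task B D // i < t.β}, (Wv K c t.1 x)ᶜ) ⊓
        ⨅ j : {j : D // j < i}, ⨆ t : {t : Task B D // j.1 < t.β}, Wv K c t.1 x) ≤
        eqv x y ⊓ ⨆ t : {t : Task B D // j.1 < t.β}, Wv K c t.1 x :=
      inf_le_inf_left _ (inf_le_right.trans (iInf_le _ j))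
    refine h1.trans ?_
    rw [inf_iSup_eq]
    exact iSup_mono fun t => Wv_ext K c t.1 x y

theorem R0_disj_lt (x : W → B) {i j : D} (h : i < j) : rk K c x i ⊓ rk K c x j = ⊥ := by
  have h1 : rk K c x i ≤ ⨅ t : {t : Task B D // i < t.β}, (Wv K c t.1 x)ᶜ := inf_le_left
  have h2 : rk K c x j ≤ ⨆ t : {t : Task B D // i < t.β}, Wv K c t.1 x :=
    inf_le_right.trans (iInf_le
      (fun j' : {j' : D // j' < j} => ⨆ t : {t : Task B D // j'.1 < t.β}, Wv K c t.1 x) ⟨i, h⟩)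
  rw [← compl_iSup] at h1
  rw [← le_bot_iff]
  exact (inf_le_inf h1 h2).trans (compl_inf_self _).le

theorem rk_disj (x : W → B) {i j : D} (h : i ≠ j) : rk K c x i ⊓ rk K c x j = ⊥ := by
  rcases lt_or_gt_of_ne h with h | h
  · exact R0_disj_lt K c x h
  · rw [inf_comm]
    exact R0_disj_lt K c x h

/-- The rank is at least the label of every cone containing the point. -/
theorem rk_label (x : W → B) (i : D) (t : Task B D) (h : i < t.β) : rk K c x i ⊓ Wv K c t x = ⊥ := by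
  have h1 : rk K c x i ≤ (Wv K c t x)ᶜ :=
    inf_le_left.trans (iInf_le (fun t : {t : Task B D // i < t.β} => (Wv K c t.1 x)ᶜ) ⟨t, h⟩)
  rw [← le_bot_iff]
  exact (inf_le_inf_right _ h1).trans (compl_inf_self _).le

/-- The rank is at most any bound of the labels. -/
theorem rk_le_bound (x : W → B) (b : D) (hb : ∀ t : Task B D, Wv K c t x ≠ ⊥ → t.β ≤ b) (j : D) (hj : rk K c x j ≠ ⊥) :
    j ≤ b := by
  by_contra hc
  have h : b < j := lt_of_not_ge hc
  apply hj
  have h2 : rk K c x j ≤ ⨆ t : {t : Task B D // b < t.β}, Wv K c t.1 x :=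
    inf_le_right.trans (iInf_le
      (fun j' : {j' : D // j' < j} => ⨆ t : {t : Task B D // j'.1 < t.β}, Wv K c t.1 x) ⟨b, h⟩)
  rw [← le_bot_iff]
  refine h2.trans (iSup_le fun t => ?_)
  by_contra h3
  have h4 : Wv K c t.1 x ≠ ⊥ := fun h5 => h3 h5.le
  exact absurd (hb t.1 h4) (not_le_of_gt t.2)

end Pool.Agent.H.MP_353193_lc.BV
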