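import Pool.Agent.H.MP_353193_lc.BV.S1
import Pool.Agent.H.MP_353193_lc.BV.R0

/-!
# The rank exists
-/

set_option autoImplicit false

open Cardinal

namespace Pool.Agent.H.MP_353193_lc.BV

variable {B : Type} [CompleteBooleanAlgebra B] {Θ : Type} (K : Coh B Θ) {W : Type} [LinearOrder W]
  {D : Set W} (c : Task B D → Θ)

/-- A bound for the labels of the cones of at most `lam` bounded points (`mk_Wv_le`, `hD.reg`). -/
theorem exists_label_bound [WellFoundedLT W] [LinearOrder (Task B D)] (hB : M3.BCCC B) {lam : Cardinal.{0}}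
    (hD : Seg W D lam) (hc : Fresh K c) (Z : Set (W → B)) (hZ : Cardinal.mk Z ≤ lam) (hb : ∀ z ∈ Z, Bd D z) :
    ∃ b : D, ∀ z ∈ Z, ∀ t : Task B D, Wv K c t z ≠ ⊥ → t.β ≤ b := by
  set A : Set W := ⋃ z : Z, (fun t : Task B D => (t.β : W)) '' {t : Task B D | Wv K c t z.1 ≠ ⊥} with hA
  have hAD : A ⊆ D := by
    intro a ha
    rw [hA, Set.mem_iUnion] at ha
    obtain ⟨z, t, _, rfl⟩ := ha
    exact t.β.2
  have hAc : Cardinal.mk A ≤ lam := by
    have h1 : Cardinal.mk A ≤ Cardinal.sum fun z : Z =>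
        Cardinal.mk ((fun t : Task B D => (t.β : W)) '' {t : Task B D | Wv K c t z.1 ≠ ⊥} : Set W) :=
      Cardinal.mk_iUnion_le_sum_mk
    have h2 : (Cardinal.sum fun z : Z =>
        Cardinal.mk ((fun t : Task B D => (t.β : W)) '' {t : Task B D | Wv K c t z.1 ≠ ⊥} : Set W)) ≤
        Cardinal.sum fun _ : Z => lam :=
      Cardinal.sum_le_sum _ _ fun z => Cardinal.mk_image_le.trans (mk_Wv_le K c hB hD hc (hb z.1 z.2))
    have h3 : (Cardinal.sum fun _ : Z => lam) = Cardinal.mk Z * lam := by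
      rw [Cardinal.sum_const', ]
    have h4 : Cardinal.mk Z * lam ≤ lam * lam := mul_le_mul' hZ le_rfl
    rw [Cardinal.mul_eq_self hD.inf] at h4
    exact ((h1.trans h2).trans_eq h3).trans h4
  obtain ⟨b, hb1, hb2⟩ := hD.reg A hAD hAc
  refine ⟨⟨b, hb1⟩, fun z hz t ht => ?_⟩
  have : (t.β : W) ∈ A := by
    rw [hA, Set.mem_iUnion]
    exact ⟨⟨z, hz⟩, t, ht, rfl⟩
  exact (hb2 _ this).le

/-- The rank exists. [`exists_label_bound` gives a bound `b` of the labels; then the least element principle for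
`P i = ⨅ t with i < t.β, (Wv t x)ᶜ`, `P b = ⊤`.] -/
theorem rk_total [WellFoundedLT W] [LinearOrder (Task B D)] (hB : M3.BCCC B) {lam : Cardinal.{0}} (hD : Seg W D lam)
    (hc : Fresh K c) {x : W → B} (hx : Bd D x) : ⨆ i : D, rk K c x i = ⊤ := by
  obtain ⟨b, hb⟩ := exists_label_bound K c hB hD hc {x}
    (by rw [Cardinal.mk_singleton]; exact Cardinal.one_le_aleph0.trans hD.inf)
    (by intro z hz; rw [Set.mem_singleton_iff] at hz; rw [hz]; exact hx)
  have hbb : ∀ t : Task B D, b < t.β → Wv K c t x = ⊥ := by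
    intro t ht
    by_contra h
    exact absurd (hb x rfl t h) (not_le.2 ht)
  set u : B := (⨆ i : D, rk K c x i)ᶜ with hu
  have key : ∀ i : D, u ⊓ ⨅ t : {t : Task B D // i < t.β}, (Wv K c t.1 x)ᶜ = ⊥ := by
    intro i
    refine WellFounded.induction (r := fun a b : D => a < b) (wellFounded_lt (α := D))
      (C := fun i : D => u ⊓ ⨅ t : {t : Task B D // i < t.β}, (Wv K c t.1 x)ᶜ = ⊥) i ?_
    intro i ih
    have h1 : u ⊓ ⨅ t : {t : Task B D // i < t.β}, (Wv K c t.1 x)ᶜ ≤ rk K c x i := by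
      rw [rk]
      refine le_inf inf_le_right (le_iInf fun j => inf_le_left.trans ?_)
      have h2 := ih j.1 j.2
      rw [← disjoint_iff] at h2
      refine h2.le_compl_right.trans ?_
      rw [compl_iInf]
      exact iSup_mono fun t => by rw [compl_compl]
    have h3 : u ⊓ ⨅ t : {t : Task B D // i < t.β}, (Wv K c t.1 x)ᶜ ≤ ⨆ i : D, rk K c x i :=
      h1.trans (le_iSup (fun i : D => rk K c x i) i)
    have h4 : u ⊓ ⨅ t : {t : Task B D // i < t.β}, (Wv K c t.1 x)ᶜ ≤ (⨆ i : D, rk K c x i)ᶜ := inf_le_left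
    have h5 := le_inf h3 h4
    rw [inf_compl_self] at h5
    exact le_bot_iff.1 h5
  have hbt : (⨅ t : {t : Task B D // b < t.β}, (Wv K c t.1 x)ᶜ) = ⊤ := by
    rw [iInf_eq_top]
    intro t
    rw [hbb t.1 t.2, compl_bot]
  have h6 := key b
  rw [hbt, inf_top_eq, hu, compl_eq_bot] at h6
  exact h6

end Pool.Agent.H.MP_353193_lc.BV
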