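import Pool.Agent.H.MP_353193_lc.BV.C3

/-!
# Few cones contain a given bounded point
-/

set_option autoImplicit false

open Cardinal

namespace Pool.Agent.H.MP_353193_lc.BV

variable {B : Type} [CompleteBooleanAlgebra B] {Θ : Type} (K : Coh B Θ) {W : Type} [LinearOrder W] [WellFoundedLT W]
  {D : Set W} (c : Task B D → Θ) [LinearOrder (Task B D)]

theorem S1_aux (hc : Fresh K c) {t t' : Task B D} (h : t' < t) (x : W → B) (ε : W) :
    Wv K c t x ⊓ lenv K (c t) t.p t.q ε ⊓ (Wv K c t' x ⊓ lenv K (c t') t'.p t'.q ε) = ⊥ := by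
  rw [inf_inf_inf_comm, eq_bot_iff]
  refine (inf_le_inf_right _ (Wv_longer K c hc h x)).trans ?_
  rw [iSup_inf_eq]
  refine iSup_le fun ν => ?_
  rcases lt_or_ge ν ε with hν | hν
  · have h1 : lenv K (c t') t'.p t'.q ε ≤ Lg K (c t') t'.p t'.q ν :=
      inf_le_right.trans (iInf_le (fun μ : {μ : W // μ < ε} => Lg K (c t') t'.p t'.q μ) ⟨ν, hν⟩)
    calc Lg K (c t) t.p t.q ν ⊓ (Lg K (c t') t'.p t'.q ν)ᶜ ⊓
          (lenv K (c t) t.p t.q ε ⊓ lenv K (c t') t'.p t'.q ε)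
        ≤ (Lg K (c t') t'.p t'.q ν)ᶜ ⊓ Lg K (c t') t'.p t'.q ν :=
          inf_le_inf inf_le_right (inf_le_right.trans h1)
      _ = ⊥ := compl_inf_eq_bot
  · have h1 : lenv K (c t) t.p t.q ε ≤ (Lg K (c t) t.p t.q ε)ᶜ := inf_le_left
    calc Lg K (c t) t.p t.q ν ⊓ (Lg K (c t') t'.p t'.q ν)ᶜ ⊓
          (lenv K (c t) t.p t.q ε ⊓ lenv K (c t') t'.p t'.q ε)
        ≤ Lg K (c t) t.p t.q ε ⊓ (Lg K (c t) t.p t.q ε)ᶜ :=
          inf_le_inf (inf_le_left.trans (Lg_anti K (c t) t.p t.q hν)) (inf_le_left.trans h1)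
      _ = ⊥ := inf_compl_eq_bot

/-- Two different tasks whose cones contain `x` have branch nodes of different lengths. [`Wv_longer`: `Lg .. ν` and
`(Lg' .. ν)ᶜ`; length `ε` of both: `ν < ε` and `ε ≤ ν`.] -/
theorem Wv_len_bot (hc : Fresh K c) {t t' : Task B D} (h : t ≠ t') (x : W → B) (ε : W) :
    Wv K c t x ⊓ lenv K (c t) t.p t.q ε ⊓ (Wv K c t' x ⊓ lenv K (c t') t'.p t'.q ε) = ⊥ := by
  rcases lt_or_gt_of_ne h with h1 | h1
  · rw [inf_comm]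
    exact S1_aux K c hc h1 x ε
  · exact S1_aux K c hc h1 x ε

/-- If `x` vanishes from `δ` on, a cone containing `x` has a branch node of length `< δ` (`pr`, `compl_Lg_le`). -/
theorem Wv_le_len (t : Task B D) (x : W → B) (δ : W) (hx : ∀ ν, δ ≤ ν → x ν = ⊥) :
    Wv K c t x ≤ ⨆ ε : {ε : W // ε < δ}, lenv K (c t) t.p t.q ε := by
  have h0 : Wv K c t x ≤ pr K (c t) t.p t.q x := inf_le_right
  refine h0.trans (iSup_le fun ν => ?_)
  rcases lt_or_ge ν δ with hν | hν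
  · refine inf_le_left.trans ((compl_Lg_le K (c t) t.p t.q ν).trans (iSup_le fun ε => ?_))
    exact le_iSup (fun ε : {ε : W // ε < δ} => lenv K (c t) t.p t.q ε) ⟨ε.1, ε.2.trans_lt hν⟩
  · rw [hx ν hν, inf_bot_eq]
    exact bot_le

/-- [For each `t` in the set choose `ε < δ` with `Wv .. t x ⊓ lenv .. ε ≠ ⊥`; for each `ε` these `t` are countably many
(`BCCC.countable_index`, `Wv_len_bot`); `#(Iio δ) ≤ lam`.] -/
theorem mk_Wv_le (hB : M3.BCCC B) {lam : Cardinal.{0}} (hD : Seg W D lam) (hc : Fresh K c) {x : W → B} (hx : Bd D x) :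
    Cardinal.mk {t : Task B D | Wv K c t x ≠ ⊥} ≤ lam := by
  obtain ⟨δ, hδ, hxδ⟩ := hx
  have hsub : {t : Task B D | Wv K c t x ≠ ⊥} ⊆
      ⋃ ε : Set.Iio δ, {t : Task B D | Wv K c t x ⊓ lenv K (c t) t.p t.q ε ≠ ⊥} := by
    intro t ht
    by_contra hcon
    simp only [Set.mem_iUnion, Set.mem_setOf_eq, not_exists, not_not] at hcon
    apply ht
    have h1 := Wv_le_len K c t x δ hxδ
    have h2 : Wv K c t x = Wv K c t x ⊓ ⨆ ε : {ε : W // ε < δ}, lenv K (c t) t.p t.q ε :=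
      (inf_eq_left.2 h1).symm
    rw [h2, inf_iSup_eq, eq_bot_iff]
    exact iSup_le fun ε => (hcon ⟨ε.1, ε.2⟩).le
  have hctb : ∀ ε : Set.Iio δ,
      Cardinal.mk {t : Task B D | Wv K c t x ⊓ lenv K (c t) t.p t.q ε ≠ ⊥} ≤ ℵ₀ := by
    intro ε
    rw [Cardinal.mk_le_aleph0_iff, Set.countable_coe_iff]
    exact hB.countable_index (fun t : Task B D => Wv K c t x ⊓ lenv K (c t) t.p t.q ε)
      (fun t t' h => Wv_len_bot K c hc h x ε)
  calc Cardinal.mk {t : Task B D | Wv K c t x ≠ ⊥}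
      ≤ Cardinal.mk (⋃ ε : Set.Iio δ, {t : Task B D | Wv K c t x ⊓ lenv K (c t) t.p t.q ε ≠ ⊥}) :=
        Cardinal.mk_le_mk_of_subset hsub
    _ ≤ Cardinal.sum fun ε : Set.Iio δ =>
          Cardinal.mk {t : Task B D | Wv K c t x ⊓ lenv K (c t) t.p t.q ε ≠ ⊥} :=
        Cardinal.mk_iUnion_le_sum_mk
    _ ≤ Cardinal.sum fun _ : Set.Iio δ => ℵ₀ := Cardinal.sum_le_sum _ _ hctb
    _ = Cardinal.mk (Set.Iio δ) * ℵ₀ := Cardinal.sum_const' _ _
    _ ≤ lam * lam := mul_le_mul' (hD.iio δ hδ) hD.inf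
    _ = lam := Cardinal.mul_eq_self hD.inf

end Pool.Agent.H.MP_353193_lc.BV
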