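import Pool.Agent.H.MP_353193_lc.BV.Iface

/-!
# The second-order form of the partition statement over a complete Boolean algebra

`W → B` is the set of names of 0-1 sequences of length `W`. Over the two-element algebra `Prop` this is the partition statement,
over an algebra with the countable chain condition (and `W = Wω`) it is the value of the first-order sentence in the Boolean-valued
universe.
-/

set_option autoImplicit false

namespace Pool.Agent.H.MP_353193_lc.BV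

section sv

variable {B : Type} [CompleteBooleanAlgebra B] {W : Type} [LinearOrder W]

/-- `G` is compatible with the equality of names -/
def ExtG (G : (W → B) → (W → B) → B) : Prop :=
  (∀ x x' y, eqv x x' ⊓ G x y ≤ G x' y) ∧ ∀ x y y', eqv y y' ⊓ G x y ≤ G x y'

/-- value of: `G` is symmetric on `R` -/
def symv (G : (W → B) → (W → B) → B) : B := ⨅ x, ⨅ y, (Rv x ⊓ Rv y ⊓ G x y ⇨ G y x)

/-- value of: `G` has no triangle in `R` -/
def triv (G : (W → B) → (W → B) → B) : B :=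
  ⨅ x, ⨅ y, ⨅ z, (Rv x ⊓ Rv y ⊓ Rv z ⊓ G x y ⊓ G y z ⊓ G x z)ᶜ

/-- value of: `F` is a strictly increasing function from `R` to `R` with independent image -/
def embv (G F : (W → B) → (W → B) → B) : B :=
  (⨅ x, (Rv x ⇨ ⨆ y, Rv y ⊓ F x y)) ⊓
  (⨅ x, ⨅ y, ⨅ y', (Rv x ⊓ Rv y ⊓ Rv y' ⊓ F x y ⊓ F x y' ⇨ eqv y y')) ⊓
  (⨅ x, ⨅ x', ⨅ y, ⨅ y', (Rv x ⊓ Rv x' ⊓ Rv y ⊓ Rv y' ⊓ F x y ⊓ F x' y' ⊓ ltv x x' ⇨ ltv y y')) ⊓
  (⨅ x, ⨅ x', ⨅ y, ⨅ y', (Rv x ⊓ Rv x' ⊓ Rv y ⊓ Rv y' ⊓ F x y ⊓ F x' y' ⊓ G y y')ᶜ)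

variable (B W) in
/-- The second-order form of the partition statement. -/
def sv : B :=
  ⨅ G : {G : (W → B) → (W → B) → B // ExtG G}, (symv G.1 ⊓ triv G.1 ⇨
    ⨆ F : {F : (W → B) → (W → B) → B // ExtG F}, embv G.1 F.1)

end sv

end Pool.Agent.H.MP_353193_lc.BV
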