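import Mathlib

/-!
# Fresh coordinates
-/

set_option autoImplicit false

open Cardinal

namespace Pool.Agent.H.MP_353193_lc.BV

/-- Well-order `T` in its initial type, so that every `{t' | t' ≤ t}` has size `< #Θ` (if `T` is infinite: size `< #T ≤ #Θ`; if finite:
`< ℵ₀ ≤ μ`). By recursion choose `c t` outside the union of the `S t'`, `t' ≤ t`, and different from the `c t'`, `t' < t`; the
forbidden set has size `≤ #{t' ≤ t} * μ < #Θ`. -/
theorem exists_fresh {T Θ : Type} (S : T → Set Θ) (μ : Cardinal.{0}) (hμ : ℵ₀ ≤ μ) (hS : ∀ t, Cardinal.mk (S t) ≤ μ)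
    (h1 : μ < Cardinal.mk Θ) (h2 : Cardinal.mk T ≤ Cardinal.mk Θ) :
    ∃ (_ : LinearOrder T) (_ : WellFoundedLT T) (c : T → Θ), ∀ t' t : T, t' ≤ t → c t ∉ S t' ∧ (t' ≠ t → c t ≠ c t') := by
  classical
  have hΘ : ℵ₀ ≤ Cardinal.mk Θ := hμ.trans h1.le
  obtain ⟨e⟩ : Nonempty (T ≃ (Cardinal.mk T).ord.ToType) := Cardinal.eq.1 (by simp)
  let lo : LinearOrder T := LinearOrder.lift' e e.injective
  have hlt : ∀ a b : T, a < b ↔ e a < e b := fun a b => Iff.rfl
  have wf : WellFoundedLT T := ⟨InvImage.wf e wellFounded_lt⟩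
  have hIio : ∀ t : T, Cardinal.mk (Set.Iio t) < Cardinal.mk T := by
    intro t
    have h := Cardinal.mk_Iio_toType_ord_lt (e t)
    refine lt_of_le_of_lt ?_ h
    refine Cardinal.mk_le_of_injective (f := fun x : Set.Iio t => (⟨e x.1, (hlt _ _).1 x.2⟩ : Set.Iio (e t))) ?_
    intro x y hxy
    have h2 := congrArg Subtype.val hxy
    exact Subtype.ext (e.injective h2)
  have key : ∀ (t : T) (f : ∀ t' : T, t' < t → Θ), ∃ θ : Θ, (∀ t', t' ≤ t → θ ∉ S t') ∧ ∀ t' (h : t' < t), θ ≠ f t' h := by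
    intro t f
    have hIic : Cardinal.mk (Set.Iic t) < Cardinal.mk Θ := by
      have h3 : Set.Iic t = Set.Iio t ∪ {t} := by
        ext x
        simp [le_iff_lt_or_eq]
      rw [h3]
      refine lt_of_le_of_lt (Cardinal.mk_union_le _ _) ?_
      refine Cardinal.add_lt_of_lt hΘ ((hIio t).trans_le h2) ?_
      rw [Cardinal.mk_singleton]
      exact Cardinal.one_lt_aleph0.trans_le hΘ
    have hA : Cardinal.mk (⋃ x : Set.Iic t, S x.1 : Set Θ) < Cardinal.mk Θ := by
      refine lt_of_le_of_lt (Cardinal.mk_iUnion_le _) ?_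
      refine Cardinal.mul_lt_of_lt hΘ hIic ?_
      refine lt_of_le_of_lt (ciSup_le' ?_) h1
      intro x
      exact hS x.1
    have hB : Cardinal.mk (Set.range (fun x : Set.Iio t => f x.1 x.2)) < Cardinal.mk Θ :=
      lt_of_le_of_lt Cardinal.mk_range_le ((hIio t).trans_le h2)
    have hAB : Cardinal.mk ((⋃ x : Set.Iic t, S x.1) ∪ Set.range (fun x : Set.Iio t => f x.1 x.2) : Set Θ)
        < Cardinal.mk Θ :=
      lt_of_le_of_lt (Cardinal.mk_union_le _ _) (Cardinal.add_lt_of_lt hΘ hA hB)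
    obtain ⟨θ, hθ⟩ : ∃ θ : Θ, θ ∉ ((⋃ x : Set.Iic t, S x.1) ∪ Set.range (fun x : Set.Iio t => f x.1 x.2) : Set Θ) := by
      by_contra hcon
      push Not at hcon
      have h5 : ((⋃ x : Set.Iic t, S x.1) ∪ Set.range (fun x : Set.Iio t => f x.1 x.2) : Set Θ) = Set.univ :=
        Set.eq_univ_of_forall hcon
      rw [h5, Cardinal.mk_univ] at hAB
      exact lt_irrefl _ hAB
    refine ⟨θ, ?_, ?_⟩
    · intro t' ht' hmem
      exact hθ (Or.inl (Set.mem_iUnion.2 ⟨⟨t', ht'⟩, hmem⟩))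
    · intro t' ht' heq
      exact hθ (Or.inr ⟨⟨t', ht'⟩, heq.symm⟩)
  choose g hg1 hg2 using key
  let c : T → Θ := fun t => wf.wf.fix g t
  have hc : ∀ t, c t = g t (fun t' _ => c t') := fun t => wf.wf.fix_eq g t
  refine ⟨lo, wf, c, ?_⟩
  intro t' t htt
  constructor
  · rw [hc t]
    exact hg1 t _ t' htt
  · intro hne
    have hlt' : t' < t := lt_of_le_of_ne htt hne
    have := hg2 t (fun t' _ => c t') t' hlt'
    rw [← hc t] at this
    exact this

end Pool.Agent.H.MP_353193_lc.BV
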