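import Pool.Agent.H.MP_353193_lc.BV.Defs
import Pool.Agent.H.MP_353193_lc.BV.T0

/-!
# The enumeration of the tasks
-/

set_option autoImplicit false

open Cardinal

namespace Pool.Agent.H.MP_353193_lc.BV

variable {B : Type} [CompleteBooleanAlgebra B] {W : Type} [LinearOrder W]

omit [CompleteBooleanAlgebra B] [LinearOrder W] in
theorem T1_pi_le [Infinite W] (hB : Cardinal.mk B ≤ Cardinal.mk (Set W)) (ι : Type)
    (hι : Cardinal.mk ι ≤ Cardinal.mk W) :
    Cardinal.mk (ι → W → B) ≤ Cardinal.mk (Set W) := by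
  have hW := Cardinal.aleph0_le_mk W
  have h2 : (2 : Cardinal.{0}) ≠ 0 := two_ne_zero
  have e1 : Cardinal.mk (ι → W → B) = (Cardinal.mk B ^ Cardinal.mk W) ^ Cardinal.mk ι := by
    rw [← Cardinal.power_def, ← Cardinal.power_def]
  rw [e1]
  rw [Cardinal.mk_set] at hB ⊢
  calc (Cardinal.mk B ^ Cardinal.mk W) ^ Cardinal.mk ι
      ≤ (((2 : Cardinal.{0}) ^ Cardinal.mk W) ^ Cardinal.mk W) ^ Cardinal.mk ι :=
        Cardinal.power_le_power_right (Cardinal.power_le_power_right hB)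
    _ = (2 : Cardinal.{0}) ^ (Cardinal.mk W * Cardinal.mk W * Cardinal.mk ι) := by
        rw [Cardinal.power_mul, Cardinal.power_mul]
    _ ≤ (2 : Cardinal.{0}) ^ (Cardinal.mk W * Cardinal.mk W * Cardinal.mk W) :=
        Cardinal.power_le_power_left h2 (mul_le_mul' le_rfl hι)
    _ = (2 : Cardinal.{0}) ^ Cardinal.mk W := by
        rw [Cardinal.mul_eq_self hW, Cardinal.mul_eq_self hW]

theorem T1_union_le {Θ : Type} {κ : Cardinal.{0}} (hκ : ℵ₀ ≤ κ) {s t : Set Θ}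
    (hs : Cardinal.mk s ≤ κ) (ht : Cardinal.mk t ≤ κ) : Cardinal.mk (s ∪ t : Set Θ) ≤ κ :=
  (Cardinal.mk_union_le s t).trans (Cardinal.add_le_of_le hκ hs ht)

theorem T1_iUnion_le {Θ : Type} {κ : Cardinal.{0}} (K : Coh B Θ) (hκ : ℵ₀ ≤ κ) (ι : Type)
    (hι : Cardinal.mk ι ≤ κ) (b : ι → B) :
    Cardinal.mk (⋃ i, {γ | ¬ K.Inv γ (b i)} : Set Θ) ≤ κ := by
  refine (Cardinal.mk_iUnion_le _).trans ?_
  refine (mul_le_mul' hι (ciSup_le' (a := κ) fun i => ?_)).trans (Cardinal.mul_eq_self hκ).le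
  exact (Cardinal.le_aleph0_iff_set_countable.2 (K.supp (b i))).trans hκ

/-- A task is determined by three functions into `B` and a label: `(2 ^ #W) ^ #W = 2 ^ #W`. -/
theorem mk_Task_le [Infinite W] (hB : Cardinal.mk B ≤ Cardinal.mk (Set W)) (D : Set W) :
    Cardinal.mk (Task B D) ≤ Cardinal.mk (Set W) := by
  have hD : Cardinal.mk D ≤ Cardinal.mk W := Cardinal.mk_set_le D
  have h1 := T1_pi_le (W := W) hB (List Bool) (by simp)
  have h2 := T1_pi_le (W := W) hB D hD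
  have h3 : Cardinal.mk D ≤ Cardinal.mk (Set W) :=
    hD.trans (by rw [Cardinal.mk_set]; exact (Cardinal.cantor _).le)
  have h4 : ℵ₀ ≤ Cardinal.mk (Set W) :=
    (Cardinal.aleph0_le_mk W).trans (by rw [Cardinal.mk_set]; exact (Cardinal.cantor _).le)
  have hinj : Function.Injective (fun t : Task B D => (t.p, t.q, t.y, t.β)) := by
    rintro ⟨p, q, y, β, hq, hy⟩ ⟨p', q', y', β', hq', hy'⟩ h
    simp only [Prod.mk.injEq] at h
    obtain ⟨rfl, rfl, rfl, rfl⟩ := h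
    rfl
  refine (Cardinal.mk_le_of_injective hinj).trans ?_
  rw [Cardinal.mk_prod, Cardinal.mk_prod, Cardinal.mk_prod]
  simp only [Cardinal.lift_id]
  refine (mul_le_mul' h1 ((mul_le_mul' h1 (mul_le_mul' h2 h3)))).trans ?_
  rw [Cardinal.mul_eq_self h4, Cardinal.mul_eq_self h4, Cardinal.mul_eq_self h4]

/-- `exists_fresh` with `S t` = the set of all `γ` such that one of the values of `t.p`, `t.q`, `t.y` is not invariant: a union of
at most `#W` countable sets (`K.supp`). -/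
theorem exists_tasks [Infinite W] (K : Coh B (Set W)) (hB : Cardinal.mk B ≤ Cardinal.mk (Set W)) (D : Set W) :
    ∃ (_ : LinearOrder (Task B D)) (_ : WellFoundedLT (Task B D)) (c : Task B D → Set W), Fresh K c := by
  have hW := Cardinal.aleph0_le_mk W
  have hlt : Cardinal.mk W < Cardinal.mk (Set W) := by
    rw [Cardinal.mk_set]
    exact Cardinal.cantor _
  have hD : Cardinal.mk D ≤ Cardinal.mk W := Cardinal.mk_set_le D
  obtain ⟨o, wf, c, hc⟩ := exists_fresh (T := Task B D) (Θ := Set W)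
    (fun t => (⋃ x : List Bool × W, {γ | ¬ K.Inv γ (t.p x.1 x.2)}) ∪
      ((⋃ x : List Bool × W, {γ | ¬ K.Inv γ (t.q x.1 x.2)}) ∪
        ⋃ x : D × W, {γ | ¬ K.Inv γ (t.y x.1 x.2)})) (Cardinal.mk W) hW (by
      intro t
      refine T1_union_le hW (T1_iUnion_le K hW _ (by simp) _)
        (T1_union_le hW (T1_iUnion_le K hW _ (by simp) _) (T1_iUnion_le K hW _ ?_ _))
      rw [Cardinal.mk_prod, Cardinal.lift_id, Cardinal.lift_id]
      exact (mul_le_mul' hD le_rfl).trans (Cardinal.mul_eq_self hW).le) hlt (mk_Task_le hB D)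
  refine ⟨o, wf, c, fun t' t htt => ?_⟩
  obtain ⟨h1, h2⟩ := hc t' t htt
  refine ⟨fun s ν => ?_, fun s ν => ?_, fun i ν => ?_, h2⟩
  · by_contra h
    exact h1 (Or.inl (Set.mem_iUnion.2 ⟨(s, ν), h⟩))
  · by_contra h
    exact h1 (Or.inr (Or.inl (Set.mem_iUnion.2 ⟨(s, ν), h⟩)))
  · by_contra h
    exact h1 (Or.inr (Or.inr (Set.mem_iUnion.2 ⟨(i, ν), h⟩)))

end Pool.Agent.H.MP_353193_lc.BV
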