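import Pool.Agent.H.MP_353193_lc.BV.Iface

/-!
# The well-order of type `ω_ω`
-/

set_option autoImplicit false

namespace Pool.Agent.H.MP_353193_lc.BV

open Cardinal

theorem wom_mk_lt (a : Wω) : #{b : Wω // b < a} < Cardinal.aleph Ordinal.omega0.{0} := by
  have h1 := Ordinal.typein_lt_self (o := (Cardinal.aleph Ordinal.omega0.{0}).ord) a
  rw [Cardinal.lt_ord] at h1
  exact h1

theorem t6_le_nat (κ : Cardinal.{0}) (h : κ < Cardinal.aleph Ordinal.omega0.{0}) :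
    ∃ n : ℕ, κ ≤ Cardinal.aleph n := by
  rcases lt_or_ge κ ℵ₀ with h0 | h0
  · exact ⟨0, h0.le.trans (Cardinal.aleph0_le_aleph _)⟩
  · obtain ⟨o, rfl⟩ := Cardinal.mem_range_aleph_iff.2 h0
    rw [Cardinal.aleph_lt_aleph] at h
    obtain ⟨n, rfl⟩ := Ordinal.lt_omega0.1 h
    exact ⟨n, le_rfl⟩

/-- Let `β` have index `o < ω_ω`; there is `n` with `o < ω_{n+1}` (`Cardinal.aleph` is continuous at `ω`); `c` = the element with
index `ω_{n+1} = (aleph (n+1)).ord`; `#{b // b < c} = aleph (n+1)`, `#{b // b < d} < aleph (n+1)` for `d < c`. -/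
theorem wom_next (β : Wω) : ∃ c : Wω, β < c ∧
    ∀ d : Wω, d < c → max #{b : Wω // b < d} ℵ₀ < #{b : Wω // b < c} := by
  obtain ⟨n, hn⟩ := t6_le_nat _ (wom_mk_lt β)
  have h1 : Cardinal.aleph (n + 1 : ℕ) < Cardinal.aleph Ordinal.omega0.{0} :=
    Cardinal.aleph_lt_aleph.2 (Ordinal.natCast_lt_omega0 _)
  have h2 : (Cardinal.aleph (n + 1 : ℕ)).ord <
      Ordinal.type (α := Wω) (· < ·) := by
    rw [Ordinal.type_toType]
    exact Cardinal.ord_lt_ord.2 h1
  obtain ⟨c, hc⟩ := Ordinal.typein_surj (α := Wω) (· < ·) h2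
  have hcard : #{b : Wω // b < c} = Cardinal.aleph (n + 1 : ℕ) := by
    rw [← Ordinal.card_typein (r := (· < · : Wω → Wω → Prop)) c, hc, Cardinal.card_ord]
  have hlt : ∀ d : Wω, d < c ↔ #{b : Wω // b < d} < Cardinal.aleph (n + 1 : ℕ) := by
    intro d
    rw [← Ordinal.typein_lt_typein (α := Wω) (· < ·), hc, Cardinal.lt_ord]
    rfl
  have hn1 : Cardinal.aleph (n : Ordinal.{0}) < Cardinal.aleph ((n + 1 : ℕ) : Ordinal.{0}) :=
    Cardinal.aleph_lt_aleph.2 (by exact_mod_cast Nat.lt_succ_self n)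
  refine ⟨c, (hlt β).2 (hn.trans_lt hn1), fun d hd => ?_⟩
  rw [hcard]
  exact max_lt ((hlt d).1 hd) ((Cardinal.aleph0_le_aleph _).trans_lt hn1)

/-- the element with index `ω` -/
theorem wom_omega : ∃ o : Wω, Nonempty ({b : Wω // b < o} ≃o ℕ) := by
  have h2 : Ordinal.omega0.{0} < Ordinal.type (α := Wω) (· < ·) := by
    rw [Ordinal.type_toType, Cardinal.lt_ord, Ordinal.card_omega0]
    exact Cardinal.aleph0_lt_aleph.2 Ordinal.omega0_pos
  obtain ⟨o, ho⟩ := Ordinal.typein_surj (α := Wω) (· < ·) h2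
  refine ⟨o, ?_⟩
  have ho' : Ordinal.type (Subrel (· < · : Wω → Wω → Prop) (· < o)) =
      Ordinal.type (· < · : ℕ → ℕ → Prop) := ho.trans Ordinal.type_nat_lt.symm
  obtain ⟨e⟩ := Ordinal.type_eq.1 ho'
  exact ⟨OrderIso.ofRelIsoLT (α := {b : Wω // b < o}) (β := ℕ) e⟩

/-- The cardinals `#{x // x < c}`, `o ≤ c < a`, are of the form `aleph n` with `n` bounded (`wom_mk_lt`), so there is `b` with
`o ≤ b < a` and `#{x // x < b}` maximal; then `#{x // x < c} = #{x // x < b}` for `b < c < a`. -/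
theorem wom_last (o a : Wω) (ho : Nonempty ({b : Wω // b < o} ≃o ℕ)) (h : o < a) :
    ∃ b : Wω, b < a ∧ ∀ c : Wω, b < c → c < a →
      Nonempty ({x : Wω // x < c} ↪ {x : Wω // x < b}) := by
  classical
  obtain ⟨e⟩ := ho
  obtain ⟨N, hN⟩ := t6_le_nat _ (wom_mk_lt a)
  set P : ℕ → Prop := fun n => ∃ c : Wω, o ≤ c ∧ c < a ∧
    Cardinal.aleph (n : Ordinal.{0}) ≤ #{x : Wω // x < c} with hP
  have hmono : ∀ c d : Wω, c ≤ d → #{x : Wω // x < c} ≤ #{x : Wω // x < d} := fun c d hcd =>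
    Cardinal.mk_le_of_injective (f := fun x : {x : Wω // x < c} => (⟨x.1, x.2.trans_le hcd⟩ :
      {x : Wω // x < d})) (fun x y hxy => Subtype.ext (Subtype.mk.inj hxy))
  have hP0 : P 0 := by
    refine ⟨o, le_rfl, h, ?_⟩
    rw [Cardinal.mk_congr e.toEquiv, Cardinal.mk_nat, Nat.cast_zero, Cardinal.aleph_zero]
  have hPN : ∀ n, P n → n ≤ N := by
    rintro n ⟨c, -, hca, hc⟩
    have h1 := (hc.trans (hmono c a hca.le)).trans hN
    rw [Cardinal.aleph_le_aleph] at h1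
    exact_mod_cast h1
  have h1 : P (Nat.findGreatest P N) := Nat.findGreatest_spec (Nat.zero_le _) hP0
  set n := Nat.findGreatest P N with hn
  have h2 : ¬ P (n + 1) := by
    intro h3
    have h4 := Nat.le_findGreatest (hPN _ h3) h3
    omega
  obtain ⟨b, hob, hba, hb⟩ := h1
  refine ⟨b, hba, fun c hbc hca => ?_⟩
  have h3 : #{x : Wω // x < c} < Cardinal.aleph ((n + 1 : ℕ) : Ordinal.{0}) := by
    by_contra hcon
    exact h2 ⟨c, hob.trans hbc.le, hca, not_lt.1 hcon⟩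
  have h4 : Cardinal.aleph ((n + 1 : ℕ) : Ordinal.{0}) =
      Order.succ (Cardinal.aleph (n : Ordinal.{0})) := by
    rw [Cardinal.succ_aleph]
    push_cast
    rfl
  rw [h4, Order.lt_succ_iff] at h3
  exact Cardinal.le_def _ _ |>.1 (h3.trans hb)

end Pool.Agent.H.MP_353193_lc.BV
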