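import Pool.Agent.H.MP_353193_lc.BV.T5b
import Pool.Agent.H.MP_353193_lc.BV.T6

/-!
# The value of `w = ω_ω`
-/

set_option autoImplicit false

namespace Pool.Agent.H.MP_353193_lc.BV

open Pool.Agent.H.MP_8ff4bd_gt.M3
open _root_.M3 _root_.M3.BSet

variable {B : Type} [CompleteBooleanAlgebra B]

theorem t6b_limC (x : BSet B) : bLimC (str B) x = bmem omega x ⊓
    ⨅ b, (bmem b x ⇨ ⨆ c, bmem c x ⊓ bCard (str B) c ⊓ bmem b c) := by
  unfold bLimC
  simp only [str_mem, str_bOmega]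
  rw [iSup_beq (ext_bmem_left x) omega]

theorem ext_limC : Ext (fun x : BSet B => bLimC (str B) x) := by
  have h : (fun x : BSet B => bLimC (str B) x) = fun x : BSet B => bmem omega x ⊓
      ⨅ b, (bmem b x ⇨ ⨆ c, bmem c x ⊓ bCard (str B) c ⊓ bmem b c) := funext t6b_limC
  rw [h]
  exact (ext_bmem_right omega).inf (Ext.iInf fun b => (ext_bmem_right b).himp
    (Ext.iSup fun c => ((ext_bmem_right c).inf (ext_const _)).inf (ext_const _)))

theorem ext_isOm : Ext (fun x : BSet B => bIsOm (str B) x) := by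
  have h : (fun x : BSet B => bIsOm (str B) x) = fun x : BSet B => bOrd x ⊓ bLimC (str B) x ⊓
      ⨅ a, (bmem a x ⇨ (bLimC (str B) a)ᶜ) := by
    funext x
    unfold bIsOm
    simp only [str_mem, str_bOrd]
  rw [h]
  exact (ext_bOrd.inf ext_limC).inf (Ext.iInf fun a => (ext_bmem_right a).himp (ext_const _))

theorem t6b_bmem_bot {a b : Wω} (h : b ≤ a) : bmem (vN a) (vN b : BSet B) = ⊥ := by
  rw [bmem_vN, iSup_eq_bot]
  intro c
  exact beq_vN (fun e => absurd c.2 (by rw [← e]; exact not_lt.2 h))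

/-- `wom_omega`, `beq_vN_omega`, `str_bOmega`, `wom_next`, `card_vN_top`, `iInf_fam`, `vN_mem_vN`, `vN_mem_wN` -/
theorem limC_wN (hB : BCCC B) : bLimC (str B) (wN Wω : BSet B) = ⊤ := by
  obtain ⟨o, ⟨e⟩⟩ := wom_omega
  have ho : beq (vN o : BSet B) omega = ⊤ := beq_vN_omega o e
  rw [t6b_limC, eq_top_iff]
  refine le_inf (bmem_congr_left ho.ge (vN_mem_wN o).ge) ?_
  have hE : Ext (fun b => ⨆ c, bmem c (wN Wω : BSet B) ⊓ bCard (str B) c ⊓ bmem b c) :=
    Ext.iSup fun c => (ext_const _).inf (ext_bmem_left c)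
  have h1 : (⨅ b, (bmem b (wN Wω : BSet B) ⇨
      ⨆ c, bmem c (wN Wω : BSet B) ⊓ bCard (str B) c ⊓ bmem b c)) =
      ⨅ b : Wω, ⨆ c, bmem c (wN Wω : BSet B) ⊓ bCard (str B) c ⊓ bmem (vN b) c :=
    iInf_fam (fun b : Wω => (vN b : BSet B)) hE
  rw [h1]
  refine le_iInf fun b => ?_
  obtain ⟨c, hbc, hc⟩ := wom_next b
  refine bv_intro (f := fun c => bmem c (wN Wω : BSet B) ⊓ bCard (str B) c ⊓ bmem (vN b) c)
    (vN c) ?_
  exact le_inf (le_inf (vN_mem_wN c).ge (card_vN_top hB c hc).ge) (vN_mem_vN hbc).ge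

/-- If `a ≤ o` (`o` from `wom_omega`) the value of `ω ∈ vN a` is `⊥` (`beq_vN`), otherwise `wom_last` and `card_vN_bot`. -/
theorem limC_vN (a : Wω) : bLimC (str B) (vN a : BSet B) = ⊥ := by
  obtain ⟨o, he⟩ := wom_omega
  have ho : beq (vN o : BSet B) omega = ⊤ := beq_vN_omega o he.some
  rw [t6b_limC, ← le_bot_iff]
  rcases lt_or_ge o a with hoa | hoa
  · obtain ⟨b, hba, hb⟩ := wom_last o a he hoa
    have h1 : (bmem omega (vN a) ⊓ ⨅ b, (bmem b (vN a) ⇨
        ⨆ c, bmem c (vN a) ⊓ bCard (str B) c ⊓ bmem b c) : B) ≤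
        ⨆ c, bmem c (vN a) ⊓ bCard (str B) c ⊓ bmem (vN b) c :=
      bv_mp (bv_all (bv_right le_rfl) (vN b)) (le_top.trans (vN_mem_vN hba).ge)
    refine bv_exists h1 fun c Δ hΔ h2 => ?_
    have h3 : Δ ≤ bmem c (vN a) := bv_left (bv_left h2)
    rw [bmem_vN] at h3
    refine bv_exists h3 fun d E hE h4 => ?_
    rcases lt_or_ge b d.1 with hbd | hbd
    · have h5 : E ≤ bCard (str B) (vN d.1) := ext_card.le h4 (hE.trans (bv_right (bv_left h2)))
      rw [card_vN_bot d.1 b hbd (hb d.1 hbd d.2)] at h5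
      exact h5
    · have h5 : E ≤ bmem (vN b) (vN d.1) := bmem_congr_right h4 (hE.trans (bv_right h2))
      rw [t6b_bmem_bot hbd] at h5
      exact h5
  · have h1 : (bmem omega (vN a) ⊓ ⨅ b, (bmem b (vN a) ⇨
        ⨆ c, bmem c (vN a) ⊓ bCard (str B) c ⊓ bmem b c) : B) ≤ bmem (vN o) (vN a) :=
      bmem_congr_left (beq_symm' (le_top.trans ho.ge)) (bv_left le_rfl)
    rw [t6b_bmem_bot hoa] at h1
    exact h1

theorem isOm_wN (hB : BCCC B) : bIsOm (str B) (wN Wω : BSet B) = ⊤ := by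
  unfold bIsOm
  simp only [str_mem, str_bOrd]
  rw [eq_top_iff]
  refine le_inf (le_inf bOrd_wN.ge (limC_wN hB).ge) ?_
  have h1 : (⨅ a, (bmem a (wN Wω : BSet B) ⇨ (bLimC (str B) a)ᶜ)) =
      ⨅ a : Wω, (bLimC (str B) (vN a))ᶜ :=
    iInf_fam (fun b : Wω => (vN b : BSet B)) ext_limC.compl
  rw [h1]
  refine le_iInf fun a => ?_
  rw [limC_vN, compl_bot]

/-- uniqueness by trichotomy of ordinals (as in `isOmega1_eq`) -/
theorem isOm_eq (hB : BCCC B) (w : BSet B) : bIsOm (str B) w = beq w (wN Wω) := by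
  apply le_antisymm
  · have hdef : bIsOm (str B) w = bOrd w ⊓ bLimC (str B) w ⊓
        ⨅ a, (bmem a w ⇨ (bLimC (str B) a)ᶜ) := by
      unfold bIsOm
      simp only [str_mem, str_bOrd]
    rw [hdef]
    have h1 : bOrd w ⊓ bLimC (str B) w ⊓ (⨅ a, (bmem a w ⇨ (bLimC (str B) a)ᶜ)) ≤
        bmem w (wN Wω) ⊔ beq w (wN Wω) ⊔ bmem (wN Wω) w :=
      (le_inf (inf_le_left.trans inf_le_left) (le_top.trans bOrd_wN.ge)).trans
        (ord_trichotomy w (wN Wω))
    refine bv_or h1 (fun Δ hΔ h2 => bv_or h2 (fun E hE h3 => ?_) (fun E _ h3 => h3))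
      (fun Δ hΔ h2 => ?_)
    · rw [bmem_wN] at h3
      refine bv_exists h3 fun a F hF h4 => ?_
      have h5 : F ≤ bLimC (str B) (vN a) := ext_limC.le h4
        (((hF.trans hE).trans hΔ).trans (inf_le_left.trans inf_le_right))
      rw [limC_vN] at h5
      exact h5.trans bot_le
    · have h3 : Δ ≤ (bLimC (str B) (wN Wω : BSet B))ᶜ :=
        bv_mp (bv_all (hΔ.trans inf_le_right) (wN Wω)) h2
      rw [limC_wN hB, compl_top] at h3
      exact h3.trans bot_le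
  · exact ext_isOm.le (beq_symm' le_rfl) (le_top.trans (isOm_wN hB).ge)

end Pool.Agent.H.MP_353193_lc.BV
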