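import Pool.Agent.H.MP_353193_lc.BV.T7a
import Pool.Agent.H.MP_353193_lc.BV.T6b

/-!
# The value of the sentence is the second-order form
-/

set_option autoImplicit false

namespace Pool.Agent.H.MP_353193_lc.BV

open Pool.Agent.H.MP_8ff4bd_gt.M3
open _root_.M3 _root_.M3.BSet

variable {B : Type} [CompleteBooleanAlgebra B]

/-- The value of the statement in the Boolean-valued universe. -/
theorem bEta_eq (hB : BCCC B) : bEta (str B) = sv B Wω := by
  unfold bEta
  simp only [isOm_eq hB]
  rw [iInf_beq (φ := fun w => ⨅ g, (bSymm (str B) w g ⊓ bTriFree (str B) w g ⇨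
    ⨆ h, bEmb (str B) w g h))
    (Ext.iInf fun g => ((ext_symm_w g).inf (ext_triFree_w g)).himp
      (Ext.iSup fun h => ext_emb_w g h))]
  exact body_eq

end Pool.Agent.H.MP_353193_lc.BV
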