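import Pool.Agent.H.MP_353193_lc.BV.SV

/-!
# The combinatorial core makes the value different from the top element
-/

set_option autoImplicit false

namespace Pool.Agent.H.MP_353193_lc.BV

variable {B : Type} [CompleteBooleanAlgebra B] {W : Type} [LinearOrder W]

theorem t8_le_bihimp {a b c : B} : a ≤ bihimp b c ↔ a ⊓ b ≤ c ∧ a ⊓ c ≤ b := by
  rw [le_bihimp_iff, and_comm, inf_comm b a, inf_comm c a]

omit [LinearOrder W] in
theorem t8_eqv_symm (x y : W → B) : eqv x y = eqv y x := by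
  simp only [eqv, bihimp_comm]

omit [LinearOrder W] in
theorem t8_eqv_le (x y : W → B) (ν : W) : eqv x y ⊓ x ν ≤ y ν := by
  have h : eqv x y ≤ bihimp (x ν) (y ν) := iInf_le _ ν
  exact (t8_le_bihimp.1 h).1

omit [LinearOrder W] in
theorem t8_eqv_le_right (x y : W → B) (ν : W) : eqv x y ⊓ y ν ≤ x ν := by
  have h : eqv x y ≤ bihimp (x ν) (y ν) := iInf_le _ ν
  exact (t8_le_bihimp.1 h).2

omit [LinearOrder W] in
theorem t8_eqv_compl (x y : W → B) (ν : W) : eqv x y ⊓ (x ν)ᶜ ≤ (y ν)ᶜ := by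
  rw [le_compl_iff_disjoint_right, disjoint_iff, ← le_bot_iff]
  have h := t8_eqv_le_right x y ν
  calc eqv x y ⊓ (x ν)ᶜ ⊓ y ν = (eqv x y ⊓ y ν) ⊓ (x ν)ᶜ := by ac_rfl
    _ ≤ x ν ⊓ (x ν)ᶜ := inf_le_inf_right _ h
    _ ≤ ⊥ := by rw [inf_compl_self]

omit [LinearOrder W] in
theorem t8_le_eqv {a : B} {x y : W → B} (h1 : ∀ ν, a ⊓ x ν ≤ y ν) (h2 : ∀ ν, a ⊓ y ν ≤ x ν) :
    a ≤ eqv x y := le_iInf fun ν => t8_le_bihimp.2 ⟨h1 ν, h2 ν⟩

theorem t8_Rv_ext (x y : W → B) : eqv x y ⊓ Rv x ≤ Rv y := by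
  rw [Rv, Rv]
  refine le_inf ?_ ?_
  · refine (inf_le_inf_left _ inf_le_left).trans ?_
    rw [inf_iSup_eq]
    exact iSup_mono fun ν => t8_eqv_le x y ν
  · refine (inf_le_inf_left _ inf_le_right).trans ?_
    rw [inf_iSup_eq]
    refine iSup_mono fun β => le_iInf fun ν => ?_
    exact (inf_le_inf_left _ (iInf_le _ ν)).trans (t8_eqv_compl x y ν.1)

theorem t8_bihimp {x x' y y' : B} {a : B} (h1 : a ≤ bihimp x x') (h2 : a ≤ bihimp y y') :
    a ⊓ bihimp x y ≤ bihimp x' y' := by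
  rw [t8_le_bihimp] at h1 h2 ⊢
  have h3 : bihimp x y ⊓ x ≤ y := (t8_le_bihimp.1 le_rfl).1
  have h4 : bihimp x y ⊓ y ≤ x := (t8_le_bihimp.1 le_rfl).2
  constructor
  · calc a ⊓ bihimp x y ⊓ x' ≤ a ⊓ (bihimp x y ⊓ (a ⊓ x')) := by
          refine le_inf (inf_le_left.trans inf_le_left) (le_inf (inf_le_left.trans inf_le_right)
            (le_inf (inf_le_left.trans inf_le_left) inf_le_right))
      _ ≤ a ⊓ (bihimp x y ⊓ x) := inf_le_inf_left _ (inf_le_inf_left _ h1.2)
      _ ≤ a ⊓ y := inf_le_inf_left _ h3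
      _ ≤ y' := h2.1
  · calc a ⊓ bihimp x y ⊓ y' ≤ a ⊓ (bihimp x y ⊓ (a ⊓ y')) := by
          refine le_inf (inf_le_left.trans inf_le_left) (le_inf (inf_le_left.trans inf_le_right)
            (le_inf (inf_le_left.trans inf_le_left) inf_le_right))
      _ ≤ a ⊓ (bihimp x y ⊓ y) := inf_le_inf_left _ (inf_le_inf_left _ h2.2)
      _ ≤ a ⊓ x := inf_le_inf_left _ h4
      _ ≤ x' := h1.1

theorem t8_ltv_ext (x x' y y' : W → B) : eqv x x' ⊓ eqv y y' ⊓ ltv x y ≤ ltv x' y' := by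
  rw [ltv, ltv, inf_iSup_eq]
  refine iSup_mono fun ν => ?_
  refine le_inf (le_inf ?_ ?_) ?_
  · refine le_iInf fun μ => ?_
    refine (inf_le_inf_left _ (inf_le_left.trans (inf_le_left.trans (iInf_le _ μ)))).trans ?_
    exact t8_bihimp (inf_le_left.trans (iInf_le _ μ.1)) (inf_le_right.trans (iInf_le _ μ.1))
  · refine le_trans ?_ (t8_eqv_compl x x' ν)
    exact le_inf (inf_le_left.trans inf_le_left) (inf_le_right.trans (inf_le_left.trans inf_le_right))
  · refine le_trans ?_ (t8_eqv_le y y' ν)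
    exact le_inf (inf_le_left.trans inf_le_right) (inf_le_right.trans inf_le_right)

/-- the four clauses of `embv` -/
theorem t8_embv {G F : (W → B) → (W → B) → B} :
    (∀ x, embv G F ⊓ Rv x ≤ ⨆ y, Rv y ⊓ F x y) ∧
    (∀ x y y', embv G F ⊓ (Rv x ⊓ Rv y ⊓ Rv y' ⊓ F x y ⊓ F x y') ≤ eqv y y') ∧
    (∀ x x' y y', embv G F ⊓ (Rv x ⊓ Rv x' ⊓ Rv y ⊓ Rv y' ⊓ F x y ⊓ F x' y' ⊓ ltv x x') ≤ ltv y y') ∧
    (∀ x x' y y', embv G F ⊓ (Rv x ⊓ Rv x' ⊓ Rv y ⊓ Rv y' ⊓ F x y ⊓ F x' y' ⊓ G y y') = ⊥) := by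
  refine ⟨fun x => ?_, fun x y y' => ?_, fun x x' y y' => ?_, fun x x' y y' => ?_⟩
  · rw [← le_himp_iff]
    exact (inf_le_left.trans (inf_le_left.trans inf_le_left)).trans (iInf_le _ x)
  · rw [← le_himp_iff]
    exact (inf_le_left.trans (inf_le_left.trans inf_le_right)).trans
      ((iInf_le _ x).trans ((iInf_le _ y).trans (iInf_le _ y')))
  · rw [← le_himp_iff]
    exact (inf_le_left.trans inf_le_right).trans
      ((iInf_le _ x).trans ((iInf_le _ x').trans ((iInf_le _ y).trans (iInf_le _ y'))))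
  · rw [← disjoint_iff, ← le_compl_iff_disjoint_right]
    exact inf_le_right.trans
      ((iInf_le _ x).trans ((iInf_le _ x').trans ((iInf_le _ y).trans (iInf_le _ y'))))

/-- the function -/
def t8_phi (b : B) (F : (W → B) → (W → B) → B) (x : W → B) (ν : W) : B :=
  b ⊓ ⨆ y : W → B, Rv y ⊓ F x y ⊓ y ν

theorem t8_phi_eqv {G F : (W → B) → (W → B) → B} (x y : W → B) :
    embv G F ⊓ (Rv x ⊓ Rv y ⊓ F x y) ≤ eqv (t8_phi (embv G F) F x) y := by
  obtain ⟨-, h2, -, -⟩ := t8_embv (G := G) (F := F)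
  refine t8_le_eqv (fun ν => ?_) (fun ν => ?_)
  · rw [t8_phi, ← inf_assoc, inf_iSup_eq]
    refine iSup_le fun y' => ?_
    refine le_trans ?_ (t8_eqv_le y' y ν)
    refine le_inf (le_trans ?_ (h2 x y' y)) (inf_le_right.trans inf_le_right)
    refine le_inf (inf_le_left.trans inf_le_right) ?_
    have a1 : embv G F ⊓ (Rv x ⊓ Rv y ⊓ F x y) ⊓ embv G F ⊓ (Rv y' ⊓ F x y' ⊓ y' ν) ≤ Rv x ⊓ Rv y ⊓ F x y :=
      inf_le_left.trans (inf_le_left.trans inf_le_right)
    have a2 : embv G F ⊓ (Rv x ⊓ Rv y ⊓ F x y) ⊓ embv G F ⊓ (Rv y' ⊓ F x y' ⊓ y' ν) ≤ Rv y' ⊓ F x y' :=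
      inf_le_right.trans inf_le_left
    exact le_inf (le_inf (le_inf (le_inf (a1.trans (inf_le_left.trans inf_le_left)) (a2.trans inf_le_left))
      (a1.trans (inf_le_left.trans inf_le_right))) (a2.trans inf_le_right)) (a1.trans inf_le_right)
  · rw [t8_phi]
    refine le_inf (inf_le_left.trans inf_le_left) ?_
    refine le_trans ?_ (le_iSup (fun y : W → B => Rv y ⊓ F x y ⊓ y ν) y)
    refine le_inf (le_inf ?_ ?_) inf_le_right
    · exact inf_le_left.trans (inf_le_right.trans (inf_le_left.trans inf_le_right))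
    · exact inf_le_left.trans (inf_le_right.trans inf_le_right)

/-- case distinction over the value -/
theorem t8_cases {G F : (W → B) → (W → B) → B} (x : W → B) (a c : B) (ha : a ≤ embv G F ⊓ Rv x)
    (h : ∀ y, a ⊓ (Rv y ⊓ F x y) ≤ c) : a ≤ c := by
  obtain ⟨h1, -, -, -⟩ := t8_embv (G := G) (F := F)
  have h2 : a ≤ a ⊓ ⨆ y, Rv y ⊓ F x y := le_inf le_rfl (ha.trans (h1 x))
  refine h2.trans ?_
  rw [inf_iSup_eq]
  exact iSup_le h

/-- No name of a function is an embedding with independent image, to any positive degree. -/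
theorem embv_eq_bot {G : (W → B) → (W → B) → B} (hG1 : ∀ x y z, eqv x y ⊓ G x z ≤ G y z)
    (hG2 : ∀ x y, G x y ≤ G y x)
    (hG4 : ∀ (b : B) (Φ : (W → B) → (W → B)),
      (∀ x y, b ⊓ eqv x y ≤ eqv (Φ x) (Φ y)) →
      (∀ x, b ⊓ Rv x ≤ Rv (Φ x)) →
      (∀ x y, b ⊓ Rv x ⊓ Rv y ⊓ ltv x y ≤ ltv (Φ x) (Φ y)) →
      (∀ x y, b ⊓ Rv x ⊓ Rv y ⊓ G (Φ x) (Φ y) = ⊥) → b = ⊥)
    {F : (W → B) → (W → B) → B} (hF1 : ∀ x x' y, eqv x x' ⊓ F x y ≤ F x' y) :
    embv G F = ⊥ := by
  have hG2' : ∀ x y y', eqv y y' ⊓ G x y ≤ G x y' := by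
    intro x y y'
    exact ((inf_le_inf_left _ (hG2 x y)).trans (hG1 y y' x)).trans (hG2 y' x)
  obtain ⟨-, -, e3, e4⟩ := t8_embv (G := G) (F := F)
  apply hG4 (embv G F) (t8_phi (embv G F) F)
  · intro x x'
    have key : ∀ x x' : W → B, ∀ ν, embv G F ⊓ eqv x x' ⊓ t8_phi (embv G F) F x ν ≤
        t8_phi (embv G F) F x' ν := by
      intro x x' ν
      rw [t8_phi, t8_phi]
      refine le_inf (inf_le_left.trans inf_le_left) ?_
      refine (inf_le_inf_left _ inf_le_right).trans ?_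
      rw [inf_iSup_eq]
      refine iSup_mono fun y => ?_
      refine le_inf (le_inf (inf_le_right.trans (inf_le_left.trans inf_le_left)) ?_)
        (inf_le_right.trans inf_le_right)
      refine le_trans ?_ (hF1 x x' y)
      exact le_inf (inf_le_left.trans inf_le_right) (inf_le_right.trans (inf_le_left.trans inf_le_right))
    refine t8_le_eqv (fun ν => key x x' ν) (fun ν => ?_)
    rw [t8_eqv_symm]
    exact key x' x ν
  · intro x
    refine t8_cases (G := G) (F := F) x _ _ le_rfl fun y => ?_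
    have a1 : embv G F ⊓ Rv x ⊓ (Rv y ⊓ F x y) ≤ eqv y (t8_phi (embv G F) F x) := by
      rw [t8_eqv_symm]
      refine le_trans ?_ (t8_phi_eqv (G := G) (F := F) x y)
      exact le_inf (inf_le_left.trans inf_le_left) (le_inf (le_inf (inf_le_left.trans inf_le_right)
        (inf_le_right.trans inf_le_left)) (inf_le_right.trans inf_le_right))
    exact (le_inf a1 (inf_le_right.trans inf_le_left)).trans (t8_Rv_ext _ _)
  · intro x x'
    set a := embv G F ⊓ Rv x ⊓ Rv x' ⊓ ltv x x' with ha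
    have hax : a ≤ embv G F ⊓ Rv x := inf_le_left.trans inf_le_left
    have hax' : a ≤ embv G F ⊓ Rv x' :=
      le_inf (hax.trans inf_le_left) (inf_le_left.trans inf_le_right)
    refine t8_cases (G := G) (F := F) x _ _ hax fun y => ?_
    refine t8_cases (G := G) (F := F) x' _ _ (inf_le_left.trans hax') fun y' => ?_
    set u := a ⊓ (Rv y ⊓ F x y) ⊓ (Rv y' ⊓ F x' y') with hu
    have u0 : u ≤ embv G F := (inf_le_left.trans inf_le_left).trans (hax.trans inf_le_left)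
    have u1 : u ≤ Rv x := (inf_le_left.trans inf_le_left).trans (hax.trans inf_le_right)
    have u2 : u ≤ Rv x' := (inf_le_left.trans inf_le_left).trans (hax'.trans inf_le_right)
    have u3 : u ≤ ltv x x' := (inf_le_left.trans inf_le_left).trans inf_le_right
    have u4 : u ≤ Rv y := inf_le_left.trans (inf_le_right.trans inf_le_left)
    have u5 : u ≤ F x y := inf_le_left.trans (inf_le_right.trans inf_le_right)
    have u6 : u ≤ Rv y' := inf_le_right.trans inf_le_left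
    have u7 : u ≤ F x' y' := inf_le_right.trans inf_le_right
    have v1 : u ≤ eqv y (t8_phi (embv G F) F x) := by
      rw [t8_eqv_symm]
      exact (le_inf u0 (le_inf (le_inf u1 u4) u5)).trans (t8_phi_eqv (G := G) (F := F) x y)
    have v2 : u ≤ eqv y' (t8_phi (embv G F) F x') := by
      rw [t8_eqv_symm]
      exact (le_inf u0 (le_inf (le_inf u2 u6) u7)).trans (t8_phi_eqv (G := G) (F := F) x' y')
    have v3 : u ≤ ltv y y' :=
      (le_inf u0 (le_inf (le_inf (le_inf (le_inf (le_inf (le_inf u1 u2) u4) u6) u5) u7) u3)).trans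
        (e3 x x' y y')
    exact (le_inf (le_inf v1 v2) v3).trans (t8_ltv_ext _ _ _ _)
  · intro x x'
    rw [← le_bot_iff]
    set a := embv G F ⊓ Rv x ⊓ Rv x' ⊓ G (t8_phi (embv G F) F x) (t8_phi (embv G F) F x') with ha
    have hax : a ≤ embv G F ⊓ Rv x := inf_le_left.trans inf_le_left
    have hax' : a ≤ embv G F ⊓ Rv x' :=
      le_inf (hax.trans inf_le_left) (inf_le_left.trans inf_le_right)
    refine t8_cases (G := G) (F := F) x _ _ hax fun y => ?_
    refine t8_cases (G := G) (F := F) x' _ _ (inf_le_left.trans hax') fun y' => ?_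
    set u := a ⊓ (Rv y ⊓ F x y) ⊓ (Rv y' ⊓ F x' y') with hu
    have u0 : u ≤ embv G F := (inf_le_left.trans inf_le_left).trans (hax.trans inf_le_left)
    have u1 : u ≤ Rv x := (inf_le_left.trans inf_le_left).trans (hax.trans inf_le_right)
    have u2 : u ≤ Rv x' := (inf_le_left.trans inf_le_left).trans (hax'.trans inf_le_right)
    have u3 : u ≤ G (t8_phi (embv G F) F x) (t8_phi (embv G F) F x') :=
      (inf_le_left.trans inf_le_left).trans inf_le_right
    have u4 : u ≤ Rv y := inf_le_left.trans (inf_le_right.trans inf_le_left)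
    have u5 : u ≤ F x y := inf_le_left.trans (inf_le_right.trans inf_le_right)
    have u6 : u ≤ Rv y' := inf_le_right.trans inf_le_left
    have u7 : u ≤ F x' y' := inf_le_right.trans inf_le_right
    have v1 : u ≤ eqv (t8_phi (embv G F) F x) y :=
      (le_inf u0 (le_inf (le_inf u1 u4) u5)).trans (t8_phi_eqv (G := G) (F := F) x y)
    have v2 : u ≤ eqv (t8_phi (embv G F) F x') y' :=
      (le_inf u0 (le_inf (le_inf u2 u6) u7)).trans (t8_phi_eqv (G := G) (F := F) x' y')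
    have v3 : u ≤ G y (t8_phi (embv G F) F x') := (le_inf v1 u3).trans (hG1 _ _ _)
    have v4 : u ≤ G y y' := (le_inf v2 v3).trans (hG2' _ _ _)
    rw [← e4 x x' y y']
    exact le_inf u0 (le_inf (le_inf (le_inf (le_inf (le_inf (le_inf u1 u2) u4) u6) u5) u7) v4)

/-- The value of the partition statement is the bottom element: the graph `G` of `Core` has `symv G = ⊤`, `triv G = ⊤`. -/
theorem sv_eq_bot (h : Core B W) : sv B W = ⊥ := by
  obtain ⟨G, hG1, hG2, hG3, hG4⟩ := h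
  have hG2' : ∀ x y y', eqv y y' ⊓ G x y ≤ G x y' := by
    intro x y y'
    exact ((inf_le_inf_left _ (hG2 x y)).trans (hG1 y y' x)).trans (hG2 y' x)
  have hExt : ExtG G := ⟨fun x x' y => hG1 x x' y, hG2'⟩
  have hsym : symv G = ⊤ := by
    rw [symv]
    simp only [iInf_eq_top, himp_eq_top_iff]
    intro x y
    exact inf_le_right.trans (hG2 x y)
  have htri : triv G = ⊤ := by
    rw [triv]
    simp only [iInf_eq_top, compl_eq_top]
    intro x y z
    rw [← le_bot_iff, ← hG3 x y z]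
    refine le_inf (le_inf ?_ ?_) inf_le_right
    · exact inf_le_left.trans (inf_le_left.trans inf_le_right)
    · exact inf_le_left.trans inf_le_right
  have h1 : sv B W ≤ (symv G ⊓ triv G ⇨ ⨆ F : {F : (W → B) → (W → B) → B // ExtG F}, embv G F.1) := by
    rw [sv]
    exact iInf_le _ (⟨G, hExt⟩ : {G : (W → B) → (W → B) → B // ExtG G})
  rw [hsym, htri, inf_top_eq, top_himp] at h1
  have h2 : (⨆ F : {F : (W → B) → (W → B) → B // ExtG F}, embv G F.1) = ⊥ := by
    rw [iSup_eq_bot]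
    rintro ⟨F, hF1, hF2⟩
    exact embv_eq_bot hG1 hG2 hG4 hF1
  rw [h2] at h1
  exact le_bot_iff.1 h1

theorem sv_ne_top [Nontrivial B] (h : Core B W) : sv B W ≠ ⊤ := by
  rw [sv_eq_bot h]
  exact bot_ne_top

end Pool.Agent.H.MP_353193_lc.BV
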