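import Pool.Agent.H.MP_353193_lc.BV.T2
import Pool.Agent.H.MP_353193_lc.BV.PlainE
import Pool.Agent.H.MP_8ff4bd_gt.M3.S.PlainB

/-!
# The plain form of the sentence
-/

set_option autoImplicit false

namespace Pool.Agent.H.MP_353193_lc.BV

open FirstOrder Pool.Agent.H.MP_8ff4bd_gt.M3
open PlainE

universe u

variable {M : Type u} (E : M → M → Prop)

theorem rel_leCard (x y : M) : bLeCard (relStr E) x y ↔ LeCard E x y := by
  simp only [bLeCard, LeCard, iInf_Prop_eq, iSup_Prop_eq, inf_Prop_eq, himp_iff_imp,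
    relStr_mem, relStr_eq, rel_inRel, and_imp]

theorem rel_card (x : M) : bCard (relStr E) x ↔ IsCard E x := by
  simp only [bCard, IsCard, iInf_Prop_eq, inf_Prop_eq, himp_iff_imp, compl_iff_not,
    relStr_mem, rel_ord, rel_leCard]

theorem rel_limC (x : M) : bLimC (relStr E) x ↔ IsLimC E x := by
  simp only [bLimC, IsLimC, iInf_Prop_eq, iSup_Prop_eq, inf_Prop_eq, himp_iff_imp,
    relStr_mem, rel_omega, rel_card, and_assoc]

theorem rel_isOm (x : M) : bIsOm (relStr E) x ↔ IsOmegaOmega E x := by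
  simp only [bIsOm, IsOmegaOmega, iInf_Prop_eq, inf_Prop_eq, himp_iff_imp, compl_iff_not,
    relStr_mem, rel_ord, rel_limC, and_assoc]

theorem rel_res (w x : M) : bRes (relStr E) w x ↔ InR E w x := by
  simp only [bRes, InR, iSup_Prop_eq, inf_Prop_eq, relStr_mem, rel_sub]

theorem rel_lex (x y : M) : bLex (relStr E) x y ↔ LexLt E x y := by
  simp only [bLex, LexLt, iInf_Prop_eq, iSup_Prop_eq, inf_Prop_eq, himp_iff_imp, compl_iff_not,
    bihimp_iff_iff, relStr_mem, and_assoc]

theorem rel_triFree (w g : M) :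
    (bSymm (relStr E) w g ⊓ bTriFree (relStr E) w g : Prop) ↔ TriangleFree E w g := by
  simp only [bSymm, bTriFree, TriangleFree, iInf_Prop_eq, inf_Prop_eq, himp_iff_imp,
    compl_iff_not, rel_res, rel_inRel, and_assoc, and_imp, not_and]

theorem rel_emb (w g h : M) : bEmb (relStr E) w g h ↔ IndependentCopy E w g h := by
  simp only [bEmb, IndependentCopy, iInf_Prop_eq, iSup_Prop_eq, inf_Prop_eq, himp_iff_imp,
    compl_iff_not, rel_res, rel_inRel, rel_lex, relStr_eq, and_assoc, and_imp, not_and]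

theorem bEta_relStr : bEta (relStr E) ↔ EtaArrow E := by
  simp only [bEta, EtaArrow, iInf_Prop_eq, iSup_Prop_eq, himp_iff_imp, rel_isOm, rel_triFree,
    rel_emb]

/-- The sentence says in every structure what it should. -/
theorem sat_etaSentence_iff : Sat E etaSentence ↔ EtaArrow E := by
  rw [sat_iff_bval, bval_etaSentence, bEta_relStr]

end Pool.Agent.H.MP_353193_lc.BV
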