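import Mathlib
import Pool.Agent.H.MP_353193_lc.BV.PlainE
import Pool.Agent.H.MP_353193_lc.B1

/-!
# Set-theoretic notions in the universe `ZFSet`
-/

set_option autoImplicit false

namespace Pool.Agent.H.MP_353193_lc.BV

open Pool.Agent.H.MP_8ff4bd_gt.M3.Plain

/-- Membership in the universe of sets. -/
abbrev EZ : ZFSet.{0} → ZFSet.{0} → Prop := fun x y => x ∈ y

theorem isSub_iff (x y : ZFSet.{0}) : IsSub EZ x y ↔ x ⊆ y := by
  unfold IsSub
  exact ZFSet.subset_def.symm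

theorem isEmp_iff (x : ZFSet.{0}) : IsEmp EZ x ↔ x = ∅ := (ZFSet.eq_empty x).symm

theorem isSing_iff (z x : ZFSet.{0}) : IsSing EZ z x ↔ z = {x} := by
  unfold IsSing
  rw [ZFSet.ext_iff]
  exact forall_congr' fun w => by rw [ZFSet.mem_singleton]

theorem isPair_iff (z x y : ZFSet.{0}) : IsPair EZ z x y ↔ z = {x, y} := by
  unfold IsPair
  rw [ZFSet.ext_iff]
  exact forall_congr' fun w => by rw [ZFSet.mem_pair]

theorem isOPair_iff (z x y : ZFSet.{0}) : IsOPair EZ z x y ↔ z = ZFSet.pair x y := by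
  unfold IsOPair ZFSet.pair
  simp only [isSing_iff, isPair_iff]
  constructor
  · rintro ⟨a, b, rfl, rfl, rfl⟩
    rfl
  · rintro rfl
    exact ⟨_, _, rfl, rfl, rfl⟩

theorem inRel_iff (f x y : ZFSet.{0}) : InRel EZ f x y ↔ ZFSet.pair x y ∈ f := by
  unfold InRel
  simp only [isOPair_iff]
  constructor
  · rintro ⟨p, hp, rfl⟩
    exact hp
  · exact fun h => ⟨_, h, rfl⟩

theorem isInsert_iff (z y t : ZFSet.{0}) : IsInsert EZ z y t ↔ z = insert t y := by
  unfold IsInsert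
  rw [ZFSet.ext_iff]
  exact forall_congr' fun w => by rw [ZFSet.mem_insert_iff, or_comm]

theorem isOrd_iff (x : ZFSet.{0}) : IsOrd EZ x ↔ ∃ o : Ordinal.{0}, o.toZFSet = x := by
  have h1 : IsOrd EZ x ↔ x.IsOrdinal := by
    constructor
    · rintro ⟨h1, h2⟩
      exact ⟨fun y hy => (isSub_iff y x).1 (h1 y hy), fun hy hz hw => h2 _ hw _ hz _ hy⟩
    · intro h
      exact ⟨fun y hy => (isSub_iff y x).2 (h.isTransitive y hy),
        fun w hw z hz y hy => h.mem_trans' hy hz hw⟩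
  rw [h1, ZFSet.isOrdinal_iff_mem_range_toZFSet, Set.mem_range]

theorem isOmega_iff (x : ZFSet.{0}) : IsOmega EZ x ↔ x = (Ordinal.omega0.{0}).toZFSet := by
  have h1 : IsInductive EZ (Ordinal.omega0.{0}).toZFSet := by
    refine ⟨⟨∅, ?_, (isEmp_iff _).2 rfl⟩, fun n hn => ?_⟩
    · rw [← Ordinal.toZFSet_zero]
      exact Ordinal.toZFSet_mem_toZFSet_iff.2 Ordinal.omega0_pos
    · obtain ⟨a, ha, rfl⟩ := Ordinal.mem_toZFSet_iff.1 hn
      refine ⟨(a + 1).toZFSet, Ordinal.toZFSet_mem_toZFSet_iff.2 ?_, (isInsert_iff _ _ _).2 ?_⟩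
      · exact Ordinal.isSuccLimit_omega0.add_one_lt ha
      · exact Ordinal.toZFSet_add_one a
  have h2 : ∀ s, IsInductive EZ s → (Ordinal.omega0.{0}).toZFSet ⊆ s := by
    rintro s ⟨⟨e, he, he'⟩, hs⟩
    rw [isEmp_iff] at he'
    subst he'
    have h3 : ∀ n : ℕ, (n : Ordinal.{0}).toZFSet ∈ s := by
      intro n
      induction n with
      | zero => rw [Nat.cast_zero, Ordinal.toZFSet_zero]; exact he
      | succ n ih =>
        obtain ⟨m, hm, hm'⟩ := hs _ ih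
        rw [isInsert_iff, ← Ordinal.toZFSet_add_one] at hm'
        subst hm'
        rw [Nat.cast_succ]
        exact hm
    rw [ZFSet.subset_def]
    intro y hy
    obtain ⟨a, ha, rfl⟩ := Ordinal.mem_toZFSet_iff.1 hy
    obtain ⟨n, rfl⟩ := Ordinal.lt_omega0.1 ha
    exact h3 n
  constructor
  · rintro ⟨h3, h4⟩
    exact ZFSet.ext fun z => ⟨fun hz => (isSub_iff _ _).1 (h4 _ h1) hz, fun hz => h2 x h3 hz⟩
  · rintro rfl
    exact ⟨h1, fun s hs => (isSub_iff _ _).2 (h2 s hs)⟩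

/-- The relation of cardinality for ordinals. -/
theorem leCard_iff (γ β : Ordinal.{0}) :
    PlainE.LeCard EZ γ.toZFSet β.toZFSet ↔ γ.card ≤ β.card := by
  unfold PlainE.LeCard
  simp only [inRel_iff]
  constructor
  · rintro ⟨r, h1, h2⟩
    have h3 : ∀ a : Set.Iio γ, ∃ b : Set.Iio β, ZFSet.pair a.1.toZFSet b.1.toZFSet ∈ r := by
      intro a
      obtain ⟨y, hy, hy'⟩ := h1 _ (Ordinal.toZFSet_mem_toZFSet_iff.2 a.2)
      obtain ⟨b, hb, rfl⟩ := Ordinal.mem_toZFSet_iff.1 hy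
      exact ⟨⟨b, hb⟩, hy'⟩
    choose f hf using h3
    have hinj : Function.Injective f := by
      intro a a' h
      have h4 := h2 a.1.toZFSet a'.1.toZFSet (f a).1.toZFSet
        (Ordinal.toZFSet_mem_toZFSet_iff.2 a.2) (Ordinal.toZFSet_mem_toZFSet_iff.2 a'.2)
        (Ordinal.toZFSet_mem_toZFSet_iff.2 (f a).2) (hf a) (by rw [h]; exact hf a')
      exact Subtype.ext (Ordinal.toZFSet_injective h4)
    have h5 := Cardinal.mk_le_of_injective hinj
    rw [Cardinal.mk_Iio_ordinal, Cardinal.mk_Iio_ordinal, Cardinal.lift_le] at h5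
    exact h5
  · intro h
    have h1 : Cardinal.mk γ.ToType ≤ Cardinal.mk β.ToType := by
      rwa [Cardinal.mk_toType, Cardinal.mk_toType]
    obtain ⟨g⟩ := h1
    refine ⟨ZFSet.range fun a : γ.ToType =>
      ZFSet.pair (Ordinal.ToType.toOrd a : Set.Iio _).1.toZFSet
        (Ordinal.ToType.toOrd (g a) : Set.Iio _).1.toZFSet, fun x hx => ?_, ?_⟩
    · obtain ⟨c, hc, rfl⟩ := Ordinal.mem_toZFSet_iff.1 hx
      refine ⟨_, Ordinal.toZFSet_mem_toZFSet_iff.2
        (Set.mem_Iio.1 (Ordinal.ToType.toOrd (g (Ordinal.ToType.mk ⟨c, hc⟩))).2), ?_⟩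
      rw [ZFSet.mem_range]
      refine ⟨Ordinal.ToType.mk ⟨c, hc⟩, ?_⟩
      have h5 : Ordinal.ToType.toOrd (Ordinal.ToType.mk ⟨c, hc⟩) = (⟨c, hc⟩ : Set.Iio _) :=
        Ordinal.ToType.mk.symm_apply_apply _
      rw [h5]
    · intro x x' y _ _ _ h2 h3
      rw [ZFSet.mem_range] at h2 h3
      obtain ⟨a, ha⟩ := h2
      obtain ⟨a', ha'⟩ := h3
      rw [ZFSet.pair_inj] at ha ha'
      have h4 : g a = g a' := by
        have h6 := ha.2.trans ha'.2.symm
        exact Ordinal.ToType.mk.symm.injective (Subtype.ext (Ordinal.toZFSet_injective h6))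
      rw [← ha.1, ← ha'.1, g.injective h4]

theorem isCard_iff (γ : Ordinal.{0}) :
    PlainE.IsCard EZ γ.toZFSet ↔ γ.card.ord = γ := by
  unfold PlainE.IsCard
  constructor
  · rintro ⟨-, h⟩
    by_contra hne
    have h1 : γ.card.ord < γ := lt_of_le_of_ne (Cardinal.ord_le.2 le_rfl) hne
    refine h _ (Ordinal.toZFSet_mem_toZFSet_iff.2 h1) ((leCard_iff _ _).2 ?_)
    rw [Cardinal.card_ord]
  · intro h
    refine ⟨(isOrd_iff _).2 ⟨_, rfl⟩, fun y hy hle => ?_⟩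
    obtain ⟨b, hb, rfl⟩ := Ordinal.mem_toZFSet_iff.1 hy
    rw [leCard_iff] at hle
    have h1 : γ.card.ord ≤ b := Cardinal.ord_le.2 hle
    rw [h] at h1
    exact absurd hb (not_lt.2 h1)

theorem isLimC_iff (W : Ordinal.{0}) :
    PlainE.IsLimC EZ W.toZFSet ↔ Ordinal.omega0 < W ∧
      ∀ β < W, ∃ γ < W, β < γ ∧ γ.card.ord = γ := by
  unfold PlainE.IsLimC
  refine and_congr ?_ ?_
  · constructor
    · rintro ⟨o, h1, h2⟩
      rw [isOmega_iff] at h1
      subst h1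
      exact Ordinal.toZFSet_mem_toZFSet_iff.1 h2
    · exact fun h => ⟨_, (isOmega_iff _).2 rfl, Ordinal.toZFSet_mem_toZFSet_iff.2 h⟩
  · constructor
    · intro h β hβ
      obtain ⟨c, hc, h1, h2⟩ := h _ (Ordinal.toZFSet_mem_toZFSet_iff.2 hβ)
      obtain ⟨γ, hγ, rfl⟩ := Ordinal.mem_toZFSet_iff.1 hc
      exact ⟨γ, hγ, Ordinal.toZFSet_mem_toZFSet_iff.1 h2, (isCard_iff γ).1 h1⟩
    · intro h b hb
      obtain ⟨β, hβ, rfl⟩ := Ordinal.mem_toZFSet_iff.1 hb
      obtain ⟨γ, hγ, h1, h2⟩ := h β hβ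
      exact ⟨_, Ordinal.toZFSet_mem_toZFSet_iff.2 hγ, (isCard_iff γ).2 h2,
        Ordinal.toZFSet_mem_toZFSet_iff.2 h1⟩

/-- The least ordinal `W > ω` such that the initial ordinals are unbounded in `W` is `ω_ω`. -/
theorem omω_least {W : Ordinal.{0}} (h1 : Ordinal.omega0 < W)
    (h2 : ∀ β < W, ∃ γ < W, β < γ ∧ γ.card.ord = γ) : omω ≤ W := by
  have h3 : ∀ n : ℕ, om n < W := by
    intro n
    induction n with
    | zero =>
      have h4 : om 0 = Ordinal.omega0 := by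
        unfold om
        rw [Nat.cast_zero, Cardinal.aleph_zero, Cardinal.ord_aleph0]
      rwa [h4]
    | succ n ih =>
      obtain ⟨γ, hγ, h5, h6⟩ := h2 _ ih
      refine lt_of_le_of_lt ?_ hγ
      unfold om
      rw [← h6, Cardinal.ord_le_ord, Nat.cast_succ, ← Cardinal.succ_aleph, Order.succ_le_iff]
      rw [← h6] at h5
      exact Cardinal.ord_lt_ord.1 h5
  by_contra h
  obtain ⟨n, hn⟩ := exists_lt_om (not_le.1 h)
  exact lt_asymm hn (h3 _)

theorem omega0_lt_omω : Ordinal.omega0.{0} < omω := by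
  have h4 : om 0 = Ordinal.omega0 := by
    unfold om
    rw [Nat.cast_zero, Cardinal.aleph_zero, Cardinal.ord_aleph0]
  rw [← h4]
  exact om_lt_omω 0

theorem omω_limit {β : Ordinal.{0}} (h : β < omω) : ∃ γ < omω, β < γ ∧ γ.card.ord = γ := by
  obtain ⟨n, hn⟩ := exists_lt_om h
  refine ⟨om (n + 1), om_lt_omω _, hn, ?_⟩
  unfold om
  rw [Cardinal.card_ord]

/-- In the universe of sets the only `ω_ω` is `ω_ω`. -/
theorem isOmegaOmega_iff (w : ZFSet.{0}) :
    PlainE.IsOmegaOmega EZ w ↔ w = omω.toZFSet := by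
  constructor
  · rintro ⟨h1, h2, h3⟩
    obtain ⟨W, rfl⟩ := (isOrd_iff w).1 h1
    rw [isLimC_iff] at h2
    have h4 := omω_least h2.1 h2.2
    rcases h4.lt_or_eq with h5 | h5
    · exact absurd ((isLimC_iff omω).2 ⟨omega0_lt_omω, fun β hβ => omω_limit hβ⟩)
        (h3 _ (Ordinal.toZFSet_mem_toZFSet_iff.2 h5))
    · rw [h5]
  · rintro rfl
    refine ⟨(isOrd_iff _).2 ⟨_, rfl⟩, (isLimC_iff _).2 ⟨omega0_lt_omω, fun β hβ => omω_limit hβ⟩,
      fun a ha h => ?_⟩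
    obtain ⟨W, hW, rfl⟩ := Ordinal.mem_toZFSet_iff.1 ha
    rw [isLimC_iff] at h
    exact absurd hW (not_lt.2 (omω_least h.1 h.2))

end Pool.Agent.H.MP_353193_lc.BV
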