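import Pool.Agent.H.MP_353193_lc.BV.TA1
import Pool.Agent.H.MP_353193_lc.BV.TA2
import Pool.Agent.H.MP_353193_lc.BV.T3

/-!
# The sentence in the universe of sets is the frozen statement
-/

set_option autoImplicit false

namespace Pool.Agent.H.MP_353193_lc.BV

open Pool.Agent.H.MP_8ff4bd_gt.M3 Pool.Agent.H.MP_8ff4bd_gt.M3.Plain

/-- The element of `Wω` as a von Neumann ordinal. -/
noncomputable def eo (ν : Wω) : ZFSet.{0} := (Ordinal.ToType.toOrd ν : Set.Iio _).1.toZFSet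

theorem eo_inj {μ ν : Wω} (h : eo μ = eo ν) : μ = ν :=
  Ordinal.ToType.mk.symm.injective (Subtype.ext (Ordinal.toZFSet_injective h))

theorem eo_mem {μ ν : Wω} : eo μ ∈ eo ν ↔ μ < ν := by
  unfold eo
  rw [Ordinal.toZFSet_mem_toZFSet_iff]
  exact OrderIso.lt_iff_lt (x := μ) (y := ν) Ordinal.ToType.mk.symm

theorem eo_sub {μ ν : Wω} : eo μ ⊆ eo ν ↔ μ ≤ ν := by
  unfold eo
  rw [Ordinal.toZFSet_subset_toZFSet_iff]
  exact OrderIso.le_iff_le (x := μ) (y := ν) Ordinal.ToType.mk.symm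

theorem mem_omω {z : ZFSet.{0}} : z ∈ omω.toZFSet ↔ ∃ ν, eo ν = z := by
  rw [Ordinal.mem_toZFSet_iff]
  constructor
  · rintro ⟨a, ha, rfl⟩
    have ha' : a ∈ Set.Iio (Cardinal.aleph Ordinal.omega0.{0}).ord := ha
    refine ⟨Ordinal.ToType.mk ⟨a, ha'⟩, ?_⟩
    have h5 : Ordinal.ToType.toOrd (Ordinal.ToType.mk ⟨a, ha'⟩) = (⟨a, ha'⟩ : Set.Iio _) :=
      Ordinal.ToType.mk.symm_apply_apply _
    exact congrArg (fun z : Set.Iio (Cardinal.aleph Ordinal.omega0.{0}).ord => z.1.toZFSet) h5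
  · rintro ⟨ν, rfl⟩
    exact ⟨_, (Ordinal.ToType.toOrd ν).2, rfl⟩

theorem mem_eo {z : ZFSet.{0}} {ν : Wω} : z ∈ eo ν ↔ ∃ μ, μ < ν ∧ eo μ = z := by
  constructor
  · intro h
    have h1 : eo ν ∈ omω.toZFSet := mem_omω.2 ⟨ν, rfl⟩
    have h2 : z ∈ omω.toZFSet := (ZFSet.isOrdinal_toZFSet _).isTransitive _ h1 h
    obtain ⟨μ, rfl⟩ := mem_omω.1 h2
    exact ⟨μ, eo_mem.1 h, rfl⟩
  · rintro ⟨μ, h, rfl⟩
    exact eo_mem.2 h

/-- The set with the given indicator function. -/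
noncomputable def sS (x : Wω → Prop) : ZFSet.{0} :=
  ZFSet.sep (fun z => ∃ ν, x ν ∧ eo ν = z) omω.toZFSet

/-- The indicator function of a set. -/
def pS (z : ZFSet.{0}) : Wω → Prop := fun ν => eo ν ∈ z

theorem mem_sS {x : Wω → Prop} {z : ZFSet.{0}} : z ∈ sS x ↔ ∃ ν, x ν ∧ eo ν = z := by
  unfold sS
  rw [ZFSet.mem_sep]
  refine ⟨fun h => h.2, fun h => ⟨?_, h⟩⟩
  obtain ⟨ν, _, hν⟩ := h
  exact mem_omω.2 ⟨ν, hν⟩

theorem eo_mem_sS {x : Wω → Prop} {ν : Wω} : eo ν ∈ sS x ↔ x ν := by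
  rw [mem_sS]
  constructor
  · rintro ⟨μ, h, h'⟩
    rwa [← eo_inj h']
  · exact fun h => ⟨ν, h, rfl⟩

theorem pS_sS (x : Wω → Prop) : pS (sS x) = x := funext fun _ => propext eo_mem_sS

theorem sS_inj {x y : Wω → Prop} (h : sS x = sS y) : x = y := by
  rw [← pS_sS x, ← pS_sS y, h]

theorem sS_sub (x : Wω → Prop) : sS x ⊆ omω.toZFSet := by
  rw [ZFSet.subset_def]
  intro z hz
  obtain ⟨ν, _, hν⟩ := mem_sS.1 hz
  exact mem_omω.2 ⟨ν, hν⟩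

theorem sS_pS {z : ZFSet.{0}} (h : z ⊆ omω.toZFSet) : sS (pS z) = z := by
  apply ZFSet.ext
  intro y
  rw [mem_sS]
  constructor
  · rintro ⟨ν, h1, rfl⟩
    exact h1
  · intro hy
    obtain ⟨ν, rfl⟩ := mem_omω.1 (h hy)
    exact ⟨ν, hy, rfl⟩

theorem sub_of_inR {z : ZFSet.{0}} (h : PlainE.InR EZ omω.toZFSet z) : z ⊆ omω.toZFSet := by
  obtain ⟨_, b, hb, h1⟩ := h
  rw [isSub_iff] at h1
  rw [ZFSet.subset_def]
  intro y hy
  exact (ZFSet.isOrdinal_toZFSet _).isTransitive _ hb (h1 hy)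

theorem inR_sS (x : Wω → Prop) : PlainE.InR EZ omω.toZFSet (sS x) ↔ Rp x := by
  unfold PlainE.InR Rp
  refine and_congr ?_ ?_
  · constructor
    · rintro ⟨z, hz⟩
      obtain ⟨ν, h1, _⟩ := mem_sS.1 hz
      exact ⟨ν, h1⟩
    · rintro ⟨ν, h⟩
      exact ⟨_, eo_mem_sS.2 h⟩
  · constructor
    · rintro ⟨b, hb, h1⟩
      obtain ⟨β, rfl⟩ := mem_omω.1 hb
      rw [isSub_iff] at h1
      refine ⟨β, fun ν hν hx => ?_⟩
      exact absurd (eo_mem.1 (h1 (eo_mem_sS.2 hx))) (not_lt.2 hν)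
    · rintro ⟨β, h⟩
      refine ⟨eo β, mem_omω.2 ⟨β, rfl⟩, (isSub_iff _ _).2 ?_⟩
      rw [ZFSet.subset_def]
      intro z hz
      obtain ⟨ν, h1, rfl⟩ := mem_sS.1 hz
      exact eo_mem.2 (not_le.1 fun h2 => h ν h2 h1)

theorem lexLt_sS (x y : Wω → Prop) : PlainE.LexLt EZ (sS x) (sS y) ↔ ltp x y := by
  unfold PlainE.LexLt ltp
  constructor
  · rintro ⟨n, h1, h2, h3⟩
    obtain ⟨ν, h4, rfl⟩ := mem_sS.1 h3
    refine ⟨ν, fun μ hμ => ?_, fun h5 => h2 (eo_mem_sS.2 h5), h4⟩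
    have h6 := h1 _ (eo_mem.2 hμ)
    exact eo_mem_sS.symm.trans (h6.trans eo_mem_sS)
  · rintro ⟨ν, h1, h2, h3⟩
    refine ⟨eo ν, fun m hm => ?_, fun h4 => h2 (eo_mem_sS.1 h4), eo_mem_sS.2 h3⟩
    obtain ⟨μ, hμ, rfl⟩ := mem_eo.1 hm
    exact eo_mem_sS.trans ((h1 μ hμ).trans eo_mem_sS.symm)

/-- The set of the pairs of sets of ordinals below `ω_ω` whose indicator functions are related. -/
noncomputable def rS (G : (Wω → Prop) → (Wω → Prop) → Prop) : ZFSet.{0} :=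
  ZFSet.sep (fun p => ∃ x y, G x y ∧ ZFSet.pair (sS x) (sS y) = p)
    (ZFSet.prod (ZFSet.powerset omω.toZFSet) (ZFSet.powerset omω.toZFSet))

theorem mem_rS {G : (Wω → Prop) → (Wω → Prop) → Prop} {a b : ZFSet.{0}} :
    InRel EZ (rS G) a b ↔ ∃ x y, G x y ∧ sS x = a ∧ sS y = b := by
  rw [inRel_iff]
  unfold rS
  rw [ZFSet.mem_sep, ZFSet.pair_mem_prod, ZFSet.mem_powerset, ZFSet.mem_powerset]
  constructor
  · rintro ⟨_, x, y, h, h'⟩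
    rw [ZFSet.pair_inj] at h'
    exact ⟨x, y, h, h'⟩
  · rintro ⟨x, y, h, rfl, rfl⟩
    exact ⟨⟨sS_sub x, sS_sub y⟩, x, y, h, rfl⟩

/-- The partition statement in the universe of sets. -/
theorem etaArrow_iff : PlainE.EtaArrow EZ ↔ Target := by
  rw [target_iff]
  have hw : PlainE.EtaArrow EZ ↔ ∀ g, PlainE.TriangleFree EZ omω.toZFSet g →
      ∃ h, PlainE.IndependentCopy EZ omω.toZFSet g h := by
    unfold PlainE.EtaArrow
    simp only [isOmegaOmega_iff, forall_eq]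
  rw [hw]
  constructor
  · intro hE G hsym htri
    obtain ⟨h, h1, _, h3, h4⟩ := hE (rS fun x y => Rp x ∧ Rp y ∧ G x y) (by
      refine ⟨fun a b _ _ hab => ?_, fun a b c _ _ _ hh => ?_⟩
      · obtain ⟨x, y, hG, rfl, rfl⟩ := mem_rS.1 hab
        exact mem_rS.2 ⟨y, x, ⟨hG.2.1, hG.1, hsym _ _ hG.2.2⟩, rfl, rfl⟩
      · obtain ⟨x, y, hG, rfl, rfl⟩ := mem_rS.1 hh.1
        obtain ⟨y', z, hG', h5, rfl⟩ := mem_rS.1 hh.2.1
        obtain ⟨x', z', hG'', h6, h7⟩ := mem_rS.1 hh.2.2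
        have e1 := sS_inj h5
        have e2 := sS_inj h6
        have e3 := sS_inj h7
        subst e1 e2 e3
        exact htri _ _ _ hG.1 hG.2.1 hG'.2.1 ⟨hG.2.2, hG'.2.2, hG''.2.2⟩)
    have h5 : ∀ x, ∃ y : ZFSet.{0}, Rp x →
        PlainE.InR EZ omω.toZFSet y ∧ InRel EZ h (sS x) y := by
      intro x
      by_cases hx : Rp x
      · obtain ⟨y, hy⟩ := h1 _ ((inR_sS x).2 hx)
        exact ⟨y, fun _ => hy⟩
      · exact ⟨∅, fun h => absurd h hx⟩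
    choose f hf using h5
    have h6 : ∀ x, Rp x → sS (pS (f x)) = f x := fun x hx => sS_pS (sub_of_inR (hf x hx).1)
    have h7 : ∀ x, Rp x → Rp (pS (f x)) := fun x hx => by
      rw [← inR_sS, h6 x hx]
      exact (hf x hx).1
    refine ⟨fun x => pS (f x), h7, fun x y hx hy hxy => ?_, fun x y hx hy hG => ?_⟩
    · rw [← lexLt_sS, h6 x hx, h6 y hy]
      exact h3 _ _ _ _ ((inR_sS x).2 hx) ((inR_sS y).2 hy) (hf x hx).1 (hf y hy).1 (hf x hx).2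
        (hf y hy).2 ((lexLt_sS x y).2 hxy)
    · refine h4 _ _ _ _ ((inR_sS x).2 hx) ((inR_sS y).2 hy) (hf x hx).1 (hf y hy).1 (hf x hx).2
        (hf y hy).2 (mem_rS.2 ⟨pS (f x), pS (f y), ⟨h7 x hx, h7 y hy, hG⟩, h6 x hx, h6 y hy⟩)
  · intro hT g hg
    obtain ⟨Φ, h1, h2, h3⟩ := hT (fun x y => Rp x ∧ Rp y ∧ InRel EZ g (sS x) (sS y))
      (fun x y h => ⟨h.2.1, h.1, hg.1 _ _ ((inR_sS x).2 h.1) ((inR_sS y).2 h.2.1) h.2.2⟩)
      (fun x y z hx hy hz h => hg.2 _ _ _ ((inR_sS x).2 hx) ((inR_sS y).2 hy) ((inR_sS z).2 hz)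
        ⟨h.1.2.2, h.2.1.2.2, h.2.2.2.2⟩)
    have hp : ∀ a, PlainE.InR EZ omω.toZFSet a → Rp (pS a) ∧ sS (pS a) = a := fun a ha => by
      have h4 := sS_pS (sub_of_inR ha)
      refine ⟨?_, h4⟩
      rw [← inR_sS, h4]
      exact ha
    refine ⟨rS fun x y => Rp x ∧ y = Φ x, fun a ha => ?_, ?_, ?_, ?_⟩
    · obtain ⟨h4, h5⟩ := hp a ha
      exact ⟨sS (Φ (pS a)), (inR_sS _).2 (h1 _ h4), mem_rS.2 ⟨pS a, _, ⟨h4, rfl⟩, h5, rfl⟩⟩
    · intro a b b' _ _ _ hb hb'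
      obtain ⟨x, y, ⟨_, rfl⟩, rfl, rfl⟩ := mem_rS.1 hb
      obtain ⟨x', y', ⟨_, rfl⟩, h5, rfl⟩ := mem_rS.1 hb'
      rw [sS_inj h5]
    · intro a a' b b' _ _ _ _ hb hb' hlt
      obtain ⟨x, y, ⟨hx, rfl⟩, rfl, rfl⟩ := mem_rS.1 hb
      obtain ⟨x', y', ⟨hx', rfl⟩, rfl, rfl⟩ := mem_rS.1 hb'
      rw [lexLt_sS] at hlt ⊢
      exact h2 _ _ hx hx' hlt
    · intro a a' b b' _ _ _ _ hb hb' hG
      obtain ⟨x, y, ⟨hx, rfl⟩, rfl, rfl⟩ := mem_rS.1 hb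
      obtain ⟨x', y', ⟨hx', rfl⟩, rfl, rfl⟩ := mem_rS.1 hb'
      exact h3 x x' hx hx' ⟨h1 _ hx, h1 _ hx', hG⟩

/-- In the universe `ZFSet` of sets the first-order sentence is the frozen statement S14565. -/
theorem sat_ZFSet_etaSentence :
    Sat (M := ZFSet.{0}) (fun x y => x ∈ y) etaSentence ↔ Target := by
  rw [sat_etaSentence_iff]
  exact etaArrow_iff

end Pool.Agent.H.MP_353193_lc.BV
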