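import Pool.Agent.H.MP_353193_lc.BV.T3
import Pool.Agent.H.MP_353193_lc.BV.T7
import Pool.Agent.H.MP_353193_lc.BV.T8
import Pool.Agent.H.MP_353193_lc.BV.TA3
import Pool.Agent.H.MP_8ff4bd_gt.M3.PropZF
import Pool.Agent.H.MP_8ff4bd_gt.M3.S.Indep

/-!
# Assembly of the translation part
-/

set_option autoImplicit false

namespace Pool.Agent.H.MP_353193_lc.BV

open FirstOrder Pool.Agent.H.MP_8ff4bd_gt.M3
open _root_.M3 (BCCC)

universe u

/-- In the universe of names over a ccc algebra with the combinatorial core the partition relation has the value `⊥`. -/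
theorem bval_eta_bot {B : Type} [CompleteBooleanAlgebra B] [Nontrivial B] (hB : BCCC B)
    (h : Core B Wω) : (_root_.M3.BSet.str B).bval etaSentence default default = ⊥ := by
  rw [bval_etaSentence]
  exact (bEta_eq hB).trans (sv_eq_bot h)

/-- The final theorem, from the combinatorial core. -/
theorem final_of
    (hcore : ∃ (B : Type) (_ : CompleteBooleanAlgebra B) (_ : Nontrivial B), BCCC B ∧
      Core B Wω) :
    ∃ φ : LSet.Sentence,
    (∀ (M : Type u) (E : M → M → Prop), Sat E φ ↔ PlainE.EtaArrow E) ∧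
    (Sat (fun x y : ZFSet.{0} => x ∈ y) φ ↔ Target) ∧
    (∀ (M : Type u) (E : M → M → Prop),
      @FirstOrder.Language.Theory.Model LSet M (epsStr E) ZFC ↔ ZFCModel E) ∧
    ZFCModel (fun x y : ZFSet.{0} => x ∈ y) ∧
    ¬ (ZFC ⊨ᵇ φ) := by
  refine ⟨etaSentence, fun M E => sat_etaSentence_iff E, sat_ZFSet_etaSentence,
    fun M E => model_ZFC_iff, _root_.M3.BSet.zfcModel_ZFSet, ?_⟩
  obtain ⟨B, _, _, hB, h⟩ := hcore
  refine (_root_.M3.BSet.bzfc (B := B)).not_models _ ?_
  rw [bval_etaSentence, bEta_eq hB]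
  exact sv_ne_top h

end Pool.Agent.H.MP_353193_lc.BV
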