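import Pool.Agent.H.MP_353193_lc.BV.T10
import Pool.Agent.H.MP_353193_lc.BV.O7

/-!
# The value of the sentence for one Cohen real
-/

set_option autoImplicit false

namespace Pool.Agent.H.MP_353193_lc.BV

/-- The second-order form of the relation has the value `⊥` for the algebra of one Cohen real. -/
theorem sv_one : sv (_root_.M3.RO One.Cd) Wω = ⊥ := sv_eq_bot One.core_one

end Pool.Agent.H.MP_353193_lc.BV
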