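import Pool.Agent.H.MP_353193_lc.BV.TN
import Pool.Agent.H.MP_8ff4bd_gt.M3.S.SentenceB

/-!
# The first-order sentence of the partition statement and its value
-/

set_option autoImplicit false

namespace Pool.Agent.H.MP_353193_lc.BV

open FirstOrder Pool.Agent.H.MP_8ff4bd_gt.M3
open scoped symmDiff

universe u v

section formulas

variable {n : ℕ}

/-- `|x| ≤ |y|` -/
def fLeCard (x y : Fin n) : Fm n :=
  fEx fun r => fTotal (u1 x) (u1 y) r ⊓
    fAll fun t => fAll fun t' => fAll fun k =>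
      (fMem (u2 t) (u3 (u1 x)) ⊓ fMem (u1 t') (u3 (u1 x)) ⊓ fMem k (u3 (u1 y)) ⊓
        fRel (u3 r) (u2 t) k ⊓ fRel (u3 r) (u1 t') k).imp (fEq (u2 t) (u1 t'))

/-- `c` is a cardinal -/
def fCard (c : Fin n) : Fm n :=
  fOrd c ⊓ fAll fun y => (fMem y (u1 c)).imp (fLeCard (u1 c) y).not

/-- `ω ∈ x`, and every element of `x` is an element of some cardinal in `x` -/
def fLimC (x : Fin n) : Fm n :=
  (fEx fun o => fOmega o ⊓ fMem o (u1 x)) ⊓
    fAll fun b => (fMem b (u1 x)).imp (fEx fun c => fMem c (u2 x) ⊓ fCard c ⊓ fMem (u1 b) c)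

/-- `w = ω_ω` -/
def fIsOm (w : Fin n) : Fm n :=
  fOrd w ⊓ fLimC w ⊓ fAll fun a => (fMem a (u1 w)).imp (fLimC a).not

/-- `x` is nonempty and a subset of some element of `w` -/
def fRes (w x : Fin n) : Fm n :=
  (fEx fun z => fMem z (u1 x)) ⊓ fEx fun b => fMem b (u1 w) ⊓ fSubset (u1 x) b

/-- the lexicographic order -/
def fLex (x y : Fin n) : Fm n :=
  fEx fun k => (fAll fun m => (fMem m (u1 k)).imp ((fMem m (u2 x)).iff (fMem m (u2 y)))) ⊓
    (fMem k (u1 x)).not ⊓ fMem k (u1 y)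

/-- `g` is symmetric on `R` -/
def fSymm (w g : Fin n) : Fm n :=
  fAll fun x => fAll fun y =>
    (fRes (u2 w) (u1 x) ⊓ fRes (u2 w) y ⊓ fRel (u2 g) (u1 x) y).imp (fRel (u2 g) y (u1 x))

/-- `g` has no triangle in `R` -/
def fTriFree (w g : Fin n) : Fm n :=
  fAll fun x => fAll fun y => fAll fun z =>
    (fRes (u3 w) (u2 x) ⊓ fRes (u3 w) (u1 y) ⊓ fRes (u3 w) z ⊓ fRel (u3 g) (u2 x) (u1 y) ⊓
      fRel (u3 g) (u1 y) z ⊓ fRel (u3 g) (u2 x) z).not

/-- `h` is a strictly increasing function from `R` to `R` with independent image -/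
def fEmb (w g h : Fin n) : Fm n :=
  (fAll fun x => (fRes (u1 w) x).imp (fEx fun y => fRes (u2 w) y ⊓ fRel (u2 h) (u1 x) y)) ⊓
  (fAll fun x => fAll fun y => fAll fun y' =>
    (fRes (u3 w) (u2 x) ⊓ fRes (u3 w) (u1 y) ⊓ fRes (u3 w) y' ⊓ fRel (u3 h) (u2 x) (u1 y) ⊓
      fRel (u3 h) (u2 x) y').imp (fEq (u1 y) y')) ⊓
  (fAll fun x => fAll fun x' => fAll fun y => fAll fun y' =>
    (fRes (u1 (u3 w)) (u3 x) ⊓ fRes (u1 (u3 w)) (u2 x') ⊓ fRes (u1 (u3 w)) (u1 y) ⊓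
      fRes (u1 (u3 w)) y' ⊓ fRel (u1 (u3 h)) (u3 x) (u1 y) ⊓ fRel (u1 (u3 h)) (u2 x') y' ⊓
        fLex (u3 x) (u2 x')).imp (fLex (u1 y) y')) ⊓
  (fAll fun x => fAll fun x' => fAll fun y => fAll fun y' =>
    (fRes (u1 (u3 w)) (u3 x) ⊓ fRes (u1 (u3 w)) (u2 x') ⊓ fRes (u1 (u3 w)) (u1 y) ⊓
      fRes (u1 (u3 w)) y' ⊓ fRel (u1 (u3 h)) (u3 x) (u1 y) ⊓ fRel (u1 (u3 h)) (u2 x') y' ⊓
        fRel (u1 (u3 g)) (u1 y) y').not)

end formulas

/-- The sentence of the partition statement. -/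
def etaSentence : LSet.Sentence :=
  (fAll fun w => (fIsOm w).imp (fAll fun g => (fSymm (u1 w) g ⊓ fTriFree (u1 w) g).imp
    (fEx fun h => fEmb (u2 w) (u1 g) h)) : Fm 0)

section values

variable {B : Type u} [CompleteBooleanAlgebra B] {V : Type v} (S : BStr B V)
  {n : ℕ} (v : Empty → V) (xs : Fin n → V)

theorem bval_fLeCard (x y : Fin n) :
    S.bval (fLeCard x y) v xs = bLeCard S (xs x) (xs y) := by
  simp only [fLeCard, bLeCard, BStr.bval_fEx, BStr.bval_inf, BStr.bval_fTotal, BStr.bval_fAll,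
    BStr.bval_imp, BStr.bval_fMem, BStr.bval_fRel, BStr.bval_fEq, BStr.snoc_u1, BStr.snoc_last]

theorem bval_fCard (c : Fin n) : S.bval (fCard c) v xs = bCard S (xs c) := by
  simp only [fCard, bCard, BStr.bval_inf, BStr.bval_fOrd, BStr.bval_fAll, BStr.bval_not,
    BStr.bval_imp, BStr.bval_fMem, bval_fLeCard, BStr.snoc_u1, BStr.snoc_last]

theorem bval_fLimC (x : Fin n) : S.bval (fLimC x) v xs = bLimC S (xs x) := by
  simp only [fLimC, bLimC, BStr.bval_inf, BStr.bval_fEx, BStr.bval_fOmega, BStr.bval_fAll,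
    BStr.bval_imp, BStr.bval_fMem, bval_fCard, BStr.snoc_u1, BStr.snoc_last]

theorem bval_fIsOm (w : Fin n) : S.bval (fIsOm w) v xs = bIsOm S (xs w) := by
  simp only [fIsOm, bIsOm, BStr.bval_inf, BStr.bval_fOrd, BStr.bval_fAll, BStr.bval_not,
    BStr.bval_imp, BStr.bval_fMem, bval_fLimC, BStr.snoc_u1, BStr.snoc_last]

theorem bval_fRes (w x : Fin n) : S.bval (fRes w x) v xs = bRes S (xs w) (xs x) := by
  simp only [fRes, bRes, BStr.bval_inf, BStr.bval_fEx, BStr.bval_fSubset, BStr.bval_fMem,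
    BStr.snoc_u1, BStr.snoc_last]

theorem bval_fLex (x y : Fin n) : S.bval (fLex x y) v xs = bLex S (xs x) (xs y) := by
  simp only [fLex, bLex, BStr.bval_inf, BStr.bval_fEx, BStr.bval_fAll, BStr.bval_imp,
    BStr.bval_iff, BStr.bval_not, BStr.bval_fMem, BStr.snoc_u1, BStr.snoc_last]

theorem bval_fSymm (w g : Fin n) : S.bval (fSymm w g) v xs = bSymm S (xs w) (xs g) := by
  simp only [fSymm, bSymm, BStr.bval_inf, BStr.bval_fAll, BStr.bval_imp, BStr.bval_fRel,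
    bval_fRes, BStr.snoc_u1, BStr.snoc_last]

theorem bval_fTriFree (w g : Fin n) :
    S.bval (fTriFree w g) v xs = bTriFree S (xs w) (xs g) := by
  simp only [fTriFree, bTriFree, BStr.bval_inf, BStr.bval_fAll, BStr.bval_not, BStr.bval_fRel,
    bval_fRes, BStr.snoc_u1, BStr.snoc_last]

theorem bval_fEmb (w g h : Fin n) :
    S.bval (fEmb w g h) v xs = bEmb S (xs w) (xs g) (xs h) := by
  simp only [fEmb, bEmb, BStr.bval_inf, BStr.bval_fAll, BStr.bval_fEx, BStr.bval_imp,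
    BStr.bval_not, BStr.bval_fRel, BStr.bval_fEq, bval_fRes, bval_fLex, BStr.snoc_u1,
    BStr.snoc_last]

/-- The value of the sentence. -/
theorem bval_etaSentence (v : Empty → V) (xs : Fin 0 → V) :
    S.bval etaSentence v xs = bEta S := by
  simp only [etaSentence, bEta, BStr.bval_fAll, BStr.bval_fEx, BStr.bval_imp, BStr.bval_inf,
    bval_fIsOm, bval_fSymm, bval_fTriFree, bval_fEmb, BStr.snoc_u1, BStr.snoc_last]

end values

end Pool.Agent.H.MP_353193_lc.BV
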