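import Pool.Agent.H.MP_353193_lc.BV.TN
import Pool.Agent.H.MP_353193_lc.BV.SV
import Pool.Agent.H.MP_8ff4bd_gt.M3.StrRel
import Pool.Agent.H.MP_8ff4bd_gt.M3.Ord
import Pool.Agent.H.MP_8ff4bd_gt.M3.TR

/-!
# Names of subsets of a well-order
-/

set_option autoImplicit false

namespace Pool.Agent.H.MP_353193_lc.BV

open Pool.Agent.H.MP_8ff4bd_gt.M3
open _root_.M3 _root_.M3.BSet

variable {B : Type} [CompleteBooleanAlgebra B] {W : Type} [LinearOrder W] [WellFoundedLT W]

/-- the name of the set given by `x : W → B` -/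
noncomputable def sn (x : W → B) : BSet B := subName (fun a : W => (vN a : BSet B)) x

theorem bmem_sn (x : W → B) (a : W) : bmem (vN a) (sn x) = x a :=
  bmem_subName_of_discrete discrete_vN x a

theorem bmem_vN_bot {a b : W} (h : ¬ a < b) : bmem (vN a : BSet B) (vN b) = ⊥ := by
  rw [bmem_vN, iSup_eq_bot]
  rintro ⟨c, hc⟩
  exact beq_vN fun hac => h (by rw [hac]; exact hc)

/-- `le_beq_iff`, `bmem_sn` -/
theorem beq_sn (x y : W → B) : beq (sn x) (sn y) = eqv x y := by
  have key : ∀ c : B, c ≤ beq (sn x) (sn y) ↔ c ≤ eqv x y := by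
    intro c
    rw [le_beq_iff]
    change ((∀ a : W, c ⊓ x a ≤ bmem (vN a) (sn y)) ∧ (∀ a : W, c ⊓ y a ≤ bmem (vN a) (sn x))) ↔ _
    simp only [bmem_sn]
    unfold eqv
    simp only [le_iInf_iff, le_bihimp_iff, forall_and, inf_comm c]
    exact and_comm
  exact le_antisymm ((key _).1 le_rfl) ((key _).2 le_rfl)

theorem bsub_trans {c : B} {x y z : BSet B} (h1 : c ≤ bsub x y) (h2 : c ≤ bsub y z) :
    c ≤ bsub x z := by
  rw [bsub_eq]
  refine le_iInf fun t => bv_imp fun Δ hΔ ht => ?_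
  have h3 : Δ ≤ bmem t y := (le_inf (hΔ.trans h1) ht).trans (bsub_inf_bmem t x y)
  exact (le_inf (hΔ.trans h2) h3).trans (bsub_inf_bmem t y z)

/-- every name `x` equals `sn (fun a => bmem (vN a) x)` as far as `x ⊆ W`; `b ∈ W` implies `b ⊆ W`, `bsub_fam_le`, `wN_eq_fam` -/
theorem res_le_beq (x : BSet B) :
    bRes (str B) (wN W) x ≤ beq x (sn fun a : W => bmem (vN a) x) := by
  refine le_trans ?_ (bsub_fam_le (fun a : W => (vN a : BSet B)) x)
  rw [← wN_eq_fam]
  unfold bRes
  simp only [str_mem, str_bSubset]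
  refine bv_exists inf_le_right fun b Δ _ hb => ?_
  refine bsub_trans (bv_right hb) ?_
  have h1 : Δ ≤ bTrans (wN W : BSet B) := bOrd_trans (le_top.trans bOrd_wN.ge)
  rw [bsub_eq]
  exact bv_mp (bv_all h1 b) (bv_left hb)

/-- `bRes` is extensional in `x` -/
theorem ext_res (w : BSet B) : Ext (fun x => bRes (str B) w x) := by
  unfold bRes
  simp only [str_mem, str_bSubset]
  exact (Ext.iSup fun z => ext_bmem_right z).inf
    (Ext.iSup fun b => (ext_const _).inf (ext_bsub_left b))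

theorem ext_res' (x : BSet B) : Ext (fun w => bRes (str B) w x) := by
  unfold bRes
  simp only [str_mem, str_bSubset]
  exact (ext_const _).inf (Ext.iSup fun b => (ext_bmem_right b).inf (ext_const _))

/-- `⨆ z, bmem z (sn x) = ⨆ a, x a`; `bsub (sn x) (vN b) = ⨅ a, (x a ⇨ bmem (vN a) (vN b))`, and `bmem (vN a) (vN b)` is `⊤` if
`a < b`, otherwise `⊥`. -/
theorem res_sn (x : W → B) : bRes (str B) (wN W) (sn x) = Rv x := by
  unfold bRes Rv
  simp only [str_mem, str_bSubset]
  congr 1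
  · apply le_antisymm
    · refine iSup_le fun z => ?_
      unfold sn
      rw [bmem_subName]
      exact iSup_mono fun a => inf_le_left
    · refine iSup_le fun a => ?_
      rw [← bmem_sn x a]
      exact le_iSup (fun z => bmem z (sn x)) (vN a)
  · rw [wN_eq_fam, iSup_fam _ (ext_bsub_right (sn x))]
    congr 1
    funext b
    change (⨅ a : W, x a ⇨ bmem (vN a) (vN b)) = _
    apply le_antisymm
    · refine le_iInf fun a => (iInf_le _ a.1).trans ?_
      rw [bmem_vN_bot (not_lt.2 a.2), himp_bot]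
    · refine le_iInf fun a => ?_
      by_cases h : a < b
      · rw [vN_mem_vN h, himp_top]
        exact le_top
      · rw [bmem_vN_bot h, himp_bot]
        exact iInf_le (fun a : {a : W // b ≤ a} => (x a.1)ᶜ) ⟨a, not_lt.1 h⟩

theorem ext_lex (y : BSet B) : Ext (fun x => bLex (str B) x y) := by
  unfold bLex
  simp only [str_mem]
  exact Ext.iSup fun n => ((Ext.iInf fun m => (ext_const _).himp
    ((ext_bmem_right m).bihimp (ext_const _))).inf (ext_bmem_right n).compl).inf (ext_const _)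

theorem ext_lex' (x : BSet B) : Ext (fun y => bLex (str B) x y) := by
  unfold bLex
  simp only [str_mem]
  exact Ext.iSup fun n => ((Ext.iInf fun m => (ext_const _).himp
    ((ext_const _).bihimp (ext_bmem_right m))).inf (ext_const _)).inf (ext_bmem_right n)

/-- `iSup_idx` and `iInf_fam` (`vN_eq_fam`) -/
theorem lex_sn (x y : W → B) : bLex (str B) (sn x) (sn y) = ltv x y := by
  unfold bLex ltv
  simp only [str_mem]
  have hext : Ext (fun n : BSet B => (⨅ m, (bmem m n ⇨ bihimp (bmem m (sn x)) (bmem m (sn y)))) ⊓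
      (bmem n (sn x))ᶜ) :=
    (Ext.iInf fun m => (ext_bmem_right m).himp (ext_const _)).inf (ext_bmem_left (sn x)).compl
  have h1 := iSup_idx hext (sn y)
  have h2 : (⨆ n : BSet B, (⨅ m, (bmem m n ⇨ bihimp (bmem m (sn x)) (bmem m (sn y)))) ⊓
      (bmem n (sn x))ᶜ ⊓ bmem n (sn y)) = ⨆ a : W, y a ⊓
        ((⨅ m, (bmem m (vN a) ⇨ bihimp (bmem m (sn x)) (bmem m (sn y)))) ⊓
          (bmem (vN a) (sn x))ᶜ) := by
    refine Eq.trans ?_ h1.symm
    congr 1
    funext n
    rw [inf_comm]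
  refine h2.trans ?_
  congr 1
  funext a
  have h3 : (⨅ m, (bmem m (vN a) ⇨ bihimp (bmem m (sn x)) (bmem m (sn y)))) =
      ⨅ μ : {μ : W // μ < a}, bihimp (x μ) (y μ) := by
    rw [vN_eq_fam, iInf_fam _ ((ext_bmem_left (sn x)).bihimp (ext_bmem_left (sn y)))]
    simp only [bmem_sn]
  rw [h3, bmem_sn, inf_comm]

/-- reduction of quantifiers over `R` -/
theorem iInf_res {φ : BSet B → B} (h : Ext φ) :
    (⨅ x, (bRes (str B) (wN W) x ⇨ φ x)) = ⨅ x : W → B, (Rv x ⇨ φ (sn x)) := by
  apply le_antisymm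
  · refine le_iInf fun x => (iInf_le _ (sn x)).trans ?_
    rw [res_sn]
  · refine le_iInf fun x => bv_imp fun Δ hΔ hx => ?_
    have h1 : Δ ≤ beq x (sn fun a : W => bmem (vN a) x) := hx.trans (res_le_beq x)
    have h2 : Δ ≤ Rv (fun a : W => bmem (vN a) x) := by
      rw [← res_sn]
      exact (ext_res (wN W)).le h1 hx
    exact h.le (beq_symm' h1) (bv_mp (bv_all hΔ _) h2)

theorem iSup_res {φ : BSet B → B} (h : Ext φ) :
    (⨆ x, bRes (str B) (wN W) x ⊓ φ x) = ⨆ x : W → B, Rv x ⊓ φ (sn x) := by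
  apply le_antisymm
  · refine iSup_le fun x => ?_
    have h1 : bRes (str B) (wN W) x ⊓ φ x ≤ beq x (sn fun a : W => bmem (vN a) x) :=
      inf_le_left.trans (res_le_beq x)
    refine bv_intro (f := fun x : W → B => Rv x ⊓ φ (sn x)) (fun a : W => bmem (vN a) x)
      (le_inf ?_ ?_)
    · rw [← res_sn]
      exact (ext_res (wN W)).le h1 inf_le_left
    · exact h.le h1 inf_le_right
  · refine iSup_le fun x => ?_
    rw [← res_sn]
    exact le_iSup (fun x => bRes (str B) (wN W) x ⊓ φ x) (sn x)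

end Pool.Agent.H.MP_353193_lc.BV
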