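import Pool.Agent.H.MP_353193_lc.BV.TN
import Pool.Agent.H.MP_8ff4bd_gt.M3.Omega1

/-!
# Cardinals in the Boolean-valued universe under the countable chain condition
-/

set_option autoImplicit false

namespace Pool.Agent.H.MP_353193_lc.BV

open Pool.Agent.H.MP_8ff4bd_gt.M3
open _root_.M3 _root_.M3.BSet

variable {B : Type} [CompleteBooleanAlgebra B]

/-- The clause of `bLeCard` for a fixed relation. -/
def t5_cl (x y r : BSet B) : B :=
  (⨅ t, (bmem t x ⇨ ⨆ n, bmem n y ⊓ pmem t n r)) ⊓
    ⨅ t, ⨅ t', ⨅ n, (bmem t x ⊓ bmem t' x ⊓ bmem n y ⊓ pmem t n r ⊓ pmem t' n r ⇨ beq t t')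

theorem t5_leCard (x y : BSet B) : bLeCard (str B) x y = ⨆ r, t5_cl x y r := by
  unfold bLeCard t5_cl
  simp only [str_mem, str_eq, str_bRel]

theorem ext_leCard (y : BSet B) : Ext (fun x => bLeCard (str B) x y) := by
  simp only [t5_leCard]
  unfold t5_cl
  refine Ext.iSup fun r => Ext.inf (Ext.iInf fun t => (ext_bmem_right t).himp (ext_const _))
    (Ext.iInf fun t => Ext.iInf fun t' => Ext.iInf fun n => ?_)
  refine Ext.himp ?_ (ext_const _)
  exact ((((ext_bmem_right t).inf (ext_bmem_right t')).inf (ext_const _)).inf (ext_const _)).inf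
    (ext_const _)

theorem ext_leCard' (x : BSet B) : Ext (fun y => bLeCard (str B) x y) := by
  simp only [t5_leCard]
  unfold t5_cl
  refine Ext.iSup fun r => Ext.inf (Ext.iInf fun t => (ext_const _).himp (Ext.iSup fun n =>
      (ext_bmem_right n).inf (ext_const _)))
    (Ext.iInf fun t => Ext.iInf fun t' => Ext.iInf fun n => ?_)
  refine Ext.himp ?_ (ext_const _)
  exact (((ext_const _).inf (ext_bmem_right n)).inf (ext_const _)).inf (ext_const _)

theorem ext_card : Ext (fun x : BSet B => bCard (str B) x) := by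
  unfold bCard
  simp only [str_bOrd, str_mem]
  exact ext_bOrd.inf (Ext.iInf fun y => (ext_bmem_right y).himp (ext_leCard y).compl)

/-- As `iSup_bInj_fam` in M3/Omega1.lean (the second family is discrete). -/
theorem leCard_fam_top {X Y : Type} (a : X → BSet B) {b : Y → BSet B} (hb : Discrete b)
    (e : X ↪ Y) : bLeCard (str B) (fam a) (fam b) = ⊤ := by
  classical
  rw [eq_top_iff, t5_leCard]
  let R : X → Y → B := fun i j => ⨆ _ : j = e i, ⊤
  refine bv_intro (relName a b R) (le_inf ?_ ?_)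
  · have hE : Ext (fun t => ⨆ n, bmem n (fam b) ⊓ pmem t n (relName a b R)) :=
      Ext.iSup fun n => (ext_const _).inf (ext_pmem₁ n _)
    rw [iInf_fam a hE]
    refine le_iInf fun i => ?_
    refine bv_intro (f := fun n => bmem n (fam b) ⊓ pmem (a i) n (relName a b R)) (b (e i)) ?_
    refine le_inf (le_top.trans (mem_fam b _).ge) ?_
    rw [pmem_relName]
    refine bv_intro (f := fun i' => ⨆ j, R i' j ⊓ (beq (a i) (a i') ⊓ beq (b (e i)) (b j))) i ?_
    refine bv_intro (f := fun j => R i j ⊓ (beq (a i) (a i) ⊓ beq (b (e i)) (b j))) (e i) ?_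
    simp [R]
  · refine le_iInf fun t => le_iInf fun t' => le_iInf fun n => bv_imp fun Δ _ h => ?_
    have h1 : Δ ≤ pmem t n (relName a b R) := bv_right (bv_left h)
    have h2 : Δ ≤ pmem t' n (relName a b R) := bv_right h
    rw [pmem_relName] at h1 h2
    refine bv_exists h1 fun i E hE h3 => bv_exists h3 fun j F hF h4 => ?_
    refine bv_exists ((hF.trans hE).trans h2) fun i' G hG h5 => bv_exists h5 fun j' H hH h6 => ?_
    have hHF : H ≤ F := hH.trans hG
    refine bv_exists (bv_left (hHF.trans h4)) fun hj K hK _ => ?_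
    refine bv_exists (hK.trans (bv_left h6)) fun hj' L hL _ => ?_
    have hLH : L ≤ H := hL.trans hK
    have e1 : L ≤ beq n (b j) := (hLH.trans hHF).trans (bv_right (bv_right h4))
    have e2 : L ≤ beq n (b j') := hLH.trans (bv_right (bv_right h6))
    have e3 : L ≤ beq t (a i) := (hLH.trans hHF).trans (bv_left (bv_right h4))
    have e4 : L ≤ beq t' (a i') := hLH.trans (bv_left (bv_right h6))
    by_cases hjj : j = j'
    · have hii : i = i' := e.injective (by rw [← hj, ← hj', hjj])
      subst hii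
      exact beq_trans' e3 (beq_symm' e4)
    · refine le_trans ?_ bot_le
      rw [← hb j j' hjj]
      exact beq_trans' (beq_symm' e1) e2

/-- As `bInj_fam_bot` in M3/Omega1.lean: let `Γ ≠ ⊥` be below the value of the clause for some `r`. For every `i : X` there is
`j i : Y` with `Γ ⊓ pmem (a i) (b (j i)) r ≠ ⊥`. For fixed `j₀` the elements `Γ ⊓ pmem (a i) (b j₀) r` with `j i = j₀` are
pairwise disjoint and not `⊥`, so (ccc, `BCCC.countable_index`) there are countably many of them; so
`#X ≤ #Y * ℵ₀ ≤ max #Y ℵ₀` (`Cardinal.mk_le_of_surjective`/`Cardinal.mk_iUnion_le`, `Cardinal.mk_sigma`). -/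
theorem leCard_fam_bot {X Y : Type} (hB : BCCC B) {a : X → BSet B} (ha : Discrete a)
    (b : Y → BSet B) (h : max (Cardinal.mk Y) Cardinal.aleph0 < Cardinal.mk X) :
    bLeCard (str B) (fam a) (fam b) = ⊥ := by
  rw [t5_leCard, iSup_eq_bot]
  intro r
  by_contra hne
  obtain ⟨Γ, hΓ⟩ : ∃ Γ : B, Γ = t5_cl (fam a) (fam b) r := ⟨_, rfl⟩
  rw [← hΓ] at hne
  have h1 : ∀ i, ∃ j : Y, Γ ⊓ pmem (a i) (b j) r ≠ ⊥ := by
    intro i
    by_contra hc
    push Not at hc
    apply hne
    rw [← le_bot_iff]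
    have h2 : Γ ≤ ⨆ n, bmem n (fam b) ⊓ pmem (a i) n r :=
      bv_mp (bv_all (bv_left hΓ.le) (a i)) (le_top.trans (mem_fam a i).ge)
    refine bv_exists h2 fun n Δ hΔ hn => ?_
    have h3 := bv_left hn
    rw [bmem_fam] at h3
    refine bv_exists h3 fun j E hE hj => ?_
    rw [← hc j]
    refine le_inf (hE.trans hΔ) ?_
    exact (ext_pmem₂ (a i) r).le hj (hE.trans (bv_right hn))
  choose n hn using h1
  have hctbl : ∀ m : Y, Countable (n ⁻¹' {m} : Set X) := by
    intro m
    have h3 := hB.countable_index (fun i : (n ⁻¹' {m} : Set X) => Γ ⊓ pmem (a i.1) (b m) r) ?_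
    · have h4 : {i : (n ⁻¹' {m} : Set X) | Γ ⊓ pmem (a i.1) (b m) r ≠ ⊥} = Set.univ := by
        refine Set.eq_univ_of_forall fun i => ?_
        have h5 := hn i.1
        have h6 : n i.1 = m := i.2
        rw [h6] at h5
        exact h5
      rw [h4] at h3
      exact Set.countable_univ_iff.mp h3
    · intro i j hij
      rw [← le_bot_iff, ← ha i.1 j.1 (fun h => hij (Subtype.ext h))]
      have h5 : ∀ Δ : B, Δ ≤ Γ → Δ ≤ pmem (a i.1) (b m) r → Δ ≤ pmem (a j.1) (b m) r →
          Δ ≤ beq (a i.1) (a j.1) := by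
        intro Δ hΔ h6 h7
        refine bv_mp (bv_all (bv_all (bv_all (bv_right (hΔ.trans hΓ.le)) (a i.1)) (a j.1))
          (b m)) ?_
        exact le_inf (le_inf (le_inf (le_inf (le_top.trans (mem_fam a _).ge)
          (le_top.trans (mem_fam a _).ge)) (le_top.trans (mem_fam b _).ge)) h6) h7
      exact h5 _ (inf_le_left.trans inf_le_left) (inf_le_left.trans inf_le_right)
        (inf_le_right.trans inf_le_right)
  have h6 : Cardinal.mk X ≤ Cardinal.mk Y * Cardinal.aleph0 := by
    have h7 : Cardinal.mk X = Cardinal.mk (Σ m : Y, (n ⁻¹' {m} : Set X)) :=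
      Cardinal.mk_congr (Equiv.sigmaFiberEquiv n).symm
    rw [h7, Cardinal.mk_sigma]
    refine (Cardinal.sum_le_sum _ (fun _ => Cardinal.aleph0) fun m => ?_).trans ?_
    · have := hctbl m
      exact Cardinal.mk_le_aleph0
    · rw [Cardinal.sum_const]
      simp
  refine absurd h (not_lt.2 (h6.trans ?_))
  exact Cardinal.mul_le_max_of_aleph0_le_right le_rfl

end Pool.Agent.H.MP_353193_lc.BV
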