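import Pool.Agent.H.MP_353193_lc.BV.T5

/-!
# Cardinals and `ω` in the Boolean-valued universe
-/

set_option autoImplicit false

namespace Pool.Agent.H.MP_353193_lc.BV

open Pool.Agent.H.MP_8ff4bd_gt.M3
open _root_.M3 _root_.M3.BSet

variable {B : Type} [CompleteBooleanAlgebra B]

variable {W : Type} [LinearOrder W] [WellFoundedLT W]

/-- ordinals in `W` which are uncountable cardinals stay cardinals: `bOrd_vN`, `iInf_fam` for `vN c`, `leCard_fam_bot` -/
theorem card_vN_top (hB : BCCC B) (c : W)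
    (h : ∀ d : W, d < c → max (Cardinal.mk {b : W // b < d}) Cardinal.aleph0 <
      Cardinal.mk {b : W // b < c}) : bCard (str B) (vN c : BSet B) = ⊤ := by
  have h1 := iInf_fam (fun b : {b : W // b < c} => (vN b.1 : BSet B))
    (φ := fun y => (bLeCard (str B) (vN c : BSet B) y)ᶜ) (ext_leCard' _).compl
  rw [← vN_eq_fam] at h1
  have h2 : ∀ d : {b : W // b < c}, bLeCard (str B) (vN c : BSet B) (vN d.1) = ⊥ := by
    intro d
    rw [vN_eq_fam c, vN_eq_fam d.1]
    exact leCard_fam_bot hB (fun i j hij => beq_vN (fun h => hij (Subtype.ext h))) _ (h d.1 d.2)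
  have h3 : (⨅ y, (bmem y (vN c : BSet B) ⇨ (bLeCard (str B) (vN c : BSet B) y)ᶜ)) = ⊤ := by
    rw [h1, iInf_eq_top]
    intro d
    show (bLeCard (str B) (vN c : BSet B) (vN d.1))ᶜ = ⊤
    rw [h2 d, compl_bot]
  unfold bCard
  rw [str_bOrd, bOrd_vN, top_inf_eq]
  exact h3

/-- `leCard_fam_top` -/
theorem card_vN_bot (c d : W) (h : d < c)
    (e : Nonempty ({x : W // x < c} ↪ {x : W // x < d})) : bCard (str B) (vN c : BSet B) = ⊥ := by
  obtain ⟨e⟩ := e
  have h1 : bLeCard (str B) (vN c : BSet B) (vN d) = ⊤ := by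
    rw [vN_eq_fam c, vN_eq_fam d]
    exact leCard_fam_top _ (fun i j hij => beq_vN (fun h => hij (Subtype.ext h))) e
  have h2 : bCard (str B) (vN c : BSet B) ≤
      (bmem (vN d : BSet B) (vN c) ⇨ (bLeCard (str B) (vN c : BSet B) (vN d))ᶜ) :=
    inf_le_right.trans (iInf_le _ (vN d : BSet B))
  rw [h1, vN_mem_vN h, compl_top, top_himp] at h2
  exact le_bot_iff.1 h2

/-- For `b < o`: `beq (vN b) (ofNat (e b)) = ⊤`, by strong induction on `e b` (the elements of `ofNat n` are the `ofNat m`, `m < n`: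
`bmem z (ofNat n) = ⨆ m : {m // m < n}, beq z (ofNat m)`, induction on `n`, `bmem_insert`). Then `bmem_vN`, `bmem_omega`. -/
theorem beq_vN_omega (o : W) (e : {b : W // b < o} ≃o ℕ) : beq (vN o : BSet B) omega = ⊤ := by
  have hx : ∀ x y : BSet B, (∀ z, bmem z x = bmem z y) → beq x y = ⊤ := by
    intro x y hz
    rw [beq_eq_iInf, iInf_eq_top]
    intro z
    rw [hz z, himp_self, inf_idem]
  have ht : ∀ x y : BSet B, beq x y = ⊤ → ∀ z, beq z x = beq z y := by
    intro x y hxy z
    have hyx : beq y x = ⊤ := by rw [beq_symm]; exact hxy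
    exact le_antisymm (beq_trans' le_rfl (le_top.trans hxy.ge)) (beq_trans' le_rfl (le_top.trans hyx.ge))
  have hN : ∀ n : ℕ, ∀ z : BSet B, bmem z (ofNat n) = ⨆ m : {m // m < n}, beq z (ofNat m.1) := by
    intro n
    induction n with
    | zero =>
      intro z
      haveI : IsEmpty {m : ℕ // m < 0} := ⟨fun m => absurd m.2 (Nat.not_lt_zero _)⟩
      rw [iSup_of_empty]
      exact bmem_empty z
    | succ n ih =>
      intro z
      have h0 : bmem z (ofNat (n + 1)) = beq z (ofNat n) ⊔ bmem z (ofNat n) := bmem_insert _ _ _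
      rw [h0, ih z]
      apply le_antisymm
      · refine sup_le ?_ (iSup_le fun m => ?_)
        · exact le_iSup (fun m : {m // m < n + 1} => beq z (ofNat m.1)) ⟨n, Nat.lt_succ_self n⟩
        · exact le_iSup (fun m : {m // m < n + 1} => beq z (ofNat m.1)) ⟨m.1, Nat.lt_succ_of_lt m.2⟩
      · refine iSup_le fun m => ?_
        rcases Nat.lt_succ_iff_lt_or_eq.1 m.2 with h | h
        · exact (le_iSup (fun m : {m // m < n} => beq z (ofNat m.1)) ⟨m.1, h⟩).trans le_sup_right
        · rw [h]
          exact le_sup_left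
  have key : ∀ n : ℕ, ∀ b : {b : W // b < o}, e b = n → beq (vN b.1 : BSet B) (ofNat n) = ⊤ := by
    intro n
    induction n using Nat.strong_induction_on with
    | _ n ih =>
      intro b hb
      refine hx _ _ fun z => ?_
      rw [bmem_vN, hN n z]
      apply le_antisymm
      · refine iSup_le fun c => ?_
        have hco : c.1 < o := c.2.trans b.2
        have hlt : e ⟨c.1, hco⟩ < n := by
          rw [← hb]
          exact e.lt_iff_lt.2 c.2
        rw [ht _ _ (ih _ hlt ⟨c.1, hco⟩ rfl) z]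
        exact le_iSup (fun m : {m // m < n} => beq z (ofNat m.1)) ⟨e ⟨c.1, hco⟩, hlt⟩
      · refine iSup_le fun m => ?_
        have hlt : e.symm m.1 < b := by
          rw [← e.lt_iff_lt, e.apply_symm_apply, hb]
          exact m.2
        have h2 := ih m.1 m.2 (e.symm m.1) (e.apply_symm_apply _)
        rw [← ht _ _ h2 z]
        exact le_iSup (fun c : {c : W // c < b.1} => beq z (vN c.1)) ⟨(e.symm m.1).1, hlt⟩
  refine hx _ _ fun z => ?_
  rw [bmem_vN, bmem_omega]
  apply le_antisymm
  · refine iSup_le fun b => ?_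
    rw [ht _ _ (key _ b rfl) z]
    exact le_iSup (fun n : ℕ => beq z (ofNat n)) (e b)
  · refine iSup_le fun n => ?_
    have h2 := key n (e.symm n) (e.apply_symm_apply _)
    rw [← ht _ _ h2 z]
    exact le_iSup (fun c : {c : W // c < o} => beq z (vN c.1)) (e.symm n)

end Pool.Agent.H.MP_353193_lc.BV
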