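import Pool.Agent.H.MP_353193_lc.BV.T4

/-!
# Translation of the clauses of the statement
-/

set_option autoImplicit false

namespace Pool.Agent.H.MP_353193_lc.BV

open Pool.Agent.H.MP_8ff4bd_gt.M3
open _root_.M3 _root_.M3.BSet

variable {B : Type} [CompleteBooleanAlgebra B] {W : Type} [LinearOrder W] [WellFoundedLT W]

/-! ### Reduction of several quantifiers -/

theorem res_rep {Δ : B} {x : BSet B} (h : Δ ≤ bRes (str B) (wN W) x) :
    Δ ≤ beq (sn fun a : W => bmem (vN a) x) x ∧ Δ ≤ Rv (fun a : W => bmem (vN a) x) := by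
  have h1 : Δ ≤ beq x (sn fun a : W => bmem (vN a) x) := h.trans (res_le_beq x)
  refine ⟨beq_symm' h1, ?_⟩
  rw [← res_sn]
  exact (ext_res (wN W)).le h1 h

theorem iInf_res₂ {φ : BSet B → BSet B → B} (h1 : ∀ y, Ext fun x => φ x y)
    (h2 : ∀ x, Ext fun y => φ x y) :
    (⨅ x, ⨅ y, (bRes (str B) (wN W) x ⊓ bRes (str B) (wN W) y ⇨ φ x y)) =
      ⨅ x : W → B, ⨅ y : W → B, (Rv x ⊓ Rv y ⇨ φ (sn x) (sn y)) := by
  apply le_antisymm
  · refine le_iInf fun x => le_iInf fun y => ?_
    refine (iInf_le _ (sn x)).trans ((iInf_le _ (sn y)).trans ?_)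
    rw [res_sn, res_sn]
  · refine le_iInf fun x => le_iInf fun y => bv_imp fun Δ hΔ hR => ?_
    obtain ⟨ex, rx⟩ := res_rep (bv_left hR)
    obtain ⟨ey, ry⟩ := res_rep (bv_right hR)
    have h := bv_mp (bv_all (bv_all hΔ _) _) (le_inf rx ry)
    exact (h1 y).le ex ((h2 _).le ey h)

theorem iInf_res₃ {φ : BSet B → BSet B → BSet B → B} (h1 : ∀ y z, Ext fun x => φ x y z)
    (h2 : ∀ x z, Ext fun y => φ x y z) (h3 : ∀ x y, Ext fun z => φ x y z) :
    (⨅ x, ⨅ y, ⨅ z, (bRes (str B) (wN W) x ⊓ bRes (str B) (wN W) y ⊓ bRes (str B) (wN W) z ⇨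
      φ x y z)) =
      ⨅ x : W → B, ⨅ y : W → B, ⨅ z : W → B, (Rv x ⊓ Rv y ⊓ Rv z ⇨ φ (sn x) (sn y) (sn z)) := by
  apply le_antisymm
  · refine le_iInf fun x => le_iInf fun y => le_iInf fun z => ?_
    refine (iInf_le _ (sn x)).trans ((iInf_le _ (sn y)).trans ((iInf_le _ (sn z)).trans ?_))
    rw [res_sn, res_sn, res_sn]
  · refine le_iInf fun x => le_iInf fun y => le_iInf fun z => bv_imp fun Δ hΔ hR => ?_
    obtain ⟨ex, rx⟩ := res_rep (bv_left (bv_left hR))
    obtain ⟨ey, ry⟩ := res_rep (bv_right (bv_left hR))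
    obtain ⟨ez, rz⟩ := res_rep (bv_right hR)
    have h := bv_mp (bv_all (bv_all (bv_all hΔ _) _) _) (le_inf (le_inf rx ry) rz)
    exact (h1 y z).le ex ((h2 _ z).le ey ((h3 _ _).le ez h))

theorem iInf_res₄ {φ : BSet B → BSet B → BSet B → BSet B → B}
    (h1 : ∀ y z t, Ext fun x => φ x y z t) (h2 : ∀ x z t, Ext fun y => φ x y z t)
    (h3 : ∀ x y t, Ext fun z => φ x y z t) (h4 : ∀ x y z, Ext fun t => φ x y z t) :
    (⨅ x, ⨅ y, ⨅ z, ⨅ t, (bRes (str B) (wN W) x ⊓ bRes (str B) (wN W) y ⊓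
      bRes (str B) (wN W) z ⊓ bRes (str B) (wN W) t ⇨ φ x y z t)) =
      ⨅ x : W → B, ⨅ y : W → B, ⨅ z : W → B, ⨅ t : W → B,
        (Rv x ⊓ Rv y ⊓ Rv z ⊓ Rv t ⇨ φ (sn x) (sn y) (sn z) (sn t)) := by
  apply le_antisymm
  · refine le_iInf fun x => le_iInf fun y => le_iInf fun z => le_iInf fun t => ?_
    refine (iInf_le _ (sn x)).trans ((iInf_le _ (sn y)).trans ((iInf_le _ (sn z)).trans
      ((iInf_le _ (sn t)).trans ?_)))
    rw [res_sn, res_sn, res_sn, res_sn]
  · refine le_iInf fun x => le_iInf fun y => le_iInf fun z => le_iInf fun t =>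
      bv_imp fun Δ hΔ hR => ?_
    obtain ⟨ex, rx⟩ := res_rep (bv_left (bv_left (bv_left hR)))
    obtain ⟨ey, ry⟩ := res_rep (bv_right (bv_left (bv_left hR)))
    obtain ⟨ez, rz⟩ := res_rep (bv_right (bv_left hR))
    obtain ⟨et, rt⟩ := res_rep (bv_right hR)
    have h := bv_mp (bv_all (bv_all (bv_all (bv_all hΔ _) _) _) _)
      (le_inf (le_inf (le_inf rx ry) rz) rt)
    exact (h1 y z t).le ex ((h2 _ z t).le ey ((h3 _ _ t).le ez ((h4 _ _ _).le et h)))

/-! ### Boolean identities -/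

omit [CompleteBooleanAlgebra B] in
theorem t7_himp₁ {C : Type*} [BooleanAlgebra C] (a p q : C) : (a ⊓ p ⇨ q) = (a ⇨ (p ⇨ q)) := by
  rw [himp_himp]

theorem t7_himp₂ {C : Type*} [BooleanAlgebra C] (a p q r : C) :
    (a ⊓ p ⊓ q ⇨ r) = (a ⇨ (p ⊓ q ⇨ r)) := by
  rw [himp_himp, inf_assoc]

theorem t7_himp₃ {C : Type*} [BooleanAlgebra C] (a p q r s : C) :
    (a ⊓ p ⊓ q ⊓ r ⇨ s) = (a ⇨ (p ⊓ q ⊓ r ⇨ s)) := by
  rw [himp_himp, inf_assoc, inf_assoc, inf_assoc]

theorem t7_compl₃ {C : Type*} [BooleanAlgebra C] (a p q r : C) :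
    (a ⊓ p ⊓ q ⊓ r)ᶜ = (a ⇨ (p ⊓ q ⊓ r)ᶜ) := by
  rw [← himp_bot, ← himp_bot, t7_himp₃]

/-! ### The relation of names given by a name of a set of pairs -/

/-- `(x, y) ∈ g` -/
noncomputable def gof (W : Type) [LinearOrder W] [WellFoundedLT W] (g : BSet B)
    (x y : W → B) : B := pmem (sn x) (sn y) g

theorem extG_gof (g : BSet B) : ExtG (gof W g) := by
  constructor
  · intro x x' y
    unfold gof
    rw [← beq_sn]
    exact ext_pmem₁ (sn y) g (sn x) (sn x')
  · intro x y y'
    unfold gof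
    rw [← beq_sn]
    exact ext_pmem₂ (sn x) g (sn y) (sn y')

omit [WellFoundedLT W] in
theorem eqv_refl (x : W → B) : eqv x x = ⊤ := by
  unfold eqv
  simp

theorem gof_surjective (G : (W → B) → (W → B) → B) (hG : ExtG G) :
    ∃ g : BSet B, gof W g = G := by
  refine ⟨relName (sn (B := B) (W := W)) sn G, ?_⟩
  funext x y
  unfold gof
  rw [pmem_relName]
  simp only [beq_sn]
  apply le_antisymm
  · refine iSup_le fun x' => iSup_le fun y' => ?_
    have h1 : eqv x x' = eqv x' x := by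
      unfold eqv
      simp only [bihimp_comm]
    have h2 : eqv y y' = eqv y' y := by
      unfold eqv
      simp only [bihimp_comm]
    rw [h1, h2]
    refine le_trans ?_ (hG.1 x' x y)
    refine le_inf (inf_le_right.trans inf_le_left) ?_
    refine le_trans ?_ (hG.2 x' y' y)
    exact le_inf (inf_le_right.trans inf_le_right) inf_le_left
  · refine bv_intro (f := fun x' => ⨆ y', G x' y' ⊓ (eqv x x' ⊓ eqv y y')) x
      (bv_intro (f := fun y' => G x y' ⊓ (eqv x x ⊓ eqv y y')) y ?_)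
    rw [eqv_refl, eqv_refl, inf_top_eq, inf_top_eq]

theorem iInf_gof (Q : ((W → B) → (W → B) → B) → B) :
    (⨅ g : BSet B, Q (gof W g)) = ⨅ G : {G : (W → B) → (W → B) → B // ExtG G}, Q G.1 := by
  apply le_antisymm
  · refine le_iInf fun G => ?_
    obtain ⟨g, hg⟩ := gof_surjective G.1 G.2
    rw [← hg]
    exact iInf_le (fun g => Q (gof W g)) g
  · exact le_iInf fun g => iInf_le (fun G : {G : (W → B) → (W → B) → B // ExtG G} => Q G.1)
      ⟨gof W g, extG_gof g⟩

theorem iSup_gof (Q : ((W → B) → (W → B) → B) → B) :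
    (⨆ g : BSet B, Q (gof W g)) = ⨆ G : {G : (W → B) → (W → B) → B // ExtG G}, Q G.1 := by
  apply le_antisymm
  · exact iSup_le fun g => le_iSup (fun G : {G : (W → B) → (W → B) → B // ExtG G} => Q G.1)
      ⟨gof W g, extG_gof g⟩
  · refine iSup_le fun G => ?_
    obtain ⟨g, hg⟩ := gof_surjective G.1 G.2
    rw [← hg]
    exact le_iSup (fun g => Q (gof W g)) g

/-! ### The clauses -/

theorem symm_eq (g : BSet B) : bSymm (str B) (wN W) g = symv (gof W g) := by
  unfold bSymm symv
  simp only [str_bRel]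
  refine (iInf_congr fun x => iInf_congr fun y => t7_himp₁ _ _ _).trans ?_
  refine (iInf_res₂ (φ := fun x y => (pmem x y g ⇨ pmem y x g))
    (fun y => (ext_pmem₁ y g).himp (ext_pmem₂ y g))
    (fun x => (ext_pmem₂ x g).himp (ext_pmem₁ x g))).trans ?_
  exact iInf_congr fun x => iInf_congr fun y => (t7_himp₁ _ _ _).symm

theorem triFree_eq (g : BSet B) : bTriFree (str B) (wN W) g = triv (gof W g) := by
  unfold bTriFree triv
  simp only [str_bRel]
  refine (iInf_congr fun x => iInf_congr fun y => iInf_congr fun z =>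
    t7_compl₃ _ _ _ _).trans ?_
  refine (iInf_res₃ (φ := fun x y z => (pmem x y g ⊓ pmem y z g ⊓ pmem x z g)ᶜ)
    (fun y z => (((ext_pmem₁ y g).inf (ext_const _)).inf (ext_pmem₁ z g)).compl)
    (fun x z => (((ext_pmem₂ x g).inf (ext_pmem₁ z g)).inf (ext_const _)).compl)
    (fun x y => (((ext_const _).inf (ext_pmem₂ y g)).inf (ext_pmem₂ x g)).compl)).trans ?_
  exact iInf_congr fun x => iInf_congr fun y => iInf_congr fun z => (t7_compl₃ _ _ _ _).symm

theorem emb_eq (g h : BSet B) :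
    bEmb (str B) (wN W) g h = embv (gof W g) (gof W h) := by
  unfold bEmb embv
  simp only [str_bRel, str_eq]
  congr 1
  · congr 1
    · congr 1
      · rw [iInf_res (φ := fun x => ⨆ y, bRes (str B) (wN W) y ⊓ pmem x y h)
          (Ext.iSup fun y => (ext_const _).inf (ext_pmem₁ y h))]
        congr 1
        funext x
        rw [iSup_res (ext_pmem₂ (sn x) h)]
        rfl
      · refine (iInf_congr fun x => iInf_congr fun y => iInf_congr fun y' =>
          t7_himp₂ _ _ _ _).trans ?_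
        refine (iInf_res₃ (φ := fun x y y' => (pmem x y h ⊓ pmem x y' h ⇨ beq y y'))
          (fun y y' => ((ext_pmem₁ y h).inf (ext_pmem₁ y' h)).himp (ext_const _))
          (fun x y' => ((ext_pmem₂ x h).inf (ext_const _)).himp (ext_beq_left y'))
          (fun x y => ((ext_const _).inf (ext_pmem₂ x h)).himp (ext_beq_right y))).trans ?_
        simp only [beq_sn]
        exact iInf_congr fun x => iInf_congr fun y => iInf_congr fun y' =>
          (t7_himp₂ _ _ _ _).symm
    · refine (iInf_congr fun x => iInf_congr fun x' => iInf_congr fun y => iInf_congr fun y' =>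
        t7_himp₃ _ _ _ _ _).trans ?_
      refine (iInf_res₄ (φ := fun x x' y y' => (pmem x y h ⊓ pmem x' y' h ⊓ bLex (str B) x x' ⇨
          bLex (str B) y y'))
        (fun x' y y' => (((ext_pmem₁ y h).inf (ext_const _)).inf (ext_lex x')).himp (ext_const _))
        (fun x y y' => (((ext_const _).inf (ext_pmem₁ y' h)).inf (ext_lex' x)).himp (ext_const _))
        (fun x x' y' => (((ext_pmem₂ x h).inf (ext_const _)).inf (ext_const _)).himp (ext_lex y'))
        (fun x x' y => (((ext_const _).inf (ext_pmem₂ x' h)).inf (ext_const _)).himp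
          (ext_lex' y))).trans ?_
      simp only [lex_sn]
      exact iInf_congr fun x => iInf_congr fun x' => iInf_congr fun y => iInf_congr fun y' =>
        (t7_himp₃ _ _ _ _ _).symm
  · refine (iInf_congr fun x => iInf_congr fun x' => iInf_congr fun y => iInf_congr fun y' =>
      t7_compl₃ _ _ _ _).trans ?_
    refine (iInf_res₄ (φ := fun x x' y y' => (pmem x y h ⊓ pmem x' y' h ⊓ pmem y y' g)ᶜ)
      (fun x' y y' => (((ext_pmem₁ y h).inf (ext_const _)).inf (ext_const _)).compl)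
      (fun x y y' => (((ext_const _).inf (ext_pmem₁ y' h)).inf (ext_const _)).compl)
      (fun x x' y' => (((ext_pmem₂ x h).inf (ext_const _)).inf (ext_pmem₁ y' g)).compl)
      (fun x x' y => (((ext_const _).inf (ext_pmem₂ x' h)).inf (ext_pmem₂ y g)).compl)).trans ?_
    exact iInf_congr fun x => iInf_congr fun x' => iInf_congr fun y => iInf_congr fun y' =>
      (t7_compl₃ _ _ _ _).symm

/-! ### Extensionality in `w` -/

theorem ext_symm_w (g : BSet B) : Ext (fun w => bSymm (str B) w g) := by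
  unfold bSymm
  exact Ext.iInf fun x => Ext.iInf fun y =>
    (((ext_res' x).inf (ext_res' y)).inf (ext_const _)).himp (ext_const _)

theorem ext_triFree_w (g : BSet B) : Ext (fun w => bTriFree (str B) w g) := by
  unfold bTriFree
  exact Ext.iInf fun x => Ext.iInf fun y => Ext.iInf fun z =>
    ((((((ext_res' x).inf (ext_res' y)).inf (ext_res' z)).inf (ext_const _)).inf
      (ext_const _)).inf (ext_const _)).compl

theorem ext_emb_w (g h : BSet B) : Ext (fun w => bEmb (str B) w g h) := by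
  unfold bEmb
  refine Ext.inf (Ext.inf (Ext.inf ?_ ?_) ?_) ?_
  · exact Ext.iInf fun x => (ext_res' x).himp (Ext.iSup fun y => (ext_res' y).inf (ext_const _))
  · exact Ext.iInf fun x => Ext.iInf fun y => Ext.iInf fun y' =>
      (((((ext_res' x).inf (ext_res' y)).inf (ext_res' y')).inf (ext_const _)).inf
        (ext_const _)).himp (ext_const _)
  · exact Ext.iInf fun x => Ext.iInf fun x' => Ext.iInf fun y => Ext.iInf fun y' =>
      (((((((ext_res' x).inf (ext_res' x')).inf (ext_res' y)).inf (ext_res' y')).inf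
        (ext_const _)).inf (ext_const _)).inf (ext_const _)).himp (ext_const _)
  · exact Ext.iInf fun x => Ext.iInf fun x' => Ext.iInf fun y => Ext.iInf fun y' =>
      (((((((ext_res' x).inf (ext_res' x')).inf (ext_res' y)).inf (ext_res' y')).inf
        (ext_const _)).inf (ext_const _)).inf (ext_const _)).compl

theorem body_eq :
    (⨅ g, (bSymm (str B) (wN W) g ⊓ bTriFree (str B) (wN W) g ⇨
      ⨆ h, bEmb (str B) (wN W) g h)) = sv B W := by
  simp only [symm_eq, triFree_eq, emb_eq]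
  have h1 : ∀ g : BSet B, (⨆ h : BSet B, embv (gof W g) (gof W h)) =
      ⨆ F : {F : (W → B) → (W → B) → B // ExtG F}, embv (gof W g) F.1 :=
    fun g => iSup_gof (fun F => embv (gof W g) F)
  simp only [h1]
  exact iInf_gof (fun G => (symv G ⊓ triv G ⇨
    ⨆ F : {F : (W → B) → (W → B) → B // ExtG F}, embv G F.1))

end Pool.Agent.H.MP_353193_lc.BV
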