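import Pool.Agent.H.MP_353193_lc.BV.Iface

/-!
# The frozen statement in terms of predicates on a well-order of type `ω_ω`

`Target` is the text of the frozen statement S14565.
-/

set_option autoImplicit false

namespace Pool.Agent.H.MP_353193_lc.BV

/-- The text of the frozen statement S14565. -/
def Target : Prop :=
    ∀ (R : Set (Ordinal.{0} → Bool)) (lt : (Ordinal.{0} → Bool) → (Ordinal.{0} → Bool) → Prop),
      (∀ f, f ∈ R ↔ ((∃ ν, f ν = true) ∧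
          ∃ β : Ordinal.{0}, β < (Cardinal.aleph (Ordinal.omega0 : Ordinal.{0})).ord ∧
            ∀ ν, f ν = true → ν < β)) →
      (∀ f g, lt f g ↔ ∃ ν : Ordinal.{0}, (∀ μ, μ < ν → f μ = g μ) ∧ f ν = false ∧ g ν = true) →
      ∀ G : SimpleGraph (Ordinal.{0} → Bool),
        (∀ a ∈ R, ∀ b ∈ R, ∀ c ∈ R, ¬ (G.Adj a b ∧ G.Adj b c ∧ G.Adj a c)) →
        ∃ φ : (Ordinal.{0} → Bool) → (Ordinal.{0} → Bool),
          (∀ f ∈ R, φ f ∈ R) ∧
          (∀ f ∈ R, ∀ g ∈ R, lt f g → lt (φ f) (φ g)) ∧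
          (∀ f ∈ R, ∀ g ∈ R, ¬ G.Adj (φ f) (φ g))

/-- The predicate `x` on `Wω` is not zero and its support is bounded. -/
def Rp (x : Wω → Prop) : Prop := (∃ ν, x ν) ∧ ∃ β : Wω, ∀ ν, β ≤ ν → ¬ x ν

/-- The lexicographic order. -/
def ltp (x y : Wω → Prop) : Prop := ∃ ν : Wω, (∀ μ, μ < ν → (x μ ↔ y μ)) ∧ ¬ x ν ∧ y ν

/-- The statement for predicates on `Wω`. -/
def TargetP : Prop :=
  ∀ G : (Wω → Prop) → (Wω → Prop) → Prop, (∀ x y, G x y → G y x) →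
    (∀ x y z, Rp x → Rp y → Rp z → ¬ (G x y ∧ G y z ∧ G x z)) →
    ∃ Φ : (Wω → Prop) → (Wω → Prop), (∀ x, Rp x → Rp (Φ x)) ∧
      (∀ x y, Rp x → Rp y → ltp x y → ltp (Φ x) (Φ y)) ∧ ∀ x y, Rp x → Rp y → ¬ G (Φ x) (Φ y)

/-- The restriction of a sequence to `Wω`. -/
def toP (f : Ordinal.{0} → Bool) : Wω → Prop := fun ν => f (Ordinal.ToType.toOrd ν : Set.Iio _).1 = true

open Classical in
/-- The extension by zero. -/
noncomputable def ofP (x : Wω → Prop) : Ordinal.{0} → Bool := fun o =>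
  if h : o < (Cardinal.aleph Ordinal.omega0.{0}).ord then decide (x (Ordinal.ToType.mk ⟨o, h⟩)) else false

theorem ofP_toOrd (x : Wω → Prop) (ν : Wω) :
    ofP x (Ordinal.ToType.toOrd ν : Set.Iio _).1 = true ↔ x ν := by
  have h : (Ordinal.ToType.toOrd ν : Set.Iio _).1 < (Cardinal.aleph Ordinal.omega0.{0}).ord :=
    (Ordinal.ToType.toOrd ν).2
  classical
  unfold ofP
  rw [dif_pos h, decide_eq_true_iff]
  have h1 : Ordinal.ToType.mk ⟨(Ordinal.ToType.toOrd ν : Set.Iio _).1, h⟩ = ν :=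
    Ordinal.ToType.mk.apply_symm_apply ν
  rw [h1]

theorem ofP_eq_true {x : Wω → Prop} {o : Ordinal.{0}} (h : ofP x o = true) :
    ∃ h : o < (Cardinal.aleph Ordinal.omega0.{0}).ord, x (Ordinal.ToType.mk ⟨o, h⟩) := by
  classical
  unfold ofP at h
  split at h
  · rename_i h1
    exact ⟨h1, of_decide_eq_true h⟩
  · exact absurd h (by simp)

theorem ofP_mk (x : Wω → Prop) {o : Ordinal.{0}} (h : o < (Cardinal.aleph Ordinal.omega0.{0}).ord) :
    ofP x o = true ↔ x (Ordinal.ToType.mk ⟨o, h⟩) := by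
  classical
  unfold ofP
  rw [dif_pos h, decide_eq_true_iff]

theorem toP_ofP (x : Wω → Prop) : toP (ofP x) = x := by
  funext ν
  exact propext (ofP_toOrd x ν)

theorem toP_mk (f : Ordinal.{0} → Bool) {o : Ordinal.{0}}
    (h : o < (Cardinal.aleph Ordinal.omega0.{0}).ord) :
    toP f (Ordinal.ToType.mk ⟨o, h⟩) ↔ f o = true := by
  unfold toP
  have h1 : (Ordinal.ToType.toOrd (Ordinal.ToType.mk ⟨o, h⟩) : Set.Iio _) = ⟨o, h⟩ :=
    Ordinal.ToType.mk.symm_apply_apply _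
  rw [h1]

theorem ofP_toP {f : Ordinal.{0} → Bool} {β : Ordinal.{0}}
    (hβ : β < (Cardinal.aleph Ordinal.omega0.{0}).ord) (h : ∀ ν, f ν = true → ν < β) :
    ofP (toP f) = f := by
  funext o
  by_cases ho : o < (Cardinal.aleph Ordinal.omega0.{0}).ord
  · have h1 := (ofP_mk (toP f) ho).trans (toP_mk f ho)
    cases h2 : f o
    · cases h3 : ofP (toP f) o
      · rfl
      · exact absurd (h1.1 h3) (by rw [h2]; simp)
    · exact h1.2 h2
  · have h2 : f o = false := by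
      cases h3 : f o
      · rfl
      · exact absurd ((h o h3).trans hβ) ho
    unfold ofP
    rw [dif_neg ho, h2]

theorem omω_pos : Order.IsSuccLimit (Cardinal.aleph Ordinal.omega0.{0}).ord :=
  Cardinal.isSuccLimit_ord (Cardinal.aleph0_le_aleph _)

/-- Membership. -/
theorem mem_iff_Rp (x : Wω → Prop) : ((∃ ν, ofP x ν = true) ∧
    ∃ β : Ordinal.{0}, β < (Cardinal.aleph (Ordinal.omega0 : Ordinal.{0})).ord ∧
      ∀ ν, ofP x ν = true → ν < β) ↔ Rp x := by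
  constructor
  · rintro ⟨⟨ν, hν⟩, β, hβ, h⟩
    obtain ⟨h1, h2⟩ := ofP_eq_true hν
    refine ⟨⟨_, h2⟩, Ordinal.ToType.mk ⟨β, hβ⟩, fun μ hμ hx => ?_⟩
    have h3 := h _ ((ofP_toOrd x μ).2 hx)
    have h4 : Ordinal.ToType.toOrd (Ordinal.ToType.mk ⟨β, hβ⟩) ≤ Ordinal.ToType.toOrd μ :=
      (OrderIso.le_iff_le _).2 hμ
    have h5 : Ordinal.ToType.toOrd (Ordinal.ToType.mk ⟨β, hβ⟩) = ⟨β, hβ⟩ :=
      Ordinal.ToType.mk.symm_apply_apply _
    rw [h5] at h4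
    exact absurd h3 (not_lt.2 h4)
  · rintro ⟨⟨ν, hν⟩, β, h⟩
    refine ⟨⟨_, (ofP_toOrd x ν).2 hν⟩, (Ordinal.ToType.toOrd β : Set.Iio _).1,
      (Ordinal.ToType.toOrd β).2, fun o ho => ?_⟩
    obtain ⟨h1, h2⟩ := ofP_eq_true ho
    by_contra hc
    have h3 : β ≤ Ordinal.ToType.mk ⟨o, h1⟩ := by
      have h5 : (Ordinal.ToType.toOrd β) ≤ (⟨o, h1⟩ : Set.Iio _) := not_lt.1 hc
      have h6 := (OrderIso.le_iff_le Ordinal.ToType.mk).2 h5
      have h7 : Ordinal.ToType.mk (Ordinal.ToType.toOrd β) = β :=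
        Ordinal.ToType.mk.apply_symm_apply β
      rwa [h7] at h6
    exact h _ h3 h2

theorem Rp_toP {f : Ordinal.{0} → Bool} (h : (∃ ν, f ν = true) ∧
    ∃ β : Ordinal.{0}, β < (Cardinal.aleph (Ordinal.omega0 : Ordinal.{0})).ord ∧
      ∀ ν, f ν = true → ν < β) : Rp (toP f) := by
  obtain ⟨h0, β, hβ, h1⟩ := h
  rw [← mem_iff_Rp, ofP_toP hβ h1]
  exact ⟨h0, β, hβ, h1⟩

/-- Order. -/
theorem lt_iff_ltp (x y : Wω → Prop) :
    (∃ ν : Ordinal.{0}, (∀ μ, μ < ν → ofP x μ = ofP y μ) ∧ ofP x ν = false ∧ ofP y ν = true) ↔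
      ltp x y := by
  constructor
  · rintro ⟨ν, h1, h2, h3⟩
    obtain ⟨h4, h5⟩ := ofP_eq_true h3
    refine ⟨_, fun μ hμ => ?_, fun hx => ?_, h5⟩
    · rw [← ofP_toOrd x μ, ← ofP_toOrd y μ, h1]
      have h6 : Ordinal.ToType.toOrd μ < Ordinal.ToType.toOrd (Ordinal.ToType.mk ⟨ν, h4⟩) :=
        (OrderIso.lt_iff_lt _).2 hμ
      have h7 : Ordinal.ToType.toOrd (Ordinal.ToType.mk ⟨ν, h4⟩) = ⟨ν, h4⟩ :=
        Ordinal.ToType.mk.symm_apply_apply _
      rw [h7] at h6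
      exact h6
    · rw [(ofP_mk x h4).2 hx] at h2
      exact absurd h2 (by simp)
  · rintro ⟨ν, h1, h2, h3⟩
    refine ⟨(Ordinal.ToType.toOrd ν : Set.Iio _).1, fun μ hμ => ?_, ?_, (ofP_toOrd y ν).2 h3⟩
    · have h4 : μ < (Cardinal.aleph Ordinal.omega0.{0}).ord := hμ.trans (Ordinal.ToType.toOrd ν).2
      have h5 : Ordinal.ToType.mk ⟨μ, h4⟩ < ν := by
        have h6 : (⟨μ, h4⟩ : Set.Iio _) < Ordinal.ToType.toOrd ν := hμ
        have h7 := (OrderIso.lt_iff_lt Ordinal.ToType.mk).2 h6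
        have h8 : Ordinal.ToType.mk (Ordinal.ToType.toOrd ν) = ν :=
          Ordinal.ToType.mk.apply_symm_apply ν
        rwa [h8] at h7
      have h9 := h1 _ h5
      rw [← ofP_mk x h4, ← ofP_mk y h4] at h9
      exact Bool.eq_iff_iff.2 h9
    · rw [← Bool.not_eq_true]
      exact fun h => h2 ((ofP_toOrd x ν).1 h)

/-- The frozen statement is equivalent to the statement for predicates on `Wω`. -/
theorem target_iff : Target ↔ TargetP := by
  constructor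
  · intro hT G hsym htri
    let R : Set (Ordinal.{0} → Bool) := {f | (∃ ν, f ν = true) ∧
      ∃ β : Ordinal.{0}, β < (Cardinal.aleph (Ordinal.omega0 : Ordinal.{0})).ord ∧
        ∀ ν, f ν = true → ν < β}
    let lt : (Ordinal.{0} → Bool) → (Ordinal.{0} → Bool) → Prop := fun f g =>
      ∃ ν : Ordinal.{0}, (∀ μ, μ < ν → f μ = g μ) ∧ f ν = false ∧ g ν = true
    let Gr : SimpleGraph (Ordinal.{0} → Bool) :=
      { Adj := fun a b => a ∈ R ∧ b ∈ R ∧ G (toP a) (toP b)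
        symm := ⟨fun a b h => ⟨h.2.1, h.1, hsym _ _ h.2.2⟩⟩
        loopless := ⟨fun a h => htri (toP a) (toP a) (toP a) (Rp_toP h.1) (Rp_toP h.1)
          (Rp_toP h.1) ⟨h.2.2, h.2.2, h.2.2⟩⟩ }
    obtain ⟨φ, h1, h2, h3⟩ := hT R lt (fun _ => Iff.rfl) (fun _ _ => Iff.rfl) Gr
      (fun a ha b hb c hc h => htri (toP a) (toP b) (toP c) (Rp_toP ha) (Rp_toP hb) (Rp_toP hc)
        ⟨h.1.2.2, h.2.1.2.2, h.2.2.2.2⟩)
    have hR : ∀ x, Rp x → ofP x ∈ R := fun x hx => (mem_iff_Rp x).2 hx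
    have hRφ : ∀ x, Rp x → φ (ofP x) ∈ R := fun x hx => h1 _ (hR x hx)
    have hof : ∀ f ∈ R, ofP (toP f) = f := fun f ⟨_, β, hβ, h⟩ => ofP_toP hβ h
    refine ⟨fun x => toP (φ (ofP x)), fun x hx => Rp_toP (hRφ x hx), fun x y hx hy hxy => ?_,
      fun x y hx hy h => ?_⟩
    · rw [← lt_iff_ltp, hof _ (hRφ x hx), hof _ (hRφ y hy)]
      exact h2 _ (hR x hx) _ (hR y hy) ((lt_iff_ltp x y).2 hxy)
    · exact h3 _ (hR x hx) _ (hR y hy) ⟨hRφ x hx, hRφ y hy, h⟩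
  · intro hT R lt hR hlt G htri
    have hof : ∀ f ∈ R, ofP (toP f) = f := fun f hf => by
      obtain ⟨_, β, hβ, h⟩ := (hR f).1 hf
      exact ofP_toP hβ h
    have hRo : ∀ x, ofP x ∈ R ↔ Rp x := fun x => (hR _).trans (mem_iff_Rp x)
    have hRt : ∀ f ∈ R, Rp (toP f) := fun f hf => Rp_toP ((hR f).1 hf)
    obtain ⟨Φ, h1, h2, h3⟩ := hT (fun x y => G.Adj (ofP x) (ofP y)) (fun x y h => G.symm.symm _ _ h)
      (fun x y z hx hy hz h => htri _ ((hRo x).2 hx) _ ((hRo y).2 hy) _ ((hRo z).2 hz) h)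
    refine ⟨fun f => ofP (Φ (toP f)), fun f hf => (hRo _).2 (h1 _ (hRt f hf)),
      fun f hf g hg hfg => ?_, fun f hf g hg => h3 _ _ (hRt f hf) (hRt g hg)⟩
    rw [hlt, lt_iff_ltp]
    refine h2 _ _ (hRt f hf) (hRt g hg) ?_
    rw [← lt_iff_ltp, hof f hf, hof g hg]
    exact (hlt f g).1 hfg

end Pool.Agent.H.MP_353193_lc.BV
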