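import Pool.Agent.H.MP_8ff4bd_gt.M3.S.Notions

/-!
# The partition statement in an arbitrary `B`-valued structure

All quantifiers range over the whole structure. A nonzero 0-1 sequence of length `ω_ω` with support bounded below `ω_ω` is given by
its support, a nonempty set which is a subset of some element of `w = ω_ω`.
-/

set_option autoImplicit false

namespace Pool.Agent.H.MP_353193_lc.BV

open Pool.Agent.H.MP_8ff4bd_gt.M3
open scoped symmDiff

universe u v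

section notions

variable {B : Type u} [CompleteBooleanAlgebra B] {V : Type v} (S : BStr B V)

/-- `|x| ≤ |y|`: there is a relation which is total from `x` to `y` and injective -/
def bLeCard (x y : V) : B :=
  ⨆ r, (⨅ t, (S.mem t x ⇨ ⨆ n, S.mem n y ⊓ S.bRel r t n)) ⊓
    ⨅ t, ⨅ t', ⨅ n, (S.mem t x ⊓ S.mem t' x ⊓ S.mem n y ⊓ S.bRel r t n ⊓ S.bRel r t' n ⇨ S.eq t t')

/-- `c` is a cardinal: an ordinal with `|y| < |c|` for all `y ∈ c` -/
def bCard (c : V) : B := S.bOrd c ⊓ ⨅ y, (S.mem y c ⇨ (bLeCard S c y)ᶜ)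

/-- `ω ∈ x`, and every element of `x` is an element of some cardinal in `x` -/
def bLimC (x : V) : B :=
  (⨆ o, S.bOmega o ⊓ S.mem o x) ⊓
    ⨅ b, (S.mem b x ⇨ ⨆ c, S.mem c x ⊓ bCard S c ⊓ S.mem b c)

/-- `w = ω_ω`: the least ordinal with the property `bLimC`, that is, the least uncountable limit of
cardinals -/
def bIsOm (w : V) : B := S.bOrd w ⊓ bLimC S w ⊓ ⨅ a, (S.mem a w ⇨ (bLimC S a)ᶜ)

/-- `x` is nonempty and a subset of some element of `w` -/
def bRes (w x : V) : B := (⨆ z, S.mem z x) ⊓ ⨆ b, S.mem b w ⊓ S.bSubset x b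

/-- the lexicographic order: some `n` belongs to `y` and not to `x`, and `x` and `y` have the same
elements in `n` -/
def bLex (x y : V) : B :=
  ⨆ n, (⨅ m, (S.mem m n ⇨ (S.mem m x ⇔ S.mem m y))) ⊓ (S.mem n x)ᶜ ⊓ S.mem n y

/-- the relation `g` is symmetric on the set `R` of the `x` with `bRes` -/
def bSymm (w g : V) : B :=
  ⨅ x, ⨅ y, (bRes S w x ⊓ bRes S w y ⊓ S.bRel g x y ⇨ S.bRel g y x)

/-- the relation `g` has no triangle (and no loop) in `R` -/
def bTriFree (w g : V) : B :=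
  ⨅ x, ⨅ y, ⨅ z, (bRes S w x ⊓ bRes S w y ⊓ bRes S w z ⊓ S.bRel g x y ⊓ S.bRel g y z ⊓
    S.bRel g x z)ᶜ

/-- `h` (restricted to `R × R`) is a strictly increasing function from `R` to `R` and no two elements
of its image are related by `g` -/
def bEmb (w g h : V) : B :=
  (⨅ x, (bRes S w x ⇨ ⨆ y, bRes S w y ⊓ S.bRel h x y)) ⊓
  (⨅ x, ⨅ y, ⨅ y', (bRes S w x ⊓ bRes S w y ⊓ bRes S w y' ⊓ S.bRel h x y ⊓ S.bRel h x y' ⇨
    S.eq y y')) ⊓
  (⨅ x, ⨅ x', ⨅ y, ⨅ y', (bRes S w x ⊓ bRes S w x' ⊓ bRes S w y ⊓ bRes S w y' ⊓ S.bRel h x y ⊓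
    S.bRel h x' y' ⊓ bLex S x x' ⇨ bLex S y y')) ⊓
  (⨅ x, ⨅ x', ⨅ y, ⨅ y', (bRes S w x ⊓ bRes S w x' ⊓ bRes S w y ⊓ bRes S w y' ⊓ S.bRel h x y ⊓
    S.bRel h x' y' ⊓ S.bRel g y y')ᶜ)

/-- The statement: for `w = ω_ω`, every symmetric triangle-free relation `g` on the set `R` has an
independent set which is the image of `R` under a strictly increasing function. -/
def bEta : B :=
  ⨅ w, (bIsOm S w ⇨ ⨅ g, (bSymm S w g ⊓ bTriFree S w g ⇨ ⨆ h, bEmb S w g h))

end notions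

end Pool.Agent.H.MP_353193_lc.BV
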