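import Pool.Agent.H.MP_353193_lc.BV.R1
import Pool.Agent.H.MP_353193_lc.BV.G1

/-!
# Points which are not adjacent to given points
-/

set_option autoImplicit false

open Cardinal

namespace Pool.Agent.H.MP_353193_lc.BV

variable {B : Type} [CompleteBooleanAlgebra B] {Θ : Type} (K : Coh B Θ) {W : Type} [LinearOrder W]
  {D : Set W} (c : Task B D → Θ)

/-- `D` has more than `lam` elements (otherwise `reg` for `D` itself), so `Z` (or `Z ∪ {0}`) is the range of a function on `D`. -/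
theorem exists_enum {lam : Cardinal.{0}} (hD : Seg W D lam) (Z : Set (W → B)) (hZ : Cardinal.mk Z ≤ lam)
    (hb : ∀ z ∈ Z, Bd D z) : ∃ Y : D → W → B, (∀ i, Bd D (Y i)) ∧ ∀ z ∈ Z, ∃ i, Y i = z := by
  classical
  have hlt : lam < Cardinal.mk D := by
    by_contra h
    obtain ⟨b, hb1, hb2⟩ := hD.reg D (Set.Subset.refl _) (not_lt.1 h)
    exact lt_irrefl _ (hb2 b hb1)
  obtain ⟨d, hd, -⟩ := hD.reg ∅ (Set.empty_subset _) (by simp)
  obtain ⟨f⟩ : Nonempty (Z ↪ D) := Cardinal.le_def Z D |>.1 (hZ.trans hlt.le)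
  refine ⟨fun i => if h : ∃ z : Z, f z = i then (Classical.choose h).1 else fun _ => ⊥, ?_, ?_⟩
  · intro i
    by_cases h : ∃ z : Z, f z = i
    · simp only [dif_pos h]
      exact hb _ (Classical.choose h).2
    · simp only [dif_neg h]
      exact ⟨d, hd, fun _ _ => rfl⟩
  · intro z hz
    have h : ∃ z' : Z, f z' = f ⟨z, hz⟩ := ⟨_, rfl⟩
    refine ⟨f ⟨z, hz⟩, ?_⟩
    simp only [dif_pos h]
    have := f.injective (Classical.choose_spec h)
    rw [this]

variable [LinearOrder (Task B D)] [WellFoundedLT (Task B D)]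

/-- `x` is in the cone of the task `t'`, whose label is larger than the rank of `z` and whose targets contain all possible
out-neighbours of `z`. [`arr x z` of the task `e`: `acc e` says that the rank of `e.y j` is `≥ j` (`acc_eq`), so the rank of `z` is at least the rank
`j` of `x`, and `rk_label` for `t'` gives `t'.β ≤ j ≤ β < t'.β`. `arr z x` of the task `e`: `x = e.y j = t'.y i`, `Wv_target`.] -/
theorem not_adj (hc : Fresh K c) (b : B) (x z : W → B) (β : D) (t' : Task B D)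
    (hβ : ∀ t : Task B D, Wv K c t z ≠ ⊥ → t.β ≤ β) (h1 : β < t'.β) (hx : b ≤ Wv K c t' x)
    (hY : ∀ e : Task B D, Wv K c e z ≠ ⊥ → ∀ j : D, j ≤ β → ∃ i, t'.y i = e.y j) (e : Task B D) :
    b ⊓ (arr K c (acc K c e) e x z ⊔ arr K c (acc K c e) e z x) = ⊥ := by
  have hx' : ∀ {j : D}, j < t'.β → b ⊓ rk K c x j = ⊥ := by
    intro j hj
    rw [← le_bot_iff, ← rk_label K c x j t' hj, inf_comm]
    exact inf_le_inf_left _ hx
  have hz' : ∀ {j : D}, ¬ j ≤ β → rk K c z j = ⊥ := by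
    intro j hj
    by_contra h
    exact hj (rk_le_bound K c z β hβ j h)
  rw [inf_sup_left, sup_eq_bot_iff]
  constructor
  · rw [← le_bot_iff, arr, inf_iSup_eq, inf_iSup_eq]
    refine iSup_le fun j => ?_
    by_cases hj : j < t'.β
    · have h1 := hx' hj
      rw [← h1]
      exact le_inf inf_le_left (inf_le_right.trans (inf_le_right.trans inf_le_left))
    · have h2 : acc K c e ≤ ⨆ j' : {j' : D // j ≤ j'}, rk K c (e.y j) j'.1 := by
        rw [acc_eq]
        exact inf_le_left.trans (iInf_le _ j)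
      have h3 : b ⊓ (acc K c e ⊓ Wv K c e x ⊓ (rk K c x j ⊓ eqv z (e.y j))) ≤
          ⨆ j' : {j' : D // j ≤ j'}, rk K c (e.y j) j'.1 :=
        inf_le_right.trans (inf_le_left.trans (inf_le_left.trans h2))
      refine C3_elim h3 fun j' => ?_
      have h4 : b ⊓ (acc K c e ⊓ Wv K c e x ⊓ (rk K c x j ⊓ eqv z (e.y j))) ⊓ rk K c (e.y j) j'.1 ≤
          rk K c z j'.1 := by
        refine le_trans (le_inf ?_ inf_le_right) (rk_ext K c (e.y j) z j'.1)
        rw [eqv_symm]
        exact inf_le_left.trans (inf_le_right.trans (inf_le_right.trans inf_le_right))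
      have h5 : ¬ j'.1 ≤ β := fun h => hj ((j'.2.trans h).trans_lt h1)
      rw [hz' h5] at h4
      exact h4
  · rw [← le_bot_iff, arr, inf_iSup_eq, inf_iSup_eq]
    refine iSup_le fun j => ?_
    by_cases he : Wv K c e z = ⊥
    · rw [he, inf_bot_eq, bot_inf_eq, inf_bot_eq]
    · by_cases hj : j ≤ β
      · obtain ⟨i, hi⟩ := hY e he j hj
        have h3 := Wv_target K c hc (le_refl t') i
        rw [hi] at h3
        rw [← h3]
        refine le_trans (le_inf ?_ (inf_le_left.trans hx)) (Wv_ext K c t' x (e.y j))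
        exact inf_le_right.trans (inf_le_right.trans inf_le_right)
      · rw [hz' hj, bot_inf_eq, inf_bot_eq, inf_bot_eq]

/-- The chosen target. [`β` of `exists_label_bound` for `Z`; `N` = all `e.y j`, `e` with `Wv e z ≠ ⊥`, `z ∈ Z`, `j ≤ β`:
at most `lam` points; `Y` of `exists_enum` for `N`; `β' > i, β` by `reg`; the task `t' = (p, q, Y, β')`; `x ∈ 𝒮` of the hypothesis for
`γ = c t'`. Rank: `rk_total`, `rk_label`.] -/
theorem exists_target [WellFoundedLT W] (hB : M3.BCCC B) {lam : Cardinal.{0}} (hD : Seg W D lam) (hc : Fresh K c) (b : B)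
    (p q : List Bool → W → B) (hq : ∀ s, Bd D (q s)) (𝒮 : Set (W → B)) (hS : ∀ x ∈ 𝒮, Bd D x)
    (H : ∀ γ : Θ, ∃ x ∈ 𝒮, b ≤ valid p q ⊓ cn K γ p q x ⊓ pr K γ p q x)
    (Z : Set (W → B)) (hZ : Cardinal.mk Z ≤ lam) (hb : ∀ z ∈ Z, Bd D z) (i : D) :
    ∃ x ∈ 𝒮, (b ≤ ⨆ j : {j : D // i ≤ j}, rk K c x j.1) ∧
      ∀ z ∈ Z, ∀ e : Task B D, b ⊓ (arr K c (acc K c e) e x z ⊔ arr K c (acc K c e) e z x) = ⊥ := by
  classical
  obtain ⟨β, hβ⟩ := exists_label_bound K c hB hD hc Z hZ hb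
  set N : Set (W → B) := Set.range fun w : (Σ z : Z, Σ _ : {e : Task B D // Wv K c e z.1 ≠ ⊥}, {j : D // j ≤ β}) =>
    w.2.1.1.y w.2.2.1 with hN
  have hIic : Cardinal.mk {j : D // j ≤ β} ≤ lam := by
    have h1 : Cardinal.mk {j : D // j ≤ β} ≤ Cardinal.mk (Set.Iic (β : W)) :=
      Cardinal.mk_le_of_injective (f := fun j : {j : D // j ≤ β} => (⟨j.1.1, j.2⟩ : Set.Iic (β : W)))
        (by
          intro j j' h
          have h' : (j.1.1 : W) = j'.1.1 := congrArg (fun a : Set.Iic (β : W) => (a : W)) h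
          exact Subtype.ext (Subtype.ext h'))
    have h2 : Set.Iic (β : W) = insert (β : W) (Set.Iio (β : W)) := by
      rw [Set.Iio_insert]
    have h3 : Cardinal.mk (Set.Iic (β : W)) ≤ Cardinal.mk (Set.Iio (β : W)) + 1 := by
      rw [h2]
      exact Cardinal.mk_insert_le
    have h4 : Cardinal.mk (Set.Iio (β : W)) + 1 ≤ lam + lam :=
      add_le_add (hD.iio _ β.2) (Cardinal.one_le_aleph0.trans hD.inf)
    rw [Cardinal.add_eq_self hD.inf] at h4
    exact (h1.trans h3).trans h4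
  have hNc : Cardinal.mk N ≤ lam := by
    refine Cardinal.mk_range_le.trans ?_
    rw [Cardinal.mk_sigma]
    have h1 : ∀ z : Z, Cardinal.mk (Σ _ : {e : Task B D // Wv K c e z.1 ≠ ⊥}, {j : D // j ≤ β}) ≤ lam := by
      intro z
      rw [Cardinal.mk_sigma, Cardinal.sum_const']
      have h2 : Cardinal.mk {e : Task B D // Wv K c e z.1 ≠ ⊥} ≤ lam := mk_Wv_le K c hB hD hc (hb z.1 z.2)
      have h3 := mul_le_mul' h2 hIic
      rwa [Cardinal.mul_eq_self hD.inf] at h3
    refine (Cardinal.sum_le_sum _ (fun _ => lam) h1).trans ?_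
    rw [Cardinal.sum_const']
    have h3 : Cardinal.mk Z * lam ≤ lam * lam := mul_le_mul' hZ le_rfl
    rwa [Cardinal.mul_eq_self hD.inf] at h3
  have hNb : ∀ z ∈ N, Bd D z := by
    rintro z ⟨w, rfl⟩
    exact w.2.1.1.hy _
  obtain ⟨Y, hY, hYN⟩ := exists_enum hD N hNc hNb
  obtain ⟨β', hβ'D, hβ'⟩ := hD.reg {(i : W), (β : W)} (by
    intro a ha
    rcases ha with rfl | ha
    · exact i.2
    · rw [Set.mem_singleton_iff.1 ha]
      exact β.2) (by
    exact ((Set.toFinite ({(i : W), (β : W)} : Set W)).countable.le_aleph0).trans hD.inf)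
  set t' : Task B D := ⟨p, q, Y, ⟨β', hβ'D⟩, hq, hY⟩ with ht'
  obtain ⟨x, hxS, hx⟩ := H (c t')
  have hxW : b ≤ Wv K c t' x := hx
  have hiβ : i < t'.β := hβ' _ (Set.mem_insert _ _)
  have hββ : β < t'.β := hβ' _ (Set.mem_insert_of_mem _ rfl)
  refine ⟨x, hxS, ?_, ?_⟩
  · have htot := rk_total K c hB hD hc (hS x hxS)
    have h1 : b ≤ ⨆ j : D, rk K c x j := by
      rw [htot]
      exact le_top
    refine C3_elim h1 fun j => ?_
    by_cases hj : j < t'.β
    · have h2 := rk_label K c x j t' hj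
      have h3 : b ⊓ rk K c x j ≤ rk K c x j ⊓ Wv K c t' x := le_inf inf_le_right (inf_le_left.trans hxW)
      rw [h2] at h3
      exact h3.trans bot_le
    · refine inf_le_right.trans ?_
      exact le_iSup (fun j : {j : D // i ≤ j} => rk K c x j.1) ⟨j, (hiβ.le.trans (not_lt.1 hj))⟩
  · intro z hz e
    refine not_adj K c hc b x z β t' (fun t ht => hβ z hz t ht) hββ hxW ?_ e
    intro e' he' j hj
    obtain ⟨i', hi'⟩ := hYN (e'.y j) ⟨⟨⟨z, hz⟩, ⟨e', he'⟩, ⟨j, hj⟩⟩, rfl⟩
    exact ⟨i', hi'⟩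

end Pool.Agent.H.MP_353193_lc.BV
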