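import Pool.Agent.H.MP_353193_lc.BV.V1

/-!
# The covering theorem
-/

set_option autoImplicit false

open Cardinal

namespace Pool.Agent.H.MP_353193_lc.BV

variable {B : Type} [CompleteBooleanAlgebra B] {Θ : Type} (K : Coh B Θ) {W : Type} [LinearOrder W] [WellFoundedLT W]
  {D : Set W} (c : Task B D → Θ) [LinearOrder (Task B D)] [WellFoundedLT (Task B D)]

omit [WellFoundedLT W] [WellFoundedLT (Task B D)] [LinearOrder (Task B D)] in
theorem V2_eqv_refl (x : W → B) : eqv x x = ⊤ := by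
  simp [eqv]

omit [WellFoundedLT (Task B D)] in
theorem V2_card (hB : M3.BCCC B) {lam : Cardinal.{0}} (hD : Seg W D lam) (hc : Fresh K c)
    (q : List Bool → W → B) (hq : ∀ s, Bd D (q s)) :
    Cardinal.mk {t : Task B D | ∃ s, Wv K c t (q s) ≠ ⊥} ≤ lam := by
  have h0 : {t : Task B D | ∃ s, Wv K c t (q s) ≠ ⊥} =
      ⋃ s : List Bool, {t : Task B D | Wv K c t (q s) ≠ ⊥} := by
    ext t
    simp
  rw [h0]
  have h1 : Cardinal.mk (⋃ s : List Bool, {t : Task B D | Wv K c t (q s) ≠ ⊥} : Set (Task B D)) ≤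
      Cardinal.sum fun s : List Bool => Cardinal.mk {t : Task B D | Wv K c t (q s) ≠ ⊥} :=
    Cardinal.mk_iUnion_le_sum_mk
  have h2 : (Cardinal.sum fun s : List Bool => Cardinal.mk {t : Task B D | Wv K c t (q s) ≠ ⊥}) ≤
      Cardinal.sum fun _ : List Bool => lam :=
    Cardinal.sum_le_sum _ _ fun s => mk_Wv_le K c hB hD hc (hq s)
  have h3 : (Cardinal.sum fun _ : List Bool => lam) = Cardinal.mk (List Bool) * lam := by
    rw [Cardinal.sum_const']
  have h4 : Cardinal.mk (List Bool) * lam ≤ lam * lam :=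
    mul_le_mul' (Cardinal.mk_le_aleph0.trans hD.inf) le_rfl
  rw [Cardinal.mul_eq_self hD.inf] at h4
  exact ((h1.trans h2).trans_eq h3).trans h4

/-- COVERING. `Ts = {t' | ∃ s, Wv t' (q s) ≠ ⊥}` has at most `lam` members (`mk_Wv_le`). For `i : D` let `y i` be the point of
`exists_target` for `Z = {t'.y i | t' ∈ Ts}`. Let `t = (p, q, y, β)`, any `β`, and `x ∈ 𝒮` for `γ = c t`, so `b ≤ Wv t x`. Then `b ≤ acc t`
(`acc_eq`; for `t' < t`: if `sb t' t ≠ ⊥` then `t' ∈ Ts`). By `rk_total` there is `i` with `b ⊓ rk x i ≠ ⊥`, and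
`b ⊓ rk x i ≤ arr (acc t) t x (y i)`. -/
theorem covering (hB : M3.BCCC B) {lam : Cardinal.{0}} (hD : Seg W D lam) (hc : Fresh K c) (b : B) (hb : b ≠ ⊥)
    (p q : List Bool → W → B) (hq : ∀ s, Bd D (q s)) (𝒮 : Set (W → B)) (hS : ∀ x ∈ 𝒮, Bd D x)
    (H : ∀ γ : Θ, ∃ x ∈ 𝒮, b ≤ valid p q ⊓ cn K γ p q x ⊓ pr K γ p q x) :
    ∃ x ∈ 𝒮, ∃ y ∈ 𝒮, b ⊓ Adjv K c x y ≠ ⊥ := by
  have htarget : ∀ i : D, ∃ x ∈ 𝒮, (b ≤ ⨆ j : {j : D // i ≤ j}, rk K c x j.1) ∧
      ∀ z ∈ (fun t : Task B D => t.y i) '' {t : Task B D | ∃ s, Wv K c t (q s) ≠ ⊥}, ∀ e : Task B D,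
        b ⊓ (arr K c (acc K c e) e x z ⊔ arr K c (acc K c e) e z x) = ⊥ := by
    intro i
    refine exists_target K c hB hD hc b p q hq 𝒮 hS H _
      (Cardinal.mk_image_le.trans (V2_card K c hB hD hc q hq)) ?_ i
    rintro z ⟨t, _, rfl⟩
    exact t.hy i
  choose y hyS hyr hyn using htarget
  obtain ⟨β, hβ, _⟩ := hD.reg ∅ (Set.empty_subset _) (by simp)
  let t : Task B D := ⟨p, q, y, ⟨β, hβ⟩, hq, fun i => hS _ (hyS i)⟩
  obtain ⟨x, hxS, hx⟩ := H (c t)
  have hxW : b ≤ Wv K c t x := hx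
  have hacc : b ≤ acc K c t := by
    rw [acc_eq]
    refine le_inf (le_iInf fun i => hyr i) (le_iInf fun t' => ?_)
    rw [le_himp_iff]
    by_cases hT : ∃ s, Wv K c t'.1 (q s) ≠ ⊥
    · refine inf_le_left.trans (le_iInf fun i => ?_)
      rw [le_compl_iff_disjoint_right, disjoint_iff, inf_iSup_eq, iSup_eq_bot]
      intro t''
      exact hyn i _ ⟨t'.1, hT, rfl⟩ t''.1
    · have hsb : sb K c t'.1 t = ⊥ := by
        rw [sb, iSup_eq_bot]
        intro s
        have h1 : Wv K c t'.1 (t.q s) = ⊥ := by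
          by_contra h2
          exact hT ⟨s, h2⟩
        rw [h1, inf_bot_eq]
      rw [hsb, inf_bot_eq, inf_bot_eq]
      exact bot_le
  have hrk := rk_total K c hB hD hc (hS x hxS)
  have hex : ∃ i : D, b ⊓ rk K c x i ≠ ⊥ := by
    by_contra hcon
    push Not at hcon
    apply hb
    have h1 : b ⊓ ⨆ i : D, rk K c x i = ⊥ := by
      rw [inf_iSup_eq, iSup_eq_bot]
      exact hcon
    rwa [hrk, inf_top_eq] at h1
  obtain ⟨i, hi⟩ := hex
  refine ⟨x, hxS, y i, hyS i, fun h0 => hi ?_⟩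
  rw [← le_bot_iff, ← h0]
  refine le_inf inf_le_left ?_
  refine le_trans ?_ (le_iSup (fun t : Task B D =>
    arr K c (acc K c t) t x (y i) ⊔ arr K c (acc K c t) t (y i) x) t)
  refine le_trans ?_ le_sup_left
  rw [arr]
  refine le_inf (le_inf (inf_le_left.trans hacc) (inf_le_left.trans hxW)) ?_
  refine le_trans ?_ (le_iSup (fun j : D => rk K c x j ⊓ eqv (y i) (t.y j)) i)
  refine le_inf inf_le_right ?_
  have h2 : eqv (y i) (t.y i) = ⊤ := V2_eqv_refl (y i)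
  rw [h2]
  exact le_top

end Pool.Agent.H.MP_353193_lc.BV
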