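import Pool.Agent.H.MP_353193_lc.BV.Defs

/-!
# The initial segments of `Wω`
-/

set_option autoImplicit false

open Cardinal

namespace Pool.Agent.H.MP_353193_lc.BV

/-- The elements of `Wω` with at most `ℵ_n` predecessors. -/
def Dn (n : ℕ) : Set Wω := {ν | Cardinal.mk (Set.Iio ν) ≤ Cardinal.aleph (n : Ordinal.{0})}

theorem Dn_mono {m n : ℕ} (h : m ≤ n) : Dn m ⊆ Dn n := by
  intro ν hν
  have hν' : Cardinal.mk (Set.Iio ν) ≤ Cardinal.aleph (m : Ordinal.{0}) := hν
  refine le_trans hν' (Cardinal.aleph_le_aleph.2 ?_)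
  exact_mod_cast h

/-- Every element of `Wω` has fewer than `ℵ_ω` predecessors. -/
theorem exists_mem_Dn (ν : Wω) : ∃ n, ν ∈ Dn n := by
  have h : Cardinal.mk (Set.Iio ν) < Cardinal.aleph Ordinal.omega0.{0} := Cardinal.mk_Iio_toType_ord_lt ν
  have h1 : ∃ o < (Ordinal.omega0 : Ordinal.{0}), Cardinal.mk (Set.Iio ν) < Cardinal.aleph o :=
    (isNormal_aleph.lt_iff_exists_lt Ordinal.isSuccLimit_omega0).1 h
  obtain ⟨o, ho, h2⟩ := h1
  obtain ⟨n, rfl⟩ := Ordinal.lt_omega0.1 ho
  exact ⟨n, h2.le⟩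

/-- `reg`: the supremum of at most `ℵ_n` ordinals with at most `ℵ_n` predecessors has at most `ℵ_n * ℵ_n` predecessors; it is in `Wω` since
`ℵ_n < ℵ_ω` (if `A` were unbounded in `Wω`, then `#Wω ≤ ℵ_n * ℵ_n`), and one can go one step up since `Wω` has no maximum. -/
theorem seg_Dn (n : ℕ) : Seg Wω (Dn n) (Cardinal.aleph (n : Ordinal.{0})) := by
  have hinf : ℵ₀ ≤ Cardinal.aleph (n : Ordinal.{0}) := Cardinal.aleph0_le_aleph _
  refine ⟨?_, ?_, ?_, hinf⟩
  · intro a b hab hb
    exact le_trans (Cardinal.mk_le_mk_of_subset (Set.Iio_subset_Iio hab)) hb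
  · intro a ha
    exact ha
  · intro A hA hcard
    let U : Set Wω := ⋃ a : A, Set.Iic (a : Wω)
    have hIic : ∀ a : A, Cardinal.mk (Set.Iic (a : Wω)) ≤ Cardinal.aleph (n : Ordinal.{0}) := by
      intro a
      have h1 : Set.Iic (a : Wω) = insert (a : Wω) (Set.Iio (a : Wω)) := by
        rw [Set.Iio_insert]
      rw [h1]
      refine le_trans Cardinal.mk_insert_le ?_
      exact Cardinal.add_le_of_le hinf (hA a.2) (le_trans Cardinal.one_le_aleph0 hinf)
    have hU : Cardinal.mk U ≤ Cardinal.aleph (n : Ordinal.{0}) := by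
      refine le_trans (Cardinal.mk_iUnion_le _) ?_
      refine Cardinal.mul_le_of_le hinf hcard ?_
      exact ciSup_le' hIic
    have hne : (Uᶜ).Nonempty := by
      by_contra hcon
      rw [Set.not_nonempty_iff_eq_empty, Set.compl_empty_iff] at hcon
      rw [hcon, Cardinal.mk_univ, Cardinal.mk_ord_toType] at hU
      exact absurd hU (not_le.2 (Cardinal.aleph_lt_aleph.2 (Ordinal.natCast_lt_omega0 n)))
    have hwf : WellFounded (fun a b : Wω => a < b) := wellFounded_lt
    have hmem := hwf.min_mem Uᶜ hne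
    refine ⟨hwf.min Uᶜ hne, ?_, ?_⟩
    · refine le_trans (Cardinal.mk_le_mk_of_subset ?_) hU
      intro ν hν
      by_contra hcon
      exact hwf.not_lt_min Uᶜ hcon hν
    · intro a ha
      by_contra hcon
      exact hmem (Set.mem_iUnion.2 ⟨⟨a, ha⟩, not_lt.1 hcon⟩)

instance : Infinite Wω := by
  rw [Cardinal.infinite_iff, Cardinal.mk_ord_toType]
  exact Cardinal.aleph0_le_aleph _

end Pool.Agent.H.MP_353193_lc.BV
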