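import Pool.Agent.H.MP_353193_lc.BV.N5
import Pool.Agent.H.MP_353193_lc.BV.N6
import Pool.Agent.H.MP_353193_lc.BV.V2
import Pool.Agent.H.MP_353193_lc.BV.G2
import Pool.Agent.H.MP_353193_lc.BV.T1
import Pool.Agent.H.MP_353193_lc.BV.A4
import Pool.Agent.H.MP_353193_lc.BV.Z1

/-!
# The core theorem
-/

set_option autoImplicit false

open Cardinal

namespace Pool.Agent.H.MP_353193_lc.BV

/-- AN EDGE IN THE IMAGE. `Rv f = ⊤` for `f ∈ F1 (Dn 0)`, so `dense_level` applies (`Rv_le_levv`). With `n, v0, b1`: `exists_scheme_v`, `branch_point` for all `γ`.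
`𝒮` = all `fun ν => Φ f ν ⊓ b1` with `f ∈ F1 (Dn 0)` and `b1 ≤ levv Dn n (Φ f)` (bounded in `Dn n` by `exists_bound_of_le_rv`). `covering`; go back
from the restrictions to `Φ f` with `Adjv_ext`. -/
theorem exists_edge {B : Type} [CompleteBooleanAlgebra B] (hB : M3.BCCC B) {Θ : Type} (K : Coh B Θ)
    [∀ n, LinearOrder (Task B (Dn n))] [∀ n, WellFoundedLT (Task B (Dn n))] (c : ∀ n, Task B (Dn n) → Θ)
    (hc : ∀ n, Fresh K (c n)) (Φ : (Wω → B) → (Wω → B)) (b0 : B) (hb0 : b0 ≠ ⊥)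
    (h1 : ∀ x y, b0 ⊓ eqv x y ≤ eqv (Φ x) (Φ y)) (h2 : ∀ x, b0 ⊓ Rv x ≤ Rv (Φ x))
    (h3 : ∀ x y, b0 ⊓ Rv x ⊓ Rv y ⊓ ltv x y ≤ ltv (Φ x) (Φ y)) :
    ∃ (n : ℕ) (f g : Wω → B), f ∈ F1 (Dn 0) ∧ g ∈ F1 (Dn 0) ∧
      b0 ⊓ levv Dn n (Φ f) ⊓ levv Dn n (Φ g) ⊓ Adjv K (c n) (Φ f) (Φ g) ≠ ⊥ := by
  have h4 : ∀ f ∈ F1 (Dn 0), b0 ≤ ⨆ n, levv Dn n (Φ f) := by
    intro f hf
    have h := h2 f
    rw [Rv_of_F1 hf, inf_top_eq] at h
    exact h.trans (Rv_le_levv Dn exists_mem_Dn (Φ f))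
  obtain ⟨n, v0, b1, hb1, hb, hdense⟩ := dense_level hB (seg_Dn 0) Φ b0 hb0 h1 h4
  have h1' : ∀ x y, b1 ⊓ eqv x y ≤ eqv (Φ x) (Φ y) := fun x y =>
    (inf_le_inf_right _ hb).trans (h1 x y)
  have h3' : ∀ f ∈ F1 (Dn 0), ∀ g ∈ F1 (Dn 0), b1 ⊓ ltv f g ≤ ltv (Φ f) (Φ g) := by
    intro f hf g hg
    have h := h3 f g
    rw [Rv_of_F1 hf, Rv_of_F1 hg, inf_top_eq, inf_top_eq] at h
    exact (inf_le_inf_right _ hb).trans h
  obtain ⟨sn, p, q, hv0, hs, hq, hval, hinc⟩ :=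
    exists_scheme_v hB (seg_Dn 0) Φ b1 h1' h3' n (seg_Dn n) v0 hdense
  have hbr := branch_point K (seg_Dn 0) Φ b1 h1' h3' n v0 hdense sn p q (hv0 []) hs hinc
  have hS : ∀ x ∈ {x : Wω → B | ∃ f ∈ F1 (Dn 0), b1 ≤ levv Dn n (Φ f) ∧
      x = fun ν => Φ f ν ⊓ b1}, Bd (Dn n) x := by
    rintro x ⟨f, _, hf, rfl⟩
    obtain ⟨δ, hδ, h⟩ := exists_bound_of_le_rv hB (seg_Dn n) (Φ f) b1 (hf.trans inf_le_left)
    exact ⟨δ, hδ, fun ν hν => (inf_comm _ _).trans (h ν hν)⟩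
  have H : ∀ γ : Θ, ∃ x ∈ {x : Wω → B | ∃ f ∈ F1 (Dn 0), b1 ≤ levv Dn n (Φ f) ∧
      x = fun ν => Φ f ν ⊓ b1}, b1 ≤ valid p q ⊓ cn K γ p q x ⊓ pr K γ p q x := by
    intro γ
    obtain ⟨f, hf, h5, h6⟩ := hbr γ
    refine ⟨_, ⟨f, hf, h5, rfl⟩, le_inf (le_inf hval ?_) ?_⟩
    · exact (le_inf (eqv_restrict b1 (Φ f)) (h6.trans inf_le_left)).trans (cn_ext K γ p q _ _)
    · exact (le_inf (eqv_restrict b1 (Φ f)) (h6.trans inf_le_right)).trans (pr_ext K γ p q _ _)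
  obtain ⟨x, ⟨f, hf, hlf, rfl⟩, y, ⟨g, hg, hlg, rfl⟩, hne⟩ :=
    covering K (c n) hB (seg_Dn n) (hc n) b1 hb1 p q hq _ hS H
  refine ⟨n, f, g, hf, hg, fun hbot => hne ?_⟩
  rw [← le_bot_iff, ← hbot]
  have e1 : b1 ≤ eqv (fun ν => Φ f ν ⊓ b1) (Φ f) := by
    rw [eqv_symm]
    exact eqv_restrict b1 (Φ f)
  have e2 : b1 ≤ eqv (fun ν => Φ g ν ⊓ b1) (Φ g) := by
    rw [eqv_symm]
    exact eqv_restrict b1 (Φ g)
  have s1 : b1 ⊓ Adjv K (c n) (fun ν => Φ f ν ⊓ b1) (fun ν => Φ g ν ⊓ b1) ≤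
      Adjv K (c n) (Φ f) (fun ν => Φ g ν ⊓ b1) :=
    (inf_le_inf_right _ e1).trans (Adjv_ext K (c n) _ _ _)
  have s2 : b1 ⊓ Adjv K (c n) (fun ν => Φ f ν ⊓ b1) (fun ν => Φ g ν ⊓ b1) ≤
      Adjv K (c n) (Φ g) (Φ f) :=
    (le_inf (inf_le_left.trans e2) (s1.trans (Adjv_symm K (c n) _ _))).trans
      (Adjv_ext K (c n) _ _ _)
  exact le_inf (le_inf (le_inf (inf_le_left.trans hb) (inf_le_left.trans hlf))
    (inf_le_left.trans hlg)) (s2.trans (Adjv_symm K (c n) _ _))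

/-- THE CORE. `exists_coh Wω`, `exists_tasks` for every `Dn n`; `G x y = ⨆ n, levv Dn n x ⊓ levv Dn n y ⊓ Adjv K (c n) x y`. Triangle-free: the three
points have the same level (`levv_disj`), `Adjv_tri`. The last clause: `exists_edge`. -/
theorem core : ∃ (B : Type) (_ : CompleteBooleanAlgebra B) (_ : Nontrivial B), M3.BCCC B ∧ Core B Wω := by
  obtain ⟨B, instB, instN, hB, ⟨K⟩, hle⟩ := exists_coh Wω
  have htask := fun n => exists_tasks K hle (Dn n)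
  choose lo wf c hc using htask
  refine ⟨B, instB, instN, hB, fun x y => ⨆ n, levv Dn n x ⊓ levv Dn n y ⊓ Adjv K (c n) x y,
    ?_, ?_, ?_, ?_⟩
  · intro x y z
    rw [inf_iSup_eq]
    refine iSup_le fun n => le_iSup_of_le n (le_inf (le_inf ?_ ?_) ?_)
    · refine le_trans (le_inf inf_le_left ?_) (levv_ext Dn n x y)
      exact inf_le_right.trans (inf_le_left.trans inf_le_left)
    · exact inf_le_right.trans (inf_le_left.trans inf_le_right)
    · refine le_trans (le_inf inf_le_left ?_) (Adjv_ext K (c n) x y z)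
      exact inf_le_right.trans inf_le_right
  · intro x y
    refine iSup_le fun n => le_iSup_of_le n (le_inf (le_inf ?_ ?_) ?_)
    · exact inf_le_left.trans inf_le_right
    · exact inf_le_left.trans inf_le_left
    · exact inf_le_right.trans (Adjv_symm K (c n) x y)
  · intro x y z
    rw [← le_bot_iff, iSup_inf_eq, iSup_inf_eq]
    refine iSup_le fun k => ?_
    rw [inf_iSup_eq]
    refine iSup_le fun n => ?_
    beta_reduce
    rw [inf_iSup_eq, iSup_inf_eq]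
    refine iSup_le fun m => ?_
    by_cases h1 : k = m
    · by_cases h2 : k = n
      · subst h1 h2
        rw [← Adjv_tri K (c k) (hc k) x y z]
        exact le_inf (le_inf (inf_le_left.trans (inf_le_left.trans inf_le_right))
          (inf_le_left.trans (inf_le_right.trans inf_le_right))) (inf_le_right.trans inf_le_right)
      · rw [← levv_disj Dn h2 x]
        exact le_inf (inf_le_left.trans (inf_le_left.trans (inf_le_left.trans inf_le_left)))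
          (inf_le_right.trans (inf_le_left.trans inf_le_left))
    · rw [← levv_disj Dn h1 y]
      exact le_inf (inf_le_left.trans (inf_le_left.trans (inf_le_left.trans inf_le_right)))
        (inf_le_left.trans (inf_le_right.trans (inf_le_left.trans inf_le_left)))
  · intro b Φ h1 h2 h3 h4
    by_contra hb
    obtain ⟨n, f, g, hf, hg, hne⟩ := exists_edge hB K c hc Φ b hb h1 h2 h3
    apply hne
    have h := h4 f g
    rw [Rv_of_F1 hf, Rv_of_F1 hg, inf_top_eq, inf_top_eq] at h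
    rw [← le_bot_iff, ← h]
    refine le_inf (inf_le_left.trans (inf_le_left.trans inf_le_left)) (le_iSup_of_le n ?_)
    exact le_inf (le_inf (inf_le_left.trans (inf_le_left.trans inf_le_right))
      (inf_le_left.trans inf_le_right)) inf_le_right

end Pool.Agent.H.MP_353193_lc.BV
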